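import Pool.Agent.Lib.TSP.Ex

/-!
# TSP.MSq: the quartic sum in mean square over the fractions (1 h)
PROOF. `msq`: `f(a/q + β) = ∑_t e(β P₃(t)) e(a P₃(t)/q)`; expand the square, sum over `a < q` with `sum_e`: `∑_a |f|² = q ∑_{q ∣ P₃(t)-P₃(t')} e(β(P₃(t)-P₃(t'))) ≤ q D2`.
The same computation for any finite set of `t` and any weights of modulus at most 1.
`f_app`: (1) `|f(a/q+β) - f(a/q)| ≤ ∑_t |e(βP₃(t)) - 1| ≤ T · 2π|β| · 2·10^7 T⁴` (`norm_e_sub_one_le`; `0 ≤ P₃(t) ≤ 1.2·10^7 T⁴` for `t < T`), so the sum over `a` of the squares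
is at most `q (4π·10^7)² β² T^10`. (2) `f(a/q)`: `t = q s + r`: `P₃(qs + r) ≡ P₃(r) (mod q)`, so `f(a/q) = ⌊T/q⌋ S(a,q) + ∑_{r < T % q} e(a P₃(r)/q)` and
`T/q = ⌊T/q⌋ + (T % q)/q`: `f(a/q) - (T/q) S = ∑_{r < T%q} e(aP₃(r)/q) - ((T%q)/q) S(a,q)`; in mean square over `a` each is at most `q D2 b q q`
(`T % q < q`, `D2` is monotone in the first argument; `S b a q = f b q (a/q)`). Use `|x+y+z|² ≤ 3(|x|²+|y|²+|z|²)`.
-/

set_option autoImplicit false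

open Finset

namespace Pool.Agent.Lib.TSP

namespace MSqAux

/-- the mean square of a weighted sum -/
theorem gen (b : Bool) (s : Finset ℕ) (w : ℕ → ℂ) (hw : ∀ t, ‖w t‖ ≤ 1) {q : ℕ} (hq : 0 < q) :
    ∑ a ∈ range q, ‖∑ t ∈ s, w t * e ((((a : ℤ) * P3 b t : ℤ) : ℝ) / q)‖ ^ 2
      ≤ (q : ℝ) * (((s ×ˢ s).filter fun t => (q : ℤ) ∣ P3 b t.1 - P3 b t.2).card : ℝ) := by
  set Fa : ℕ → ℂ := fun a => ∑ t ∈ s, w t * e ((((a : ℤ) * P3 b t : ℤ) : ℝ) / q) with hFa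
  have h1 : ((∑ a ∈ range q, ‖Fa a‖ ^ 2 : ℝ) : ℂ)
      = ∑ t ∈ s ×ˢ s, w t.1 * (starRingEnd ℂ) (w t.2) *
          (if (q : ℤ) ∣ P3 b t.1 - P3 b t.2 then (q : ℂ) else 0) := by
    push_cast
    have h2 : ∀ a ∈ range q, ((‖Fa a‖ : ℝ) : ℂ) ^ 2
        = ∑ t ∈ s ×ˢ s, w t.1 * (starRingEnd ℂ) (w t.2) *
          e ((((a : ℤ) * (P3 b t.1 - P3 b t.2) : ℤ) : ℝ) / q) := by
      intro a _
      rw [← Complex.mul_conj', hFa]
      simp only [map_sum]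
      rw [Finset.sum_mul_sum, ← Finset.sum_product']
      refine Finset.sum_congr rfl fun t _ => ?_
      rw [map_mul, ← e_neg]
      have h3 : ((((a : ℤ) * (P3 b t.1 - P3 b t.2) : ℤ) : ℝ) / q)
          = ((((a : ℤ) * P3 b t.1 : ℤ) : ℝ) / q) + -((((a : ℤ) * P3 b t.2 : ℤ) : ℝ) / q) := by
        push_cast
        ring
      rw [h3, e_add]
      ring
    rw [Finset.sum_congr rfl h2, Finset.sum_comm]
    refine Finset.sum_congr rfl fun t _ => ?_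
    rw [← Finset.mul_sum]
    congr 1
    exact sum_e hq _
  have h4 : (∑ a ∈ range q, ‖Fa a‖ ^ 2 : ℝ) = ‖((∑ a ∈ range q, ‖Fa a‖ ^ 2 : ℝ) : ℂ)‖ := by
    rw [Complex.norm_real, Real.norm_of_nonneg]
    exact Finset.sum_nonneg fun _ _ => by positivity
  rw [h4, h1]
  refine (norm_sum_le _ _).trans ?_
  rw [Finset.card_filter, Nat.cast_sum, Finset.mul_sum]
  refine Finset.sum_le_sum fun t _ => ?_
  split_ifs with h
  · rw [norm_mul, norm_mul, RCLike.norm_conj, Complex.norm_natCast]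
    have h5 : ‖w t.1‖ * ‖w t.2‖ ≤ 1 * 1 :=
      mul_le_mul (hw _) (hw _) (norm_nonneg _) zero_le_one
    have h6 : (0 : ℝ) ≤ q := Nat.cast_nonneg q
    push_cast
    nlinarith
  · simp

theorem D2_mono (b : Bool) {T T' : ℕ} (h : T ≤ T') (q : ℕ) : D2 b T q ≤ D2 b T' q := by
  unfold D2
  apply Finset.card_le_card
  apply Finset.filter_subset_filter
  exact Finset.product_subset_product (Finset.range_subset_range.2 h) (Finset.range_subset_range.2 h)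

theorem f_eq (b : Bool) (T a q : ℕ) (β : ℝ) : f b T ((a : ℝ) / q + β)
    = ∑ t ∈ range T, e (β * ((P3 b t : ℤ) : ℝ)) * e ((((a : ℤ) * P3 b t : ℤ) : ℝ) / q) := by
  unfold f
  refine Finset.sum_congr rfl fun t _ => ?_
  rw [← e_add]
  congr 1
  push_cast
  ring

theorem f_eq0 (b : Bool) (T a q : ℕ) : f b T ((a : ℝ) / q)
    = ∑ t ∈ range T, e ((((a : ℤ) * P3 b t : ℤ) : ℝ) / q) := by
  unfold f
  refine Finset.sum_congr rfl fun t _ => ?_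
  congr 1
  push_cast
  ring

theorem P3_congr (b : Bool) (q r k : ℕ) : (q : ℤ) ∣ P3 b ((q * k + r : ℕ) : ℤ) - P3 b (r : ℤ) := by
  have h : ((q * k + r : ℕ) : ℤ) ≡ (r : ℤ) [ZMOD (q : ℤ)] := by
    push_cast
    rw [Int.modEq_iff_dvd]
    exact ⟨-k, by ring⟩
  have h2 : P3 b ((q * k + r : ℕ) : ℤ) ≡ P3 b (r : ℤ) [ZMOD (q : ℤ)] := by
    unfold P3
    split_ifs
    · exact (((h.mul_left _).add ((h.pow 2).mul_left _)).add ((h.pow 3).mul_left _)).add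
        ((h.pow 4).mul_left _)
    · exact (((h.mul_left _).add ((h.pow 2).mul_left _)).add ((h.pow 3).mul_left _)).add
        ((h.pow 4).mul_left _)
  exact h2.symm.dvd

theorem e_per (b : Bool) {q : ℕ} (hq : 0 < q) (a r k : ℕ) :
    e ((((a : ℤ) * P3 b ((q * k + r : ℕ) : ℤ) : ℤ) : ℝ) / q)
      = e ((((a : ℤ) * P3 b (r : ℤ) : ℤ) : ℝ) / q) := by
  apply e_div_congr hq
  rw [← mul_sub]
  exact Dvd.dvd.mul_left (P3_congr b q r k) _

theorem sum_blocks (b : Bool) {q : ℕ} (hq : 0 < q) (a k : ℕ) :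
    ∑ t ∈ range (q * k), e ((((a : ℤ) * P3 b t : ℤ) : ℝ) / q) = (k : ℂ) * S b a q := by
  induction k with
  | zero => simp
  | succ k ih =>
    rw [Nat.mul_succ, Finset.sum_range_add, ih]
    have h : ∑ x ∈ range q, e ((((a : ℤ) * P3 b ((q * k + x : ℕ) : ℤ) : ℤ) : ℝ) / q) = S b a q := by
      unfold S
      exact Finset.sum_congr rfl fun x _ => e_per b hq a x k
    rw [h]
    push_cast
    ring

theorem f_split (b : Bool) {q : ℕ} (hq : 0 < q) (T a : ℕ) : f b T ((a : ℝ) / q)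
    = ((T / q : ℕ) : ℂ) * S b a q
      + ∑ t ∈ range (T % q), e ((((a : ℤ) * P3 b t : ℤ) : ℝ) / q) := by
  rw [f_eq0]
  conv_lhs => rw [← Nat.div_add_mod T q]
  rw [Finset.sum_range_add, sum_blocks b hq]
  congr 1
  exact Finset.sum_congr rfl fun x _ => e_per b hq a x _

theorem P3_abs (b : Bool) {t T : ℕ} (h : t < T) :
    |((P3 b t : ℤ) : ℝ)| ≤ 2 * 10 ^ 7 * (T : ℝ) ^ 4 := by
  have h0 : (0 : ℝ) ≤ t := Nat.cast_nonneg t
  have hT : (t : ℝ) ≤ T := by exact_mod_cast h.le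
  have hT1 : (1 : ℝ) ≤ T := by
    have : 1 ≤ T := by omega
    exact_mod_cast this
  have ht4 : (t : ℝ) ^ 4 ≤ (T : ℝ) ^ 4 := pow_le_pow_left₀ h0 hT 4
  have ht3 : (t : ℝ) ^ 3 ≤ (T : ℝ) ^ 4 :=
    (pow_le_pow_left₀ h0 hT 3).trans (pow_le_pow_right₀ hT1 (by norm_num))
  have ht2 : (t : ℝ) ^ 2 ≤ (T : ℝ) ^ 4 :=
    (pow_le_pow_left₀ h0 hT 2).trans (pow_le_pow_right₀ hT1 (by norm_num))
  have ht1 : (t : ℝ) ≤ (T : ℝ) ^ 4 := by
    have := (pow_le_pow_left₀ h0 hT 1).trans (pow_le_pow_right₀ hT1 (by norm_num : 1 ≤ 4))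
    simpa using this
  have hn : (0 : ℝ) ≤ ((P3 b t : ℤ) : ℝ) := by
    unfold P3
    split_ifs <;> push_cast <;> positivity
  rw [abs_of_nonneg hn]
  unfold P3
  split_ifs <;> push_cast <;> nlinarith

theorem f_diff (b : Bool) (T : ℕ) (α β : ℝ) :
    ‖f b T (α + β) - f b T α‖ ≤ 4 * Real.pi * 10 ^ 7 * |β| * (T : ℝ) ^ 5 := by
  unfold f
  rw [← Finset.sum_sub_distrib]
  refine (norm_sum_le _ _).trans ?_
  have h : ∀ t ∈ range T, ‖e ((α + β) * ((P3 b t : ℤ) : ℝ)) - e (α * ((P3 b t : ℤ) : ℝ))‖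
      ≤ 4 * Real.pi * 10 ^ 7 * |β| * (T : ℝ) ^ 4 := by
    intro t ht
    refine (norm_e_sub_le _ _).trans ?_
    have e1 : (α + β) * ((P3 b t : ℤ) : ℝ) - α * ((P3 b t : ℤ) : ℝ) = β * ((P3 b t : ℤ) : ℝ) := by
      ring
    rw [e1, abs_mul]
    have h1 := P3_abs b (Finset.mem_range.1 ht)
    have h2 : |β| * |((P3 b t : ℤ) : ℝ)| ≤ |β| * (2 * 10 ^ 7 * (T : ℝ) ^ 4) :=
      mul_le_mul_of_nonneg_left h1 (abs_nonneg _)
    calc 2 * Real.pi * (|β| * |((P3 b t : ℤ) : ℝ)|)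
        ≤ 2 * Real.pi * (|β| * (2 * 10 ^ 7 * (T : ℝ) ^ 4)) :=
          mul_le_mul_of_nonneg_left h2 (by positivity)
      _ = 4 * Real.pi * 10 ^ 7 * |β| * (T : ℝ) ^ 4 := by ring
  refine (Finset.sum_le_card_nsmul _ _ _ h).trans ?_
  rw [Finset.card_range, nsmul_eq_mul]
  apply le_of_eq
  ring

end MSqAux

open MSqAux in
theorem msq (b : Bool) (T : ℕ) {q : ℕ} (hq : 0 < q) (β : ℝ) :
    ∑ a ∈ range q, ‖f b T ((a : ℝ) / q + β)‖ ^ 2 ≤ (q : ℝ) * D2 b T q := by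
  have h := gen b (range T) (fun t => e (β * ((P3 b t : ℤ) : ℝ))) (fun t => (norm_e _).le) hq
  simp only [f_eq]
  exact h

open MSqAux in
theorem f_app (b : Bool) : ∃ C : ℝ, 0 < C ∧ ∀ (T q : ℕ) (β : ℝ), 0 < q →
    ∑ a ∈ range q, ‖f b T ((a : ℝ) / q + β) - ((T : ℂ) / q) * S b a q‖ ^ 2
      ≤ C * ((q : ℝ) * D2 b q q + q * β ^ 2 * (T : ℝ) ^ 10) := by
  refine ⟨3 * ((4 * Real.pi * 10 ^ 7) ^ 2 + 2), by positivity, ?_⟩
  intro T q β hq
  have hq' : (0 : ℝ) < q := by exact_mod_cast hq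
  have hqc : (q : ℂ) ≠ 0 := by exact_mod_cast hq.ne'
  set R : ℕ → ℂ := fun a => ∑ t ∈ range (T % q), e ((((a : ℤ) * P3 b t : ℤ) : ℝ) / q) with hR
  have hR2 : ∑ a ∈ range q, ‖R a‖ ^ 2 ≤ (q : ℝ) * D2 b q q := by
    have h := gen b (range (T % q)) (fun _ => (1 : ℂ)) (fun t => by simp) hq
    simp only [one_mul] at h
    refine h.trans ?_
    apply mul_le_mul_of_nonneg_left _ hq'.le
    exact_mod_cast D2_mono b (Nat.mod_lt T hq).le q
  have hS2 : ∑ a ∈ range q, ‖S b a q‖ ^ 2 ≤ (q : ℝ) * D2 b q q := by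
    have h := gen b (range q) (fun _ => (1 : ℂ)) (fun t => by simp) hq
    simp only [one_mul] at h
    exact h
  have hdec : ∀ a : ℕ, f b T ((a : ℝ) / q + β) - ((T : ℂ) / q) * S b a q
      = (f b T ((a : ℝ) / q + β) - f b T ((a : ℝ) / q)) + R a
        - (((T % q : ℕ) : ℂ) / q) * S b a q := by
    intro a
    have h1 : f b T ((a : ℝ) / q) = ((T / q : ℕ) : ℂ) * S b a q + R a := f_split b hq T a
    have h2 : (T : ℂ) / q = ((T / q : ℕ) : ℂ) + ((T % q : ℕ) : ℂ) / q := by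
      have h3 : (T : ℂ) = (q : ℂ) * ((T / q : ℕ) : ℂ) + ((T % q : ℕ) : ℂ) := by
        exact_mod_cast (Nat.div_add_mod T q).symm
      rw [h3]
      field_simp
      try push_cast
      try ring
    rw [h1, h2]
    ring
  have hterm : ∀ a ∈ range q, ‖f b T ((a : ℝ) / q + β) - ((T : ℂ) / q) * S b a q‖ ^ 2
      ≤ 3 * ((4 * Real.pi * 10 ^ 7) ^ 2 * (β ^ 2 * (T : ℝ) ^ 10) + ‖R a‖ ^ 2
        + ‖S b a q‖ ^ 2) := by
    intro a _
    rw [hdec]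
    set x := f b T ((a : ℝ) / q + β) - f b T ((a : ℝ) / q) with hx
    have hx1 : ‖x‖ ≤ 4 * Real.pi * 10 ^ 7 * |β| * (T : ℝ) ^ 5 := f_diff b T _ β
    have hx2 : ‖x‖ ^ 2 ≤ (4 * Real.pi * 10 ^ 7) ^ 2 * (β ^ 2 * (T : ℝ) ^ 10) := by
      refine (pow_le_pow_left₀ (norm_nonneg _) hx1 2).trans (le_of_eq ?_)
      rw [mul_pow, mul_pow, sq_abs]
      ring
    have hz : ‖(((T % q : ℕ) : ℂ) / q) * S b a q‖ ≤ ‖S b a q‖ := by
      rw [norm_mul, norm_div, Complex.norm_natCast, Complex.norm_natCast]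
      have h3 : ((T % q : ℕ) : ℝ) / q ≤ 1 := by
        rw [div_le_one hq']
        exact_mod_cast (Nat.mod_lt T hq).le
      exact mul_le_of_le_one_left (norm_nonneg _) h3
    have h4 : ‖x + R a - (((T % q : ℕ) : ℂ) / q) * S b a q‖ ≤ ‖x‖ + ‖R a‖ + ‖S b a q‖ := by
      refine (norm_sub_le _ _).trans ?_
      have := norm_add_le x (R a)
      linarith
    have h5 := pow_le_pow_left₀ (norm_nonneg _) h4 2
    refine h5.trans ?_
    nlinarith [sq_nonneg (‖x‖ - ‖R a‖), sq_nonneg (‖x‖ - ‖S b a q‖),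
      sq_nonneg (‖R a‖ - ‖S b a q‖)]
  refine (Finset.sum_le_sum hterm).trans ?_
  rw [← Finset.mul_sum, Finset.sum_add_distrib, Finset.sum_add_distrib, Finset.sum_const,
    Finset.card_range, nsmul_eq_mul]
  have hD : (0 : ℝ) ≤ (q : ℝ) * D2 b q q := by positivity
  have hB : (0 : ℝ) ≤ (q : ℝ) * β ^ 2 * (T : ℝ) ^ 10 := by positivity
  have hK : (0 : ℝ) ≤ (4 * Real.pi * 10 ^ 7) ^ 2 := by positivity
  have e1 : (q : ℝ) * ((4 * Real.pi * 10 ^ 7) ^ 2 * (β ^ 2 * (T : ℝ) ^ 10))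
      = (4 * Real.pi * 10 ^ 7) ^ 2 * ((q : ℝ) * β ^ 2 * (T : ℝ) ^ 10) := by ring
  rw [e1]
  set K : ℝ := (4 * Real.pi * 10 ^ 7) ^ 2 with hKd
  set B : ℝ := (q : ℝ) * β ^ 2 * (T : ℝ) ^ 10 with hBd
  set Dd : ℝ := (q : ℝ) * D2 b q q with hDd
  have h6 : 0 ≤ K * Dd := mul_nonneg hK hD
  nlinarith

end Pool.Agent.Lib.TSP
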