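import Pool.Agent.Lib.TSP.Mom

/-!
# TSP.Cheb: few `n` have a large block (1.5 h)
PROOF. `z = zp A0 N = ⌈(log N)^A0⌉`, `L = log N`. If `Y ≤ z` there is no nonempty such `S`, `SS ⊆ {∅}`; `∅ ∈ SS` only if `Y = 1` (excluded: `hne`), the sum is `0`. Let `Y > z`. `k` = the largest integer with
`Y^(5k) ≤ N²` (`Nat.log (Y^5) (N^2)`); `k ≥ 2` as `Y^5 ≤ N`, `k ≤ L` (as `Y^5 ≥ e^2`), so `k^10 ≤ L^10 ≤ z` (`A0 ≥ 10`). `Y^(5(k+1)) > N²`, so `Y^(4k/5) = (Y^(5(k+1)))^{(4/25) k/(k+1)} ≥ N^{(8/25)(2/3)} = N^(16/75)`.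
Markov: `#{|sum| > L^(-2)} ≤ L^(4k) · moment ≤ L^(4k) (N · 2^(4k/5) N^(-16/75) e^4000 + (∑_S 3^|S|)^(2k))`. `Y ≥ z ≥ L^A0` gives `L^k ≤ Y^(k/A0) ≤ N^(2/(5 A0))` and
`2^k ≤ L^k`. `|SS| ≤ Y` (`S ↦ ∏ S` injective), `z^|S| ≤ Y`, so `3^|S| ≤ Y^(log 3/log z)`, `(∑_S 3^|S|)^(2k) ≤ Y^(2k) Y^(2k log 3/log z) ≤ N^(4/5) N^(log 3/log z)` (`Y^(2k) ≤ N^(4/5)`). Total for large `N`
(`log z ≥ A0 log log N → ∞`): `N^(1 - 16/75 + 2/A0 + small) + N^(4/5 + 8/(5 A0) + small) ≤ N^(4/5 + ε)` if `A0 ≥ 200 + 10/ε` (`1 - 16/75 = 4/5 - 1/75`).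
-/

set_option autoImplicit false

open Finset

namespace Pool.Agent.Lib.TSP

/-- the level `⌈(log N)^A0⌉` -/
noncomputable def zp (A0 N : ℕ) : ℕ := ⌈(Real.log N) ^ A0⌉₊

namespace ChebAux

theorem card_le (Y : ℕ) (P : Finset ℕ) (SS : Finset (Finset ℕ)) (hP : ∀ p ∈ P, p.Prime)
    (hS : ∀ S ∈ SS, S ⊆ P ∧ ∏ p ∈ S, p ≤ Y) : SS.card ≤ Y := by
  classical
  have : SS.card ≤ (Finset.Icc 1 Y).card := by
    apply Finset.card_le_card_of_injOn (fun S => ∏ p ∈ S, p)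
    · intro S hSS
      have hpos : 0 < ∏ p ∈ S, p := Finset.prod_pos fun p hp => (hP p ((hS S hSS).1 hp)).pos
      exact Finset.mem_coe.2 (Finset.mem_Icc.2 ⟨hpos, (hS S hSS).2⟩)
    · intro S hSS T hTT h
      have h1 := Nat.primeFactors_prod (s := S) (fun p hp => hP p ((hS S hSS).1 hp))
      have h2 := Nat.primeFactors_prod (s := T) (fun p hp => hP p ((hS T hTT).1 hp))
      have h3 : (∏ p ∈ S, p).primeFactors = (∏ p ∈ T, p).primeFactors := congrArg Nat.primeFactors h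
      rw [h1, h2] at h3
      exact h3
  simpa using this

theorem markov (N k : ℕ) (L B : ℝ) (hL : 0 < L) (f : ℕ → ℝ)
    (hB : ∑ n ∈ range N, (f n) ^ (2 * k) ≤ B) :
    (((range N).filter fun n => 1 / L ^ 2 < |f n|).card : ℝ) ≤ L ^ (4 * k) * B := by
  have hpos : ∀ n, 0 ≤ (f n) ^ (2 * k) := by
    intro n
    rw [pow_mul]
    positivity
  have h1 : (((range N).filter fun n => 1 / L ^ 2 < |f n|).card : ℝ)
      ≤ ∑ n ∈ (range N).filter (fun n => 1 / L ^ 2 < |f n|), L ^ (4 * k) * (f n) ^ (2 * k) := by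
    rw [Finset.card_eq_sum_ones]
    push_cast
    apply Finset.sum_le_sum
    intro n hn
    have h2 := (Finset.mem_filter.1 hn).2
    have h3 : 1 ≤ L ^ 2 * |f n| := by
      rw [div_lt_iff₀ (by positivity)] at h2
      nlinarith [h2]
    have h4 : (1 : ℝ) ≤ (L ^ 2 * |f n|) ^ (2 * k) := one_le_pow₀ h3
    rw [mul_pow, ← pow_mul, pow_mul |f n| 2 k, sq_abs, ← pow_mul] at h4
    rwa [show 4 * k = 2 * (2 * k) by ring]
  have h2 : ∑ n ∈ (range N).filter (fun n => 1 / L ^ 2 < |f n|), L ^ (4 * k) * (f n) ^ (2 * k)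
      ≤ ∑ n ∈ range N, L ^ (4 * k) * (f n) ^ (2 * k) :=
    Finset.sum_le_sum_of_subset_of_nonneg (Finset.filter_subset _ _)
      fun n _ _ => mul_nonneg (by positivity) (hpos n)
  have h3 : ∑ n ∈ range N, L ^ (4 * k) * (f n) ^ (2 * k) = L ^ (4 * k) * ∑ n ∈ range N, (f n) ^ (2 * k) :=
    (Finset.mul_sum _ _ _).symm
  have h4 : L ^ (4 * k) * ∑ n ∈ range N, (f n) ^ (2 * k) ≤ L ^ (4 * k) * B :=
    mul_le_mul_of_nonneg_left hB (by positivity)
  linarith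

theorem real1 (ε L l y K A : ℝ) (h1 : 5 * K * y ≤ 2 * L) (h2 : 2 * L < 5 * (K + 1) * y) (h3 : 2 ≤ K)
    (h4 : A * l ≤ y) (h5 : 1 ≤ l) (h6 : 200 ≤ A) (h7 : 10000 ≤ ε * L) (h8 : 3 ≤ L) :
    4 * K * l + L - 4 / 5 * K * (y - Real.log 2) + 4000 ≤ (4 / 5 + ε) * L - 1 := by
  have hl2 : Real.log 2 ≤ 1 := by
    have := Real.log_two_lt_d9
    linarith
  have hy : 0 < y := by nlinarith
  have e1 : K * l * 200 ≤ K * y := by
    have : 200 * l ≤ y := by nlinarith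
    nlinarith
  have e2 : 5 * (K * y) ≤ 2 * L := by linarith
  have e3 : 500 * (K * l) ≤ L := by nlinarith
  have e4 : 4 * L ≤ 15 * (K * y) := by nlinarith
  have e5 : K * Real.log 2 ≤ K * l := by nlinarith
  have e6 : 0 ≤ K * l := by positivity
  nlinarith

theorem real2 (ε L l y K A : ℝ) (h1 : 5 * K * y ≤ 2 * L) (h3 : 2 ≤ K)
    (h4 : A * l ≤ y) (h5 : 1 ≤ l) (h6 : 200 ≤ A) (h6' : 10 ≤ ε * A) (h7 : 10000 ≤ ε * L) (h8 : 3 ≤ L) :
    4 * K * l + 2 * K * (y + 2 * y / A) ≤ (4 / 5 + ε) * L - 1 := by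
  have hA : 0 < A := by linarith
  have e1 : K * l ≤ K * y / A := by
    rw [le_div_iff₀ hA]
    nlinarith
  have e2 : K * y / A ≤ 2 / 5 * (L / A) := by
    rw [div_le_iff₀ hA]
    field_simp
    linarith
  have e3 : L / A ≤ ε * L / 10 := by
    rw [div_le_iff₀ hA]
    nlinarith
  have e4 : 2 * K * (y + 2 * y / A) = 2 * (K * y) + 4 * (K * y / A) := by
    field_simp
    ring
  rw [e4]
  nlinarith

end ChebAux

theorem cheb (ε : ℝ) (hε : 0 < ε) : ∃ A1 : ℕ, ∀ A0 : ℕ, A1 ≤ A0 → ∃ N0 : ℕ, ∀ N : ℕ, N0 ≤ N →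
    ∀ (g : ℕ → ℕ → ℝ) (P : Finset ℕ) (Y : ℕ) (SS : Finset (Finset ℕ)), Y ^ 5 ≤ N →
    (∀ p ∈ P, p.Prime ∧ zp A0 N < p) → (∀ p ∈ P, ∀ n, g p (n + p) = g p n) →
    (∀ p ∈ P, ∑ n ∈ range p, g p n = 0) → (∀ p ∈ P, ∀ n, |g p n| ≤ 3 / (p : ℝ)) →
    (∀ S ∈ SS, S.Nonempty ∧ S ⊆ P ∧ Y < 2 * ∏ p ∈ S, p ∧ ∏ p ∈ S, p ≤ Y) →
    (((range N).filter fun n => 1 / (Real.log N) ^ 2 < |∑ S ∈ SS, ∏ p ∈ S, g p n|).card : ℝ)
      ≤ (N : ℝ) ^ (4 / 5 + ε) := by
  classical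
  refine ⟨200 + ⌈10 / ε⌉₊, fun A0 hA0 => ⟨⌈Real.exp (3 + 10000 / ε)⌉₊, ?_⟩⟩
  intro N hN g P Y SS hYN hP hper hmean hg hS
  -- sizes
  have hA200 : (200 : ℝ) ≤ A0 := by
    have : 200 ≤ A0 := by omega
    exact_mod_cast this
  have hAε : 10 ≤ ε * A0 := by
    have h1 : 10 / ε ≤ (⌈10 / ε⌉₊ : ℝ) := Nat.le_ceil _
    have h2 : ((⌈10 / ε⌉₊ : ℕ) : ℝ) ≤ A0 := by
      have : ⌈10 / ε⌉₊ ≤ A0 := by omega
      exact_mod_cast this
    have h3 : 10 / ε ≤ A0 := h1.trans h2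
    rw [div_le_iff₀ hε] at h3
    linarith
  have hNexp : Real.exp (3 + 10000 / ε) ≤ N := (Nat.le_ceil _).trans (by exact_mod_cast hN)
  have hNpos : (0 : ℝ) < N := lt_of_lt_of_le (Real.exp_pos _) hNexp
  obtain ⟨L, hLdef⟩ : ∃ L : ℝ, L = Real.log N := ⟨_, rfl⟩
  have hL : 3 + 10000 / ε ≤ L := by
    rw [hLdef, Real.le_log_iff_exp_le hNpos]
    exact hNexp
  have hε1 : 0 < 10000 / ε := by positivity
  have hL3 : 3 ≤ L := by linarith
  have hLpos : 0 < L := by linarith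
  have hεL : 10000 ≤ ε * L := by
    have : 10000 / ε ≤ L := by linarith
    rw [div_le_iff₀ hε] at this
    linarith
  have hl : 1 ≤ Real.log L := by
    rw [Real.le_log_iff_exp_le hLpos]
    have := Real.exp_one_lt_d9
    linarith
  have hzz : zp A0 N = ⌈L ^ A0⌉₊ := by rw [zp, hLdef]
  have hz : L ^ A0 ≤ (zp A0 N : ℝ) := by
    rw [hzz]
    exact Nat.le_ceil _
  have hz1 : (3 : ℝ) ≤ zp A0 N := by
    have h1 : L ^ 1 ≤ L ^ A0 := pow_le_pow_right₀ (by linarith) (by omega)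
    rw [pow_one] at h1
    linarith
  rw [← hLdef]
  by_cases hYz : Y ≤ zp A0 N
  · have hSS : SS = ∅ := by
      rw [Finset.eq_empty_iff_forall_notMem]
      intro S hSS
      obtain ⟨⟨p, hp⟩, hSP, -, hSY⟩ := hS S hSS
      have h1 : p ≤ ∏ q ∈ S, q :=
        Nat.le_of_dvd (Finset.prod_pos fun q hq => (hP q (hSP hq)).1.pos) (Finset.dvd_prod_of_mem _ hp)
      have h2 := (hP p (hSP hp)).2
      omega
    have h0 : ((range N).filter fun n => 1 / L ^ 2 < |∑ S ∈ SS, ∏ p ∈ S, g p n|) = ∅ := by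
      rw [Finset.filter_eq_empty_iff]
      intro n _ h
      rw [hSS, Finset.sum_empty, abs_zero] at h
      have : 0 < 1 / L ^ 2 := by positivity
      linarith
    rw [h0, Finset.card_empty, Nat.cast_zero]
    positivity
  push Not at hYz
  have hY3 : (3 : ℝ) ≤ Y := hz1.trans (by exact_mod_cast hYz.le)
  have hY3' : 3 ≤ Y := by exact_mod_cast hY3
  have hYpos : (0 : ℝ) < Y := by linarith
  have hy1 : 1 ≤ Real.log Y := by
    rw [Real.le_log_iff_exp_le hYpos]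
    have := Real.exp_one_lt_d9
    linarith
  have hY5 : 1 < Y ^ 5 := Nat.one_lt_pow (by norm_num) (by omega)
  have hN0 : N ≠ 0 := by
    intro h
    rw [h] at hNpos
    simp at hNpos
  obtain ⟨k, hk⟩ : ∃ k : ℕ, k = Nat.log (Y ^ 5) (N ^ 2) := ⟨_, rfl⟩
  have hk1 : (Y ^ 5) ^ k ≤ N ^ 2 := by
    rw [hk]
    exact Nat.pow_log_le_self _ (by positivity)
  have hk2 : N ^ 2 < (Y ^ 5) ^ (k + 1) := by
    rw [hk]
    exact Nat.lt_pow_succ_log_self hY5 _
  have hk3 : 2 ≤ k := by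
    by_contra hcon
    push Not at hcon
    have h1 : (Y ^ 5) ^ (k + 1) ≤ (Y ^ 5) ^ 2 := Nat.pow_le_pow_right (by omega) (by omega)
    have h2 : (Y ^ 5) ^ 2 ≤ N ^ 2 := Nat.pow_le_pow_left hYN 2
    omega
  have hk3' : (2 : ℝ) ≤ k := by exact_mod_cast hk3
  have r1 : 5 * (k : ℝ) * Real.log Y ≤ 2 * L := by
    have h1 : (((Y : ℝ) ^ 5) ^ k) ≤ (N : ℝ) ^ 2 := by exact_mod_cast hk1
    have h2 := Real.log_le_log (by positivity) h1
    rw [Real.log_pow, Real.log_pow, Real.log_pow, ← hLdef] at h2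
    push_cast at h2
    linarith
  have r2 : 2 * L < 5 * ((k : ℝ) + 1) * Real.log Y := by
    have h1 : (N : ℝ) ^ 2 < (((Y : ℝ) ^ 5) ^ (k + 1)) := by exact_mod_cast hk2
    have h2 := Real.log_lt_log (by positivity) h1
    rw [Real.log_pow, Real.log_pow, Real.log_pow, ← hLdef] at h2
    push_cast at h2
    linarith
  have r4 : (A0 : ℝ) * Real.log L ≤ Real.log Y := by
    rw [← Real.log_pow]
    exact Real.log_le_log (by positivity) (hz.trans (by exact_mod_cast hYz.le))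
  have hkL : (k : ℝ) ≤ L := by nlinarith
  have hk10 : (k : ℝ) ^ 10 ≤ zp A0 N := by
    have h1 : (k : ℝ) ^ 10 ≤ L ^ 10 := pow_le_pow_left₀ (by positivity) hkL 10
    have h2 : L ^ 10 ≤ L ^ A0 := pow_le_pow_right₀ (by linarith) (by omega)
    linarith
  have hmom := moment g P k (zp A0 N) Y N (by exact_mod_cast (by linarith : (2 : ℝ) ≤ zp A0 N)) hP hper hmean hg
    hk10 (by omega) SS (fun S h => ⟨(hS S h).2.1, (hS S h).2.2.1, (hS S h).2.2.2⟩)
  have hmk := ChebAux.markov N k L _ hLpos (fun n => ∑ S ∈ SS, ∏ p ∈ S, g p n) hmom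
  refine hmk.trans ?_
  -- the first term
  have hNe : (N : ℝ) = Real.exp L := by rw [hLdef, Real.exp_log hNpos]
  have hLe : L ^ (4 * k) = Real.exp (4 * k * Real.log L) := by
    rw [show 4 * (k : ℝ) * Real.log L = ((4 * k : ℕ) : ℝ) * Real.log L by push_cast; ring, ← Real.log_pow,
      Real.exp_log (by positivity)]
  have t1 : L ^ (4 * k) * (N * ((Y : ℝ) / 2) ^ (-(4 / 5 * (k : ℝ))) * Real.exp 4000) ≤
      Real.exp ((4 / 5 + ε) * L - 1) := by
    have h1 : ((Y : ℝ) / 2) ^ (-(4 / 5 * (k : ℝ))) =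
        Real.exp ((Real.log Y - Real.log 2) * (-(4 / 5 * (k : ℝ)))) := by
      rw [Real.rpow_def_of_pos (by positivity), Real.log_div (by positivity) (by norm_num)]
    rw [h1, hLe]
    nth_rewrite 1 [hNe]
    rw [← Real.exp_add, ← Real.exp_add, ← Real.exp_add]
    apply Real.exp_le_exp.2
    have := ChebAux.real1 ε L (Real.log L) (Real.log Y) k A0 r1 r2 hk3' r4 hl hA200 hεL hL3
    linarith
  -- the second term
  have hsum : ∑ S ∈ SS, (3 : ℝ) ^ S.card ≤ Real.exp (Real.log Y + 2 * Real.log Y / A0) := by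
    have hcard : (SS.card : ℝ) ≤ Y := by
      exact_mod_cast ChebAux.card_le Y P SS (fun p hp => (hP p hp).1) fun S h => ⟨(hS S h).2.1, (hS S h).2.2.2⟩
    have hterm : ∀ S ∈ SS, (3 : ℝ) ^ S.card ≤ Real.exp (2 * Real.log Y / A0) := by
      intro S hSS
      obtain ⟨-, hSP, -, hSY⟩ := hS S hSS
      have h1 : (L ^ A0) ^ S.card ≤ (Y : ℝ) := by
        have h2 : (L ^ A0) ^ S.card ≤ ∏ p ∈ S, (p : ℝ) := by
          rw [← Finset.prod_const]
          apply Finset.prod_le_prod (fun _ _ => by positivity)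
          intro p hp
          exact hz.trans (by exact_mod_cast (hP p (hSP hp)).2.le)
        rw [← Nat.cast_prod] at h2
        exact h2.trans (Nat.cast_le.2 hSY)
      have h3 := Real.log_le_log (by positivity) h1
      rw [Real.log_pow, Real.log_pow] at h3
      have h4 : (S.card : ℝ) * A0 ≤ Real.log Y := by
        have h0 : (0 : ℝ) ≤ (S.card : ℝ) * A0 := mul_nonneg (Nat.cast_nonneg _) (Nat.cast_nonneg _)
        have h0' : (S.card : ℝ) * A0 * 1 ≤ (S.card : ℝ) * A0 * Real.log L :=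
          mul_le_mul_of_nonneg_left hl h0
        linarith
      have hA0pos : (0 : ℝ) < A0 := by linarith
      have h5 : (S.card : ℝ) ≤ Real.log Y / A0 := (le_div_iff₀ hA0pos).2 h4
      have h6 : (3 : ℝ) ≤ Real.exp 2 := by
        have := Real.add_one_le_exp (2 : ℝ)
        linarith
      calc (3 : ℝ) ^ S.card ≤ (Real.exp 2) ^ S.card := pow_le_pow_left₀ (by norm_num) h6 _
        _ = Real.exp (S.card * 2) := by rw [← Real.exp_nat_mul]
        _ ≤ Real.exp (2 * Real.log Y / A0) := by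
          apply Real.exp_le_exp.2
          rw [mul_div_assoc]
          linarith
    calc ∑ S ∈ SS, (3 : ℝ) ^ S.card ≤ ∑ S ∈ SS, Real.exp (2 * Real.log Y / A0) := Finset.sum_le_sum hterm
      _ = SS.card * Real.exp (2 * Real.log Y / A0) := by rw [Finset.sum_const, nsmul_eq_mul]
      _ ≤ Y * Real.exp (2 * Real.log Y / A0) := mul_le_mul_of_nonneg_right hcard (by positivity)
      _ = Real.exp (Real.log Y + 2 * Real.log Y / A0) := by rw [Real.exp_add, Real.exp_log hYpos]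
  have t2 : L ^ (4 * k) * (∑ S ∈ SS, (3 : ℝ) ^ S.card) ^ (2 * k) ≤ Real.exp ((4 / 5 + ε) * L - 1) := by
    have h0 : (∑ S ∈ SS, (3 : ℝ) ^ S.card) ^ (2 * k) ≤
        Real.exp (Real.log Y + 2 * Real.log Y / A0) ^ (2 * k) :=
      pow_le_pow_left₀ (Finset.sum_nonneg fun _ _ => by positivity) hsum _
    rw [← Real.exp_nat_mul] at h0
    calc L ^ (4 * k) * (∑ S ∈ SS, (3 : ℝ) ^ S.card) ^ (2 * k)
        ≤ Real.exp (4 * k * Real.log L) *
          Real.exp (((2 * k : ℕ) : ℝ) * (Real.log Y + 2 * Real.log Y / A0)) := by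
          rw [hLe]
          exact mul_le_mul_of_nonneg_left h0 (by positivity)
      _ ≤ Real.exp ((4 / 5 + ε) * L - 1) := by
          rw [← Real.exp_add]
          apply Real.exp_le_exp.2
          have := ChebAux.real2 ε L (Real.log L) (Real.log Y) k A0 r1 hk3' r4 hl hA200 hAε hεL hL3
          push_cast
          linarith
  have hfin : (N : ℝ) ^ (4 / 5 + ε) = Real.exp ((4 / 5 + ε) * L) := by
    rw [Real.rpow_def_of_pos hNpos, ← hLdef, mul_comm]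
  have he : 2 * Real.exp ((4 / 5 + ε) * L - 1) ≤ Real.exp ((4 / 5 + ε) * L) := by
    rw [Real.exp_sub]
    have h1 : (2 : ℝ) ≤ Real.exp 1 := by
      have := Real.add_one_le_exp (1 : ℝ)
      linarith
    rw [mul_div_assoc', div_le_iff₀ (Real.exp_pos _)]
    have h2 : 0 < Real.exp ((4 / 5 + ε) * L) := Real.exp_pos _
    nlinarith
  rw [hfin, mul_add]
  linarith

end Pool.Agent.Lib.TSP
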