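import Pool.Agent.Lib.TSP.Ex

/-!
# TSP.Jn: the singular integral is bounded below (1.5 h)
PROOF. `w = zz N β = 1/N - iβ`, `exp(2π c₁ w) e(-mβ) = exp(-2πm/N) exp(2π x w)` with `x = m + c₁ ≥ 0`.
`R(t) = Re ∫ (1 - |β|/B) exp(2π t w)/w dβ` satisfies `R(t) - R(s) = ∫_s^t 2π exp(2πu/N) K(u) du`,
`K(u) = ∫_{-B}^{B} (1 - |β|/B) cos(2πuβ) dβ ≥ 0`, `K(u) ≥ B/2` for `|u| ≤ 1/(8B)`, and `R(t) → 0` for
`t → -∞`.  Hence `R(x) ≥ R(0) - R(-1/(8B)) ≥ (π/8) exp(-π/4)`.
-/

set_option autoImplicit false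

open Finset

namespace Pool.Agent.Lib.TSP

namespace JnAux

theorem re_zz (N : ℕ) (β : ℝ) : (zz N β).re = 1 / (N : ℝ) := by
  have : (1 / (N : ℂ)) = ((1 / (N : ℝ) : ℝ) : ℂ) := by push_cast; rfl
  rw [zz, this, Complex.sub_re, Complex.ofReal_re, Complex.re_ofReal_mul, Complex.I_re]
  ring

theorem im_zz (N : ℕ) (β : ℝ) : (zz N β).im = -β := by
  have : (1 / (N : ℂ)) = ((1 / (N : ℝ) : ℝ) : ℂ) := by push_cast; rfl
  rw [zz, this, Complex.sub_im, Complex.ofReal_im, Complex.im_ofReal_mul, Complex.I_im]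
  ring

theorem zz_ne {N : ℕ} (hN : 1 ≤ N) (β : ℝ) : zz N β ≠ 0 := by
  intro h
  have h1 := re_zz N β
  rw [h, Complex.zero_re] at h1
  have : (0 : ℝ) < 1 / (N : ℝ) := by
    have : (0 : ℝ) < (N : ℝ) := by exact_mod_cast hN
    positivity
  linarith

theorem le_norm_zz (N : ℕ) (β : ℝ) : 1 / (N : ℝ) ≤ ‖zz N β‖ := by
  rw [← re_zz N β]
  exact Complex.re_le_norm _

theorem continuous_zz (N : ℕ) : Continuous (zz N) := by
  unfold zz
  fun_prop

/-- the integrand -/
noncomputable def g (N : ℕ) (t β : ℝ) : ℂ := Complex.exp (2 * Real.pi * t * zz N β) / zz N β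

theorem continuous_g {N : ℕ} (hN : 1 ≤ N) (t : ℝ) : Continuous (g N t) := by
  unfold g
  refine Continuous.div ?_ (continuous_zz N) (zz_ne hN)
  exact Complex.continuous_exp.comp (continuous_const.mul (continuous_zz N))

theorem norm_g_le {N : ℕ} (hN : 1 ≤ N) (t β : ℝ) :
    ‖g N t β‖ ≤ N * Real.exp (2 * Real.pi * t / N) := by
  have hN' : (0 : ℝ) < (N : ℝ) := by exact_mod_cast hN
  have h1 : ‖Complex.exp (2 * Real.pi * t * zz N β)‖ = Real.exp (2 * Real.pi * t / N) := by
    rw [Complex.norm_exp]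
    congr 1
    have : (2 * Real.pi * t * zz N β : ℂ) = ((2 * Real.pi * t : ℝ) : ℂ) * zz N β := by push_cast; rfl
    rw [this, Complex.re_ofReal_mul, re_zz]
    ring
  rw [g, norm_div, h1, div_le_iff₀ (norm_pos_iff.2 (zz_ne hN β))]
  have h2 := le_norm_zz N β
  have h3 : 1 ≤ (N : ℝ) * ‖zz N β‖ := by
    rw [div_le_iff₀ hN'] at h2
    linarith
  have h4 := Real.exp_pos (2 * Real.pi * t / N)
  nlinarith

/-- the derivative of `Re g` in `t` -/
theorem hasDerivAt_g {N : ℕ} (hN : 1 ≤ N) (t β : ℝ) :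
    HasDerivAt (fun u : ℝ => (g N u β).re)
      (2 * Real.pi * Real.exp (2 * Real.pi * t / N) * Real.cos (2 * Real.pi * t * β)) t := by
  have hz := zz_ne hN β
  have h1 : HasDerivAt (fun u : ℂ => Complex.exp (2 * Real.pi * u * zz N β) / zz N β)
      (2 * Real.pi * Complex.exp (2 * Real.pi * t * zz N β)) (t : ℂ) := by
    have h2 : HasDerivAt (fun u : ℂ => 2 * Real.pi * u * zz N β) (2 * Real.pi * zz N β) (t : ℂ) := by
      have := ((hasDerivAt_id (t : ℂ)).const_mul (2 * (Real.pi : ℂ))).mul_const (zz N β)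
      simpa using this
    refine ((h2.cexp).div_const (zz N β)).congr_deriv ?_
    rw [div_eq_iff hz]
    ring
  have h4 := h1.comp_ofReal
  have h5 : HasDerivAt (fun u : ℝ => (g N u β).re)
      (2 * Real.pi * Complex.exp (2 * Real.pi * t * zz N β)).re t := by
    have h6 := (Complex.reCLM.hasFDerivAt (x := g N t β)).comp_hasDerivAt t h4
    exact h6
  convert h5 using 1
  have e1 : (2 * Real.pi * Complex.exp (2 * Real.pi * t * zz N β) : ℂ) =
      ((2 * Real.pi : ℝ) : ℂ) * Complex.exp (2 * Real.pi * t * zz N β) := by push_cast; rfl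
  have e2 : (2 * Real.pi * t * zz N β : ℂ) = ((2 * Real.pi * t : ℝ) : ℂ) * zz N β := by push_cast; rfl
  rw [e1, Complex.re_ofReal_mul, Complex.exp_re, e2, Complex.re_ofReal_mul, Complex.im_ofReal_mul,
    re_zz, im_zz, show 2 * Real.pi * t * -β = -(2 * Real.pi * t * β) by ring, Real.cos_neg,
    mul_one_div]
  ring

theorem g_sub {N : ℕ} (hN : 1 ≤ N) (s t β : ℝ) :
    ∫ u in s..t, 2 * Real.pi * Real.exp (2 * Real.pi * u / N) * Real.cos (2 * Real.pi * u * β) =
      (g N t β).re - (g N s β).re := by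
  refine intervalIntegral.integral_eq_sub_of_hasDerivAt (fun u _ => hasDerivAt_g hN u β) ?_
  refine Continuous.intervalIntegrable ?_ _ _
  fun_prop

/-- the Fejer weight -/
noncomputable def w (B β : ℝ) : ℝ := 1 - |β| / B

theorem continuous_w (B : ℝ) : Continuous (w B) := by
  unfold w
  fun_prop

theorem w_nonneg {B β : ℝ} (hB : 0 < B) (h : |β| ≤ B) : 0 ≤ w B β := by
  unfold w
  rw [sub_nonneg, div_le_one hB]
  exact h

theorem w_le {B β : ℝ} (hB : 0 < B) : w B β ≤ 1 := by
  unfold w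
  have : 0 ≤ |β| / B := by positivity
  linarith

theorem even_int (G : ℝ → ℝ) (hG : Continuous G) {B : ℝ} (hB : 0 ≤ B) :
    ∫ β in (-B)..B, G |β| = 2 * ∫ β in (0:ℝ)..B, G β := by
  have hc : Continuous fun β : ℝ => G |β| := hG.comp continuous_abs
  rw [← intervalIntegral.integral_add_adjacent_intervals (b := (0:ℝ)) (hc.intervalIntegrable _ _)
    (hc.intervalIntegrable _ _)]
  have h1 : ∫ β in (-B)..(0:ℝ), G |β| = ∫ β in (0:ℝ)..B, G β := by
    have h2 : ∫ β in (-B)..(0:ℝ), G |β| = ∫ β in (-B)..(0:ℝ), G (-β) := by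
      refine intervalIntegral.integral_congr fun β hβ => ?_
      rw [Set.uIcc_of_le (by linarith)] at hβ
      show G |β| = G (-β)
      rw [abs_of_nonpos hβ.2]
    rw [h2, intervalIntegral.integral_comp_neg (fun β => G β), neg_zero, neg_neg]
  have h3 : ∫ β in (0:ℝ)..B, G |β| = ∫ β in (0:ℝ)..B, G β := by
    refine intervalIntegral.integral_congr fun β hβ => ?_
    rw [Set.uIcc_of_le hB] at hβ
    show G |β| = G β
    rw [abs_of_nonneg hβ.1]
  rw [h1, h3]
  ring

/-- the Fejer kernel -/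
noncomputable def K (B u : ℝ) : ℝ := ∫ β in (-B)..B, w B β * Real.cos (2 * Real.pi * u * β)

theorem K_eq (B : ℝ) (hB : 0 < B) (u : ℝ) :
    K B u = 2 * ∫ β in (0:ℝ)..B, (1 - β / B) * Real.cos (2 * Real.pi * u * β) := by
  rw [← even_int (fun β => (1 - β / B) * Real.cos (2 * Real.pi * u * β)) (by fun_prop) hB.le, K]
  refine intervalIntegral.integral_congr fun β _ => ?_
  show w B β * Real.cos (2 * Real.pi * u * β) = (1 - |β| / B) * Real.cos (2 * Real.pi * u * |β|)
  rw [w]
  congr 1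
  rcases abs_choice β with h | h
  · rw [h]
  · rw [h, mul_neg, Real.cos_neg]

theorem K_formula {B : ℝ} (hB : 0 < B) {u : ℝ} (hu : u ≠ 0) :
    K B u = 2 * ((1 - Real.cos (2 * Real.pi * u * B)) / (B * (2 * Real.pi * u) ^ 2)) := by
  rw [K_eq B hB u]
  congr 1
  set a : ℝ := 2 * Real.pi * u with ha
  have ha0 : a ≠ 0 := by
    have := Real.pi_pos
    positivity
  have hd : ∀ β : ℝ, HasDerivAt (fun β : ℝ => (1 - β / B) * (Real.sin (a * β) / a) -
      Real.cos (a * β) / (B * a ^ 2)) ((1 - β / B) * Real.cos (a * β)) β := by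
    intro β
    have h0 : HasDerivAt (fun β : ℝ => a * β) a β := by
      simpa using (hasDerivAt_id β).const_mul a
    have h1 : HasDerivAt (fun β : ℝ => 1 - β / B) (-(1 / B)) β := by
      simpa using ((hasDerivAt_id β).div_const B).const_sub 1
    have h2 := (h0.sin).div_const a
    have h3 := (h0.cos).div_const (B * a ^ 2)
    have h4 : HasDerivAt (fun β : ℝ => (1 - β / B) * (Real.sin (a * β) / a) -
        Real.cos (a * β) / (B * a ^ 2)) (-(1 / B) * (Real.sin (a * β) / a) +
          (1 - β / B) * (Real.cos (a * β) * a / a) - (-Real.sin (a * β) * a / (B * a ^ 2))) β :=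
      (h1.mul h2).sub h3
    refine h4.congr_deriv ?_
    have hB0 := hB.ne'
    field_simp
    ring
  rw [intervalIntegral.integral_eq_sub_of_hasDerivAt (fun β _ => hd β)
    (Continuous.intervalIntegrable (by fun_prop) _ _)]
  have hB0 := hB.ne'
  rw [div_self hB0]
  simp only [mul_zero, Real.sin_zero, Real.cos_zero, sub_self, zero_mul, zero_div, sub_zero, zero_sub]
  field_simp
  ring

theorem int_w {B : ℝ} (hB : 0 < B) : ∫ β in (-B)..B, w B β = B := by
  have h := even_int (fun β => 1 - β / B) (by fun_prop) hB.le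
  have h2 : ∫ β in (-B)..B, w B β = ∫ β in (-B)..B, (fun β => 1 - β / B) |β| := rfl
  rw [h2, h]
  have h1 : ∫ β in (0:ℝ)..B, (1 - β / B) = B / 2 := by
    rw [intervalIntegral.integral_sub (by simp) (Continuous.intervalIntegrable (by fun_prop) _ _),
      intervalIntegral.integral_div, integral_id]
    simp only [intervalIntegral.integral_const, smul_eq_mul]
    field_simp
    ring
  rw [h1]
  ring

theorem K_lower {B u : ℝ} (hB : 0 < B) (hu : |u| ≤ 1 / (8 * B)) : B / 2 ≤ K B u := by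
  have h1 : ∫ β in (-B)..B, w B β * (1 / 2) = B / 2 := by
    rw [intervalIntegral.integral_mul_const, int_w hB]
    ring
  rw [← h1, K]
  have hcw := continuous_w B
  refine intervalIntegral.integral_mono_on (by linarith)
    ((hcw.mul continuous_const).intervalIntegrable _ _)
    (Continuous.intervalIntegrable (by fun_prop) _ _) fun β hβ => ?_
  have hβ' : |β| ≤ B := abs_le.2 hβ
  refine mul_le_mul_of_nonneg_left ?_ (w_nonneg hB hβ')
  have h2 : |2 * Real.pi * u * β| ≤ Real.pi / 4 := by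
    have h3 : |u| * |β| ≤ 1 / (8 * B) * B := mul_le_mul hu hβ' (abs_nonneg _) (by positivity)
    have h4 : 1 / (8 * B) * B = 1 / 8 := by
      field_simp
    rw [h4] at h3
    rw [abs_mul, abs_mul, abs_of_pos (by positivity : 0 < 2 * Real.pi), mul_assoc]
    have := Real.pi_pos
    nlinarith
  have h5 : Real.cos (Real.pi / 3) ≤ Real.cos |2 * Real.pi * u * β| := by
    refine Real.cos_le_cos_of_nonneg_of_le_pi (abs_nonneg _) ?_ ?_
    · have := Real.pi_pos
      linarith
    · have := Real.pi_pos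
      linarith
  rw [Real.cos_abs, Real.cos_pi_div_three] at h5
  exact h5

theorem K_nonneg {B : ℝ} (hB : 0 < B) (u : ℝ) : 0 ≤ K B u := by
  rcases eq_or_ne u 0 with rfl | hu
  · refine le_trans (by positivity) (K_lower hB ?_)
    rw [abs_zero]
    positivity
  · rw [K_formula hB hu]
    have := Real.cos_le_one (2 * Real.pi * u * B)
    have : 0 ≤ 1 - Real.cos (2 * Real.pi * u * B) := by linarith
    positivity

theorem continuous_K (B : ℝ) : Continuous (K B) := by
  unfold K
  have hcw := continuous_w B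
  refine intervalIntegral.continuous_parametric_intervalIntegral_of_continuous' ?_ _ _
  exact (hcw.comp continuous_snd).mul (Real.continuous_cos.comp (by fun_prop))

/-- the real part of the integral -/
noncomputable def R (N : ℕ) (B t : ℝ) : ℝ := ∫ β in (-B)..B, w B β * (g N t β).re

theorem continuous_re_g {N : ℕ} (hN : 1 ≤ N) (t : ℝ) : Continuous fun β => (g N t β).re :=
  Complex.continuous_re.comp (continuous_g hN t)

theorem R_sub {N : ℕ} (hN : 1 ≤ N) (B s t : ℝ) :
    R N B t - R N B s = ∫ u in s..t, 2 * Real.pi * Real.exp (2 * Real.pi * u / N) * K B u := by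
  have hcw := continuous_w B
  have h1 : R N B t - R N B s = ∫ β in (-B)..B, ∫ u in s..t,
      w B β * (2 * Real.pi * Real.exp (2 * Real.pi * u / N) * Real.cos (2 * Real.pi * u * β)) := by
    have hct : Continuous fun β => w B β * (g N t β).re := hcw.mul (continuous_re_g hN t)
    have hcs : Continuous fun β => w B β * (g N s β).re := hcw.mul (continuous_re_g hN s)
    rw [R, R, ← intervalIntegral.integral_sub (hct.intervalIntegrable _ _)
      (hcs.intervalIntegrable _ _)]
    refine intervalIntegral.integral_congr fun β _ => ?_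
    show w B β * (g N t β).re - w B β * (g N s β).re = _
    rw [intervalIntegral.integral_const_mul, g_sub hN]
    ring
  rw [h1, MeasureTheory.intervalIntegral_intervalIntegral_swap]
  · refine intervalIntegral.integral_congr fun u _ => ?_
    show _ = 2 * Real.pi * Real.exp (2 * Real.pi * u / N) * K B u
    rw [K, ← intervalIntegral.integral_const_mul]
    refine intervalIntegral.integral_congr fun β _ => ?_
    show _ = 2 * Real.pi * Real.exp (2 * Real.pi * u / N) * (w B β * Real.cos (2 * Real.pi * u * β))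
    ring
  · have hc : Continuous (Function.uncurry fun β u : ℝ =>
        w B β * (2 * Real.pi * Real.exp (2 * Real.pi * u / N) * Real.cos (2 * Real.pi * u * β))) := by
      refine (hcw.comp continuous_fst).mul ?_
      fun_prop
    have hk : IsCompact (Set.uIcc (-B) B ×ˢ Set.uIcc s t) := isCompact_uIcc.prod isCompact_uIcc
    refine (hc.continuousOn.integrableOn_compact hk).mono_set ?_
    exact Set.prod_mono Set.uIoc_subset_uIcc Set.uIoc_subset_uIcc

theorem R_mono {N : ℕ} (hN : 1 ≤ N) {B s t : ℝ} (hB : 0 < B) (hst : s ≤ t) :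
    R N B s ≤ R N B t := by
  rw [← sub_nonneg, R_sub hN]
  refine intervalIntegral.integral_nonneg hst fun u _ => ?_
  have := K_nonneg hB u
  positivity

theorem abs_R_le {N : ℕ} (hN : 1 ≤ N) {B : ℝ} (hB : 0 < B) (t : ℝ) :
    |R N B t| ≤ N * Real.exp (2 * Real.pi * t / N) * (2 * B) := by
  have h1 : ‖∫ β in (-B)..B, w B β * (g N t β).re‖ ≤
      (N * Real.exp (2 * Real.pi * t / N)) * |B - -B| := by
    refine intervalIntegral.norm_integral_le_of_norm_le_const fun β hβ => ?_
    rw [Set.uIoc_of_le (by linarith)] at hβ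
    have hβ' : |β| ≤ B := abs_le.2 ⟨hβ.1.le, hβ.2⟩
    rw [norm_mul, Real.norm_eq_abs, Real.norm_eq_abs, abs_of_nonneg (w_nonneg hB hβ')]
    have h2 := (Complex.abs_re_le_norm (g N t β)).trans (norm_g_le hN t β)
    have h3 := w_le (β := β) hB
    have h4 := w_nonneg hB hβ'
    have h5 := abs_nonneg (g N t β).re
    nlinarith
  rw [Real.norm_eq_abs, show |B - -B| = 2 * B by rw [abs_of_pos (by linarith)]; ring] at h1
  exact h1

theorem R_nonneg {N : ℕ} (hN : 1 ≤ N) {B : ℝ} (hB : 0 < B) (t : ℝ) : 0 ≤ R N B t := by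
  have hN' : (0 : ℝ) < (N : ℝ) := by exact_mod_cast hN
  have hlim : Filter.Tendsto (fun s : ℝ => -(N * Real.exp (2 * Real.pi * s / N) * (2 * B)))
      Filter.atBot (nhds (-((N : ℝ) * 0 * (2 * B)))) := by
    refine ((Filter.Tendsto.const_mul _ ?_).mul_const _).neg
    refine Real.tendsto_exp_atBot.comp ?_
    have : (fun s : ℝ => 2 * Real.pi * s / N) = fun s : ℝ => (2 * Real.pi / N) * s := by
      funext s
      ring
    rw [this]
    exact Filter.tendsto_id.const_mul_atBot (by positivity)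
  rw [mul_zero, zero_mul, neg_zero] at hlim
  refine le_of_tendsto hlim ?_
  filter_upwards [Filter.eventually_le_atBot t] with s hs
  have h1 := R_mono hN hB hs
  have h2 := abs_R_le hN hB s
  have h3 := neg_abs_le (R N B s)
  linarith

theorem R_lower {N : ℕ} (hN : 1 ≤ N) {B x : ℝ} (hB : 1 / (N : ℝ) ≤ B) (hx : 0 ≤ x) :
    Real.pi / 8 * Real.exp (-(Real.pi / 4)) ≤ R N B x := by
  have hN' : (0 : ℝ) < (N : ℝ) := by exact_mod_cast hN
  have hB0 : 0 < B := lt_of_lt_of_le (by positivity) hB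
  have hNB : 1 ≤ B * N := by
    rw [div_le_iff₀ hN'] at hB
    exact hB
  set s : ℝ := -(1 / (8 * B)) with hs
  have hs0 : s ≤ 0 := by
    rw [hs]
    have : 0 < 1 / (8 * B) := by positivity
    linarith
  have h1 : R N B 0 ≤ R N B x := R_mono hN hB0 hx
  have h2 := R_nonneg hN hB0 s
  have h3 := R_sub hN B s 0
  have h4 : ∫ u in s..0, Real.pi * B * Real.exp (-(Real.pi / 4)) ≤
      ∫ u in s..0, 2 * Real.pi * Real.exp (2 * Real.pi * u / N) * K B u := by
    have hcK := continuous_K B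
    refine intervalIntegral.integral_mono_on hs0 (by simp)
      (Continuous.intervalIntegrable (by fun_prop) _ _) fun u hu => ?_
    have hu1 : |u| ≤ 1 / (8 * B) := by
      rw [abs_of_nonpos hu.2]
      have := hu.1
      rw [hs] at this
      linarith
    have h5 := K_lower hB0 hu1
    have h6 : Real.exp (-(Real.pi / 4)) ≤ Real.exp (2 * Real.pi * u / N) := by
      rw [Real.exp_le_exp, le_div_iff₀ hN']
      have h7 : -(1 / (8 * B)) ≤ u := hu.1
      have h8 : -(1 / (8 * B)) = -(1 / 8) / B := by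
        field_simp
      rw [h8, div_le_iff₀ hB0] at h7
      have h9 : -(1 / 8) * N ≤ u := by
        have hu0 : u ≤ 0 := hu.2
        by_contra hcon
        push Not at hcon
        nlinarith
      have := Real.pi_pos
      nlinarith
    have h7 : 0 < Real.exp (-(Real.pi / 4)) := Real.exp_pos _
    have h8 := Real.pi_pos
    calc Real.pi * B * Real.exp (-(Real.pi / 4)) = 2 * Real.pi * Real.exp (-(Real.pi / 4)) * (B / 2) := by
          ring
      _ ≤ 2 * Real.pi * Real.exp (2 * Real.pi * u / N) * K B u := by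
          refine mul_le_mul ?_ h5 (by positivity) (by positivity)
          exact mul_le_mul_of_nonneg_left h6 (by positivity)
  rw [← h3, intervalIntegral.integral_const, smul_eq_mul] at h4
  have h5 : (0 - s) * (Real.pi * B * Real.exp (-(Real.pi / 4))) =
      Real.pi / 8 * Real.exp (-(Real.pi / 4)) := by
    rw [hs]
    have := hB0.ne'
    field_simp
    ring
  rw [h5] at h4
  linarith

/-- the complex integral -/
noncomputable def P (N : ℕ) (B t : ℝ) : ℂ := ∫ β in (-B)..B, ((w B β : ℝ) : ℂ) * g N t β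

theorem conj_g (N : ℕ) (t β : ℝ) : (starRingEnd ℂ) (g N t β) = g N t (-β) := by
  have h2 : (starRingEnd ℂ) 2 = 2 := by
    have := Complex.conj_ofReal 2
    simpa using this
  have hz : (starRingEnd ℂ) (zz N β) = zz N (-β) := by
    unfold zz
    simp
  rw [g, g, map_div₀, ← Complex.exp_conj, map_mul, map_mul, map_mul, hz, h2, Complex.conj_ofReal,
    Complex.conj_ofReal]

theorem P_eq {N : ℕ} (hN : 1 ≤ N) (B t : ℝ) : P N B t = (R N B t : ℂ) := by
  have h1 : (starRingEnd ℂ) (P N B t) = P N B t := by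
    rw [P, ← intervalIntegral.intervalIntegral_conj]
    have h2 : ∫ β in (-B)..B, (starRingEnd ℂ) (((w B β : ℝ) : ℂ) * g N t β) =
        ∫ β in (-B)..B, (fun β => ((w B β : ℝ) : ℂ) * g N t β) (-β) := by
      refine intervalIntegral.integral_congr fun β _ => ?_
      show (starRingEnd ℂ) (((w B β : ℝ) : ℂ) * g N t β) = ((w B (-β) : ℝ) : ℂ) * g N t (-β)
      rw [map_mul, Complex.conj_ofReal, conj_g, w, w, abs_neg]
    rw [h2, intervalIntegral.integral_comp_neg (fun β => ((w B β : ℝ) : ℂ) * g N t β), neg_neg]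
  rw [← Complex.conj_eq_iff_re.1 h1]
  congr 1
  have hc : Continuous fun β => ((w B β : ℝ) : ℂ) * g N t β :=
    (Complex.continuous_ofReal.comp (continuous_w B)).mul (continuous_g hN t)
  have h3 := Complex.reCLM.intervalIntegral_comp_comm (hc.intervalIntegrable (-B) B)
    (μ := MeasureTheory.volume)
  rw [P, ← Complex.reCLM_apply, ← h3, R]
  refine intervalIntegral.integral_congr fun β _ => ?_
  show (((w B β : ℝ) : ℂ) * g N t β).re = _
  rw [Complex.re_ofReal_mul]

theorem c1_nonneg (b : Bool) : 0 ≤ c1 b := by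
  unfold c1
  positivity

theorem Jn_eq (b : Bool) {N : ℕ} (hN : 1 ≤ N) (B : ℝ) (m : ℤ) :
    Jn b N B m = ((Real.exp (-(2 * Real.pi * m / N)) * R N B (c1 b + m) : ℝ) : ℂ) := by
  rw [Complex.ofReal_mul, ← P_eq hN, P, Jn, ← intervalIntegral.integral_const_mul]
  refine intervalIntegral.integral_congr fun β _ => ?_
  show ((1 - |β| / B : ℝ) : ℂ) * (Complex.exp (2 * Real.pi * (c1 b : ℂ) * zz N β) / zz N β) *
    e (-((m : ℝ) * β)) = ((Real.exp (-(2 * Real.pi * m / N)) : ℝ) : ℂ) * (((w B β : ℝ) : ℂ) *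
      (Complex.exp (2 * Real.pi * ((c1 b + m : ℝ) : ℂ) * zz N β) / zz N β))
  have h : Complex.exp (2 * Real.pi * (c1 b : ℂ) * zz N β) * e (-((m : ℝ) * β)) =
      ((Real.exp (-(2 * Real.pi * m / N)) : ℝ) : ℂ) *
        Complex.exp (2 * Real.pi * ((c1 b + m : ℝ) : ℂ) * zz N β) := by
    rw [e, Complex.ofReal_exp, ← Complex.exp_add, ← Complex.exp_add]
    congr 1
    rw [zz]
    push_cast
    ring
  rw [w]
  calc ((1 - |β| / B : ℝ) : ℂ) * (Complex.exp (2 * Real.pi * (c1 b : ℂ) * zz N β) / zz N β) *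
      e (-((m : ℝ) * β)) = ((1 - |β| / B : ℝ) : ℂ) *
        ((Complex.exp (2 * Real.pi * (c1 b : ℂ) * zz N β) * e (-((m : ℝ) * β))) / zz N β) := by ring
    _ = _ := by rw [h]; ring

end JnAux

theorem Jn_lower (b : Bool) : ∃ c : ℝ, 0 < c ∧ ∀ (N : ℕ) (B : ℝ) (m : ℤ), 1 ≤ N → 1 / (N : ℝ) ≤ B →
    0 ≤ m → m ≤ N → ∃ r : ℝ, Jn b N B m = (r : ℂ) ∧ c ≤ r := by
  have hpi := Real.pi_pos
  refine ⟨Real.exp (-(2 * Real.pi)) * (Real.pi / 8 * Real.exp (-(Real.pi / 4))), by positivity,
    fun N B m hN hB hm hmN => ⟨_, JnAux.Jn_eq b hN B m, ?_⟩⟩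
  have hN' : (0 : ℝ) < (N : ℝ) := by exact_mod_cast hN
  have hm' : (0 : ℝ) ≤ (m : ℝ) := by exact_mod_cast hm
  have hmN' : (m : ℝ) ≤ (N : ℝ) := by exact_mod_cast hmN
  have h1 := JnAux.R_lower hN hB (add_nonneg (JnAux.c1_nonneg b) hm')
  have h2 : Real.exp (-(2 * Real.pi)) ≤ Real.exp (-(2 * Real.pi * m / N)) := by
    rw [Real.exp_le_exp, neg_le_neg_iff, div_le_iff₀ hN']
    nlinarith
  exact mul_le_mul h2 h1 (by positivity) (Real.exp_pos _).le

end Pool.Agent.Lib.TSP
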