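import Pool.Agent.Lib.TSP.Bes

/-!
# TSP.Arc: major and minor arcs (1.5 h)
PROOF. `I = [-1/(2Q), 1 - 1/(2Q)]`. The arcs `|α - a/q| ≤ B`, `q ∈ M`, `a ∈ cop q`, are pairwise disjoint (different reduced fractions with denominators `≤ Q` differ by
`≥ 1/Q² > 2B`) and contained in `I` (`0 ≤ a/q ≤ 1 - 1/Q`, `B < 1/(2Q²) ≤ 1/(2Q)`). Let `Φ(α) = Ψ a q (α - a/q)` on the arc of `a/q` and `0` elsewhere
(a finite sum of indicators). `H = F - Φ` on `I` (extended by `0`) is measurable and bounded, and `∫_I H e(-mα)` is the number in the norm on the left. `bessel`, and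
`∫_I |H|² = ∑_arcs ∫_{-B}^{B} |F(a/q+β) - Ψ|² + ∫_{I ∖ arcs} |F|²`. For `α ∈ I ∖ arcs`: Dirichlet (`Real.exists_rat_abs_sub_le_and_den_le` with `n = R`): `c/d`, `1 ≤ d ≤ R`,
`gcd(c,d) = 1`, `|α - c/d| ≤ 1/(dR)`. If `d ∈ M` then `|α - c/d| ≥ B`: otherwise (`α ∈ I`) `-1/Q < c/d < 1`, so `0 ≤ c < d` and `α` would be in an arc.
`|α| ≤ 1`, so `|c/d| ≤ 2`, `c = a + j d` with `0 ≤ a < d`, `-2 ≤ j ≤ 2`: 5 values of `j`; by periodicity of `F` each gives the same integral: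
`∫_{I ∖ arcs} |F|² ≤ ∑_d ∑_{c} ∫_{β} |F(c/d + β)|²` over `B ≤ |β| ≤ 1/(dR)` if `d ∈ M` and `|β| ≤ 1/(dR)` otherwise (covering; `F` bounded on compact sets).
-/

set_option autoImplicit false

open Finset

namespace Pool.Agent.Lib.TSP

namespace ArcAux

open MeasureTheory

/-- the set of `β` at the denominator `d` -/
def Bs (M : Finset ℕ) (R : ℕ) (B : ℝ) (d : ℕ) : Set ℝ :=
  if d ∈ M then {β : ℝ | B ≤ |β| ∧ |β| ≤ 1 / ((d : ℝ) * R)} else {β : ℝ | |β| ≤ 1 / ((d : ℝ) * R)}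

theorem Bs_meas (M : Finset ℕ) (R : ℕ) (B : ℝ) (d : ℕ) : MeasurableSet (Bs M R B d) := by
  unfold Bs
  split_ifs
  · exact (measurableSet_le measurable_const continuous_abs.measurable).inter
      (measurableSet_le continuous_abs.measurable measurable_const)
  · exact measurableSet_le continuous_abs.measurable measurable_const

theorem Bs_sub (M : Finset ℕ) (R : ℕ) (B : ℝ) (d : ℕ) :
    Bs M R B d ⊆ Set.Icc (-(1 / ((d : ℝ) * R))) (1 / ((d : ℝ) * R)) := by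
  intro β hβ
  unfold Bs at hβ
  split_ifs at hβ
  · exact abs_le.mp hβ.2
  · exact abs_le.mp hβ

/-- shift of a set integral -/
theorem shift {E : Type*} [NormedAddCommGroup E] [NormedSpace ℝ E] (g : ℝ → E) (c : ℝ) (s : Set ℝ) :
    ∫ x in (fun x => x - c) ⁻¹' s, g x = ∫ β in s, g (c + β) := by
  have h := (measurePreserving_sub_right (volume : Measure ℝ) c).setIntegral_preimage_emb
    (measurableEmbedding_subRight c) (fun β => g (c + β)) s
  simpa using h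

/-- the index set of the arcs -/
def idx (M : Finset ℕ) : Finset (Σ _ : ℕ, ℕ) := M.sigma fun q => cop q

/-- the centre of an arc -/
noncomputable def cen (i : Σ _ : ℕ, ℕ) : ℝ := (i.2 : ℝ) / (i.1 : ℝ)

/-- the arc -/
def arcS (B : ℝ) (i : Σ _ : ℕ, ℕ) : Set ℝ := (fun x => x - cen i) ⁻¹' (Set.Ioc (-B) B)

theorem arcS_meas (B : ℝ) (i : Σ _ : ℕ, ℕ) : MeasurableSet (arcS B i) :=
  (measurable_id.sub_const _) measurableSet_Ioc

theorem mem_idx {M : Finset ℕ} {i : Σ _ : ℕ, ℕ} :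
    i ∈ idx M ↔ i.1 ∈ M ∧ i.2 < i.1 ∧ Nat.Coprime i.2 i.1 := by
  unfold idx cop
  rw [Finset.mem_sigma, Finset.mem_filter, Finset.mem_range]

/-- the arcs are contained in the interval -/
theorem arcS_sub {M : Finset ℕ} {Q : ℕ} (hQ1 : 1 ≤ Q) (hQ : ∀ q ∈ M, 1 ≤ q ∧ q ≤ Q) {B : ℝ}
    (hBQ : 2 * B * (Q : ℝ) ^ 2 < 1) {i : Σ _ : ℕ, ℕ} (hi : i ∈ idx M) :
    arcS B i ⊆ Set.Ioc (-(1 / (2 * (Q : ℝ)))) (1 - 1 / (2 * (Q : ℝ))) := by
  rw [mem_idx] at hi
  obtain ⟨h1, h2⟩ := hQ _ hi.1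
  have hq0 : (0 : ℝ) < i.1 := by exact_mod_cast h1
  have hQ0 : (0 : ℝ) < Q := by exact_mod_cast hQ1
  have hQ1' : (1 : ℝ) ≤ Q := by exact_mod_cast hQ1
  have hqQ : (i.1 : ℝ) ≤ Q := by exact_mod_cast h2
  have hc0 : 0 ≤ cen i := by unfold cen; positivity
  have hc1 : cen i ≤ 1 - 1 / (Q : ℝ) := by
    have h3 : (i.2 : ℝ) + 1 ≤ i.1 := by exact_mod_cast hi.2.1
    have h4 : cen i ≤ 1 - 1 / (i.1 : ℝ) := by
      unfold cen
      rw [div_le_iff₀ hq0, sub_mul, one_mul, one_div, inv_mul_cancel₀ hq0.ne']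
      linarith
    have h5 : 1 / (Q : ℝ) ≤ 1 / (i.1 : ℝ) := one_div_le_one_div_of_le hq0 hqQ
    linarith
  have hB2 : B < 1 / (2 * (Q : ℝ)) := by
    rw [lt_div_iff₀ (by positivity)]
    nlinarith
  have h6 : 1 / (Q : ℝ) = 1 / (2 * (Q : ℝ)) + 1 / (2 * (Q : ℝ)) := by
    field_simp
    norm_num
  intro x hx
  have hx' : -B < x - cen i ∧ x - cen i ≤ B := hx
  constructor
  · linarith [hx'.1]
  · linarith [hx'.2]

/-- the arcs are disjoint -/
theorem arcS_disj {M : Finset ℕ} {Q : ℕ} (hQ : ∀ q ∈ M, 1 ≤ q ∧ q ≤ Q) {B : ℝ}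
    (hBQ : 2 * B * (Q : ℝ) ^ 2 < 1) {i j : Σ _ : ℕ, ℕ} (hi : i ∈ idx M) (hj : j ∈ idx M) {x : ℝ}
    (hxi : x ∈ arcS B i) (hxj : x ∈ arcS B j) : i = j := by
  rw [mem_idx] at hi hj
  obtain ⟨q, a⟩ := i
  obtain ⟨r, b⟩ := j
  simp only at hi hj
  obtain ⟨h1, h2⟩ := hQ _ hi.1
  obtain ⟨h3, h4⟩ := hQ _ hj.1
  have hq0 : (0 : ℝ) < q := by exact_mod_cast h1
  have hr0 : (0 : ℝ) < r := by exact_mod_cast h3
  have hqQ : (q : ℝ) ≤ Q := by exact_mod_cast h2
  have hrQ : (r : ℝ) ≤ Q := by exact_mod_cast h4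
  have hx1 : -B < x - (a : ℝ) / q ∧ x - (a : ℝ) / q ≤ B := hxi
  have hx2 : -B < x - (b : ℝ) / r ∧ x - (b : ℝ) / r ≤ B := hxj
  -- the integers
  have hab : ((a : ℤ) * r - b * q) = 0 := by
    by_contra hne
    have h5 : (1 : ℤ) ≤ |(a : ℤ) * r - b * q| := Int.one_le_abs hne
    have h6 : (1 : ℝ) ≤ |(a : ℝ) * r - b * q| := by exact_mod_cast h5
    have h7 : (a : ℝ) * r - b * q = ((a : ℝ) / q - (b : ℝ) / r) * (q * r) := by
      field_simp
    rw [h7, abs_mul, abs_of_pos (by positivity : (0 : ℝ) < q * r)] at h6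
    have h8 : |(a : ℝ) / q - (b : ℝ) / r| ≤ 2 * B := by
      rw [abs_le]
      constructor <;> linarith [hx1.1, hx1.2, hx2.1, hx2.2]
    have h9 : (q : ℝ) * r ≤ Q ^ 2 := by nlinarith
    have h10 : |(a : ℝ) / q - (b : ℝ) / r| * (q * r) ≤ 2 * B * (Q : ℝ) ^ 2 := by
      have hB0 : 0 ≤ 2 * B := (abs_nonneg _).trans h8
      exact mul_le_mul h8 h9 (by positivity) hB0
    linarith
  have hab' : a * r = b * q := by
    have : (a : ℤ) * r = b * q := by linarith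
    exact_mod_cast this
  have hqr : q = r := by
    apply Nat.dvd_antisymm
    · have : q ∣ a * r := ⟨b, by rw [hab', mul_comm]⟩
      exact (Nat.Coprime.symm hi.2.2).dvd_of_dvd_mul_left this
    · have : r ∣ b * q := ⟨a, by rw [← hab', mul_comm]⟩
      exact (Nat.Coprime.symm hj.2.2).dvd_of_dvd_mul_left this
  subst hqr
  have : a = b := Nat.eq_of_mul_eq_mul_right (by omega) hab'
  subst this
  rfl

/-- covering of the minor arcs -/
theorem cover {M : Finset ℕ} {Q R : ℕ} (hQ1 : 1 ≤ Q) (hQ : ∀ q ∈ M, 1 ≤ q ∧ q ≤ Q) {B : ℝ}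
    (hBQ : 2 * B * (Q : ℝ) ^ 2 < 1) (hR : 1 ≤ R) {x : ℝ}
    (hx : x ∈ Set.Ioc (-(1 / (2 * (Q : ℝ)))) (1 - 1 / (2 * (Q : ℝ))))
    (hxa : ∀ i ∈ idx M, x ∉ arcS B i) :
    ∃ d ∈ Icc 1 R, ∃ a ∈ cop d, ∃ j ∈ Icc (-2 : ℤ) 2, x - ((a : ℝ) / d + j) ∈ Bs M R B d := by
  obtain ⟨r, hr1, hr2⟩ := Real.exists_rat_abs_sub_le_and_den_le x (n := R) (by omega)
  have hd1 : 1 ≤ r.den := r.den_pos
  have hQ0 : (0 : ℝ) < Q := by exact_mod_cast hQ1
  have hQ1' : (1 : ℝ) ≤ Q := by exact_mod_cast hQ1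
  have hd0 : (0 : ℝ) < r.den := by exact_mod_cast hd1
  have hd1' : (1 : ℝ) ≤ r.den := by exact_mod_cast hd1
  have hR1 : (1 : ℝ) ≤ R := by exact_mod_cast hR
  have hcd : IsCoprime r.num (r.den : ℤ) := by
    rw [Int.isCoprime_iff_gcd_eq_one]
    exact r.reduced
  have hdZ : (0 : ℤ) < r.den := by exact_mod_cast hd1
  have hmod0 : 0 ≤ r.num % (r.den : ℤ) := Int.emod_nonneg _ hdZ.ne'
  have hmodlt : r.num % (r.den : ℤ) < r.den := Int.emod_lt_of_pos _ hdZ
  obtain ⟨a, ha⟩ : ∃ a : ℕ, (a : ℤ) = r.num % (r.den : ℤ) := ⟨(r.num % (r.den : ℤ)).toNat, by omega⟩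
  have hdiv : r.num = a + r.den * (r.num / (r.den : ℤ)) := by
    rw [ha]
    exact (Int.emod_add_mul_ediv r.num r.den).symm
  obtain ⟨j, hj⟩ : ∃ j : ℤ, j = r.num / (r.den : ℤ) := ⟨_, rfl⟩
  rw [← hj] at hdiv
  have hacop : Nat.Coprime a r.den := by
    rw [← Nat.isCoprime_iff_coprime]
    have h1 := hcd.add_mul_left_left (-j)
    have h2 : r.num + (r.den : ℤ) * -j = a := by rw [hdiv]; ring
    rwa [h2] at h1
  have halt : a < r.den := by
    have : (a : ℤ) < r.den := by rw [ha]; exact hmodlt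
    exact_mod_cast this
  have hrr : (r : ℝ) = (a : ℝ) / r.den + j := by
    rw [Rat.cast_def]
    have : (r.num : ℝ) = (a : ℝ) + r.den * j := by exact_mod_cast hdiv
    rw [this]
    field_simp
  have hbd : |x - r| ≤ 1 / ((r.den : ℝ) * R) := by
    refine hr1.trans ?_
    apply one_div_le_one_div_of_le (by positivity)
    nlinarith
  have hbd1 : |x - r| ≤ 1 := by
    refine hbd.trans ?_
    rw [div_le_one (by positivity)]
    nlinarith
  have h2Q : 1 / (2 * (Q : ℝ)) ≤ 1 / 2 := by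
    apply one_div_le_one_div_of_le (by norm_num)
    linarith
  have h2Q0 : 0 < 1 / (2 * (Q : ℝ)) := by positivity
  have hfr0 : 0 ≤ (a : ℝ) / r.den := by positivity
  have hfr1 : (a : ℝ) / r.den < 1 := by
    rw [div_lt_one hd0]
    exact_mod_cast halt
  refine ⟨r.den, Finset.mem_Icc.mpr ⟨hd1, hr2⟩, a, ?_, j, ?_, ?_⟩
  · unfold cop
    rw [Finset.mem_filter, Finset.mem_range]
    exact ⟨halt, hacop⟩
  · have h3 := abs_le.mp hbd1
    have h4 : (-3 : ℝ) < j := by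
      rw [hrr] at h3
      linarith [h3.1, h3.2, hx.1, hx.2]
    have h5 : (j : ℝ) < 3 := by
      rw [hrr] at h3
      linarith [h3.1, h3.2, hx.1, hx.2]
    have h4' : (-3 : ℤ) < j := by exact_mod_cast h4
    have h5' : j < (3 : ℤ) := by exact_mod_cast h5
    rw [Finset.mem_Icc]
    omega
  · rw [← hrr]
    unfold Bs
    split_ifs with hdM
    · refine ⟨?_, hbd⟩
      by_contra hlt
      rw [not_le] at hlt
      have hB2 : B < 1 / (2 * (Q : ℝ)) := by
        rw [lt_div_iff₀ (by positivity)]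
        have : 0 < B := (abs_nonneg _).trans_lt hlt
        nlinarith
      have h3 := abs_lt.mp hlt
      have h6 : 1 / (Q : ℝ) = 1 / (2 * (Q : ℝ)) + 1 / (2 * (Q : ℝ)) := by
        field_simp
        norm_num
      have hr_lt : (r : ℝ) < 1 := by linarith [h3.1, hx.2]
      have hr_gt : -(1 / (Q : ℝ)) < r := by linarith [h3.2, hx.1]
      have hdQ : (r.den : ℝ) ≤ Q := by exact_mod_cast (hQ _ hdM).2
      have h7 : 1 / (Q : ℝ) ≤ 1 / (r.den : ℝ) := one_div_le_one_div_of_le hd0 hdQ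
      -- j = 0
      have hj1 : (j : ℝ) < 1 := by rw [hrr] at hr_lt; linarith
      have hj2 : (-1 : ℝ) < j := by
        rw [hrr] at hr_gt
        have h8 : (a : ℝ) / r.den ≤ 1 - 1 / (r.den : ℝ) := by
          rw [div_le_iff₀ hd0, sub_mul, one_mul, one_div, inv_mul_cancel₀ hd0.ne']
          have : (a : ℝ) + 1 ≤ r.den := by exact_mod_cast halt
          linarith
        linarith
      have hj1' : j < (1 : ℤ) := by exact_mod_cast hj1
      have hj2' : (-1 : ℤ) < j := by exact_mod_cast hj2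
      have hj0 : j = 0 := by omega
      apply hxa ⟨r.den, a⟩ (mem_idx.mpr ⟨hdM, halt, hacop⟩)
      show -B < x - (a : ℝ) / (r.den : ℝ) ∧ x - (a : ℝ) / (r.den : ℝ) ≤ B
      rw [hrr, hj0] at h3
      simp only [Int.cast_zero, add_zero] at h3
      exact ⟨h3.1, h3.2.le⟩
    · exact hbd

/-- boundedness of a truncated continuous function -/
theorem bdd_ind {f : ℝ → ℂ} (hf : Continuous f) (s : Set ℝ) (a b : ℝ) (hs : s ⊆ Set.Icc a b) :
    ∃ C : ℝ, 0 ≤ C ∧ ∀ x, ‖s.indicator f x‖ ≤ C := by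
  obtain ⟨C, hC⟩ := (isCompact_Icc (a := a) (b := b)).exists_bound_of_continuousOn hf.continuousOn
  refine ⟨max C 0, le_max_right _ _, fun x => ?_⟩
  by_cases hx : x ∈ s
  · rw [Set.indicator_of_mem hx]
    exact (hC x (hs hx)).trans (le_max_left _ _)
  · rw [Set.indicator_of_notMem hx, norm_zero]
    exact le_max_right _ _

end ArcAux

open MeasureTheory ArcAux

theorem arc (F : ℝ → ℂ) (hF : Continuous F) (hper : ∀ x, F (x + 1) = F x)
    (Ψ : ℕ → ℕ → ℝ → ℂ) (hΨ : ∀ a q, Continuous (Ψ a q)) (M : Finset ℕ) (Q R : ℕ) (hQ1 : 1 ≤ Q)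
    (hQ : ∀ q ∈ M, 1 ≤ q ∧ q ≤ Q) (B : ℝ) (hB : 0 < B) (hBQ : 2 * B * (Q : ℝ) ^ 2 < 1) (hR : 1 ≤ R)
    (S : Finset ℤ) :
    ∑ m ∈ S, ‖(∫ α in (-(1 / (2 * (Q : ℝ))))..(1 - 1 / (2 * (Q : ℝ))), F α * e (-((m : ℝ) * α))) -
        ∑ q ∈ M, ∑ a ∈ cop q, e (-((m : ℝ) * ((a : ℝ) / q))) *
          ∫ β in (-B)..B, Ψ a q β * e (-((m : ℝ) * β))‖ ^ 2 ≤
      (∑ q ∈ M, ∑ a ∈ cop q, ∫ β in (-B)..B, ‖F ((a : ℝ) / q + β) - Ψ a q β‖ ^ 2) +
      5 * (∑ q ∈ M, ∑ a ∈ cop q, ∫ β in {β : ℝ | B ≤ |β| ∧ |β| ≤ 1 / ((q : ℝ) * R)},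
        ‖F ((a : ℝ) / q + β)‖ ^ 2) +
      5 * (∑ q ∈ Icc 1 R \ M, ∑ a ∈ cop q, ∫ β in {β : ℝ | |β| ≤ 1 / ((q : ℝ) * R)},
        ‖F ((a : ℝ) / q + β)‖ ^ 2) := by
  obtain ⟨s, hs⟩ : ∃ s : ℝ, s = -(1 / (2 * (Q : ℝ))) := ⟨_, rfl⟩
  obtain ⟨t, ht⟩ : ∃ t : ℝ, t = 1 - 1 / (2 * (Q : ℝ)) := ⟨_, rfl⟩
  have hst : t = s + 1 := by rw [hs, ht]; ring
  have hle : s ≤ t := by rw [hst]; linarith
  rw [← hs, ← ht]
  have hcont_e : ∀ m : ℤ, Continuous (fun α : ℝ => e (-((m : ℝ) * α))) := fun m =>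
    continuous_e.comp (continuous_const.mul continuous_id).neg
  -- the major part
  obtain ⟨Pi, hPi⟩ : ∃ Pi : (Σ _ : ℕ, ℕ) → ℝ → ℂ, ∀ i x, Pi i x = Ψ i.2 i.1 (x - cen i) :=
    ⟨fun i x => Ψ i.2 i.1 (x - cen i), fun _ _ => rfl⟩
  have hPic : ∀ i, Continuous (Pi i) := fun i => by
    have : Pi i = fun x => Ψ i.2 i.1 (x - cen i) := funext (hPi i)
    rw [this]
    exact (hΨ _ _).comp (continuous_id.sub continuous_const)
  obtain ⟨Φ, hΦ⟩ : ∃ Φ : ℝ → ℂ, ∀ x, Φ x = ∑ i ∈ idx M, (arcS B i).indicator (Pi i) x :=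
    ⟨_, fun _ => rfl⟩
  have hΦm : Measurable Φ := by
    have : Φ = fun x => ∑ i ∈ idx M, (arcS B i).indicator (Pi i) x := funext hΦ
    rw [this]
    exact Finset.measurable_sum _ fun i _ => (hPic i).measurable.indicator (arcS_meas B i)
  obtain ⟨H, hH⟩ : ∃ H : ℝ → ℂ, ∀ x, H x = (Set.Ioc s t).indicator F x - Φ x := ⟨_, fun _ => rfl⟩
  have hHm : Measurable H := by
    have : H = fun x => (Set.Ioc s t).indicator F x - Φ x := funext hH
    rw [this]
    exact (hF.measurable.indicator measurableSet_Ioc).sub hΦm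
  have harcsub : ∀ i ∈ idx M, arcS B i ⊆ Set.Ioc s t := by
    intro i hi
    rw [hs, ht]
    exact arcS_sub hQ1 hQ hBQ hi
  have harcIcc : ∀ i, arcS B i ⊆ Set.Icc (cen i - B) (cen i + B) := by
    intro i x hx
    have hx' : -B < x - cen i ∧ x - cen i ≤ B := hx
    constructor
    · linarith [hx'.1]
    · linarith [hx'.2]
  obtain ⟨K, hK⟩ : ∃ K : ℝ, ∀ x, ‖H x‖ ≤ K := by
    obtain ⟨C0, hC0, hC0'⟩ := bdd_ind hF (Set.Ioc s t) s t Set.Ioc_subset_Icc_self
    have h1 : ∀ i : Σ _ : ℕ, ℕ, ∃ C : ℝ, 0 ≤ C ∧ ∀ x, ‖(arcS B i).indicator (Pi i) x‖ ≤ C := fun i =>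
      bdd_ind (hPic i) (arcS B i) _ _ (harcIcc i)
    choose C hC1 hC2 using h1
    refine ⟨C0 + ∑ i ∈ idx M, C i, fun x => ?_⟩
    rw [hH, hΦ]
    refine (norm_sub_le _ _).trans ?_
    refine add_le_add (hC0' x) ((norm_sum_le _ _).trans ?_)
    exact Finset.sum_le_sum fun i _ => hC2 i x
  -- Bessel
  have hbes := bessel H hHm K hK s t hst S
  -- the left side
  have hleft : ∀ m : ℤ, (∫ α in s..t, H α * e (-((m : ℝ) * α))) =
      (∫ α in s..t, F α * e (-((m : ℝ) * α))) -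
        ∑ q ∈ M, ∑ a ∈ cop q, e (-((m : ℝ) * ((a : ℝ) / q))) *
          ∫ β in (-B)..B, Ψ a q β * e (-((m : ℝ) * β)) := by
    intro m
    rw [intervalIntegral.integral_of_le hle, intervalIntegral.integral_of_le hle]
    have h1 : ∫ α in Set.Ioc s t, H α * e (-((m : ℝ) * α)) =
        ∫ α in Set.Ioc s t, (F α * e (-((m : ℝ) * α)) -
          ∑ i ∈ idx M, (arcS B i).indicator (fun α => Pi i α * e (-((m : ℝ) * α))) α) := by
      refine setIntegral_congr_fun measurableSet_Ioc fun x hx => ?_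
      rw [hH, Set.indicator_of_mem hx, hΦ, sub_mul, Finset.sum_mul]
      congr 1
      refine Finset.sum_congr rfl fun i _ => ?_
      by_cases hxi : x ∈ arcS B i
      · rw [Set.indicator_of_mem hxi, Set.indicator_of_mem hxi]
      · rw [Set.indicator_of_notMem hxi, Set.indicator_of_notMem hxi, zero_mul]
    have hi1 : Integrable (fun α => F α * e (-((m : ℝ) * α))) (volume.restrict (Set.Ioc s t)) :=
      ((hF.mul (hcont_e m)).integrableOn_Icc (a := s) (b := t)).mono_set Set.Ioc_subset_Icc_self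
    have hi2 : ∀ i ∈ idx M, Integrable
        (fun α => (arcS B i).indicator (fun α => Pi i α * e (-((m : ℝ) * α))) α)
        (volume.restrict (Set.Ioc s t)) := by
      intro i _
      refine Integrable.indicator ?_ (arcS_meas B i)
      exact (((hPic i).mul (hcont_e m)).integrableOn_Icc (a := s) (b := t)).mono_set
        Set.Ioc_subset_Icc_self
    rw [h1, integral_sub hi1 (integrable_finsetSum _ hi2), integral_finsetSum _ hi2]
    congr 1
    rw [Finset.sum_sigma' M (fun q => cop q)]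
    refine Finset.sum_congr rfl fun i hi => ?_
    rw [setIntegral_indicator (arcS_meas B i), Set.inter_eq_right.mpr (harcsub i hi)]
    unfold arcS
    rw [shift, intervalIntegral.integral_of_le (by linarith : -B ≤ B), ← integral_const_mul]
    refine setIntegral_congr_fun measurableSet_Ioc fun β _ => ?_
    rw [hPi, add_sub_cancel_left]
    have h2 : -((m : ℝ) * (cen i + β)) = -((m : ℝ) * ((i.2 : ℝ) / (i.1 : ℝ))) + -((m : ℝ) * β) := by
      unfold cen; ring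
    rw [h2, e_add]
    ring
  simp only [hleft] at hbes
  refine hbes.trans ?_
  -- the right side
  obtain ⟨T, hT⟩ : ∃ T : Finset (Σ _ : ℕ, Σ _ : ℕ, ℤ),
      T = (Icc 1 R).sigma fun d => (cop d).sigma fun _ => Icc (-2 : ℤ) 2 := ⟨_, rfl⟩
  obtain ⟨W, hW⟩ : ∃ W : (Σ _ : ℕ, Σ _ : ℕ, ℤ) → Set ℝ, ∀ k, W k =
      (fun x => x - ((k.2.1 : ℝ) / (k.1 : ℝ) + (k.2.2 : ℝ))) ⁻¹' (Bs M R B k.1) := ⟨_, fun _ => rfl⟩
  have hWm : ∀ k, MeasurableSet (W k) := fun k => by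
    rw [hW]
    exact (measurable_id.sub_const _) (Bs_meas M R B k.1)
  have hWi : ∀ k, Integrable ((W k).indicator fun x => ‖F x‖ ^ 2) := by
    intro k
    rw [integrable_indicator_iff (hWm k)]
    refine ((hF.norm.pow 2).integrableOn_Icc
      (a := ((k.2.1 : ℝ) / (k.1 : ℝ) + (k.2.2 : ℝ)) - 1 / ((k.1 : ℝ) * R))
      (b := ((k.2.1 : ℝ) / (k.1 : ℝ) + (k.2.2 : ℝ)) + 1 / ((k.1 : ℝ) * R))).mono_set ?_
    intro x hx
    rw [hW] at hx
    have h1 := Bs_sub M R B k.1 hx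
    constructor
    · linarith [h1.1]
    · linarith [h1.2]
  have hAi : ∀ i, Integrable ((arcS B i).indicator fun x => ‖F x - Pi i x‖ ^ 2) := by
    intro i
    rw [integrable_indicator_iff (arcS_meas B i)]
    exact (((hF.sub (hPic i)).norm.pow 2).integrableOn_Icc
      (a := cen i - B) (b := cen i + B)).mono_set (harcIcc i)
  have hmain : ∫ α in s..t, ‖H α‖ ^ 2 ≤
      (∑ i ∈ idx M, ∫ x, (arcS B i).indicator (fun x => ‖F x - Pi i x‖ ^ 2) x) +
      (∑ k ∈ T, ∫ x, (W k).indicator (fun x => ‖F x‖ ^ 2) x) := by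
    rw [intervalIntegral.integral_of_le hle, ← integral_indicator measurableSet_Ioc,
      ← integral_finsetSum _ (fun i _ => hAi i), ← integral_finsetSum _ (fun k _ => hWi k),
      ← integral_add (integrable_finsetSum _ (fun i _ => hAi i))
        (integrable_finsetSum _ (fun k _ => hWi k))]
    refine integral_mono_of_nonneg ?_ ?_ ?_
    · refine Filter.Eventually.of_forall fun x => ?_
      exact Set.indicator_nonneg (fun x _ => by positivity) x
    · exact (integrable_finsetSum _ (fun i _ => hAi i)).add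
        (integrable_finsetSum _ (fun k _ => hWi k))
    · refine Filter.Eventually.of_forall fun x => ?_
      simp only
      have n1 : ∀ i ∈ idx M, 0 ≤ (arcS B i).indicator (fun x => ‖F x - Pi i x‖ ^ 2) x := fun i _ =>
        Set.indicator_nonneg (fun x _ => by positivity) x
      have n2 : ∀ k ∈ T, 0 ≤ (W k).indicator (fun x => ‖F x‖ ^ 2) x := fun k _ =>
        Set.indicator_nonneg (fun x _ => by positivity) x
      by_cases hx : x ∈ Set.Ioc s t
      · rw [Set.indicator_of_mem hx, hH, Set.indicator_of_mem hx, hΦ]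
        by_cases hxa : ∃ i ∈ idx M, x ∈ arcS B i
        · obtain ⟨i, hi, hxi⟩ := hxa
          have h1 : ∑ j ∈ idx M, (arcS B j).indicator (Pi j) x = Pi i x := by
            rw [Finset.sum_eq_single_of_mem i hi, Set.indicator_of_mem hxi]
            intro j hj hne
            rw [Set.indicator_of_notMem]
            intro hxj
            exact hne (arcS_disj hQ hBQ hj hi hxj hxi)
          rw [h1]
          have h2 := Finset.single_le_sum n1 hi
          rw [Set.indicator_of_mem hxi] at h2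
          have h3 := Finset.sum_nonneg n2
          linarith
        · push Not at hxa
          have h1 : ∑ j ∈ idx M, (arcS B j).indicator (Pi j) x = 0 := by
            refine Finset.sum_eq_zero fun j hj => ?_
            rw [Set.indicator_of_notMem (hxa j hj)]
          rw [h1, sub_zero]
          obtain ⟨d, hd, a, ha, j, hj, hxW⟩ := cover hQ1 hQ hBQ hR (by rw [← hs, ← ht]; exact hx) hxa
          have hkT : (⟨d, a, j⟩ : Σ _ : ℕ, Σ _ : ℕ, ℤ) ∈ T := by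
            rw [hT, Finset.mem_sigma]
            refine ⟨hd, ?_⟩
            rw [Finset.mem_sigma]
            exact ⟨ha, hj⟩
          have hxk : x ∈ W ⟨d, a, j⟩ := by
            rw [hW]
            exact hxW
          have h2 := Finset.single_le_sum n2 hkT
          rw [Set.indicator_of_mem hxk] at h2
          have h3 := Finset.sum_nonneg n1
          linarith
      · rw [Set.indicator_of_notMem hx]
        exact add_nonneg (Finset.sum_nonneg n1) (Finset.sum_nonneg n2)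
  refine hmain.trans ?_
  have hp1 : ∑ i ∈ idx M, ∫ x, (arcS B i).indicator (fun x => ‖F x - Pi i x‖ ^ 2) x =
      ∑ q ∈ M, ∑ a ∈ cop q, ∫ β in (-B)..B, ‖F ((a : ℝ) / q + β) - Ψ a q β‖ ^ 2 := by
    rw [Finset.sum_sigma' M (fun q => cop q)]
    refine Finset.sum_congr rfl fun i _ => ?_
    rw [integral_indicator (arcS_meas B i)]
    unfold arcS
    rw [shift, intervalIntegral.integral_of_le (by linarith : -B ≤ B)]
    refine setIntegral_congr_fun measurableSet_Ioc fun β _ => ?_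
    rw [hPi, add_sub_cancel_left]
    rfl
  have hperZ : ∀ (j : ℤ) (x : ℝ), F (x + j) = F x := by
    intro j x
    have hp : Function.Periodic F 1 := hper
    have := hp.int_mul j x
    simpa using this
  have hp2 : ∑ k ∈ T, ∫ x, (W k).indicator (fun x => ‖F x‖ ^ 2) x =
      5 * ∑ d ∈ Icc 1 R, ∑ a ∈ cop d, ∫ β in Bs M R B d, ‖F ((a : ℝ) / d + β)‖ ^ 2 := by
    rw [hT, Finset.sum_sigma, Finset.mul_sum]
    refine Finset.sum_congr rfl fun d _ => ?_
    rw [Finset.sum_sigma, Finset.mul_sum]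
    refine Finset.sum_congr rfl fun a _ => ?_
    have h1 : ∀ j ∈ Icc (-2 : ℤ) 2, ∫ x, (W ⟨d, a, j⟩).indicator (fun x => ‖F x‖ ^ 2) x =
        ∫ β in Bs M R B d, ‖F ((a : ℝ) / d + β)‖ ^ 2 := by
      intro j _
      rw [integral_indicator (hWm _), hW, shift]
      refine setIntegral_congr_fun (Bs_meas M R B d) fun β _ => ?_
      simp only
      have h2 : (a : ℝ) / (d : ℝ) + (j : ℝ) + β = ((a : ℝ) / d + β) + j := by ring
      rw [h2, hperZ]
    rw [Finset.sum_congr rfl h1, Finset.sum_const]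
    have h3 : (Icc (-2 : ℤ) 2).card = 5 := by decide
    rw [h3, nsmul_eq_mul]
    push_cast
    ring
  rw [hp1, hp2]
  have hsplit : ∑ d ∈ Icc 1 R, ∑ a ∈ cop d, ∫ β in Bs M R B d, ‖F ((a : ℝ) / d + β)‖ ^ 2 ≤
      (∑ q ∈ M, ∑ a ∈ cop q, ∫ β in {β : ℝ | B ≤ |β| ∧ |β| ≤ 1 / ((q : ℝ) * R)},
        ‖F ((a : ℝ) / q + β)‖ ^ 2) +
      (∑ q ∈ Icc 1 R \ M, ∑ a ∈ cop q, ∫ β in {β : ℝ | |β| ≤ 1 / ((q : ℝ) * R)},
        ‖F ((a : ℝ) / q + β)‖ ^ 2) := by
    have h1 : (∑ q ∈ Icc 1 R \ M, ∑ a ∈ cop q, ∫ β in Bs M R B q, ‖F ((a : ℝ) / q + β)‖ ^ 2) =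
        ∑ q ∈ Icc 1 R \ M, ∑ a ∈ cop q, ∫ β in {β : ℝ | |β| ≤ 1 / ((q : ℝ) * R)},
          ‖F ((a : ℝ) / q + β)‖ ^ 2 := by
      refine Finset.sum_congr rfl fun q hq => ?_
      have hqM : q ∉ M := (Finset.mem_sdiff.mp hq).2
      refine Finset.sum_congr rfl fun a _ => ?_
      unfold Bs
      rw [if_neg hqM]
    have h2 : (∑ q ∈ Icc 1 R ∩ M, ∑ a ∈ cop q, ∫ β in Bs M R B q, ‖F ((a : ℝ) / q + β)‖ ^ 2) ≤
        ∑ q ∈ M, ∑ a ∈ cop q, ∫ β in {β : ℝ | B ≤ |β| ∧ |β| ≤ 1 / ((q : ℝ) * R)},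
          ‖F ((a : ℝ) / q + β)‖ ^ 2 := by
      have h3 : (∑ q ∈ Icc 1 R ∩ M, ∑ a ∈ cop q, ∫ β in Bs M R B q, ‖F ((a : ℝ) / q + β)‖ ^ 2) =
          ∑ q ∈ Icc 1 R ∩ M, ∑ a ∈ cop q,
            ∫ β in {β : ℝ | B ≤ |β| ∧ |β| ≤ 1 / ((q : ℝ) * R)}, ‖F ((a : ℝ) / q + β)‖ ^ 2 := by
        refine Finset.sum_congr rfl fun q hq => ?_
        have hqM : q ∈ M := (Finset.mem_inter.mp hq).2
        refine Finset.sum_congr rfl fun a _ => ?_
        unfold Bs
        rw [if_pos hqM]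
      rw [h3]
      refine Finset.sum_le_sum_of_subset_of_nonneg Finset.inter_subset_right fun q _ _ => ?_
      exact Finset.sum_nonneg fun a _ => integral_nonneg fun β => by positivity
    have h4 := Finset.sum_sdiff (Finset.inter_subset_left (s₁ := Icc 1 R) (s₂ := M))
      (f := fun q => ∑ a ∈ cop q, ∫ β in Bs M R B q, ‖F ((a : ℝ) / q + β)‖ ^ 2)
    rw [Finset.sdiff_inter_self_left] at h4
    linarith
  linarith

end Pool.Agent.Lib.TSP
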