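import Pool.Agent.Lib.TSP.TheA

/-!
# TSP.Coef: Fourier coefficients of the generating function (1 h)
PROOF. `th u v N` is a series of continuous functions of `α` of period 1 with summable norms independent of `α` (`summable_th0`; the norm of the term is
`exp(-2π P(x)/N)`), so continuous (`continuous_tsum`) and of period 1 (`P(x)` is an integer). `F` is a product of two such series and a finite sum: for fixed `t < T`
`F(α) e(-mα) = ∑_t ∑_{(x,y) ∈ ℤ²} exp(-2π(P₁(x)+P₂(y))/N) e((P₁(x)+P₂(y)+P₃(t)-m) α)` (`tsum_mul_tsum_of_summable_norm`), integrate term by term over `[s, s+1]`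
(`intervalIntegral.hasSum_integral_of_summable_norm` or similar): every frequency `k = P₁+P₂+P₃-m` is a nonzero integer since `¬ Rep b T m`, and
`∫_s^(s+1) e(kα) dα = 0`.
-/

set_option autoImplicit false

open Finset

namespace Pool.Agent.Lib.TSP

namespace CoefAux

theorem norm_term (N : ℕ) (α : ℝ) (P : ℤ) :
    ‖Complex.exp (2 * Real.pi * Complex.I * ((α : ℂ) + Complex.I / (N : ℂ)) * (P : ℂ))‖ =
      Real.exp (-(2 * Real.pi * P / N)) := by
  have h : (2 * Real.pi * Complex.I * ((α : ℂ) + Complex.I / (N : ℂ)) * (P : ℂ)) =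
      ((-(2 * Real.pi * P / N) : ℝ) : ℂ) + ((2 * Real.pi * α * P : ℝ) : ℂ) * Complex.I := by
    push_cast
    linear_combination (2 * (Real.pi : ℂ) * P / N) * Complex.I_mul_I
  rw [h, Complex.exp_add, norm_mul, Complex.norm_exp_ofReal_mul_I, mul_one, Complex.norm_exp_ofReal]

theorem summable_real {u : ℤ} (hu : 0 < u) (v : ℤ) {N : ℕ} (hN : 1 ≤ N) :
    Summable fun x : ℤ => Real.exp (-(2 * Real.pi * (qp u v x : ℤ) / N)) := by
  refine (summable_th0 hu v hN 0).congr fun x => ?_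
  exact (norm_term N 0 (qp u v x)).symm ▸ rfl

theorem th_cont {u : ℤ} (hu : 0 < u) (v : ℤ) {N : ℕ} (hN : 1 ≤ N) : Continuous (th u v N) := by
  unfold th
  refine continuous_tsum (fun x => ?_) (summable_real hu v hN) (fun x α => (norm_term N α _).le)
  fun_prop

theorem th_per (u v : ℤ) (N : ℕ) (α : ℝ) : th u v N (α + 1) = th u v N α := by
  unfold th
  refine tsum_congr fun x => ?_
  have h : (2 * Real.pi * Complex.I * (((α + 1 : ℝ) : ℂ) + Complex.I / (N : ℂ)) * ((qp u v x : ℤ) : ℂ)) =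
      (2 * Real.pi * Complex.I * ((α : ℂ) + Complex.I / (N : ℂ)) * ((qp u v x : ℤ) : ℂ)) +
        ((qp u v x : ℤ) : ℂ) * (2 * Real.pi * Complex.I) := by
    push_cast
    ring
  rw [h, Complex.exp_add, Complex.exp_int_mul_two_pi_mul_I, mul_one]

theorem f_cont (b : Bool) (T : ℕ) : Continuous (f b T) := by
  unfold f
  exact continuous_finsetSum _ fun t _ => continuous_e.comp (by fun_prop)

theorem f_per (b : Bool) (T : ℕ) (α : ℝ) : f b T (α + 1) = f b T α := by
  unfold f
  refine Finset.sum_congr rfl fun t _ => ?_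
  rw [add_mul, one_mul, e_add_int]

theorem int_zero (k : ℤ) (hk : k ≠ 0) (s t : ℝ) (hst : t = s + 1) (c : ℂ) :
    ∫ α in s..t, c * Complex.exp ((2 * Real.pi * Complex.I * k) * (α : ℂ)) = 0 := by
  have hc : (2 * Real.pi * Complex.I * k : ℂ) ≠ 0 := by
    have : (k : ℂ) ≠ 0 := by exact_mod_cast hk
    simp [Real.pi_ne_zero, this]
  rw [intervalIntegral.integral_const_mul, integral_exp_mul_complex hc, hst]
  have h : (2 * Real.pi * Complex.I * k : ℂ) * ((s + 1 : ℝ) : ℂ) =
      (2 * Real.pi * Complex.I * k : ℂ) * (s : ℂ) + (k : ℂ) * (2 * Real.pi * Complex.I) := by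
    push_cast
    ring
  rw [h, Complex.exp_add, Complex.exp_int_mul_two_pi_mul_I, mul_one, sub_self, zero_div, mul_zero]

theorem term_eq (N : ℕ) (α : ℝ) (P1 P2 P3' m : ℤ) :
    Complex.exp (2 * Real.pi * Complex.I * ((α : ℂ) + Complex.I / (N : ℂ)) * (P1 : ℂ)) *
      Complex.exp (2 * Real.pi * Complex.I * ((α : ℂ) + Complex.I / (N : ℂ)) * (P2 : ℂ)) *
      (e (α * (P3' : ℝ)) * e (-((m : ℝ) * α))) =
    ((Real.exp (-(2 * Real.pi * P1 / N)) : ℝ) : ℂ) * ((Real.exp (-(2 * Real.pi * P2 / N)) : ℝ) : ℂ) *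
      Complex.exp ((2 * Real.pi * Complex.I * ((P1 + P2 + P3' - m : ℤ) : ℂ)) * (α : ℂ)) := by
  unfold e
  push_cast
  rw [← Complex.exp_add, ← Complex.exp_add, ← Complex.exp_add, ← Complex.exp_add, ← Complex.exp_add]
  congr 1
  linear_combination (2 * (Real.pi : ℂ) * (P1 + P2) / N) * Complex.I_mul_I

theorem one_term {u1 u2 : ℤ} (hu1 : 0 < u1) (hu2 : 0 < u2) (w1 w2 : ℤ) {N : ℕ} (hN : 1 ≤ N) (p m : ℤ)
    (h : ∀ x y : ℤ, qp u1 w1 x + qp u2 w2 y + p ≠ m) (s t : ℝ) (hst : t = s + 1) :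
    ∫ α in s..t, th u1 w1 N α * th u2 w2 N α * (e (α * (p : ℝ)) * e (-((m : ℝ) * α))) = 0 := by
  classical
  set A : ℤ → ℝ := fun x => Real.exp (-(2 * Real.pi * (qp u1 w1 x : ℤ) / N)) with hA
  set B : ℤ → ℝ := fun y => Real.exp (-(2 * Real.pi * (qp u2 w2 y : ℤ) / N)) with hB
  have sA : Summable A := summable_real hu1 w1 hN
  have sB : Summable B := summable_real hu2 w2 hN
  set T : ℤ × ℤ → ℝ → ℂ := fun z α => ((A z.1 : ℝ) : ℂ) * ((B z.2 : ℝ) : ℂ) *
      Complex.exp ((2 * Real.pi * Complex.I * ((qp u1 w1 z.1 + qp u2 w2 z.2 + p - m : ℤ) : ℂ)) * (α : ℂ))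
    with hT
  have hTn : ∀ z α, ‖T z α‖ = A z.1 * B z.2 := by
    intro z α
    rw [hT]
    simp only
    have h1 : ((2 * Real.pi * Complex.I * ((qp u1 w1 z.1 + qp u2 w2 z.2 + p - m : ℤ) : ℂ)) * (α : ℂ)) =
        ((2 * Real.pi * ((qp u1 w1 z.1 + qp u2 w2 z.2 + p - m : ℤ) : ℝ) * α : ℝ) : ℂ) * Complex.I := by
      push_cast
      ring
    rw [h1, norm_mul, Complex.norm_exp_ofReal_mul_I, mul_one, norm_mul, Complex.norm_real, Complex.norm_real,
      Real.norm_of_nonneg (Real.exp_pos _).le, Real.norm_of_nonneg (Real.exp_pos _).le]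
  have sAB : Summable fun z : ℤ × ℤ => A z.1 * B z.2 :=
    sA.mul_of_nonneg sB (fun x => (Real.exp_pos _).le) (fun x => (Real.exp_pos _).le)
  have hsum : ∀ α : ℝ, HasSum (fun z => T z α)
      (th u1 w1 N α * th u2 w2 N α * (e (α * (p : ℝ)) * e (-((m : ℝ) * α)))) := by
    intro α
    have n1 := summable_th0 hu1 w1 hN α
    have n2 := summable_th0 hu2 w2 hN α
    have h1 := (summable_mul_of_summable_norm n1 n2).hasSum
    rw [← tsum_mul_tsum_of_summable_norm n1 n2] at h1
    have h2 := h1.mul_right (e (α * (p : ℝ)) * e (-((m : ℝ) * α)))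
    have h3 : (fun z => T z α) = fun z : ℤ × ℤ =>
        Complex.exp (2 * Real.pi * Complex.I * ((α : ℂ) + Complex.I / (N : ℂ)) * ((qp u1 w1 z.1 : ℤ) : ℂ)) *
        Complex.exp (2 * Real.pi * Complex.I * ((α : ℂ) + Complex.I / (N : ℂ)) * ((qp u2 w2 z.2 : ℤ) : ℂ)) *
        (e (α * (p : ℝ)) * e (-((m : ℝ) * α))) := by
      funext z
      exact (term_eq N α (qp u1 w1 z.1) (qp u2 w2 z.2) p m).symm
    rw [h3]
    exact h2
  have key := intervalIntegral.hasSum_integral_of_dominated_convergence (μ := MeasureTheory.volume)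
    (a := s) (b := t) (F := T)
    (f := fun α => th u1 w1 N α * th u2 w2 N α * (e (α * (p : ℝ)) * e (-((m : ℝ) * α))))
    (fun z _ => A z.1 * B z.2)
    (fun z => by
      apply Continuous.aestronglyMeasurable
      rw [hT]
      fun_prop)
    (fun z => Filter.Eventually.of_forall fun α _ => (hTn z α).le)
    (Filter.Eventually.of_forall fun α _ => sAB)
    (by simp)
    (Filter.Eventually.of_forall fun α _ => hsum α)
  have h0 : ∀ z : ℤ × ℤ, ∫ α in s..t, T z α = 0 := by
    intro z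
    rw [hT]
    exact int_zero _ (fun hk => h z.1 z.2 (by linarith)) s t hst _
  simp only [h0] at key
  exact (key.unique hasSum_zero)

end CoefAux

open CoefAux in
theorem F_cont (b : Bool) (T : ℕ) {N : ℕ} (hN : 1 ≤ N) : Continuous (F b T N) := by
  unfold F
  exact ((th_cont (by norm_num) _ hN).mul (th_cont (by norm_num) _ hN)).mul (f_cont b T)

open CoefAux in
theorem F_per (b : Bool) (T N : ℕ) (α : ℝ) : F b T N (α + 1) = F b T N α := by
  unfold F
  rw [th_per, th_per, f_per]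

open CoefAux in
theorem coef_zero (b : Bool) (T : ℕ) {N : ℕ} (hN : 1 ≤ N) (m : ℤ) (h : ¬ Rep b T m) (s t : ℝ)
    (hst : t = s + 1) : ∫ α in s..t, F b T N α * e (-((m : ℝ) * α)) = 0 := by
  have h1 : ∀ α : ℝ, F b T N α * e (-((m : ℝ) * α)) = ∑ k ∈ range T,
      th 490 (v1 b) N α * th 350 (v2 b) N α * (e (α * ((P3 b k : ℤ) : ℝ)) * e (-((m : ℝ) * α))) := by
    intro α
    unfold F f
    rw [Finset.mul_sum, Finset.sum_mul]
    exact Finset.sum_congr rfl fun k _ => by ring
  simp only [h1]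
  rw [intervalIntegral.integral_finsetSum]
  · refine Finset.sum_eq_zero fun k hk => ?_
    refine one_term (by norm_num) (by norm_num) _ _ hN _ _ (fun x y hxy => h ?_) s t hst
    exact ⟨x, y, k, Finset.mem_range.1 hk, hxy⟩
  · intro k _
    apply Continuous.intervalIntegrable
    exact ((th_cont (by norm_num) _ hN).mul (th_cont (by norm_num) _ hN)).mul
      ((continuous_e.comp (by fun_prop)).mul (continuous_e.comp (by fun_prop)))

end Pool.Agent.Lib.TSP
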