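import Pool.Agent.Lib.TSP.Ex

/-!
# TSP.Expo: the singular series as exponential sums (1.2 h)
PROOF. Put `φ(a, q) = G₁(a,q) G₂(a,q) S(a,q) e(-ma/q)/q³` for all integers `a`, `q ≥ 1`. (1) `∑_{a<q} φ(a,q) = N3 b m q/q² = rho b m q`: expand the three sums, sum over `a` first
(`sum_e`). (2) `φ(ka, kd) = φ(a, d)` for `k ≥ 1`: each of the three sums over `range (kd)` runs `k` times through `range d` (polynomials modulo `d`), `e(ka/(kd)) = e(a/d)`. (3) So
`rho b m q = ∑_{d ∣ q} ∑_{a ∈ cop d} φ(a,d)` (the `a < q` with `gcd(a,q) = q/d` are `(q/d) a'`, `a' ∈ cop d`; for `q = 1` `cop 1 = {0}`). (4) Moebius inversion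
(`ArithmeticFunction.sum_eq_iff_sum_mul_moebius_eq` or the smul version, over `ℂ`): `∑_{a ∈ cop q} φ(a,q) = ∑_{d ∣ q} μ(q/d) rho b m d = A b m q`.
-/

set_option autoImplicit false

open Finset

namespace Pool.Agent.Lib.TSP

namespace ExpoAux

/-- the summand -/
noncomputable def ph (b : Bool) (m : ℤ) (a q : ℕ) : ℂ :=
  (G 490 (v1 b) a 0 q * G 350 (v2 b) a 0 q * S b a q *
      e (-((m : ℝ) * ((a : ℝ) / q)))) / (q : ℂ) ^ 3

theorem sum_range_periodic (g : ℕ → ℂ) (d : ℕ) (hg : ∀ r, g (r + d) = g r) (k : ℕ) :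
    ∑ r ∈ range (k * d), g r = k * ∑ r ∈ range d, g r := by
  have hk : ∀ k r, g (k * d + r) = g r := by
    intro k
    induction k with
    | zero => intro r; simp
    | succ n ih =>
      intro r
      have : (n + 1) * d + r = (n * d + r) + d := by ring
      rw [this, hg, ih]
  induction k with
  | zero => simp
  | succ n ih =>
    have : (n + 1) * d = n * d + d := by ring
    rw [this, Finset.sum_range_add, ih, Finset.sum_congr rfl (fun r _ => hk n r)]
    push_cast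
    ring

theorem dvd_qp (u v : ℤ) (d r : ℕ) : (d : ℤ) ∣ qp u v ((r + d : ℕ) : ℤ) - qp u v (r : ℤ) := by
  refine ⟨u * (2 * r + d) + v, ?_⟩
  unfold qp
  push_cast
  ring

theorem dvd_P3 (b : Bool) (d r : ℕ) : (d : ℤ) ∣ P3 b ((r + d : ℕ) : ℤ) - P3 b (r : ℤ) := by
  cases b
  · refine ⟨32 + 3360 * (2 * r + d) + 156800 * (3 * r ^ 2 + 3 * r * d + d ^ 2) +
      2744000 * (4 * r ^ 3 + 6 * r ^ 2 * d + 4 * r * d ^ 2 + d ^ 3), ?_⟩
    unfold P3
    push_cast
    ring
  · refine ⟨16 + 3360 * (2 * r + d) + 313600 * (3 * r ^ 2 + 3 * r * d + d ^ 2) +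
      10976000 * (4 * r ^ 3 + 6 * r ^ 2 * d + 4 * r * d ^ 2 + d ^ 3), ?_⟩
    unfold P3
    push_cast
    rw [if_pos rfl, if_pos rfl]
    ring

theorem sum_scale (P : ℤ → ℤ) (hP : ∀ d r : ℕ, (d : ℤ) ∣ P ((r + d : ℕ) : ℤ) - P (r : ℤ))
    (a d k : ℕ) (hd : 0 < d) (hk : 0 < k) :
    ∑ r ∈ range (k * d), e ((((k * a : ℕ) : ℤ) * P (r : ℤ) : ℤ) / ((k * d : ℕ) : ℝ)) =
      k * ∑ r ∈ range d, e ((((a : ℕ) : ℤ) * P (r : ℤ) : ℤ) / (d : ℝ)) := by
  have hk' : (k : ℝ) ≠ 0 := by positivity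
  have hd' : (d : ℝ) ≠ 0 := by positivity
  have h1 : ∀ r ∈ range (k * d), e ((((k * a : ℕ) : ℤ) * P (r : ℤ) : ℤ) / ((k * d : ℕ) : ℝ)) =
      e ((((a : ℕ) : ℤ) * P (r : ℤ) : ℤ) / (d : ℝ)) := by
    intro r _
    congr 1
    push_cast
    field_simp
  rw [Finset.sum_congr rfl h1]
  apply sum_range_periodic
  intro r
  apply e_div_congr hd
  have := (hP d r).mul_left (a : ℤ)
  rwa [mul_sub] at this

theorem ph_scale (b : Bool) (m : ℤ) (a d k : ℕ) (hd : 0 < d) (hk : 0 < k) :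
    ph b m (k * a) (k * d) = ph b m a d := by
  have hk' : (k : ℝ) ≠ 0 := by positivity
  have hd' : (d : ℝ) ≠ 0 := by positivity
  have hkc : (k : ℂ) ≠ 0 := by exact_mod_cast hk.ne'
  have hdc : (d : ℂ) ≠ 0 := by exact_mod_cast hd.ne'
  have hG : ∀ u v : ℤ, G u v ((k * a : ℕ) : ℤ) 0 (k * d) = k * G u v (a : ℤ) 0 d := by
    intro u v
    have := sum_scale (fun x => qp u v x) (dvd_qp u v) a d k hd hk
    unfold G
    simp only [zero_mul, add_zero]
    exact this
  have hS : S b ((k * a : ℕ) : ℤ) (k * d) = k * S b (a : ℤ) d := by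
    have := sum_scale (fun x => P3 b x) (dvd_P3 b) a d k hd hk
    unfold S
    exact this
  have he : -((m : ℝ) * (((k * a : ℕ) : ℝ) / ((k * d : ℕ) : ℝ))) = -((m : ℝ) * ((a : ℝ) / d)) := by
    push_cast
    field_simp
  unfold ph
  rw [hG, hG, hS, he]
  push_cast
  field_simp

theorem sum_ph (b : Bool) (m : ℤ) {q : ℕ} (hq : 0 < q) :
    ∑ a ∈ range q, ph b m a q = (rho b m q : ℂ) := by
  have hqc : (q : ℂ) ≠ 0 := by exact_mod_cast hq.ne'
  have h1 : ∀ a : ℕ, G 490 (v1 b) a 0 q * G 350 (v2 b) a 0 q * S b a q *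
      e (-((m : ℝ) * ((a : ℝ) / q))) =
      ∑ s ∈ range q ×ˢ (range q ×ˢ range q),
        e ((((a : ℤ) * (qp 490 (v1 b) s.1 + qp 350 (v2 b) s.2.1 + P3 b s.2.2 - m) : ℤ) : ℝ) / q) := by
    intro a
    unfold G S
    rw [Finset.sum_product]
    simp_rw [Finset.sum_product]
    rw [Finset.sum_mul_sum, Finset.sum_mul, Finset.sum_mul]
    apply Finset.sum_congr rfl
    intro x _
    rw [Finset.sum_mul, Finset.sum_mul]
    apply Finset.sum_congr rfl
    intro y _
    rw [Finset.mul_sum, Finset.sum_mul]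
    apply Finset.sum_congr rfl
    intro t _
    rw [← e_add, ← e_add, ← e_add]
    congr 1
    push_cast
    ring
  unfold ph
  rw [← Finset.sum_div, Finset.sum_congr rfl (fun a _ => h1 a), Finset.sum_comm,
    Finset.sum_congr rfl (fun s _ => sum_e hq _), Finset.sum_ite, Finset.sum_const_zero, add_zero,
    Finset.sum_const, nsmul_eq_mul]
  unfold rho N3
  push_cast
  field_simp

theorem sum_cop (b : Bool) (m : ℤ) {q : ℕ} (hq : 0 < q) :
    ∑ d ∈ q.divisors, ∑ a ∈ cop d, ph b m a d = (rho b m q : ℂ) := by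
  rw [← sum_ph b m hq]
  have hmaps : ∀ a ∈ range q, q / Nat.gcd a q ∈ q.divisors := by
    intro a _
    rw [Nat.mem_divisors]
    exact ⟨Nat.div_dvd_of_dvd (Nat.gcd_dvd_right a q), hq.ne'⟩
  rw [← Finset.sum_fiberwise_of_maps_to hmaps]
  apply Finset.sum_congr rfl
  intro d hd
  rw [Nat.mem_divisors] at hd
  obtain ⟨⟨k, hk⟩, _⟩ := hd
  subst hk
  have hd0 : 0 < d := Nat.pos_of_mul_pos_right hq |> fun h => by
    rcases Nat.eq_zero_or_pos d with h0 | h0
    · simp [h0] at hq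
    · exact h0
  have hk0 : 0 < k := by
    rcases Nat.eq_zero_or_pos k with h0 | h0
    · simp [h0] at hq
    · exact h0
  refine Finset.sum_bij (fun a _ => k * a) ?_ ?_ ?_ ?_
  · intro a ha
    unfold cop at ha
    rw [Finset.mem_filter, Finset.mem_range] at ha
    rw [Finset.mem_filter, Finset.mem_range]
    refine ⟨?_, ?_⟩
    · calc k * a < k * d := Nat.mul_lt_mul_of_pos_left ha.1 hk0
        _ = d * k := mul_comm _ _
    · have : Nat.gcd (k * a) (d * k) = k := by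
        rw [mul_comm d k, Nat.gcd_mul_left, Nat.Coprime.gcd_eq_one ha.2, mul_one]
      rw [this]
      exact Nat.mul_div_cancel d hk0
  · intro a _ a' _ h
    exact Nat.eq_of_mul_eq_mul_left hk0 h
  · intro c hc
    rw [Finset.mem_filter, Finset.mem_range] at hc
    obtain ⟨hc1, hc2⟩ := hc
    have hg : Nat.gcd c (d * k) = k := by
      have h1 : Nat.gcd c (d * k) ∣ d * k := Nat.gcd_dvd_right _ _
      have h2 : d * Nat.gcd c (d * k) = d * k := by
        have h3 := Nat.div_mul_cancel h1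
        rwa [hc2] at h3
      exact Nat.eq_of_mul_eq_mul_left hd0 h2
    have hkc : k ∣ c := by
      rw [← hg]
      exact Nat.gcd_dvd_left _ _
    obtain ⟨a, ha⟩ := hkc
    subst ha
    refine ⟨a, ?_, rfl⟩
    unfold cop
    rw [Finset.mem_filter, Finset.mem_range]
    refine ⟨?_, ?_⟩
    · rw [mul_comm d k] at hc1
      exact Nat.lt_of_mul_lt_mul_left hc1
    · have : k * Nat.gcd a d = k * 1 := by
        rw [mul_one]
        rw [mul_comm d k, Nat.gcd_mul_left] at hg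
        exact hg
      exact Nat.eq_of_mul_eq_mul_left hk0 this
  · intro a _
    rw [mul_comm d k, ph_scale b m a d k hd0 hk0]

end ExpoAux

open ExpoAux in
theorem expo (b : Bool) (m : ℤ) {q : ℕ} (hq : 0 < q) :
    (∑ a ∈ cop q, G 490 (v1 b) a 0 q * G 350 (v2 b) a 0 q * S b a q *
      e (-((m : ℝ) * ((a : ℝ) / q)))) / (q : ℂ) ^ 3 = (A b m q : ℂ) := by
  have h := (ArithmeticFunction.sum_eq_iff_sum_mul_moebius_eq
    (f := fun d => ∑ a ∈ cop d, ph b m a d) (g := fun d => (rho b m d : ℂ))).1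
    (fun n hn => sum_cop b m hn) q hq
  have h2 : (∑ a ∈ cop q, G 490 (v1 b) a 0 q * G 350 (v2 b) a 0 q * S b a q *
      e (-((m : ℝ) * ((a : ℝ) / q)))) / (q : ℂ) ^ 3 = ∑ a ∈ cop q, ph b m a q := by
    rw [Finset.sum_div]
    rfl
  rw [h2, ← h]
  rw [Nat.sum_divisorsAntidiagonal' (n := q)
    (f := fun x y => ((ArithmeticFunction.moebius x : ℤ) : ℂ) * (rho b m y : ℂ))]
  unfold A
  push_cast
  rfl

end Pool.Agent.Lib.TSP
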