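import Pool.Agent.Lib.TSP.Defs
import Pool.Agent.Lib.P5632c9.DivBound

/-!
# TSP.Div: sums of `D2` by the divisor bound (1.5 h)
PROOF. `P₃` is strictly increasing on `ℕ` and `0 ≤ P₃(t) ≤ 1.2·10^7 T⁴` for `0 ≤ t < T` (in fact `≤ 2·10^7 T^4`). So for `t ≠ t' < T` the integer `D = |P₃(t) - P₃(t')|` is positive and
`≤ 2·10^7 T⁴`, with at most `C₁ D^(ε/8) ≤ C₂ N^(ε/2)` divisors (`Pool.Agent.Lib.P5632c9.card_divisors_le`). The pairs `t = t'` contribute `T` to `D2 b T q`.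
`div_sum1`: `∑_{K<q≤R} D2 b T q/q ≤ T ∑_{q≤R} 1/q + ∑_{t≠t'} ∑_{q ∣ D, q > K} 1/q ≤ T(1 + log N) + T² C₂ N^(ε/2)/K`, `1 + log N ≤ C N^ε`.
`div_sum2`: `∑_{q≤Q} D2 b q q/q ≤ ∑_{q≤Q} 1 + ∑_{t≠t'<Q} ∑_{q ∣ D, max(t,t') < q} 1/q ≤ Q + ∑_{t≠t'<Q} C₂ N^(ε/2)/(max(t,t')+1) ≤ Q + C₂ N^(ε/2) · 2Q`
(for each value `j` of the maximum there are `≤ 2j+1` pairs).
-/

set_option autoImplicit false

open Finset

namespace Pool.Agent.Lib.TSP

namespace DivAux

theorem P3_strict (b : Bool) {s t : ℕ} (h : s < t) : P3 b s < P3 b t := by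
  have h' : (s : ℤ) < t := by exact_mod_cast h
  have hs : (0 : ℤ) ≤ s := by positivity
  have h2 : (s : ℤ) ^ 2 < (t : ℤ) ^ 2 := pow_lt_pow_left₀ h' hs (by norm_num)
  have h3 : (s : ℤ) ^ 3 < (t : ℤ) ^ 3 := pow_lt_pow_left₀ h' hs (by norm_num)
  have h4 : (s : ℤ) ^ 4 < (t : ℤ) ^ 4 := pow_lt_pow_left₀ h' hs (by norm_num)
  unfold P3
  split_ifs <;> linarith

theorem P3_ne (b : Bool) {s t : ℕ} (h : s ≠ t) : P3 b s - P3 b t ≠ 0 := by
  rcases lt_or_gt_of_ne h with h | h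
  · have := P3_strict b h
    intro h0; linarith
  · have := P3_strict b h
    intro h0; linarith

theorem P3_bd (b : Bool) {s N : ℕ} (h : s ≤ N) :
    0 ≤ P3 b s ∧ P3 b s ≤ 2 * 10 ^ 7 * (N : ℤ) ^ 4 := by
  have hs : (0 : ℤ) ≤ s := by positivity
  have h' : (s : ℤ) ≤ N := by exact_mod_cast h
  have hN : (0 : ℤ) ≤ N := by positivity
  have h4 : (s : ℤ) ^ 4 ≤ (N : ℤ) ^ 4 := by gcongr
  have e1 : (s : ℤ) ≤ (s : ℤ) ^ 4 := by
    have : s ≤ s ^ 4 := Nat.le_self_pow (by norm_num) s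
    exact_mod_cast this
  have e2 : (s : ℤ) ^ 2 ≤ (s : ℤ) ^ 4 := by
    rcases Nat.eq_zero_or_pos s with h0 | h0
    · subst h0; simp
    · have : s ^ 2 ≤ s ^ 4 := Nat.pow_le_pow_right h0 (by norm_num)
      exact_mod_cast this
  have e3 : (s : ℤ) ^ 3 ≤ (s : ℤ) ^ 4 := by
    rcases Nat.eq_zero_or_pos s with h0 | h0
    · subst h0; simp
    · have : s ^ 3 ≤ s ^ 4 := Nat.pow_le_pow_right h0 (by norm_num)
      exact_mod_cast this
  unfold P3
  split_ifs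
  · constructor
    · positivity
    · nlinarith
  · constructor
    · positivity
    · nlinarith

/-- divisor bound for a pair -/
theorem div_pair (b : Bool) (ε : ℝ) (hε : 0 < ε) : ∃ C : ℝ, 1 ≤ C ∧ ∀ N s t : ℕ, s ≠ t → s ≤ N →
    t ≤ N → (((P3 b s - P3 b t).natAbs.divisors.card : ℕ) : ℝ) ≤ C * (N : ℝ) ^ ε := by
  obtain ⟨C, hC1, hC⟩ := Pool.Agent.Lib.P5632c9.card_divisors_le (ε / 4) (by positivity)
  refine ⟨C * (2 * 10 ^ 7 : ℝ) ^ (ε / 4), ?_, ?_⟩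
  · have : (1 : ℝ) ≤ (2 * 10 ^ 7 : ℝ) ^ (ε / 4) :=
      Real.one_le_rpow (by norm_num) (by positivity)
    nlinarith
  · intro N s t hst hs ht
    have h0 := P3_ne b hst
    have h1 : (P3 b s - P3 b t).natAbs ≠ 0 := by
      rwa [ne_eq, Int.natAbs_eq_zero]
    have h2 := hC _ h1
    have h3 : (((P3 b s - P3 b t).natAbs : ℕ) : ℝ) ≤ 2 * 10 ^ 7 * (N : ℝ) ^ 4 := by
      have hb1 := P3_bd b hs
      have hb2 := P3_bd b ht
      have : ((P3 b s - P3 b t).natAbs : ℤ) ≤ 2 * 10 ^ 7 * (N : ℤ) ^ 4 := by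
        rw [Int.natCast_natAbs, abs_le]
        constructor <;> linarith [hb1.1, hb1.2, hb2.1, hb2.2]
      exact_mod_cast this
    have hC0 : (0 : ℝ) ≤ C := by linarith
    calc (((P3 b s - P3 b t).natAbs.divisors.card : ℕ) : ℝ)
        ≤ C * (((P3 b s - P3 b t).natAbs : ℕ) : ℝ) ^ (ε / 4) := h2
      _ ≤ C * (2 * 10 ^ 7 * (N : ℝ) ^ 4) ^ (ε / 4) := by gcongr
      _ = C * (2 * 10 ^ 7 : ℝ) ^ (ε / 4) * (N : ℝ) ^ ε := by
        rw [Real.mul_rpow (by positivity) (by positivity), ← mul_assoc]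
        congr 1
        rw [← Real.rpow_natCast, ← Real.rpow_mul (by positivity)]
        congr 1
        push_cast
        ring

theorem D2_div (b : Bool) (T q : ℕ) : (D2 b T q : ℝ) / q =
    ∑ p ∈ range T ×ˢ range T, if (q : ℤ) ∣ P3 b p.1 - P3 b p.2 then (1 : ℝ) / q else 0 := by
  unfold D2
  rw [Finset.card_filter]
  push_cast
  rw [Finset.sum_div]
  refine Finset.sum_congr rfl fun p _ => ?_
  split_ifs <;> simp

/-- the sum over divisors `≥ k` -/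
theorem sum_dvd_le {I : Finset ℕ} {k : ℝ} (hk : 0 < k) (hI : ∀ q ∈ I, k ≤ (q : ℝ)) {D : ℤ} (hD : D ≠ 0) :
    ∑ q ∈ I, (if (q : ℤ) ∣ D then (1 : ℝ) / q else 0) ≤ (D.natAbs.divisors.card : ℝ) / k := by
  rw [← Finset.sum_filter]
  have h1 : ∀ q ∈ I.filter (fun q : ℕ => (q : ℤ) ∣ D), (1 : ℝ) / q ≤ 1 / k := by
    intro q hq
    have hq' := hI q (Finset.mem_filter.mp hq).1
    exact one_div_le_one_div_of_le hk hq'
  have h2 : (I.filter (fun q : ℕ => (q : ℤ) ∣ D)).card ≤ D.natAbs.divisors.card := by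
    refine Finset.card_le_card fun q hq => ?_
    have hq' := (Finset.mem_filter.mp hq).2
    rw [Nat.mem_divisors]
    exact ⟨Int.natCast_dvd.mp hq', by rwa [ne_eq, Int.natAbs_eq_zero]⟩
  calc ∑ q ∈ I.filter (fun q : ℕ => (q : ℤ) ∣ D), (1 : ℝ) / q
      ≤ ∑ q ∈ I.filter (fun q : ℕ => (q : ℤ) ∣ D), (1 : ℝ) / k := Finset.sum_le_sum h1
    _ = ((I.filter (fun q : ℕ => (q : ℤ) ∣ D)).card : ℝ) / k := by
      rw [Finset.sum_const, nsmul_eq_mul]; ring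
    _ ≤ (D.natAbs.divisors.card : ℝ) / k := by gcongr

theorem harm (ε : ℝ) (hε : 0 < ε) {K R N : ℕ} (hR : R ≤ N) (hN : 1 ≤ N) :
    ∑ q ∈ Ioc K R, (1 : ℝ) / q ≤ (1 + 1 / ε) * (N : ℝ) ^ ε := by
  have h1 : ∑ q ∈ Ioc K R, (1 : ℝ) / q ≤ ∑ q ∈ Icc 1 N, (1 : ℝ) / q := by
    refine Finset.sum_le_sum_of_subset_of_nonneg (fun q hq => ?_) fun q _ _ => by positivity
    rw [Finset.mem_Ioc] at hq
    rw [Finset.mem_Icc]
    omega
  have h2 : ∑ q ∈ Icc 1 N, (1 : ℝ) / q ≤ 1 + Real.log N := by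
    have := harmonic_le_one_add_log N
    rw [harmonic_eq_sum_Icc] at this
    push_cast at this
    simpa [one_div] using this
  have hN' : (1 : ℝ) ≤ N := by exact_mod_cast hN
  have h3 : Real.log N ≤ (N : ℝ) ^ ε / ε := Real.log_le_rpow_div (by positivity) hε
  have h4 : (1 : ℝ) ≤ (N : ℝ) ^ ε := Real.one_le_rpow hN' hε.le
  calc ∑ q ∈ Ioc K R, (1 : ℝ) / q ≤ 1 + Real.log N := h1.trans h2
    _ ≤ (N : ℝ) ^ ε + (N : ℝ) ^ ε / ε := by linarith
    _ = (1 + 1 / ε) * (N : ℝ) ^ ε := by ring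

/-- `∑_{s,t<Q} 1/(max(s,t)+1) ≤ 2Q` -/
theorem sum_max (Q : ℕ) : ∑ p ∈ range Q ×ˢ range Q, (1 : ℝ) / ((max p.1 p.2 : ℕ) + 1) ≤ 2 * Q := by
  rw [Finset.sum_product]
  induction Q with
  | zero => simp
  | succ Q ih =>
    rw [Finset.sum_range_succ]
    have h1 : ∑ x ∈ range Q, ∑ y ∈ range (Q + 1), (1 : ℝ) / ((max x y : ℕ) + 1) =
        ∑ x ∈ range Q, ∑ y ∈ range Q, (1 : ℝ) / ((max x y : ℕ) + 1) + (Q : ℝ) / (Q + 1) := by
      have : ∀ x ∈ range Q, ∑ y ∈ range (Q + 1), (1 : ℝ) / ((max x y : ℕ) + 1) =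
          ∑ y ∈ range Q, (1 : ℝ) / ((max x y : ℕ) + 1) + 1 / ((Q : ℝ) + 1) := by
        intro x hx
        rw [Finset.sum_range_succ, max_eq_right (Finset.mem_range.mp hx).le]
      rw [Finset.sum_congr rfl this, Finset.sum_add_distrib, Finset.sum_const, Finset.card_range,
        nsmul_eq_mul]
      ring
    have h2 : ∑ y ∈ range (Q + 1), (1 : ℝ) / ((max Q y : ℕ) + 1) = 1 := by
      have : ∀ y ∈ range (Q + 1), (1 : ℝ) / ((max Q y : ℕ) + 1) = 1 / ((Q : ℝ) + 1) := by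
        intro y hy
        rw [max_eq_left (by have := Finset.mem_range.mp hy; omega)]
      rw [Finset.sum_congr rfl this, Finset.sum_const, Finset.card_range, nsmul_eq_mul]
      push_cast
      field_simp
    have h3 : (Q : ℝ) / (Q + 1) ≤ 1 := by
      rw [div_le_one (by positivity)]; linarith
    simp only at h1 h2 ih ⊢
    rw [h1, h2]
    have h4 : ((Q + 1 : ℕ) : ℝ) = (Q : ℝ) + 1 := by push_cast; ring
    rw [h4]
    linarith

theorem sum_dg (T : ℕ) (A : ℝ) :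
    ∑ p ∈ range T ×ˢ range T, (if p.1 = p.2 then A else 0) = T * A := by
  rw [Finset.sum_product]
  have : ∀ x ∈ range T, ∑ y ∈ range T, (if x = y then A else 0) = A := by
    intro x hx
    rw [Finset.sum_ite_eq, if_pos hx]
  simp only
  rw [Finset.sum_congr rfl this, Finset.sum_const, Finset.card_range, nsmul_eq_mul]

end DivAux

open DivAux

theorem div_sum1 (b : Bool) (ε : ℝ) (hε : 0 < ε) : ∃ C : ℝ, 0 < C ∧ ∀ T K R N : ℕ, 1 ≤ T → T ≤ N → R ≤ N →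
    1 ≤ K → ∑ q ∈ Ioc K R, (D2 b T q : ℝ) / q ≤ C * (N : ℝ) ^ ε * (T + (T : ℝ) ^ 2 / K) := by
  obtain ⟨C, hC1, hC⟩ := div_pair b ε hε
  refine ⟨C + (1 + 1 / ε), by positivity, ?_⟩
  intro T K R N hT hTN hRN hK
  have hN : 1 ≤ N := hT.trans hTN
  have hK' : (0 : ℝ) < K := by exact_mod_cast hK
  simp_rw [D2_div]
  rw [Finset.sum_comm]
  have h1 : ∀ p ∈ range T ×ˢ range T,
      ∑ q ∈ Ioc K R, (if (q : ℤ) ∣ P3 b p.1 - P3 b p.2 then (1 : ℝ) / q else 0) ≤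
      (if p.1 = p.2 then (1 + 1 / ε) * (N : ℝ) ^ ε else 0) + C * (N : ℝ) ^ ε / K := by
    rintro ⟨s, t⟩ hp
    rw [Finset.mem_product, Finset.mem_range, Finset.mem_range] at hp
    simp only at hp ⊢
    have hnn : (0 : ℝ) ≤ C * (N : ℝ) ^ ε / K := by positivity
    split_ifs with hst
    · subst hst
      have := harm ε hε (K := K) hRN hN
      have h2 : ∑ q ∈ Ioc K R, (if (q : ℤ) ∣ P3 b s - P3 b s then (1 : ℝ) / q else 0) =
          ∑ q ∈ Ioc K R, (1 : ℝ) / q := by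
        refine Finset.sum_congr rfl fun q _ => ?_
        rw [if_pos (by simp)]
      rw [h2]
      linarith
    · have h2 := sum_dvd_le (I := Ioc K R) hK' (fun q hq => by
        have := (Finset.mem_Ioc.mp hq).1
        exact_mod_cast this.le) (P3_ne b hst)
      have h3 := hC N s t hst (by omega) (by omega)
      have h4 : ((P3 b s - P3 b t).natAbs.divisors.card : ℝ) / K ≤ C * (N : ℝ) ^ ε / K := by
        gcongr
      linarith
  refine (Finset.sum_le_sum h1).trans ?_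
  rw [Finset.sum_add_distrib, sum_dg, Finset.sum_const, Finset.card_product, Finset.card_range,
    nsmul_eq_mul]
  have hNe : (0 : ℝ) ≤ (N : ℝ) ^ ε := by positivity
  have hT0 : (0 : ℝ) ≤ T := by positivity
  have a1 : (0 : ℝ) ≤ (1 + 1 / ε) * (N : ℝ) ^ ε * ((T : ℝ) ^ 2 / K) := by positivity
  have a2 : (0 : ℝ) ≤ C * (N : ℝ) ^ ε * T := by positivity
  push_cast
  have : (T : ℝ) * ((1 + 1 / ε) * (N : ℝ) ^ ε) + (T : ℝ) * T * (C * (N : ℝ) ^ ε / K) =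
      (C + (1 + 1 / ε)) * (N : ℝ) ^ ε * (T + (T : ℝ) ^ 2 / K) -
      ((1 + 1 / ε) * (N : ℝ) ^ ε * ((T : ℝ) ^ 2 / K)) - C * (N : ℝ) ^ ε * T := by ring
  linarith

theorem div_sum2 (b : Bool) (ε : ℝ) (hε : 0 < ε) : ∃ C : ℝ, 0 < C ∧ ∀ Q N : ℕ, 1 ≤ Q → Q ≤ N →
    ∑ q ∈ Icc 1 Q, (D2 b q q : ℝ) / q ≤ C * (N : ℝ) ^ ε * Q := by
  obtain ⟨C, hC1, hC⟩ := div_pair b ε hε
  refine ⟨1 + C * 2, by positivity, ?_⟩
  intro Q N hQ hQN
  have hN : 1 ≤ N := hQ.trans hQN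
  have hN' : (1 : ℝ) ≤ N := by exact_mod_cast hN
  have hNe : (1 : ℝ) ≤ (N : ℝ) ^ ε := Real.one_le_rpow hN' hε.le
  -- split
  have h1 : ∀ q ∈ Icc 1 Q, (D2 b q q : ℝ) / q ≤ 1 +
      ∑ p ∈ range Q ×ˢ range Q, (if p.1 ≠ p.2 ∧ max p.1 p.2 < q then
        (if (q : ℤ) ∣ P3 b p.1 - P3 b p.2 then (1 : ℝ) / q else 0) else 0) := by
    intro q hq
    rw [Finset.mem_Icc] at hq
    rw [D2_div]
    have hq0 : (0 : ℝ) < q := by exact_mod_cast (show 0 < q by omega)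
    have h2 : ∑ p ∈ range q ×ˢ range q,
        (if (q : ℤ) ∣ P3 b p.1 - P3 b p.2 then (1 : ℝ) / q else 0) ≤
        ∑ p ∈ range q ×ˢ range q, ((if p.1 = p.2 then (1 : ℝ) / q else 0) +
          (if p.1 ≠ p.2 ∧ max p.1 p.2 < q then
        (if (q : ℤ) ∣ P3 b p.1 - P3 b p.2 then (1 : ℝ) / q else 0) else 0)) := by
      refine Finset.sum_le_sum ?_
      rintro ⟨s, t⟩ hp
      rw [Finset.mem_product, Finset.mem_range, Finset.mem_range] at hp
      simp only at hp ⊢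
      by_cases hst : s = t
      · subst hst
        simp
      · have hm : max s t < q := max_lt hp.1 hp.2
        have hc : s ≠ t ∧ max s t < q := ⟨hst, hm⟩
        rw [if_neg hst, if_pos hc, zero_add]
    refine h2.trans ?_
    rw [Finset.sum_add_distrib, sum_dg]
    have h3 : (q : ℝ) * (1 / q) = 1 := by field_simp
    rw [h3]
    refine add_le_add (le_refl (1 : ℝ)) ?_
    refine Finset.sum_le_sum_of_subset_of_nonneg ?_ ?_
    · intro p hp
      rw [Finset.mem_product, Finset.mem_range, Finset.mem_range] at hp ⊢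
      omega
    · intro p _ _
      split_ifs <;> positivity
  refine (Finset.sum_le_sum h1).trans ?_
  rw [Finset.sum_add_distrib, Finset.sum_const, Nat.card_Icc, nsmul_eq_mul, Finset.sum_comm]
  have h4 : ∀ p ∈ range Q ×ˢ range Q, ∑ q ∈ Icc 1 Q, (if p.1 ≠ p.2 ∧ max p.1 p.2 < q then
        (if (q : ℤ) ∣ P3 b p.1 - P3 b p.2 then (1 : ℝ) / q else 0) else 0) ≤
        C * (N : ℝ) ^ ε * (1 / ((max p.1 p.2 : ℕ) + 1)) := by
    rintro ⟨s, t⟩ hp
    rw [Finset.mem_product, Finset.mem_range, Finset.mem_range] at hp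
    simp only at hp ⊢
    by_cases hst : s = t
    · have : ∑ q ∈ Icc 1 Q, (if s ≠ t ∧ max s t < q then
        (if (q : ℤ) ∣ P3 b s - P3 b t then (1 : ℝ) / q else 0) else 0) = 0 := by
        refine Finset.sum_eq_zero fun q _ => ?_
        rw [if_neg (by simp [hst])]
      rw [this]
      positivity
    · have h5 : ∑ q ∈ Icc 1 Q, (if s ≠ t ∧ max s t < q then
        (if (q : ℤ) ∣ P3 b s - P3 b t then (1 : ℝ) / q else 0) else 0) =
          ∑ q ∈ (Icc 1 Q).filter (fun q => max s t < q),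
            (if (q : ℤ) ∣ P3 b s - P3 b t then (1 : ℝ) / q else 0) := by
        rw [Finset.sum_filter]
        refine Finset.sum_congr rfl fun q _ => ?_
        by_cases hm : max s t < q
        · rw [if_pos ⟨hst, hm⟩, if_pos hm]
        · rw [if_neg (fun h => hm h.2), if_neg hm]
      rw [h5]
      have hk : (0 : ℝ) < ((max s t : ℕ) : ℝ) + 1 := by positivity
      have h6 := sum_dvd_le (I := (Icc 1 Q).filter (fun q => max s t < q)) hk (fun q hq => by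
        have := (Finset.mem_filter.mp hq).2
        exact_mod_cast this) (P3_ne b hst)
      have h7 := hC N s t hst (by omega) (by omega)
      refine h6.trans ?_
      rw [mul_one_div]
      gcongr
  have h5 := Finset.sum_le_sum h4
  rw [← Finset.mul_sum] at h5
  have h6 : C * (N : ℝ) ^ ε * ∑ p ∈ range Q ×ˢ range Q, (1 : ℝ) / ((max p.1 p.2 : ℕ) + 1) ≤
      C * (N : ℝ) ^ ε * (2 * Q) := by
    have := sum_max Q
    gcongr
  have h7 : ((Q + 1 - 1 : ℕ) : ℝ) * 1 = Q := by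
    rw [Nat.add_sub_cancel]; ring
  rw [h7]
  have hQ0 : (0 : ℝ) ≤ Q := by positivity
  nlinarith [mul_le_mul_of_nonneg_right hNe hQ0]

end Pool.Agent.Lib.TSP
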