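import Pool.Agent.Lib.TSP.ThP
import Pool.Agent.Lib.TSP.MSq
import Pool.Agent.Lib.TSP.Div

/-!
# TSP.VarA: the major arcs (1.5 h)
PROOF. Put `B = T/N`, `w = zz N β`, `|w|² = 1/N² + β²`. For `q ≤ Q`, `|β| ≤ B`: `kq ≤ Q²(1/N + T²/N) ≤ 2Q²T²/N =: κ ≤ 2` (`Q² T² ≤ N^(4/9+2/5) ≤ N`). With `Θ = θ₁θ₂`:
`F - Psi = (Θ - M12) f + M12 (f - (T/q) S) + (|β|/B) M12 (T/q) S`, so for fixed `β` (`prod_bounds`, `|f| ≤ T`, `|(T/q) S| ≤ T`, `f_app`, `|cop q| ≤ q`, `cop q ⊆ range q`):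
`∑_{a ∈ cop q} |F - Psi|² ≤ (3C²/(q²|w|²)) {κ² q T² + C' (q D2 b q q + q β² T^10) + (β/B)² q T²}`.
`∫_{-B}^{B} dβ/|w|² ≤ π N` (arctan; or `∫ min(N², β^(-2)) ≤ 4N`), `∫_{-B}^{B} β²/|w|² ≤ 2B`. So the total is `≤ C ∑_{q ≤ Q} (1/q) {κ² T² N + N D2 b q q + T^10 B + T²/B}` and
`κ²T²N ≤ 4Q⁴T⁶/N ≤ 4 N Q` (`Q³T⁶ ≤ N^(2/3+6/5) ≤ N²`), `T^10 B = T^11/N ≤ N T`, `T²/B = N T`, `T ≤ Q`, `∑_{q ≤ Q} 1/q ≤ 1 + log N ≤ C N^ε`, `div_sum2`.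
-/

set_option autoImplicit false

open Finset

namespace Pool.Agent.Lib.TSP

/-- The approximation on the major arcs. -/
noncomputable def Psi (b : Bool) (T N : ℕ) (B : ℝ) (a q : ℕ) (β : ℝ) : ℂ :=
  ((1 - |β| / B : ℝ) : ℂ) * (M12 b N a q β * (((T : ℂ) / q) * S b a q))

namespace VarAAux

theorem th_cont {u : ℤ} (hu : 0 < u) (v : ℤ) {N : ℕ} (hN : 1 ≤ N) : Continuous (th u v N) := by
  unfold th
  refine continuous_tsum (u := fun x : ℤ => ‖Complex.exp (2 * Real.pi * Complex.I *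
    (((0 : ℝ) : ℂ) + Complex.I / (N : ℂ)) * ((qp u v x : ℤ) : ℂ))‖) (fun x => by fun_prop)
    (summable_th0 hu v hN 0) ?_
  intro x α
  have h : Complex.exp (2 * Real.pi * Complex.I * ((α : ℂ) + Complex.I / (N : ℂ)) * ((qp u v x : ℤ) : ℂ))
      = Complex.exp (2 * Real.pi * Complex.I * (((0 : ℝ) : ℂ) + Complex.I / (N : ℂ)) * ((qp u v x : ℤ) : ℂ)) *
        Complex.exp (((2 * Real.pi * α * ((qp u v x : ℤ) : ℝ) : ℝ) : ℂ) * Complex.I) := by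
    rw [← Complex.exp_add]
    congr 1
    push_cast
    ring
  rw [h, norm_mul, Complex.norm_exp_ofReal_mul_I, mul_one]

theorem f_cont (b : Bool) (T : ℕ) : Continuous (f b T) := by
  unfold f
  exact continuous_finset_sum _ fun t _ => continuous_e.comp (by fun_prop)

theorem F_cont' (b : Bool) (T : ℕ) {N : ℕ} (hN : 1 ≤ N) : Continuous (F b T N) := by
  unfold F
  exact ((th_cont (by norm_num) _ hN).mul (th_cont (by norm_num) _ hN)).mul (f_cont b T)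

theorem norm_zz_sq (N : ℕ) (β : ℝ) : ‖zz N β‖ ^ 2 = (1 / (N : ℝ)) ^ 2 + β ^ 2 := by
  have h : zz N β = ((1 / (N : ℝ) : ℝ) : ℂ) + ((-β : ℝ) : ℂ) * Complex.I := by
    unfold zz
    push_cast
    ring
  rw [h, Complex.sq_norm, Complex.normSq_add_mul_I]
  ring

theorem zz_ne {N : ℕ} (hN : 1 ≤ N) (β : ℝ) : zz N β ≠ 0 := by
  intro h
  have h1 := norm_zz_sq N β
  rw [h, norm_zero] at h1
  have hN' : (0 : ℝ) < N := by exact_mod_cast hN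
  have : (0 : ℝ) < (1 / (N : ℝ)) ^ 2 := by positivity
  nlinarith [sq_nonneg β]

theorem zz_cont (N : ℕ) : Continuous (zz N) := by
  unfold zz
  fun_prop

theorem Psi_cont (b : Bool) (T : ℕ) {N : ℕ} (hN : 1 ≤ N) (B : ℝ) (a q : ℕ) :
    Continuous (Psi b T N B a q) := by
  have h1 : Continuous fun β : ℝ => Complex.exp (2 * Real.pi * (c1 b : ℂ) * zz N β) / zz N β :=
    (Complex.continuous_exp.comp (continuous_const.mul (zz_cont N))).div (zz_cont N) (zz_ne hN)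
  unfold Psi M12
  refine Continuous.mul ?_ ((continuous_const.mul h1).mul continuous_const)
  exact Complex.continuous_ofReal.comp (by fun_prop)

theorem f_le (b : Bool) (T : ℕ) (α : ℝ) : ‖f b T α‖ ≤ T := by
  unfold f
  refine (norm_sum_le _ _).trans ?_
  simp [norm_e]

theorem S_le (b : Bool) (a : ℤ) (q : ℕ) : ‖S b a q‖ ≤ q := by
  unfold S
  refine (norm_sum_le _ _).trans ?_
  simp [norm_e]

theorem TS_le (b : Bool) (a : ℤ) {q : ℕ} (hq : 0 < q) (T : ℕ) : ‖((T : ℂ) / q) * S b a q‖ ≤ T := by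
  rw [norm_mul, norm_div, Complex.norm_natCast, Complex.norm_natCast]
  have hq' : (0 : ℝ) < q := by exact_mod_cast hq
  calc (T : ℝ) / q * ‖S b a q‖ ≤ (T : ℝ) / q * q := by
        gcongr
        exact S_le b a q
    _ = T := by field_simp

theorem sq3 (x y z : ℝ) : (x + y + z) ^ 2 ≤ 3 * (x ^ 2 + y ^ 2 + z ^ 2) := by
  nlinarith [sq_nonneg (x - y), sq_nonneg (y - z), sq_nonneg (x - z)]

theorem pt1 {b : Bool} {C₁ κ : ℝ} {N T q a : ℕ} {β B : ℝ} (hB : 0 < B) (hq : 0 < q)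
    (hM : ‖M12 b N a q β‖ ≤ C₁ / (q * ‖zz N β‖))
    (hD : ‖th 490 (v1 b) N ((a : ℝ) / q + β) * th 350 (v2 b) N ((a : ℝ) / q + β) - M12 b N a q β‖
      ≤ C₁ / (q * ‖zz N β‖) * κ) :
    ‖F b T N ((a : ℝ) / q + β) - Psi b T N B a q β‖ ^ 2 ≤
      3 * (C₁ / (q * ‖zz N β‖)) ^ 2 * (κ ^ 2 * (T : ℝ) ^ 2 +
        ‖f b T ((a : ℝ) / q + β) - ((T : ℂ) / q) * S b a q‖ ^ 2 + (β / B) ^ 2 * (T : ℝ) ^ 2) := by
  set P : ℝ := C₁ / (q * ‖zz N β‖) with hP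
  set θ : ℂ := th 490 (v1 b) N ((a : ℝ) / q + β) * th 350 (v2 b) N ((a : ℝ) / q + β) with hθ
  set M : ℂ := M12 b N a q β with hM'
  set s : ℂ := ((T : ℂ) / q) * S b a q with hs
  set φ : ℂ := f b T ((a : ℝ) / q + β) with hφ
  have e1 : F b T N ((a : ℝ) / q + β) - Psi b T N B a q β =
      (θ - M) * φ + M * (φ - s) + ((|β| / B : ℝ) : ℂ) * (M * s) := by
    unfold F Psi
    rw [← hθ, ← hM', ← hs, ← hφ]
    push_cast
    ring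
  have hP0 : 0 ≤ P := le_trans (norm_nonneg _) hM
  have n1' : ‖(θ - M) * φ‖ ≤ P * κ * T := by
    rw [norm_mul]
    exact mul_le_mul hD (f_le _ _ _) (norm_nonneg _) (le_trans (norm_nonneg _) hD)
  have n2' : ‖M * (φ - s)‖ ≤ P * ‖φ - s‖ := by
    rw [norm_mul]
    exact mul_le_mul_of_nonneg_right hM (norm_nonneg _)
  have n3' : ‖((|β| / B : ℝ) : ℂ) * (M * s)‖ ≤ |β| / B * (P * T) := by
    rw [norm_mul, norm_mul, Complex.norm_real, Real.norm_of_nonneg (by positivity)]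
    refine mul_le_mul_of_nonneg_left ?_ (by positivity)
    exact mul_le_mul hM (TS_le b a hq T) (norm_nonneg _) hP0
  have hX : ‖F b T N ((a : ℝ) / q + β) - Psi b T N B a q β‖ ≤
      P * κ * T + P * ‖φ - s‖ + |β| / B * (P * T) := by
    rw [e1]
    refine (norm_add_le _ _).trans (add_le_add ((norm_add_le _ _).trans (add_le_add n1' n2')) n3')
  refine (pow_le_pow_left₀ (norm_nonneg _) hX 2).trans ((sq3 _ _ _).trans (le_of_eq ?_))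
  have : (|β| / B * (P * T)) ^ 2 = P ^ 2 * ((β / B) ^ 2 * (T : ℝ) ^ 2) := by
    rw [mul_pow, div_pow, sq_abs]
    ring
  rw [this]
  ring

theorem cop_card (q : ℕ) : ((cop q).card : ℝ) ≤ q := by
  have : (cop q).card ≤ q := by
    unfold cop
    exact (card_filter_le _ _).trans (by simp)
  exact_mod_cast this

theorem cop_sub (q : ℕ) : cop q ⊆ range q := by
  unfold cop
  exact filter_subset _ _

/-- the pointwise bound -/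
theorem pt2 {b : Bool} {C₁ C₂ κ : ℝ} {N T q : ℕ} {β B : ℝ} (hB : 0 < B) (hq : 0 < q) (hN : 1 ≤ N)
    (hκ : kq N q β ≤ κ) (hκ5 : κ ≤ 5) (hC₁ : 0 < C₁)
    (hprod : ∀ (N : ℕ) (a : ℤ) (q : ℕ) (β : ℝ),
      1 ≤ N → 0 < q → IsCoprime a (q : ℤ) → kq N q β ≤ 5 →
      ‖th 490 (v1 b) N ((a : ℝ) / q + β) * th 350 (v2 b) N ((a : ℝ) / q + β)‖ ≤ C₁ / (q * ‖zz N β‖) ∧
      ‖M12 b N a q β‖ ≤ C₁ / (q * ‖zz N β‖) ∧
      ‖th 490 (v1 b) N ((a : ℝ) / q + β) * th 350 (v2 b) N ((a : ℝ) / q + β) - M12 b N a q β‖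
        ≤ C₁ * kq N q β / (q * ‖zz N β‖))
    (hf : ∀ (T q : ℕ) (β : ℝ), 0 < q →
      ∑ a ∈ range q, ‖f b T ((a : ℝ) / q + β) - ((T : ℂ) / q) * S b a q‖ ^ 2
        ≤ C₂ * ((q : ℝ) * D2 b q q + q * β ^ 2 * (T : ℝ) ^ 10)) :
    ∑ a ∈ cop q, ‖F b T N ((a : ℝ) / q + β) - Psi b T N B a q β‖ ^ 2 ≤
      3 * (C₁ / (q * ‖zz N β‖)) ^ 2 * (κ ^ 2 * (T : ℝ) ^ 2 * q +
        C₂ * ((q : ℝ) * D2 b q q + q * β ^ 2 * (T : ℝ) ^ 10) + (β / B) ^ 2 * (T : ℝ) ^ 2 * q) := by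
  have h1 : ∀ a ∈ cop q, ‖F b T N ((a : ℝ) / q + β) - Psi b T N B a q β‖ ^ 2 ≤
      3 * (C₁ / (q * ‖zz N β‖)) ^ 2 * (κ ^ 2 * (T : ℝ) ^ 2 +
        ‖f b T ((a : ℝ) / q + β) - ((T : ℂ) / q) * S b a q‖ ^ 2 + (β / B) ^ 2 * (T : ℝ) ^ 2) := by
    intro a ha
    have hc : IsCoprime (a : ℤ) (q : ℤ) := by
      unfold cop at ha
      exact Nat.isCoprime_iff_coprime.mpr (mem_filter.mp ha).2
    obtain ⟨_, h2, h3⟩ := hprod N a q β hN hq hc (hκ.trans hκ5)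
    refine pt1 hB hq h2 ?_
    rw [Int.cast_natCast] at h3
    refine h3.trans ?_
    have hz : 0 < ‖zz N β‖ := norm_pos_iff.mpr (zz_ne hN β)
    have hq' : (0 : ℝ) < q := by exact_mod_cast hq
    rw [div_mul_eq_mul_div]
    gcongr
  refine (sum_le_sum h1).trans ?_
  rw [← mul_sum]
  refine mul_le_mul_of_nonneg_left ?_ (by positivity)
  rw [sum_add_distrib, sum_add_distrib, sum_const, sum_const, nsmul_eq_mul, nsmul_eq_mul]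
  refine add_le_add (add_le_add ?_ ?_) ?_
  · rw [mul_comm]
    exact mul_le_mul_of_nonneg_left (cop_card q) (by positivity)
  · exact (sum_le_sum_of_subset_of_nonneg (cop_sub q) (fun _ _ _ => by positivity)).trans (hf T q β hq)
  · rw [mul_comm]
    exact mul_le_mul_of_nonneg_left (cop_card q) (by positivity)

theorem int_inv {N : ℕ} (hN : 1 ≤ N) (B : ℝ) :
    (∫ β in (-B)..B, (N : ℝ) ^ 2 * (1 + ((N : ℝ) * β) ^ 2)⁻¹) ≤ Real.pi * N := by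
  have hN' : (0 : ℝ) < N := by exact_mod_cast hN
  rw [intervalIntegral.integral_const_mul,
    intervalIntegral.integral_comp_mul_left (fun x : ℝ => (1 + x ^ 2)⁻¹) hN'.ne',
    integral_inv_one_add_sq, smul_eq_mul]
  have h1 := Real.arctan_lt_pi_div_two (N * B)
  have h2 := Real.neg_pi_div_two_lt_arctan (N * (-B))
  have h3 : Real.arctan (N * B) - Real.arctan (N * (-B)) ≤ Real.pi := by linarith
  calc (N : ℝ) ^ 2 * ((N : ℝ)⁻¹ * (Real.arctan (N * B) - Real.arctan (N * (-B))))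
      = N * (Real.arctan (N * B) - Real.arctan (N * (-B))) := by field_simp
    _ ≤ N * Real.pi := mul_le_mul_of_nonneg_left h3 hN'.le
    _ = Real.pi * N := mul_comm _ _

end VarAAux

namespace VarAAux

theorem perq {b : Bool} {C₁ C₂ κ : ℝ} {N T q : ℕ} (hq : 0 < q) (hN : 1 ≤ N) (hT : 1 ≤ T)
    (hκ : ∀ β : ℝ, |β| ≤ (T : ℝ) / N → kq N q β ≤ κ) (hκ5 : κ ≤ 5) (hC₁ : 0 < C₁) (hC₂ : 0 < C₂)
    (hprod : ∀ (N : ℕ) (a : ℤ) (q : ℕ) (β : ℝ),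
      1 ≤ N → 0 < q → IsCoprime a (q : ℤ) → kq N q β ≤ 5 →
      ‖th 490 (v1 b) N ((a : ℝ) / q + β) * th 350 (v2 b) N ((a : ℝ) / q + β)‖ ≤ C₁ / (q * ‖zz N β‖) ∧
      ‖M12 b N a q β‖ ≤ C₁ / (q * ‖zz N β‖) ∧
      ‖th 490 (v1 b) N ((a : ℝ) / q + β) * th 350 (v2 b) N ((a : ℝ) / q + β) - M12 b N a q β‖
        ≤ C₁ * kq N q β / (q * ‖zz N β‖))
    (hf : ∀ (T q : ℕ) (β : ℝ), 0 < q →
      ∑ a ∈ range q, ‖f b T ((a : ℝ) / q + β) - ((T : ℂ) / q) * S b a q‖ ^ 2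
        ≤ C₂ * ((q : ℝ) * D2 b q q + q * β ^ 2 * (T : ℝ) ^ 10)) :
    ∑ a ∈ cop q, (∫ β in (-((T : ℝ) / N))..((T : ℝ) / N),
      ‖F b T N ((a : ℝ) / q + β) - Psi b T N ((T : ℝ) / N) a q β‖ ^ 2) ≤
      3 * C₁ ^ 2 / q * ((κ ^ 2 * (T : ℝ) ^ 2 + C₂ * D2 b q q) * (Real.pi * N) +
        2 * ((T : ℝ) / N) * (C₂ * (T : ℝ) ^ 10) + 2 * T * N) := by
  have hN' : (0 : ℝ) < N := by exact_mod_cast hN
  have hT' : (0 : ℝ) < T := by exact_mod_cast hT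
  have hq' : (0 : ℝ) < q := by exact_mod_cast hq
  set B : ℝ := (T : ℝ) / N with hB
  have hB0 : 0 < B := by positivity
  have hcont : ∀ a : ℕ, Continuous fun β : ℝ => ‖F b T N ((a : ℝ) / q + β) - Psi b T N B a q β‖ ^ 2 := by
    intro a
    exact ((((F_cont' b T hN).comp (continuous_const.add continuous_id)).sub (Psi_cont b T hN B a q)).norm).pow 2
  rw [← intervalIntegral.integral_finset_sum (fun a _ => (hcont a).intervalIntegrable _ _)]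
  set A₀ : ℝ := 3 * C₁ ^ 2 / (q : ℝ) ^ 2 * (κ ^ 2 * (T : ℝ) ^ 2 * q + C₂ * (q * D2 b q q)) with hA₀
  set G₀ : ℝ := C₂ * (q * (T : ℝ) ^ 10) + (T : ℝ) ^ 2 * q / B ^ 2 with hG₀
  set K : ℝ := 3 * C₁ ^ 2 / (q : ℝ) ^ 2 * G₀ with hK
  have hcg : Continuous fun β : ℝ => (N : ℝ) ^ 2 * (1 + ((N : ℝ) * β) ^ 2)⁻¹ := by
    refine continuous_const.mul (Continuous.inv₀ (by fun_prop) ?_)
    intro β
    positivity
  have hpt : ∀ β ∈ Set.Icc (-B) B, (∑ a ∈ cop q, ‖F b T N ((a : ℝ) / q + β) - Psi b T N B a q β‖ ^ 2) ≤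
      A₀ * ((N : ℝ) ^ 2 * (1 + ((N : ℝ) * β) ^ 2)⁻¹) + K := by
    intro β hβ
    have hβ' : |β| ≤ B := abs_le.mpr ⟨hβ.1, hβ.2⟩
    refine (pt2 hB0 hq hN (hκ β hβ') hκ5 hC₁ hprod hf).trans ?_
    have hw : (C₁ / (q * ‖zz N β‖)) ^ 2 = C₁ ^ 2 / (q : ℝ) ^ 2 * ((N : ℝ) ^ 2 * (1 + ((N : ℝ) * β) ^ 2)⁻¹) := by
      rw [div_pow, mul_pow, norm_zz_sq]
      have h1 : (1 / (N : ℝ)) ^ 2 + β ^ 2 = (1 + ((N : ℝ) * β) ^ 2) / (N : ℝ) ^ 2 := by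
        field_simp
      have h2 : (0 : ℝ) < 1 + ((N : ℝ) * β) ^ 2 := by positivity
      rw [h1]
      field_simp
    rw [hw]
    set R : ℝ := (N : ℝ) ^ 2 * (1 + ((N : ℝ) * β) ^ 2)⁻¹ with hR
    have hRβ : R * β ^ 2 ≤ 1 := by
      have h2 : (0 : ℝ) < 1 + ((N : ℝ) * β) ^ 2 := by positivity
      have h3 : R * β ^ 2 = ((N : ℝ) * β) ^ 2 / (1 + ((N : ℝ) * β) ^ 2) := by
        rw [hR]
        field_simp
      rw [h3, div_le_one h2]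
      linarith
    have hG0 : 0 ≤ G₀ := by positivity
    have h4 : 3 * (C₁ ^ 2 / (q : ℝ) ^ 2 * R) * (κ ^ 2 * (T : ℝ) ^ 2 * q +
        C₂ * ((q : ℝ) * D2 b q q + q * β ^ 2 * (T : ℝ) ^ 10) + (β / B) ^ 2 * (T : ℝ) ^ 2 * q) =
        A₀ * R + K - 3 * C₁ ^ 2 / (q : ℝ) ^ 2 * ((1 - R * β ^ 2) * G₀) := by
      rw [hK, hA₀, hG₀, div_pow]
      ring
    rw [h4]
    have h5 : 0 ≤ 3 * C₁ ^ 2 / (q : ℝ) ^ 2 * ((1 - R * β ^ 2) * G₀) := by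
      refine mul_nonneg (by positivity) (mul_nonneg (by linarith) hG0)
    linarith
  have hsc : Continuous fun β : ℝ => ∑ a ∈ cop q, ‖F b T N ((a : ℝ) / q + β) - Psi b T N B a q β‖ ^ 2 :=
    continuous_finset_sum _ fun a _ => hcont a
  have hgc : Continuous fun β : ℝ => A₀ * ((N : ℝ) ^ 2 * (1 + ((N : ℝ) * β) ^ 2)⁻¹) + K :=
    (continuous_const.mul hcg).add continuous_const
  refine (intervalIntegral.integral_mono_on (by linarith) (hsc.intervalIntegrable _ _)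
    (hgc.intervalIntegrable _ _) hpt).trans ?_
  have hc1 : Continuous fun β : ℝ => A₀ * ((N : ℝ) ^ 2 * (1 + ((N : ℝ) * β) ^ 2)⁻¹) :=
    continuous_const.mul hcg
  have hc2 : Continuous fun _ : ℝ => K := continuous_const
  rw [intervalIntegral.integral_add (hc1.intervalIntegrable _ _)
    (hc2.intervalIntegrable _ _), intervalIntegral.integral_const_mul,
    intervalIntegral.integral_const, smul_eq_mul]
  have hA0 : 0 ≤ A₀ := by positivity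
  have h6 := mul_le_mul_of_nonneg_left (int_inv hN B) hA0
  refine (add_le_add_left h6 _).trans (le_of_eq ?_)
  rw [hA₀, hK, hG₀, hB]
  field_simp
  ring

theorem harm {Q : ℕ} {N : ℕ} (hN : 1 ≤ N) (hQ1 : 1 ≤ Q) (hQ : Q ≤ N) {ε : ℝ} (hε : 0 < ε) :
    ∑ q ∈ Icc 1 Q, (1 : ℝ) / q ≤ (1 + 1 / ε) * (N : ℝ) ^ ε := by
  have h1 : ∑ q ∈ Icc 1 Q, (1 : ℝ) / q = ((harmonic Q : ℚ) : ℝ) := by
    rw [harmonic_eq_sum_Icc]
    push_cast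
    exact sum_congr rfl fun q _ => one_div _
  have hN' : (1 : ℝ) ≤ N := by exact_mod_cast hN
  have hQ1' : (0 : ℝ) < Q := by exact_mod_cast hQ1
  have hQ' : (Q : ℝ) ≤ N := by exact_mod_cast hQ
  rw [h1]
  have h2 := harmonic_le_one_add_log Q
  have h3 : Real.log Q ≤ Real.log N := Real.log_le_log hQ1' hQ'
  have h4 : Real.log N ≤ (N : ℝ) ^ ε / ε := Real.log_le_rpow_div (by linarith) hε
  have h5 : (1 : ℝ) ≤ (N : ℝ) ^ ε := Real.one_le_rpow hN' hε.le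
  calc ((harmonic Q : ℚ) : ℝ) ≤ 1 + Real.log Q := h2
    _ ≤ (N : ℝ) ^ ε + (N : ℝ) ^ ε / ε := by linarith
    _ = (1 + 1 / ε) * (N : ℝ) ^ ε := by ring

theorem nat1 {N T Q : ℕ} (hN : 1 ≤ N) (hTN : T ^ 5 ≤ N) (hQN : Q ^ 9 ≤ N ^ 2) : Q ^ 2 * T ^ 2 ≤ N := by
  by_contra h
  push Not at h
  have h1 : N ^ 45 < (Q ^ 2 * T ^ 2) ^ 45 := Nat.pow_lt_pow_left h (by norm_num)
  have h2 : (Q ^ 2 * T ^ 2) ^ 45 = (Q ^ 9) ^ 10 * (T ^ 5) ^ 18 := by ring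
  have h3 : (Q ^ 9) ^ 10 * (T ^ 5) ^ 18 ≤ (N ^ 2) ^ 10 * N ^ 18 :=
    Nat.mul_le_mul (Nat.pow_le_pow_left hQN 10) (Nat.pow_le_pow_left hTN 18)
  have h4 : (N ^ 2) ^ 10 * N ^ 18 = N ^ 38 := by ring
  have h5 : N ^ 38 ≤ N ^ 45 := Nat.pow_le_pow_right hN (by norm_num)
  rw [h2] at h1
  rw [h4] at h3
  exact absurd (h1.trans_le (h3.trans h5)) (lt_irrefl _)

theorem nat2 {N T Q : ℕ} (hN : 1 ≤ N) (hTN : T ^ 5 ≤ N) (hQN : Q ^ 9 ≤ N ^ 2) : Q ^ 3 * T ^ 6 ≤ N ^ 2 := by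
  by_contra h
  push Not at h
  have h1 : (N ^ 2) ^ 15 < (Q ^ 3 * T ^ 6) ^ 15 := Nat.pow_lt_pow_left h (by norm_num)
  have h2 : (Q ^ 3 * T ^ 6) ^ 15 = (Q ^ 9) ^ 5 * (T ^ 5) ^ 18 := by ring
  have h3 : (Q ^ 9) ^ 5 * (T ^ 5) ^ 18 ≤ (N ^ 2) ^ 5 * N ^ 18 :=
    Nat.mul_le_mul (Nat.pow_le_pow_left hQN 5) (Nat.pow_le_pow_left hTN 18)
  have h4 : (N ^ 2) ^ 5 * N ^ 18 = N ^ 28 := by ring
  have h5 : N ^ 28 ≤ N ^ 30 := Nat.pow_le_pow_right hN (by norm_num)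
  have h6 : (N ^ 2) ^ 15 = N ^ 30 := by ring
  rw [h2, h6] at h1
  rw [h4] at h3
  exact absurd (h1.trans_le (h3.trans h5)) (lt_irrefl _)

theorem nat3 {N Q : ℕ} (hN : 1 ≤ N) (hQN : Q ^ 9 ≤ N ^ 2) : Q ≤ N := by
  by_contra h
  push Not at h
  have h1 : N ^ 9 < Q ^ 9 := Nat.pow_lt_pow_left h (by norm_num)
  have h5 : N ^ 2 ≤ N ^ 9 := Nat.pow_le_pow_right hN (by norm_num)
  omega

end VarAAux

open VarAAux in
theorem varA (b : Bool) (ε : ℝ) (hε : 0 < ε) : ∃ C : ℝ, 0 < C ∧ ∀ N T Q : ℕ, 1 ≤ T → T ^ 5 ≤ N → T ≤ Q →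
    Q ^ 9 ≤ N ^ 2 → ∑ q ∈ Icc 1 Q, ∑ a ∈ cop q, (∫ β in (-((T : ℝ) / N))..((T : ℝ) / N),
      ‖F b T N ((a : ℝ) / q + β) - Psi b T N ((T : ℝ) / N) a q β‖ ^ 2) ≤ C * (N : ℝ) ^ (1 + ε) * Q := by
  obtain ⟨C₁, hC₁, hprod⟩ := prod_bounds b
  obtain ⟨C₂, hC₂, hf⟩ := f_app b
  obtain ⟨C₃, hC₃, hdiv⟩ := div_sum2 b ε hε
  refine ⟨3 * C₁ ^ 2 * ((4 * Real.pi + 2 * C₂ + 2) * (1 + 1 / ε) + Real.pi * C₂ * C₃), ?_, ?_⟩
  · have := Real.pi_pos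
    positivity
  intro N T Q hT hTN hTQ hQN
  have hπ := Real.pi_pos
  have hN : 1 ≤ N := le_trans (Nat.one_le_pow _ _ hT) hTN
  have hQ1 : 1 ≤ Q := hT.trans hTQ
  have hQle : Q ≤ N := nat3 hN hQN
  have hN' : (0 : ℝ) < N := by exact_mod_cast hN
  have hT' : (1 : ℝ) ≤ T := by exact_mod_cast hT
  have hQ' : (0 : ℝ) < Q := by exact_mod_cast hQ1
  have hTQ' : (T : ℝ) ≤ Q := by exact_mod_cast hTQ
  have n1 : (Q : ℝ) ^ 2 * (T : ℝ) ^ 2 ≤ N := by exact_mod_cast nat1 hN hTN hQN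
  have n2 : (Q : ℝ) ^ 3 * (T : ℝ) ^ 6 ≤ (N : ℝ) ^ 2 := by exact_mod_cast nat2 hN hTN hQN
  have n3 : (T : ℝ) ^ 10 ≤ (N : ℝ) ^ 2 := by
    have h : (T : ℝ) ^ 5 ≤ N := by exact_mod_cast hTN
    calc (T : ℝ) ^ 10 = ((T : ℝ) ^ 5) ^ 2 := by ring
      _ ≤ (N : ℝ) ^ 2 := pow_le_pow_left₀ (by positivity) h 2
  set κ : ℝ := 2 * (Q : ℝ) ^ 2 * (T : ℝ) ^ 2 / N with hκdef
  have hκ2 : κ ≤ 2 := by
    rw [hκdef, div_le_iff₀ hN']
    linarith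
  have hper : ∀ q ∈ Icc 1 Q, ∑ a ∈ cop q, (∫ β in (-((T : ℝ) / N))..((T : ℝ) / N),
      ‖F b T N ((a : ℝ) / q + β) - Psi b T N ((T : ℝ) / N) a q β‖ ^ 2) ≤
      3 * C₁ ^ 2 * N * (((4 * Real.pi + 2 * C₂ + 2) * Q) * (1 / q) + Real.pi * C₂ * (D2 b q q / q)) := by
    intro q hq
    obtain ⟨hq1, hqQ⟩ := mem_Icc.mp hq
    have hq' : (0 : ℝ) < q := by exact_mod_cast hq1
    have hqQ' : (q : ℝ) ≤ Q := by exact_mod_cast hqQ
    have hκ : ∀ β : ℝ, |β| ≤ (T : ℝ) / N → kq N q β ≤ κ := by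
      intro β hβ
      have h1 : β ^ 2 ≤ ((T : ℝ) / N) ^ 2 := by
        rw [← sq_abs β]
        exact pow_le_pow_left₀ (abs_nonneg _) hβ 2
      have h2 : (N : ℝ) * β ^ 2 ≤ (T : ℝ) ^ 2 / N := by
        calc (N : ℝ) * β ^ 2 ≤ N * ((T : ℝ) / N) ^ 2 := mul_le_mul_of_nonneg_left h1 hN'.le
          _ = (T : ℝ) ^ 2 / N := by field_simp
      have h3 : 1 / (N : ℝ) ≤ (T : ℝ) ^ 2 / N := by
        gcongr
        nlinarith
      unfold kq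
      calc (q : ℝ) ^ 2 * (1 / (N : ℝ) + N * β ^ 2) ≤ (Q : ℝ) ^ 2 * ((T : ℝ) ^ 2 / N + (T : ℝ) ^ 2 / N) := by
            gcongr
        _ = κ := by
            rw [hκdef]
            ring
    refine (perq hq1 hN hT hκ (by linarith) hC₁ hC₂ hprod hf).trans ?_
    have e1 : κ ^ 2 * (T : ℝ) ^ 2 * N ≤ 4 * N * Q := by
      have h1 : κ ^ 2 * (T : ℝ) ^ 2 * N = 4 * Q * ((Q : ℝ) ^ 3 * (T : ℝ) ^ 6) / N := by
        rw [hκdef]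
        field_simp
        ring
      rw [h1, div_le_iff₀ hN']
      calc 4 * (Q : ℝ) * ((Q : ℝ) ^ 3 * (T : ℝ) ^ 6) ≤ 4 * Q * (N : ℝ) ^ 2 := by gcongr
        _ = 4 * (N : ℝ) * Q * N := by ring
    have e2 : (T : ℝ) / N * (T : ℝ) ^ 10 ≤ N * Q := by
      calc (T : ℝ) / N * (T : ℝ) ^ 10 ≤ (T : ℝ) / N * (N : ℝ) ^ 2 := by gcongr
        _ = (T : ℝ) * N := by field_simp
        _ ≤ (N : ℝ) * Q := by nlinarith
    have e3 : (T : ℝ) * N ≤ N * Q := by nlinarith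
    have e4 : (κ ^ 2 * (T : ℝ) ^ 2 + C₂ * D2 b q q) * (Real.pi * N) +
        2 * ((T : ℝ) / N) * (C₂ * (T : ℝ) ^ 10) + 2 * T * N ≤
        N * ((4 * Real.pi + 2 * C₂ + 2) * Q + Real.pi * C₂ * D2 b q q) := by
      have e5 := mul_le_mul_of_nonneg_left e1 hπ.le
      have e6 := mul_le_mul_of_nonneg_left e2 hC₂.le
      linarith
    calc 3 * C₁ ^ 2 / q * ((κ ^ 2 * (T : ℝ) ^ 2 + C₂ * D2 b q q) * (Real.pi * N) +
        2 * ((T : ℝ) / N) * (C₂ * (T : ℝ) ^ 10) + 2 * T * N)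
        ≤ 3 * C₁ ^ 2 / q * (N * ((4 * Real.pi + 2 * C₂ + 2) * Q + Real.pi * C₂ * D2 b q q)) :=
          mul_le_mul_of_nonneg_left e4 (by positivity)
      _ = 3 * C₁ ^ 2 * N * (((4 * Real.pi + 2 * C₂ + 2) * Q) * (1 / q) + Real.pi * C₂ * (D2 b q q / q)) := by
          field_simp
  refine (sum_le_sum hper).trans ?_
  rw [← mul_sum, sum_add_distrib, ← mul_sum, ← mul_sum]
  have s1 := harm hN hQ1 hQle hε
  have s2 := hdiv Q N hQ1 hQle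
  have hNe : (N : ℝ) ^ (1 + ε) = N * (N : ℝ) ^ ε := by
    rw [Real.rpow_add hN', Real.rpow_one]
  calc 3 * C₁ ^ 2 * N * ((4 * Real.pi + 2 * C₂ + 2) * Q * (∑ q ∈ Icc 1 Q, 1 / (q : ℝ)) +
        Real.pi * C₂ * ∑ q ∈ Icc 1 Q, (D2 b q q : ℝ) / q)
      ≤ 3 * C₁ ^ 2 * N * ((4 * Real.pi + 2 * C₂ + 2) * Q * ((1 + 1 / ε) * (N : ℝ) ^ ε) +
        Real.pi * C₂ * (C₃ * (N : ℝ) ^ ε * Q)) := by gcongr
    _ = _ := by
        rw [hNe]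
        ring

end Pool.Agent.Lib.TSP
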