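import Pool.Agent.Lib.TSP.ThP
import Pool.Agent.Lib.TSP.MSq
import Pool.Agent.Lib.TSP.Div
import Pool.Agent.Lib.TSP.VarA

/-!
# TSP.VarB: the minor arcs (1.2 h)
PROOF. `R = Nat.sqrt N`, `w = zz N β`, `|w|² = 1/N² + β²`. For `q ≤ R`, `|β| ≤ 1/(qR)`: `kq = q²/N + N q² β² ≤ 1 + N/R² ≤ 1 + (R²+2R)/R² ≤ 4`, so `prod_bounds` gives
`|F(a/q+β)|² ≤ C²/(q²|w|²) |f(a/q+β)|²`.
`varB` (`q ≤ Q`, where `Q ≤ R` since `Q^9 ≤ N²`; `|β| ≥ B = T/N`): `|f| ≤ T`, at most `q` fractions, `∫_{|β| ≥ B} β^(-2) = 2/B`: `∑_q C² q^(-2) q T² 2/B = 2C² T N ∑ 1/q ≤ C' N^(1+ε) Q`.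
`varC` (`T < q ≤ R`): `msq`: `∑_a |f|² ≤ q D2 b T q`, `∫ 1/|w|² ≤ πN`: `∑_q C² q^(-2) q D2 b T q π N = π C² N ∑_{T<q≤R} D2 b T q/q ≤ C' N^(1+ε) (T + T²/T)` (`div_sum1`, `K = T`).
-/

set_option autoImplicit false

open Finset

namespace Pool.Agent.Lib.TSP

namespace VarBAux

open VarAAux

/-- the pointwise bound on the whole arc -/
theorem F_bd {b : Bool} {C₁ : ℝ} {N T q a : ℕ} {β : ℝ} (hN : 1 ≤ N) (hq : 0 < q) (hqR : q ≤ Nat.sqrt N)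
    (hac : a ∈ cop q) (hβ : |β| ≤ 1 / ((q : ℝ) * (Nat.sqrt N : ℕ)))
    (hprod : ∀ (N : ℕ) (a : ℤ) (q : ℕ) (β : ℝ),
      1 ≤ N → 0 < q → IsCoprime a (q : ℤ) → kq N q β ≤ 5 →
      ‖th 490 (v1 b) N ((a : ℝ) / q + β) * th 350 (v2 b) N ((a : ℝ) / q + β)‖ ≤ C₁ / (q * ‖zz N β‖) ∧
      ‖M12 b N a q β‖ ≤ C₁ / (q * ‖zz N β‖) ∧
      ‖th 490 (v1 b) N ((a : ℝ) / q + β) * th 350 (v2 b) N ((a : ℝ) / q + β) - M12 b N a q β‖
        ≤ C₁ * kq N q β / (q * ‖zz N β‖)) :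
    ‖F b T N ((a : ℝ) / q + β)‖ ^ 2 ≤
      C₁ ^ 2 / (q : ℝ) ^ 2 * ((N : ℝ) ^ 2 * (1 + ((N : ℝ) * β) ^ 2)⁻¹) * ‖f b T ((a : ℝ) / q + β)‖ ^ 2 := by
  have hN' : (0 : ℝ) < N := by exact_mod_cast hN
  have hq' : (1 : ℝ) ≤ q := by exact_mod_cast hq
  have hR1 : 1 ≤ Nat.sqrt N := hq.trans_le hqR
  have hR' : (1 : ℝ) ≤ (Nat.sqrt N : ℕ) := by exact_mod_cast hR1
  have hqR' : (q : ℝ) ≤ (Nat.sqrt N : ℕ) := by exact_mod_cast hqR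
  set R : ℝ := ((Nat.sqrt N : ℕ) : ℝ) with hR
  have hRN : R ^ 2 ≤ N := by
    have := Nat.sqrt_le' N
    rw [hR]
    exact_mod_cast this
  have hNR : (N : ℝ) ≤ 4 * R ^ 2 := by
    have h1 := Nat.lt_succ_sqrt' N
    have h2 : (N : ℝ) < (R + 1) ^ 2 := by
      rw [hR]
      exact_mod_cast h1
    nlinarith
  have hk : kq N q β ≤ 5 := by
    unfold kq
    have h1 : β ^ 2 ≤ (1 / ((q : ℝ) * R)) ^ 2 := by
      rw [← sq_abs β]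
      exact pow_le_pow_left₀ (abs_nonneg _) hβ 2
    have h2 : (q : ℝ) ^ 2 * (N * β ^ 2) ≤ 4 := by
      calc (q : ℝ) ^ 2 * (N * β ^ 2) ≤ (q : ℝ) ^ 2 * (N * (1 / ((q : ℝ) * R)) ^ 2) := by gcongr
        _ = N / R ^ 2 := by
            field_simp
        _ ≤ 4 := by
            rw [div_le_iff₀ (by positivity)]
            exact hNR
    have h3 : (q : ℝ) ^ 2 * (1 / (N : ℝ)) ≤ 1 := by
      rw [mul_one_div, div_le_one hN']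
      exact (pow_le_pow_left₀ (by linarith) hqR' 2).trans hRN
    rw [mul_add]
    linarith
  have hc : IsCoprime (a : ℤ) (q : ℤ) := by
    unfold cop at hac
    exact Nat.isCoprime_iff_coprime.mpr (mem_filter.mp hac).2
  obtain ⟨h2, _, _⟩ := hprod N a q β hN hq hc hk
  rw [Int.cast_natCast] at h2
  have hw : (C₁ / (q * ‖zz N β‖)) ^ 2 = C₁ ^ 2 / (q : ℝ) ^ 2 * ((N : ℝ) ^ 2 * (1 + ((N : ℝ) * β) ^ 2)⁻¹) := by
    rw [div_pow, mul_pow, norm_zz_sq]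
    have h1 : (1 / (N : ℝ)) ^ 2 + β ^ 2 = (1 + ((N : ℝ) * β) ^ 2) / (N : ℝ) ^ 2 := by
      field_simp
    have h2 : (0 : ℝ) < 1 + ((N : ℝ) * β) ^ 2 := by positivity
    rw [h1]
    field_simp
  unfold F
  rw [norm_mul, mul_pow, ← hw]
  gcongr

theorem int_sq {B A : ℝ} (hB : 0 < B) (hBA : B ≤ A) : (∫ β in B..A, (β ^ 2)⁻¹) ≤ 1 / B := by
  have hA : 0 < A := hB.trans_le hBA
  have h0 : ∀ x ∈ Set.uIcc B A, 0 < x := by
    intro x hx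
    rw [Set.uIcc_of_le hBA] at hx
    exact hB.trans_le hx.1
  have h1 : ∀ x ∈ Set.uIcc B A, HasDerivAt (fun y : ℝ => -y⁻¹) ((x ^ 2)⁻¹) x := by
    intro x hx
    have := (hasDerivAt_inv (h0 x hx).ne').fun_neg
    rw [neg_neg] at this
    exact this
  have h2 : ContinuousOn (fun x : ℝ => (x ^ 2)⁻¹) (Set.uIcc B A) := by
    refine ContinuousOn.inv₀ (by fun_prop) ?_
    intro x hx
    have := h0 x hx
    positivity
  rw [intervalIntegral.integral_eq_sub_of_hasDerivAt h1 h2.intervalIntegrable]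
  have : 0 < A⁻¹ := inv_pos.mpr hA
  rw [one_div]
  linarith

/-- the two tails -/
theorem set_eq {B A : ℝ} (hB : 0 < B) :
    {β : ℝ | B ≤ |β| ∧ |β| ≤ A} = Set.Icc B A ∪ Set.Icc (-A) (-B) := by
  ext β
  simp only [Set.mem_ofPred_eq, Set.mem_union, Set.mem_Icc]
  constructor
  · rintro ⟨h1, h2⟩
    rcases le_total 0 β with h | h
    · rw [abs_of_nonneg h] at h1 h2
      exact Or.inl ⟨h1, h2⟩
    · rw [abs_of_nonpos h] at h1 h2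
      exact Or.inr ⟨by linarith, by linarith⟩
  · rintro (⟨h1, h2⟩ | ⟨h1, h2⟩)
    · rw [abs_of_pos (by linarith)]
      exact ⟨h1, h2⟩
    · rw [abs_of_neg (by linarith)]
      exact ⟨by linarith, by linarith⟩

theorem tail {B A : ℝ} (hB : 0 < B) (hBA : B ≤ A) :
    MeasureTheory.IntegrableOn (fun β : ℝ => (β ^ 2)⁻¹) {β : ℝ | B ≤ |β| ∧ |β| ≤ A} ∧
    (∫ β in {β : ℝ | B ≤ |β| ∧ |β| ≤ A}, (β ^ 2)⁻¹) ≤ 2 / B := by
  have c1 : MeasureTheory.IntegrableOn (fun β : ℝ => (β ^ 2)⁻¹) (Set.Icc B A) := by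
    refine ContinuousOn.integrableOn_Icc (ContinuousOn.inv₀ (by fun_prop) ?_)
    intro x hx
    have : 0 < x := hB.trans_le hx.1
    positivity
  have c2 : MeasureTheory.IntegrableOn (fun β : ℝ => (β ^ 2)⁻¹) (Set.Icc (-A) (-B)) := by
    refine ContinuousOn.integrableOn_Icc (ContinuousOn.inv₀ (by fun_prop) ?_)
    intro x hx
    have : x < 0 := by linarith [hx.2]
    have : x ≠ 0 := this.ne
    positivity
  rw [set_eq hB]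
  refine ⟨c1.union c2, ?_⟩
  have hd : Disjoint (Set.Icc B A) (Set.Icc (-A) (-B)) := by
    rw [Set.disjoint_left]
    rintro x ⟨h1, _⟩ ⟨_, h2⟩
    linarith
  rw [MeasureTheory.setIntegral_union hd measurableSet_Icc c1 c2,
    MeasureTheory.integral_Icc_eq_integral_Ioc, MeasureTheory.integral_Icc_eq_integral_Ioc,
    ← intervalIntegral.integral_of_le hBA, ← intervalIntegral.integral_of_le (by linarith)]
  have h1 := int_sq hB hBA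
  have h2 : (∫ β in (-A)..(-B), (β ^ 2)⁻¹) = ∫ β in B..A, (β ^ 2)⁻¹ := by
    have := intervalIntegral.integral_comp_neg (f := fun β : ℝ => (β ^ 2)⁻¹) (a := B) (b := A)
    rw [← this]
    refine intervalIntegral.integral_congr ?_
    intro x _
    simp
  rw [h2]
  have : 2 / B = 1 / B + 1 / B := by ring
  linarith

theorem sq_int {b : Bool} {T N : ℕ} (hN : 1 ≤ N) (a q : ℕ) {s : Set ℝ} {A : ℝ} (hs : s ⊆ Set.Icc (-A) A) :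
    MeasureTheory.IntegrableOn (fun β : ℝ => ‖F b T N ((a : ℝ) / q + β)‖ ^ 2) s := by
  have hc : Continuous fun β : ℝ => ‖F b T N ((a : ℝ) / q + β)‖ ^ 2 :=
    (((F_cont' b T hN).comp (continuous_const.add continuous_id)).norm).pow 2
  exact (hc.continuousOn.integrableOn_Icc).mono_set hs

/-- one arc of `varB` -/
theorem oneB {b : Bool} {C₁ : ℝ} {N T q a : ℕ} (hN : 1 ≤ N) (hT : 1 ≤ T) (hq : 0 < q) (hqR : q ≤ Nat.sqrt N)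
    (hac : a ∈ cop q)
    (hprod : ∀ (N : ℕ) (a : ℤ) (q : ℕ) (β : ℝ),
      1 ≤ N → 0 < q → IsCoprime a (q : ℤ) → kq N q β ≤ 5 →
      ‖th 490 (v1 b) N ((a : ℝ) / q + β) * th 350 (v2 b) N ((a : ℝ) / q + β)‖ ≤ C₁ / (q * ‖zz N β‖) ∧
      ‖M12 b N a q β‖ ≤ C₁ / (q * ‖zz N β‖) ∧
      ‖th 490 (v1 b) N ((a : ℝ) / q + β) * th 350 (v2 b) N ((a : ℝ) / q + β) - M12 b N a q β‖
        ≤ C₁ * kq N q β / (q * ‖zz N β‖)) :
    (∫ β in {β : ℝ | (T : ℝ) / N ≤ |β| ∧ |β| ≤ 1 / ((q : ℝ) * (Nat.sqrt N : ℕ))},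
        ‖F b T N ((a : ℝ) / q + β)‖ ^ 2) ≤ 2 * C₁ ^ 2 * N * T / (q : ℝ) ^ 2 := by
  have hN' : (0 : ℝ) < N := by exact_mod_cast hN
  have hT' : (0 : ℝ) < T := by exact_mod_cast hT
  have hq' : (0 : ℝ) < q := by exact_mod_cast hq
  set B : ℝ := (T : ℝ) / N with hB
  set A : ℝ := 1 / ((q : ℝ) * (Nat.sqrt N : ℕ)) with hA
  have hB0 : 0 < B := by positivity
  rcases lt_or_ge A B with h | h
  · have : {β : ℝ | B ≤ |β| ∧ |β| ≤ A} = ∅ := by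
      ext β
      simp only [Set.mem_ofPred_eq, Set.mem_empty_iff_false, iff_false]
      rintro ⟨h1, h2⟩
      linarith
    rw [this, MeasureTheory.setIntegral_empty]
    positivity
  obtain ⟨i1, i2⟩ := tail hB0 h
  have hms : MeasurableSet {β : ℝ | B ≤ |β| ∧ |β| ≤ A} := by
    rw [set_eq hB0]
    exact measurableSet_Icc.union measurableSet_Icc
  have hsub : {β : ℝ | B ≤ |β| ∧ |β| ≤ A} ⊆ Set.Icc (-A) A := by
    rintro β ⟨_, h2⟩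
    exact ⟨(abs_le.mp h2).1, (abs_le.mp h2).2⟩
  calc (∫ β in {β : ℝ | B ≤ |β| ∧ |β| ≤ A}, ‖F b T N ((a : ℝ) / q + β)‖ ^ 2)
      ≤ ∫ β in {β : ℝ | B ≤ |β| ∧ |β| ≤ A}, C₁ ^ 2 / (q : ℝ) ^ 2 * (T : ℝ) ^ 2 * (β ^ 2)⁻¹ := by
        refine MeasureTheory.setIntegral_mono_on (sq_int hN a q hsub) (i1.const_mul _) hms ?_
        rintro β ⟨hβ1, hβ2⟩
        refine (F_bd hN hq hqR hac hβ2 hprod).trans ?_
        have hb : 0 < |β| := hB0.trans_le hβ1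
        have hb2 : 0 < β ^ 2 := by
          rw [← sq_abs]
          positivity
        have e1 : (N : ℝ) ^ 2 * (1 + ((N : ℝ) * β) ^ 2)⁻¹ ≤ (β ^ 2)⁻¹ := by
          rw [← div_eq_mul_inv, div_le_iff₀ (by positivity), ← div_eq_inv_mul, le_div_iff₀ hb2]
          nlinarith
        have e2 : ‖f b T ((a : ℝ) / q + β)‖ ^ 2 ≤ (T : ℝ) ^ 2 :=
          pow_le_pow_left₀ (norm_nonneg _) (f_le b T _) 2
        calc C₁ ^ 2 / (q : ℝ) ^ 2 * ((N : ℝ) ^ 2 * (1 + ((N : ℝ) * β) ^ 2)⁻¹) *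
            ‖f b T ((a : ℝ) / q + β)‖ ^ 2
            ≤ C₁ ^ 2 / (q : ℝ) ^ 2 * (β ^ 2)⁻¹ * (T : ℝ) ^ 2 := by gcongr
          _ = C₁ ^ 2 / (q : ℝ) ^ 2 * (T : ℝ) ^ 2 * (β ^ 2)⁻¹ := by ring
    _ = C₁ ^ 2 / (q : ℝ) ^ 2 * (T : ℝ) ^ 2 * ∫ β in {β : ℝ | B ≤ |β| ∧ |β| ≤ A}, (β ^ 2)⁻¹ :=
        MeasureTheory.integral_const_mul _ _
    _ ≤ C₁ ^ 2 / (q : ℝ) ^ 2 * (T : ℝ) ^ 2 * (2 / B) := by gcongr
    _ = 2 * C₁ ^ 2 * N * T / (q : ℝ) ^ 2 := by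
        rw [hB]
        field_simp

/-- one denominator of `varC` -/
theorem oneC {b : Bool} {C₁ : ℝ} {N T q : ℕ} (hN : 1 ≤ N) (hq : 0 < q) (hqR : q ≤ Nat.sqrt N)
    (hprod : ∀ (N : ℕ) (a : ℤ) (q : ℕ) (β : ℝ),
      1 ≤ N → 0 < q → IsCoprime a (q : ℤ) → kq N q β ≤ 5 →
      ‖th 490 (v1 b) N ((a : ℝ) / q + β) * th 350 (v2 b) N ((a : ℝ) / q + β)‖ ≤ C₁ / (q * ‖zz N β‖) ∧
      ‖M12 b N a q β‖ ≤ C₁ / (q * ‖zz N β‖) ∧
      ‖th 490 (v1 b) N ((a : ℝ) / q + β) * th 350 (v2 b) N ((a : ℝ) / q + β) - M12 b N a q β‖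
        ≤ C₁ * kq N q β / (q * ‖zz N β‖)) :
    ∑ a ∈ cop q, (∫ β in {β : ℝ | |β| ≤ 1 / ((q : ℝ) * (Nat.sqrt N : ℕ))},
        ‖F b T N ((a : ℝ) / q + β)‖ ^ 2) ≤ Real.pi * C₁ ^ 2 * N * (D2 b T q / q) := by
  have hN' : (0 : ℝ) < N := by exact_mod_cast hN
  have hq' : (0 : ℝ) < q := by exact_mod_cast hq
  set A : ℝ := 1 / ((q : ℝ) * (Nat.sqrt N : ℕ)) with hA
  have hA0 : 0 ≤ A := by positivity
  have hset : {β : ℝ | |β| ≤ A} = Set.Icc (-A) A := by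
    ext β
    simp only [Set.mem_ofPred_eq, Set.mem_Icc]
    exact abs_le
  rw [hset]
  have hcont : ∀ a : ℕ, Continuous fun β : ℝ => ‖F b T N ((a : ℝ) / q + β)‖ ^ 2 := by
    intro a
    exact (((F_cont' b T hN).comp (continuous_const.add continuous_id)).norm).pow 2
  rw [← MeasureTheory.integral_finsetSum _ (fun a _ => (hcont a).continuousOn.integrableOn_Icc)]
  have hcg : Continuous fun β : ℝ => (N : ℝ) ^ 2 * (1 + ((N : ℝ) * β) ^ 2)⁻¹ := by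
    refine continuous_const.mul (Continuous.inv₀ (by fun_prop) ?_)
    intro β
    positivity
  have hsc : Continuous fun β : ℝ => ∑ a ∈ cop q, ‖F b T N ((a : ℝ) / q + β)‖ ^ 2 :=
    continuous_finsetSum _ fun a _ => hcont a
  have hgc : Continuous fun β : ℝ => C₁ ^ 2 / (q : ℝ) * D2 b T q * ((N : ℝ) ^ 2 * (1 + ((N : ℝ) * β) ^ 2)⁻¹) :=
    continuous_const.mul hcg
  rw [MeasureTheory.integral_Icc_eq_integral_Ioc, ← intervalIntegral.integral_of_le (by linarith)]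
  refine (intervalIntegral.integral_mono_on (by linarith) (hsc.intervalIntegrable _ _)
    (hgc.intervalIntegrable _ _) ?_).trans ?_
  · intro β hβ
    have hβ' : |β| ≤ A := abs_le.mpr ⟨hβ.1, hβ.2⟩
    calc (∑ a ∈ cop q, ‖F b T N ((a : ℝ) / q + β)‖ ^ 2)
        ≤ ∑ a ∈ cop q, C₁ ^ 2 / (q : ℝ) ^ 2 * ((N : ℝ) ^ 2 * (1 + ((N : ℝ) * β) ^ 2)⁻¹) *
            ‖f b T ((a : ℝ) / q + β)‖ ^ 2 :=
          sum_le_sum fun a ha => F_bd hN hq hqR ha hβ' hprod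
      _ = C₁ ^ 2 / (q : ℝ) ^ 2 * ((N : ℝ) ^ 2 * (1 + ((N : ℝ) * β) ^ 2)⁻¹) *
            ∑ a ∈ cop q, ‖f b T ((a : ℝ) / q + β)‖ ^ 2 := by rw [mul_sum]
      _ ≤ C₁ ^ 2 / (q : ℝ) ^ 2 * ((N : ℝ) ^ 2 * (1 + ((N : ℝ) * β) ^ 2)⁻¹) * ((q : ℝ) * D2 b T q) := by
          refine mul_le_mul_of_nonneg_left ?_ (by positivity)
          exact (sum_le_sum_of_subset_of_nonneg (cop_sub q) (fun _ _ _ => by positivity)).trans
            (msq b T hq β)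
      _ = C₁ ^ 2 / (q : ℝ) * D2 b T q * ((N : ℝ) ^ 2 * (1 + ((N : ℝ) * β) ^ 2)⁻¹) := by
          field_simp
  rw [intervalIntegral.integral_const_mul]
  refine (mul_le_mul_of_nonneg_left (int_inv hN A) (by positivity)).trans (le_of_eq ?_)
  ring

end VarBAux

open VarAAux VarBAux in
theorem varB (b : Bool) (ε : ℝ) (hε : 0 < ε) : ∃ C : ℝ, 0 < C ∧ ∀ N T Q : ℕ, 1 ≤ T → T ^ 5 ≤ N → T ≤ Q →
    Q ^ 9 ≤ N ^ 2 → ∑ q ∈ Icc 1 Q, ∑ a ∈ cop q,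
      (∫ β in {β : ℝ | (T : ℝ) / N ≤ |β| ∧ |β| ≤ 1 / ((q : ℝ) * (Nat.sqrt N : ℕ))},
        ‖F b T N ((a : ℝ) / q + β)‖ ^ 2) ≤ C * (N : ℝ) ^ (1 + ε) * Q := by
  obtain ⟨C₁, hC₁, hprod⟩ := prod_bounds b
  refine ⟨2 * C₁ ^ 2 * (1 + 1 / ε), by positivity, ?_⟩
  intro N T Q hT hTN hTQ hQN
  have hN : 1 ≤ N := le_trans (Nat.one_le_pow _ _ hT) hTN
  have hQ1 : 1 ≤ Q := hT.trans hTQ
  have hQle : Q ≤ N := nat3 hN hQN
  have hN' : (0 : ℝ) < N := by exact_mod_cast hN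
  have hT' : (1 : ℝ) ≤ T := by exact_mod_cast hT
  have hTQ' : (T : ℝ) ≤ Q := by exact_mod_cast hTQ
  have hQR : Q ≤ Nat.sqrt N := by
    rw [Nat.le_sqrt']
    refine le_trans ?_ (nat1 hN hTN hQN)
    exact Nat.le_mul_of_pos_right _ (by positivity)
  have hper : ∀ q ∈ Icc 1 Q, ∑ a ∈ cop q,
      (∫ β in {β : ℝ | (T : ℝ) / N ≤ |β| ∧ |β| ≤ 1 / ((q : ℝ) * (Nat.sqrt N : ℕ))},
        ‖F b T N ((a : ℝ) / q + β)‖ ^ 2) ≤ 2 * C₁ ^ 2 * N * T * (1 / (q : ℝ)) := by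
    intro q hq
    obtain ⟨hq1, hqQ⟩ := mem_Icc.mp hq
    have hq' : (0 : ℝ) < q := by exact_mod_cast hq1
    refine (sum_le_sum fun a ha => oneB hN hT hq1 (hqQ.trans hQR) ha hprod).trans ?_
    rw [sum_const, nsmul_eq_mul]
    calc ((cop q).card : ℝ) * (2 * C₁ ^ 2 * N * T / (q : ℝ) ^ 2)
        ≤ q * (2 * C₁ ^ 2 * N * T / (q : ℝ) ^ 2) := by
          exact mul_le_mul_of_nonneg_right (cop_card q) (by positivity)
      _ = 2 * C₁ ^ 2 * N * T * (1 / (q : ℝ)) := by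
          field_simp
  refine (sum_le_sum hper).trans ?_
  rw [← mul_sum]
  have s1 := harm hN hQ1 hQle hε
  have hNe : (N : ℝ) ^ (1 + ε) = N * (N : ℝ) ^ ε := by
    rw [Real.rpow_add hN', Real.rpow_one]
  have hNe0 : 0 ≤ (N : ℝ) ^ ε := by positivity
  calc 2 * C₁ ^ 2 * N * T * (∑ q ∈ Icc 1 Q, 1 / (q : ℝ))
      ≤ 2 * C₁ ^ 2 * N * Q * ((1 + 1 / ε) * (N : ℝ) ^ ε) := by gcongr
    _ = _ := by
        rw [hNe]
        ring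

open VarAAux VarBAux in
theorem varC (b : Bool) (ε : ℝ) (hε : 0 < ε) : ∃ C : ℝ, 0 < C ∧ ∀ N T : ℕ, 1 ≤ T → T ^ 5 ≤ N →
    ∑ q ∈ Ioc T (Nat.sqrt N), ∑ a ∈ cop q,
      (∫ β in {β : ℝ | |β| ≤ 1 / ((q : ℝ) * (Nat.sqrt N : ℕ))},
        ‖F b T N ((a : ℝ) / q + β)‖ ^ 2) ≤ C * (N : ℝ) ^ (1 + ε) * T := by
  obtain ⟨C₁, hC₁, hprod⟩ := prod_bounds b
  obtain ⟨C₃, hC₃, hdiv⟩ := div_sum1 b ε hε
  refine ⟨2 * Real.pi * C₁ ^ 2 * C₃, ?_, ?_⟩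
  · have := Real.pi_pos
    positivity
  intro N T hT hTN
  have hπ := Real.pi_pos
  have hN : 1 ≤ N := le_trans (Nat.one_le_pow _ _ hT) hTN
  have hTle : T ≤ N := le_trans (Nat.le_self_pow (by norm_num) T) hTN
  have hN' : (0 : ℝ) < N := by exact_mod_cast hN
  have hT' : (0 : ℝ) < T := by exact_mod_cast hT
  have hper : ∀ q ∈ Ioc T (Nat.sqrt N), ∑ a ∈ cop q,
      (∫ β in {β : ℝ | |β| ≤ 1 / ((q : ℝ) * (Nat.sqrt N : ℕ))},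
        ‖F b T N ((a : ℝ) / q + β)‖ ^ 2) ≤ Real.pi * C₁ ^ 2 * N * (D2 b T q / q) := by
    intro q hq
    obtain ⟨hq1, hqQ⟩ := mem_Ioc.mp hq
    exact oneC hN (by omega) hqQ hprod
  refine (sum_le_sum hper).trans ?_
  rw [← mul_sum]
  have s2 := hdiv T T (Nat.sqrt N) N hT hTle (Nat.sqrt_le_self N) hT
  have hNe : (N : ℝ) ^ (1 + ε) = N * (N : ℝ) ^ ε := by
    rw [Real.rpow_add hN', Real.rpow_one]
  calc Real.pi * C₁ ^ 2 * N * (∑ q ∈ Ioc T (Nat.sqrt N), (D2 b T q : ℝ) / q)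
      ≤ Real.pi * C₁ ^ 2 * N * (C₃ * (N : ℝ) ^ ε * (T + (T : ℝ) ^ 2 / T)) := by gcongr
    _ = _ := by
        rw [hNe]
        field_simp
        ring

end Pool.Agent.Lib.TSP
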