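import Pool.Agent.Lib.TSP.VarA
import Pool.Agent.Lib.TSP.VarB
import Pool.Agent.Lib.TSP.Arc
import Pool.Agent.Lib.TSP.Coef
import Pool.Agent.Lib.TSP.Expo

/-!
# TSP.Var: the variance (1.2 h)
PROOF. `arc` with `F = F b T N` (`F_cont`, `F_per`), `Ψ a q β = Psi b T N B a q β` (continuous: `w ≠ 0`; for `q = 0` anything is continuous), `B = T/N`, `R = Nat.sqrt N`
(`Q ≤ N^(2/9)`, so `2BQ² ≤ 2Q³/N ≤ 2N^(-1/3) < 1` for `N ≥ 9`). The sum over `M ⊆ Icc 1 Q` of nonnegative integrals is at most the sum over `Icc 1 Q`; `Icc 1 R \ M ⊆ Ioc T R`.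
For `¬ Rep b T m` the integral of `F` is `0` (`coef_zero`). The other term: `Psi` is `(1-|β|/B) · M12 · (T/q) S`, `M12 = C0/q² G G exp(2πc₁w)/w`, so
`∑_a e(-ma/q) ∫ Psi e(-mβ) = C0 T Jn b N B m (∑_a G G S e(-ma/q))/q³ = C0 T Jn A b m q` (`expo`).
-/

set_option autoImplicit false

open Finset

namespace Pool.Agent.Lib.TSP

namespace VarAux

theorem zz_ne {N : ℕ} (hN : 1 ≤ N) (β : ℝ) : zz N β ≠ 0 := by
  intro h
  have h1 : (zz N β).re = 1 / (N : ℝ) := by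
    have h2 : zz N β = ((1 / (N : ℝ) : ℝ) : ℂ) - (β : ℂ) * Complex.I := by
      rw [zz]; push_cast; rfl
    rw [h2]
    simp
  rw [h] at h1
  have hN' : (0 : ℝ) < N := by exact_mod_cast hN
  have : (0 : ℝ) < 1 / (N : ℝ) := by positivity
  rw [← h1] at this
  simp at this

theorem cont_Psi (b : Bool) (T : ℕ) {N : ℕ} (hN : 1 ≤ N) (B : ℝ) (a q : ℕ) :
    Continuous (Psi b T N B a q) := by
  have hz : Continuous (zz N) := by
    unfold zz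
    fun_prop
  unfold Psi M12
  have h1 : Continuous fun β : ℝ => ((1 - |β| / B : ℝ) : ℂ) := by
    refine Complex.continuous_ofReal.comp ?_
    exact continuous_const.sub (continuous_abs.div_const B)
  have h2 : Continuous fun β : ℝ => Complex.exp (2 * Real.pi * (c1 b : ℂ) * zz N β) / zz N β := by
    refine Continuous.div ?_ hz (zz_ne hN)
    exact Complex.continuous_exp.comp (continuous_const.mul hz)
  exact h1.mul ((continuous_const.mul h2).mul continuous_const)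

theorem inner_int (b : Bool) (T N : ℕ) (B : ℝ) (a q : ℕ) (m : ℤ) :
    (∫ β in (-B)..B, Psi b T N B a q β * e (-((m : ℝ) * β))) =
      ((C0 : ℂ) * T * (G 490 (v1 b) a 0 q * G 350 (v2 b) a 0 q * S b a q) / (q : ℂ) ^ 3) *
        Jn b N B m := by
  rw [Jn, ← intervalIntegral.integral_const_mul]
  refine intervalIntegral.integral_congr fun β _ => ?_
  show Psi b T N B a q β * e (-((m : ℝ) * β)) = _
  rw [Psi, M12]
  by_cases hq : (q : ℂ) = 0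
  · simp [hq]
  · field_simp

theorem main_term (b : Bool) (T N : ℕ) (B : ℝ) (m : ℤ) (M : Finset ℕ) (hM : ∀ q ∈ M, 0 < q) :
    (∑ q ∈ M, ∑ a ∈ cop q, e (-((m : ℝ) * ((a : ℝ) / q))) *
      ∫ β in (-B)..B, Psi b T N B a q β * e (-((m : ℝ) * β))) =
      ((C0 * T * ∑ q ∈ M, A b m q : ℝ) : ℂ) * Jn b N B m := by
  have h1 : ∀ q ∈ M, (∑ a ∈ cop q, e (-((m : ℝ) * ((a : ℝ) / q))) *
      ∫ β in (-B)..B, Psi b T N B a q β * e (-((m : ℝ) * β))) =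
      (C0 : ℂ) * T * (A b m q : ℂ) * Jn b N B m := by
    intro q hq
    have h2 := expo b m (hM q hq)
    rw [← h2, Finset.sum_div, Finset.mul_sum, Finset.sum_mul]
    refine Finset.sum_congr rfl fun a _ => ?_
    rw [inner_int]
    ring
  rw [Finset.sum_congr rfl h1]
  push_cast
  rw [Finset.mul_sum, Finset.sum_mul]

end VarAux

open VarAux in
theorem var (b : Bool) (ε : ℝ) (hε : 0 < ε) : ∃ C : ℝ, 0 < C ∧ ∀ N T Q : ℕ, 9 ≤ N → 1 ≤ T → T ^ 5 ≤ N →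
    T ≤ Q → Q ^ 9 ≤ N ^ 2 → ∀ M : Finset ℕ, Icc 1 T ⊆ M → M ⊆ Icc 1 Q → ∀ X : Finset ℤ,
    (∀ m ∈ X, ¬ Rep b T m) →
    ∑ m ∈ X, ‖((C0 * T * ∑ q ∈ M, A b m q : ℝ) : ℂ) * Jn b N ((T : ℝ) / N) m‖ ^ 2
      ≤ C * (N : ℝ) ^ (1 + ε) * Q := by
  obtain ⟨CA, hCA, hA⟩ := varA b ε hε
  obtain ⟨CB, hCB, hB⟩ := varB b ε hε
  obtain ⟨CC, hCC, hC⟩ := varC b ε hε
  refine ⟨CA + 5 * CB + 5 * CC, by positivity, ?_⟩
  intro N T Q hN9 hT hTN hTQ hQN M hTM hMQ X hX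
  have hN : 1 ≤ N := by omega
  have hN' : (0 : ℝ) < N := by exact_mod_cast hN
  have hT' : (0 : ℝ) < T := by exact_mod_cast hT
  have hQ1 : 1 ≤ Q := le_trans hT hTQ
  have hBpos : (0 : ℝ) < (T : ℝ) / N := by positivity
  have hMm : ∀ q ∈ M, 1 ≤ q ∧ q ≤ Q := fun q hq => Finset.mem_Icc.1 (hMQ hq)
  have h3 : 2 * Q ^ 3 < N := by
    by_contra hcon
    push Not at hcon
    have h4 : N ^ 3 ≤ (2 * Q ^ 3) ^ 3 := Nat.pow_le_pow_left hcon 3
    have h5 : (2 * Q ^ 3) ^ 3 = 8 * Q ^ 9 := by ring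
    rw [h5] at h4
    have h6 : N ^ 3 ≤ 8 * N ^ 2 := by
      calc N ^ 3 ≤ 8 * Q ^ 9 := h4
        _ ≤ 8 * N ^ 2 := by gcongr
    have h7 : 9 * N ^ 2 ≤ N ^ 3 := by
      calc 9 * N ^ 2 ≤ N * N ^ 2 := by gcongr
        _ = N ^ 3 := by ring
    have h8 : 0 < N ^ 2 := by positivity
    omega
  have hBQ : 2 * ((T : ℝ) / N) * (Q : ℝ) ^ 2 < 1 := by
    have h4 : 2 * T * Q ^ 2 ≤ 2 * Q ^ 3 := by
      calc 2 * T * Q ^ 2 ≤ 2 * Q * Q ^ 2 := by gcongr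
        _ = 2 * Q ^ 3 := by ring
    have h5 : 2 * T * Q ^ 2 < N := lt_of_le_of_lt h4 h3
    have h6 : (2 : ℝ) * T * (Q : ℝ) ^ 2 < N := by exact_mod_cast h5
    have h7 : 2 * ((T : ℝ) / N) * (Q : ℝ) ^ 2 = (2 * T * (Q : ℝ) ^ 2) / N := by ring
    rw [h7, div_lt_one hN']
    exact h6
  have hR : 1 ≤ Nat.sqrt N := Nat.sqrt_pos.2 (by omega)
  have key := arc (F b T N) (F_cont b T hN) (F_per b T N) (fun a q => Psi b T N ((T : ℝ) / N) a q)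
    (fun a q => cont_Psi b T hN _ a q) M Q (Nat.sqrt N) hQ1 hMm ((T : ℝ) / N) hBpos hBQ hR X
  have hL : ∑ m ∈ X, ‖((C0 * T * ∑ q ∈ M, A b m q : ℝ) : ℂ) * Jn b N ((T : ℝ) / N) m‖ ^ 2 =
      ∑ m ∈ X, ‖(∫ α in (-(1 / (2 * (Q : ℝ))))..(1 - 1 / (2 * (Q : ℝ))),
          F b T N α * e (-((m : ℝ) * α))) -
        ∑ q ∈ M, ∑ a ∈ cop q, e (-((m : ℝ) * ((a : ℝ) / q))) *
          ∫ β in (-((T : ℝ) / N))..((T : ℝ) / N),
            Psi b T N ((T : ℝ) / N) a q β * e (-((m : ℝ) * β))‖ ^ 2 := by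
    refine Finset.sum_congr rfl fun m hm => ?_
    rw [coef_zero b T hN m (hX m hm) _ _ (by ring), main_term b T N _ m M (fun q hq => (hMm q hq).1),
      zero_sub, norm_neg]
  rw [hL]
  refine key.trans ?_
  have hab : -((T : ℝ) / N) ≤ (T : ℝ) / N := by linarith
  have s1 : (∑ q ∈ M, ∑ a ∈ cop q, ∫ β in (-((T : ℝ) / N))..((T : ℝ) / N),
      ‖F b T N ((a : ℝ) / q + β) - Psi b T N ((T : ℝ) / N) a q β‖ ^ 2) ≤
      CA * (N : ℝ) ^ (1 + ε) * Q := by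
    refine le_trans (Finset.sum_le_sum_of_subset_of_nonneg hMQ ?_) (hA N T Q hT hTN hTQ hQN)
    intro q _ _
    refine Finset.sum_nonneg fun a _ => ?_
    exact intervalIntegral.integral_nonneg hab fun β _ => by positivity
  have s2 : (∑ q ∈ M, ∑ a ∈ cop q,
      ∫ β in {β : ℝ | (T : ℝ) / N ≤ |β| ∧ |β| ≤ 1 / ((q : ℝ) * (Nat.sqrt N : ℕ))},
        ‖F b T N ((a : ℝ) / q + β)‖ ^ 2) ≤ CB * (N : ℝ) ^ (1 + ε) * Q := by
    refine le_trans (Finset.sum_le_sum_of_subset_of_nonneg hMQ ?_) (hB N T Q hT hTN hTQ hQN)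
    intro q _ _
    refine Finset.sum_nonneg fun a _ => ?_
    exact MeasureTheory.integral_nonneg fun β => by positivity
  have s3 : (∑ q ∈ Icc 1 (Nat.sqrt N) \ M, ∑ a ∈ cop q,
      ∫ β in {β : ℝ | |β| ≤ 1 / ((q : ℝ) * (Nat.sqrt N : ℕ))},
        ‖F b T N ((a : ℝ) / q + β)‖ ^ 2) ≤ CC * (N : ℝ) ^ (1 + ε) * T := by
    refine le_trans (Finset.sum_le_sum_of_subset_of_nonneg ?_ ?_) (hC N T hT hTN)
    · intro q hq
      rw [Finset.mem_sdiff, Finset.mem_Icc] at hq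
      rw [Finset.mem_Ioc]
      refine ⟨?_, hq.1.2⟩
      by_contra hcon
      push Not at hcon
      exact hq.2 (hTM (Finset.mem_Icc.2 ⟨hq.1.1, hcon⟩))
    · intro q _ _
      refine Finset.sum_nonneg fun a _ => ?_
      exact MeasureTheory.integral_nonneg fun β => by positivity
  have hTQ' : (T : ℝ) ≤ Q := by exact_mod_cast hTQ
  have s4 : CC * (N : ℝ) ^ (1 + ε) * T ≤ CC * (N : ℝ) ^ (1 + ε) * Q := by
    have : 0 ≤ CC * (N : ℝ) ^ (1 + ε) := by positivity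
    exact mul_le_mul_of_nonneg_left hTQ' this
  calc _ ≤ CA * (N : ℝ) ^ (1 + ε) * Q + 5 * (CB * (N : ℝ) ^ (1 + ε) * Q) +
        5 * (CC * (N : ℝ) ^ (1 + ε) * T) := by
        refine add_le_add (add_le_add s1 ?_) ?_
        · exact mul_le_mul_of_nonneg_left s2 (by norm_num)
        · exact mul_le_mul_of_nonneg_left s3 (by norm_num)
    _ ≤ CA * (N : ℝ) ^ (1 + ε) * Q + 5 * (CB * (N : ℝ) ^ (1 + ε) * Q) +
        5 * (CC * (N : ℝ) ^ (1 + ε) * Q) := by linarith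
    _ = (CA + 5 * CB + 5 * CC) * (N : ℝ) ^ (1 + ε) * Q := by ring

end Pool.Agent.Lib.TSP
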