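import Pool.Agent.Lib.TSP.SerF
import Pool.Agent.Lib.TSP.Var
import Pool.Agent.Lib.TSP.Jn

/-!
# TSP.CoreF: the core theorem (1.2 h)
PROOF. We may assume `ε ≤ 1`; `ε' = ε/100`. For `N ≥ N0`: `ser_low` with `ε'`, `M = Qs z T U`, `U = ⌈N^ε'⌉`, `Q = TU`: `Q^9 ≤ T^9 (2N^ε')^9 ≤ 512 N^(9/5 + 9/100) ≤ N²` for large `N`, `Icc 1 T ⊆ M ⊆ Icc 1 Q` (`Qs_sub`).
Let `X` be the set of `m ≤ N`, 4th-power-free condition, not `Rep b T m`, not in the exceptional set of `ser_low`. `var` with `ε'`: `∑_{m∈X} |C0 T (∑_M A) Jn|² ≤ C N^(1+ε') Q`, and each term is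
`≥ (C0 T N^(-ε') c)²` (`Jn_lower`, `B = T/N ≥ 1/N`). So `|X| ≤ C' N^(1+3ε') Q/T² ≤ 2C' N^(1+4ε')/T`. The exceptional set has at most `N^(4/5+ε') ≤ N^(1+ε')/T` elements (`T ≤ N^(1/5)`). For `N < N0`
(`N ≥ 1`): the number is `≤ N + 1 ≤ 2N0` and `N^(1+ε)/T ≥ 1`.
-/

set_option autoImplicit false

open Finset

namespace Pool.Agent.Lib.TSP

namespace CoreFAux

theorem C0_pos : 0 < C0 := by
  unfold C0
  positivity

theorem T_le {N T : ℕ} (hT : T ^ 5 ≤ N) : (T : ℝ) ≤ (N : ℝ) ^ ((1 : ℝ) / 5) := by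
  have h1 : ((T : ℝ) ^ 5) ≤ N := by exact_mod_cast hT
  have h2 : ((T : ℝ) ^ 5) ^ ((1 : ℝ) / 5) ≤ (N : ℝ) ^ ((1 : ℝ) / 5) :=
    Real.rpow_le_rpow (by positivity) h1 (by norm_num)
  have h3 : ((T : ℝ) ^ 5) ^ ((1 : ℝ) / 5) = T := by
    rw [← Real.rpow_natCast, ← Real.rpow_mul (by positivity)]
    norm_num
  rwa [h3] at h2

theorem U_le {N : ℕ} (hN : 1 ≤ N) {e : ℝ} (he : 0 < e) :
    (⌈(N : ℝ) ^ e⌉₊ : ℝ) ≤ 2 * (N : ℝ) ^ e := by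
  have h1 : (1 : ℝ) ≤ (N : ℝ) ^ e := Real.one_le_rpow (by exact_mod_cast hN) he.le
  have h2 := (Nat.ceil_lt_add_one (show (0 : ℝ) ≤ (N : ℝ) ^ e by positivity)).le
  linarith

theorem Q_le {N T : ℕ} (hN : 512 ^ 10 ≤ N) (hT : T ^ 5 ≤ N) {e : ℝ} (he : 0 < e)
    (he1 : e ≤ 1 / 100) : (T * ⌈(N : ℝ) ^ e⌉₊) ^ 9 ≤ N ^ 2 := by
  have hN1 : 1 ≤ N := le_trans (by norm_num) hN
  have hN1' : (1 : ℝ) ≤ N := by exact_mod_cast hN1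
  have hN0 : (0 : ℝ) < N := by linarith
  have h1 := T_le hT
  have h2 := U_le hN1 he
  have h3 : (N : ℝ) ^ e ≤ (N : ℝ) ^ ((1 : ℝ) / 100) := Real.rpow_le_rpow_of_exponent_le hN1' he1
  have h4 : ((T : ℝ) * (⌈(N : ℝ) ^ e⌉₊ : ℝ)) ^ 9 ≤
      ((N : ℝ) ^ ((1 : ℝ) / 5) * (2 * (N : ℝ) ^ ((1 : ℝ) / 100))) ^ 9 := by
    gcongr
    exact h2.trans (by linarith)
  have h5 : ((N : ℝ) ^ ((1 : ℝ) / 5) * (2 * (N : ℝ) ^ ((1 : ℝ) / 100))) ^ 9 =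
      512 * (N : ℝ) ^ ((189 : ℝ) / 100) := by
    rw [mul_pow, mul_pow, ← Real.rpow_natCast ((N : ℝ) ^ ((1 : ℝ) / 5)) 9, ← Real.rpow_mul hN0.le,
      ← Real.rpow_natCast ((N : ℝ) ^ ((1 : ℝ) / 100)) 9, ← Real.rpow_mul hN0.le]
    have h6 : (N : ℝ) ^ ((189 : ℝ) / 100) = (N : ℝ) ^ ((1 : ℝ) / 5 * ((9 : ℕ) : ℝ)) *
        (N : ℝ) ^ ((1 : ℝ) / 100 * ((9 : ℕ) : ℝ)) := by
      rw [← Real.rpow_add hN0]
      norm_num
    rw [h6]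
    ring
  have h6 : (512 : ℝ) ≤ (N : ℝ) ^ ((11 : ℝ) / 100) := by
    have h7 : ((512 : ℝ) ^ 10) ^ ((11 : ℝ) / 100) ≤ (N : ℝ) ^ ((11 : ℝ) / 100) :=
      Real.rpow_le_rpow (by positivity) (by exact_mod_cast hN) (by norm_num)
    have h8 : ((512 : ℝ) ^ 10) ^ ((11 : ℝ) / 100) = (512 : ℝ) ^ ((11 : ℝ) / 10) := by
      rw [← Real.rpow_natCast, ← Real.rpow_mul (by norm_num)]
      norm_num
    have h9 : (512 : ℝ) ^ (1 : ℝ) ≤ (512 : ℝ) ^ ((11 : ℝ) / 10) :=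
      Real.rpow_le_rpow_of_exponent_le (by norm_num) (by norm_num)
    rw [Real.rpow_one] at h9
    rw [h8] at h7
    linarith
  have h7 : 512 * (N : ℝ) ^ ((189 : ℝ) / 100) ≤ (N : ℝ) ^ 2 := by
    calc 512 * (N : ℝ) ^ ((189 : ℝ) / 100) ≤
        (N : ℝ) ^ ((11 : ℝ) / 100) * (N : ℝ) ^ ((189 : ℝ) / 100) := by gcongr
      _ = (N : ℝ) ^ (2 : ℝ) := by
        rw [← Real.rpow_add hN0]
        norm_num
      _ = (N : ℝ) ^ 2 := by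
        rw [← Real.rpow_natCast]
        norm_num
  have h8 : ((T : ℝ) * (⌈(N : ℝ) ^ e⌉₊ : ℝ)) ^ 9 ≤ (N : ℝ) ^ 2 := by linarith
  exact_mod_cast h8

theorem Qs_sub' (z T U : ℕ) : Qs z T U ⊆ Icc 1 (T * U) := filter_subset _ _

/-- the size of the set of the non-represented numbers with large singular series -/
theorem card_X (b : Bool) {e CV c : ℝ} (he : 0 < e) (he1 : e ≤ 1 / 100) (hc : 0 < c)
    (hCV : 0 < CV)
    (hvar : ∀ N T Q : ℕ, 9 ≤ N → 1 ≤ T → T ^ 5 ≤ N →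
      T ≤ Q → Q ^ 9 ≤ N ^ 2 → ∀ M : Finset ℕ, Icc 1 T ⊆ M → M ⊆ Icc 1 Q → ∀ X : Finset ℤ,
      (∀ m ∈ X, ¬ Rep b T m) →
      ∑ m ∈ X, ‖((C0 * T * ∑ q ∈ M, A b m q : ℝ) : ℂ) * Jn b N ((T : ℝ) / N) m‖ ^ 2
        ≤ CV * (N : ℝ) ^ (1 + e) * Q)
    (hJ : ∀ (N : ℕ) (B : ℝ) (m : ℤ), 1 ≤ N → 1 / (N : ℝ) ≤ B →
      0 ≤ m → m ≤ N → ∃ r : ℝ, Jn b N B m = (r : ℂ) ∧ c ≤ r)
    (z : ℕ) {N T : ℕ} (hN : 512 ^ 10 ≤ N) (hT : 1 ≤ T) (hTN : T ^ 5 ≤ N) (Y : Finset ℕ)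
    (hY1 : ∀ m ∈ Y, m ≤ N) (hY2 : ∀ m ∈ Y, ¬ Rep b T m)
    (hY3 : ∀ m ∈ Y, (N : ℝ) ^ (-e) ≤ ∑ q ∈ Qs z T ⌈(N : ℝ) ^ e⌉₊, A b m q) :
    (Y.card : ℝ) ≤ 2 * CV / (C0 * c) ^ 2 * (N : ℝ) ^ (1 + 4 * e) / T := by
  have hN1 : 1 ≤ N := le_trans (by norm_num) hN
  have hN1' : (1 : ℝ) ≤ N := by exact_mod_cast hN1
  have hN0 : (0 : ℝ) < N := by linarith
  have hT0 : (0 : ℝ) < T := by exact_mod_cast hT
  have hC0 := C0_pos
  set U := ⌈(N : ℝ) ^ e⌉₊ with hU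
  have hU1 : 1 ≤ U := by
    rw [hU, Nat.one_le_iff_ne_zero, Ne, Nat.ceil_eq_zero, not_le]
    positivity
  have hU2 := U_le hN1 he
  have hUT : T ≤ T * U := Nat.le_mul_of_pos_right _ hU1
  have h1 := hvar N T (T * U) (le_trans (by norm_num) hN) hT hTN hUT (Q_le hN hTN he he1)
    (Qs z T U) (Qs_sub z T U hU1) (Qs_sub' z T U) (Y.image (fun m : ℕ => (m : ℤ))) (by
      intro m hm
      obtain ⟨m', hm', rfl⟩ := mem_image.1 hm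
      exact hY2 m' hm')
  rw [sum_image (fun a _ b _ h => by exact_mod_cast h)] at h1
  set L : ℝ := C0 * T * (N : ℝ) ^ (-e) * c with hL
  have hL0 : 0 < L := by positivity
  have h2 : ∀ m ∈ Y, L ^ 2 ≤
      ‖((C0 * T * ∑ q ∈ Qs z T U, A b m q : ℝ) : ℂ) * Jn b N ((T : ℝ) / N) m‖ ^ 2 := by
    intro m hm
    obtain ⟨r, hr, hcr⟩ := hJ N ((T : ℝ) / N) m hN1 (by
      have : (1 : ℝ) ≤ T := by exact_mod_cast hT
      gcongr) (by positivity) (by exact_mod_cast hY1 m hm)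
    have h3 := hY3 m hm
    have h4 : 0 < (N : ℝ) ^ (-e) := by positivity
    rw [hr, norm_mul, Complex.norm_real, Complex.norm_real, Real.norm_eq_abs, Real.norm_eq_abs]
    have h5 : C0 * T * (N : ℝ) ^ (-e) ≤ |C0 * T * ∑ q ∈ Qs z T U, A b m q| := by
      refine le_trans ?_ (le_abs_self _)
      gcongr
    have h6 : c ≤ |r| := hcr.trans (le_abs_self _)
    have h7 : L ≤ |C0 * T * ∑ q ∈ Qs z T U, A b m q| * |r| := by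
      rw [hL]
      exact mul_le_mul h5 h6 hc.le (abs_nonneg _)
    exact pow_le_pow_left₀ hL0.le h7 2
  have h3 : (Y.card : ℝ) * L ^ 2 ≤ CV * (N : ℝ) ^ (1 + e) * ((T * U : ℕ) : ℝ) := by
    refine le_trans ?_ h1
    rw [← nsmul_eq_mul]
    exact card_nsmul_le_sum _ _ _ h2
  have h4 : CV * (N : ℝ) ^ (1 + e) * ((T * U : ℕ) : ℝ) ≤
      2 * CV * T * (N : ℝ) ^ (1 + 2 * e) := by
    have h5 : (N : ℝ) ^ (1 + 2 * e) = (N : ℝ) ^ (1 + e) * (N : ℝ) ^ e := by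
      rw [← Real.rpow_add hN0]
      ring_nf
    rw [h5]
    push_cast
    calc CV * (N : ℝ) ^ (1 + e) * ((T : ℝ) * U) ≤
        CV * (N : ℝ) ^ (1 + e) * ((T : ℝ) * (2 * (N : ℝ) ^ e)) := by gcongr
      _ = _ := by ring
  have h5 : L ^ 2 = (C0 * c) ^ 2 * (T : ℝ) ^ 2 * (N : ℝ) ^ (-(2 * e)) := by
    have h6 : (N : ℝ) ^ (-(2 * e)) = ((N : ℝ) ^ (-e)) ^ 2 := by
      rw [← Real.rpow_natCast, ← Real.rpow_mul hN0.le]
      congr 1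
      push_cast
      ring
    rw [hL, h6]
    ring
  have h6 : (N : ℝ) ^ (1 + 2 * e) = (N : ℝ) ^ (1 + 4 * e) * (N : ℝ) ^ (-(2 * e)) := by
    rw [← Real.rpow_add hN0]
    ring_nf
  have h7 : (0 : ℝ) < (N : ℝ) ^ (-(2 * e)) := by positivity
  have h8 : (Y.card : ℝ) * ((C0 * c) ^ 2 * (T : ℝ) ^ 2 * (N : ℝ) ^ (-(2 * e))) ≤
      2 * CV * T * ((N : ℝ) ^ (1 + 4 * e) * (N : ℝ) ^ (-(2 * e))) := by
    rw [← h5, ← h6]
    exact h3.trans h4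
  have h9 : (Y.card : ℝ) * ((C0 * c) ^ 2 * (T : ℝ) ^ 2) ≤ 2 * CV * T * (N : ℝ) ^ (1 + 4 * e) := by
    refine le_of_mul_le_mul_right ?_ h7
    calc (Y.card : ℝ) * ((C0 * c) ^ 2 * (T : ℝ) ^ 2) * (N : ℝ) ^ (-(2 * e)) =
        (Y.card : ℝ) * ((C0 * c) ^ 2 * (T : ℝ) ^ 2 * (N : ℝ) ^ (-(2 * e))) := by ring
      _ ≤ _ := h8
      _ = 2 * CV * T * (N : ℝ) ^ (1 + 4 * e) * (N : ℝ) ^ (-(2 * e)) := by ring
  have h10 : (0 : ℝ) < (C0 * c) ^ 2 := by positivity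
  rw [div_mul_eq_mul_div, div_div, le_div_iff₀ (by positivity)]
  refine le_of_mul_le_mul_right ?_ hT0
  calc (Y.card : ℝ) * ((C0 * c) ^ 2 * T) * T = (Y.card : ℝ) * ((C0 * c) ^ 2 * (T : ℝ) ^ 2) := by ring
    _ ≤ _ := h9
    _ = 2 * CV * (N : ℝ) ^ (1 + 4 * e) * T := by ring

end CoreFAux

open CoreFAux

open Classical in
theorem core (b : Bool) (ε : ℝ) (hε : 0 < ε) : ∃ C : ℝ, 0 < C ∧ ∀ N T : ℕ, 1 ≤ T → T ^ 5 ≤ N →
    (((range (N + 1)).filter fun m : ℕ => (∀ p : ℕ, p.Prime → Odd p → ¬ ((p : ℤ) ^ 4 ∣ 4 * (m : ℤ) + n1 b)) ∧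
      ¬ Rep b T m).card : ℝ) ≤ C * (N : ℝ) ^ (1 + ε) / T := by
  obtain ⟨e', he0, he1, he2⟩ : ∃ e' : ℝ, 0 < e' ∧ e' ≤ 1 / 100 ∧ 4 * e' ≤ ε := by
    refine ⟨min ε 1 / 100, ?_, ?_, ?_⟩
    · have : 0 < min ε 1 := lt_min hε one_pos
      positivity
    · have := min_le_right ε 1
      linarith
    · have := min_le_left ε 1
      linarith
  obtain ⟨A0, N1, hser⟩ := ser_low b e' he0
  obtain ⟨CV, hCV, hvar⟩ := var b e' he0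
  obtain ⟨c, hc, hJ⟩ := Jn_lower b
  have hC0 := C0_pos
  set K : ℝ := 2 * CV / (C0 * c) ^ 2 with hK
  have hK0 : 0 < K := by positivity
  obtain ⟨W, hW⟩ : ∃ W : ℕ, W = N1 + 512 ^ 10 := ⟨_, rfl⟩
  refine ⟨(W : ℝ) + 1 + (1 + K), by positivity, ?_⟩
  intro N T hT hTN
  have hTN' : T ≤ N := le_trans (Nat.le_self_pow (by norm_num) T) hTN
  have hN1 : 1 ≤ N := le_trans hT hTN'
  have hN1' : (1 : ℝ) ≤ N := by exact_mod_cast hN1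
  have hN0 : (0 : ℝ) < N := by linarith
  have hT0 : (0 : ℝ) < T := by exact_mod_cast hT
  by_cases hbig : W ≤ N
  · -- large `N`
    have hNN1 : N1 ≤ N := le_trans (Nat.le_add_right _ _) (hW ▸ hbig)
    have hNN2 : 512 ^ 10 ≤ N := le_trans (Nat.le_add_left _ _) (hW ▸ hbig)
    have h1 := hser N T hNN1 hT hTN
    set U := ⌈(N : ℝ) ^ e'⌉₊ with hU
    set E := (range (N + 1)).filter fun m : ℕ =>
      (∀ p : ℕ, p.Prime → Odd p → ¬ ((p : ℤ) ^ 4 ∣ 4 * (m : ℤ) + n1 b)) ∧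
      ∑ q ∈ Qs (zp A0 N) T U, A b m q < (N : ℝ) ^ (-e') with hE
    set Y := (range (N + 1)).filter fun m : ℕ => ¬ Rep b T m ∧
      (N : ℝ) ^ (-e') ≤ ∑ q ∈ Qs (zp A0 N) T U, A b m q with hYd
    have h2 : (Y.card : ℝ) ≤ K * (N : ℝ) ^ (1 + 4 * e') / T := by
      refine card_X b he0 he1 hc hCV hvar hJ (zp A0 N) hNN2 hT hTN Y ?_ ?_ ?_
      · intro m hm
        have := mem_range.1 (mem_filter.1 hm).1
        omega
      · intro m hm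
        exact (mem_filter.1 hm).2.1
      · intro m hm
        exact (mem_filter.1 hm).2.2
    refine (Nat.cast_le.2 ((card_le_card (t := E ∪ Y) ?_).trans (card_union_le E Y))).trans ?_
    · intro m hm
      obtain ⟨hm1, hm2, hm3⟩ := mem_filter.1 hm
      rw [mem_union]
      by_cases hm4 : ∑ q ∈ Qs (zp A0 N) T U, A b m q < (N : ℝ) ^ (-e')
      · exact Or.inl (mem_filter.2 ⟨hm1, hm2, hm4⟩)
      · exact Or.inr (mem_filter.2 ⟨hm1, hm3, not_lt.1 hm4⟩)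
    push_cast
    have h5 : (N : ℝ) ^ (4 / 5 + e') ≤ (N : ℝ) ^ (1 + ε) / T := by
      rw [le_div_iff₀ hT0]
      have h6 := T_le hTN
      calc (N : ℝ) ^ (4 / 5 + e') * T ≤ (N : ℝ) ^ (4 / 5 + e') * (N : ℝ) ^ ((1 : ℝ) / 5) := by
            gcongr
        _ = (N : ℝ) ^ (1 + e') := by
            rw [← Real.rpow_add hN0]
            congr 1
            ring
        _ ≤ _ := Real.rpow_le_rpow_of_exponent_le hN1' (by linarith)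
    have h6 : K * (N : ℝ) ^ (1 + 4 * e') / T ≤ K * ((N : ℝ) ^ (1 + ε) / T) := by
      rw [mul_div_assoc]
      have : (N : ℝ) ^ (1 + 4 * e') ≤ (N : ℝ) ^ (1 + ε) :=
        Real.rpow_le_rpow_of_exponent_le hN1' (by linarith)
      gcongr
    have h7 : (0 : ℝ) < (N : ℝ) ^ (1 + ε) / T := by positivity
    have h8 : (0 : ℝ) ≤ (W : ℝ) := Nat.cast_nonneg _
    rw [mul_div_assoc]
    have h9 : 0 ≤ (W : ℝ) * ((N : ℝ) ^ (1 + ε) / T) := mul_nonneg h8 h7.le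
    have h10 : (E.card : ℝ) ≤ (N : ℝ) ^ (1 + ε) / T := h1.trans h5
    have h11 : (Y.card : ℝ) ≤ K * ((N : ℝ) ^ (1 + ε) / T) := h2.trans h6
    nlinarith
  · -- small `N`
    push Not at hbig
    refine (Nat.cast_le.2 (card_filter_le _ _)).trans ?_
    rw [card_range]
    push_cast
    have h2 : (1 : ℝ) ≤ (N : ℝ) ^ (1 + ε) / T := by
      rw [le_div_iff₀ hT0, one_mul]
      calc (T : ℝ) ≤ N := by exact_mod_cast hTN'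
        _ = (N : ℝ) ^ (1 : ℝ) := (Real.rpow_one _).symm
        _ ≤ _ := Real.rpow_le_rpow_of_exponent_le hN1' (by linarith)
    have h3 : (N : ℝ) ≤ (W : ℝ) := by exact_mod_cast hbig.le
    rw [mul_div_assoc]
    have h4 : (W + 1 + (1 + K) : ℝ) ≤ (W + 1 + (1 + K)) * ((N : ℝ) ^ (1 + ε) / T) :=
      le_mul_of_one_le_right (by positivity) h2
    linarith

end Pool.Agent.Lib.TSP
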