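import Pool.Agent.Lib.TSP.TheB

/-!
# TSP.ThP: the product of the two theta functions (0.7 h)
PROOF. `theta_main` and `main_bound` for `(u, v) = (490, v1 b)` and `(350, v2 b)`, `kq ≤ 5`. The product of the two main terms is `M12 b N a q β`:
`exp(π w v1²/980) exp(π w v2²/700) = exp(2π c1 w)`, and `(980 q² w)^(1/2) (700 q² w)^(1/2) = √(980 q²) √(700 q²) w = 2 √(490·350) q² w`
(`Complex.mul_cpow_ofReal_nonneg` or `Complex.real_smul_cpow`..: a positive real factor comes out; `w^(1/2) w^(1/2) = w` for `w ≠ 0`).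
`θ₁θ₂ - m₁m₂ = (θ₁ - m₁) θ₂ + m₁ (θ₂ - m₂)`, `|θ₂| ≤ (C + 5C)/(√q√|w|)`.
-/

set_option autoImplicit false

open Finset

namespace Pool.Agent.Lib.TSP

namespace ThPAux

theorem sq_prod {r s : ℝ} (hr : 0 < r) (hs : 0 < s) {w : ℂ} (hw : w ≠ 0) :
    ((r : ℂ) * w) ^ (1 / 2 : ℂ) * ((s : ℂ) * w) ^ (1 / 2 : ℂ) = (Real.sqrt (r * s) : ℂ) * w := by
  have hr' : (r : ℂ) ≠ 0 := Complex.ofReal_ne_zero.2 hr.ne'
  have hs' : (s : ℂ) ≠ 0 := Complex.ofReal_ne_zero.2 hs.ne'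
  rw [Complex.cpow_def_of_ne_zero (mul_ne_zero hr' hw), Complex.cpow_def_of_ne_zero (mul_ne_zero hs' hw),
    Complex.log_ofReal_mul hr hw, Complex.log_ofReal_mul hs hw, ← Complex.exp_add]
  have h1 : ((Real.log r : ℂ) + Complex.log w) * (1 / 2 : ℂ) +
      ((Real.log s : ℂ) + Complex.log w) * (1 / 2 : ℂ) =
      ((Real.log (r * s) * (1 / 2) : ℝ) : ℂ) + Complex.log w := by
    rw [Real.log_mul hr.ne' hs.ne']
    push_cast
    ring
  rw [h1, Complex.exp_add, Complex.exp_log hw, ← Complex.ofReal_exp]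
  rw [Real.sqrt_eq_rpow, Real.rpow_def_of_pos (mul_pos hr hs)]

theorem zz_ne {N : ℕ} (hN : 1 ≤ N) (β : ℝ) : zz N β ≠ 0 := by
  intro h
  have h1 := congrArg Complex.re h
  have h2 : (zz N β).re = 1 / (N : ℝ) := by
    unfold zz
    have : (1 / (N : ℂ)) = ((1 / (N : ℝ) : ℝ) : ℂ) := by push_cast; ring
    rw [this]
    simp
  rw [h2, Complex.zero_re] at h1
  have h3 : (0 : ℝ) < 1 / (N : ℝ) := by
    have : (0 : ℝ) < N := by exact_mod_cast hN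
    positivity
  linarith

theorem M12_eq (b : Bool) {N q : ℕ} (a : ℤ) (β : ℝ) (hN : 1 ≤ N) (hq : 0 < q) :
    M12 b N a q β = (Complex.exp (Real.pi * zz N β * ((v1 b : ℤ) : ℂ) ^ 2 / (2 * ((490 : ℤ) : ℂ))) *
        (1 / (2 * ((490 : ℤ) : ℂ) * (q : ℂ) ^ 2 * zz N β) ^ (1 / 2 : ℂ)) * G 490 (v1 b) a 0 q) *
      (Complex.exp (Real.pi * zz N β * ((v2 b : ℤ) : ℂ) ^ 2 / (2 * ((350 : ℤ) : ℂ))) *
        (1 / (2 * ((350 : ℤ) : ℂ) * (q : ℂ) ^ 2 * zz N β) ^ (1 / 2 : ℂ)) * G 350 (v2 b) a 0 q) := by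
  have hw := zz_ne hN β
  have hq' : (0 : ℝ) < q := by exact_mod_cast hq
  have hr : (0 : ℝ) < 980 * (q : ℝ) ^ 2 := by positivity
  have hs : (0 : ℝ) < 700 * (q : ℝ) ^ 2 := by positivity
  have h1 := sq_prod hr hs hw
  have e1 : (2 * ((490 : ℤ) : ℂ) * (q : ℂ) ^ 2 * zz N β) = ((980 * (q : ℝ) ^ 2 : ℝ) : ℂ) * zz N β := by
    push_cast
    ring
  have e2 : (2 * ((350 : ℤ) : ℂ) * (q : ℂ) ^ 2 * zz N β) = ((700 * (q : ℝ) ^ 2 : ℝ) : ℂ) * zz N β := by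
    push_cast
    ring
  have e3 : Real.sqrt (980 * (q : ℝ) ^ 2 * (700 * (q : ℝ) ^ 2)) =
      2 * Real.sqrt (490 * 350) * (q : ℝ) ^ 2 := by
    have : 980 * (q : ℝ) ^ 2 * (700 * (q : ℝ) ^ 2) = (490 * 350) * (2 * (q : ℝ) ^ 2) ^ 2 := by ring
    rw [this, Real.sqrt_mul (by norm_num), Real.sqrt_sq (by positivity)]
    ring
  rw [e3] at h1
  rw [e1, e2]
  have e4 : Complex.exp (2 * Real.pi * (c1 b : ℂ) * zz N β) =
      Complex.exp (Real.pi * zz N β * ((v1 b : ℤ) : ℂ) ^ 2 / (2 * ((490 : ℤ) : ℂ))) *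
      Complex.exp (Real.pi * zz N β * ((v2 b : ℤ) : ℂ) ^ 2 / (2 * ((350 : ℤ) : ℂ))) := by
    rw [← Complex.exp_add]
    congr 1
    unfold c1
    push_cast
    ring
  unfold M12
  rw [e4]
  have e5 : (C0 : ℂ) / (q : ℂ) ^ 2 / zz N β =
      (1 / (((980 * (q : ℝ) ^ 2 : ℝ) : ℂ) * zz N β) ^ (1 / 2 : ℂ)) *
      (1 / (((700 * (q : ℝ) ^ 2 : ℝ) : ℂ) * zz N β) ^ (1 / 2 : ℂ)) := by
    rw [div_mul_div_comm, one_mul, h1]
    unfold C0
    push_cast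
    rw [div_div, div_div]
    congr 1
    ring
  linear_combination (G 490 (v1 b) a 0 q * G 350 (v2 b) a 0 q *
      (Complex.exp (Real.pi * zz N β * ((v1 b : ℤ) : ℂ) ^ 2 / (2 * ((490 : ℤ) : ℂ))) *
      Complex.exp (Real.pi * zz N β * ((v2 b : ℤ) : ℂ) ^ 2 / (2 * ((350 : ℤ) : ℂ))))) * e5

end ThPAux

open ThPAux

theorem prod_bounds (b : Bool) : ∃ C : ℝ, 0 < C ∧ ∀ (N : ℕ) (a : ℤ) (q : ℕ) (β : ℝ),
    1 ≤ N → 0 < q → IsCoprime a (q : ℤ) → kq N q β ≤ 5 →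
    ‖th 490 (v1 b) N ((a : ℝ) / q + β) * th 350 (v2 b) N ((a : ℝ) / q + β)‖ ≤ C / (q * ‖zz N β‖) ∧
    ‖M12 b N a q β‖ ≤ C / (q * ‖zz N β‖) ∧
    ‖th 490 (v1 b) N ((a : ℝ) / q + β) * th 350 (v2 b) N ((a : ℝ) / q + β) - M12 b N a q β‖
      ≤ C * kq N q β / (q * ‖zz N β‖) := by
  obtain ⟨C1, hC1, h1⟩ := theta_main (u := 490) (by norm_num) (v1 b)
  obtain ⟨C2, hC2, h2⟩ := theta_main (u := 350) (by norm_num) (v2 b)
  obtain ⟨D1, hD1, k1⟩ := main_bound (u := 490) (by norm_num) (v1 b)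
  obtain ⟨D2, hD2, k2⟩ := main_bound (u := 350) (by norm_num) (v2 b)
  refine ⟨(5 * C1 + D1) * (5 * C2 + D2) + D1 * D2 + C1 * (5 * C2 + D2) + D1 * C2, by positivity, ?_⟩
  intro N a q β hN hq ha hk
  have a1 := h1 N a q β hN hq ha
  have a2 := h2 N a q β hN hq ha
  have b1 := k1 N a q β hN hq ha
  have b2 := k2 N a q β hN hq ha
  have hM := M12_eq b a β hN hq
  set θ1 := th 490 (v1 b) N ((a : ℝ) / q + β) with hθ1
  set θ2 := th 350 (v2 b) N ((a : ℝ) / q + β) with hθ2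
  set m1 := Complex.exp (Real.pi * zz N β * ((v1 b : ℤ) : ℂ) ^ 2 / (2 * ((490 : ℤ) : ℂ))) *
        (1 / (2 * ((490 : ℤ) : ℂ) * (q : ℂ) ^ 2 * zz N β) ^ (1 / 2 : ℂ)) * G 490 (v1 b) a 0 q with hm1
  set m2 := Complex.exp (Real.pi * zz N β * ((v2 b : ℤ) : ℂ) ^ 2 / (2 * ((350 : ℤ) : ℂ))) *
        (1 / (2 * ((350 : ℤ) : ℂ) * (q : ℂ) ^ 2 * zz N β) ^ (1 / 2 : ℂ)) * G 350 (v2 b) a 0 q with hm2
  have hw : 0 < ‖zz N β‖ := norm_pos_iff.2 (zz_ne hN β)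
  have hq' : (0 : ℝ) < q := by exact_mod_cast hq
  have hkq : 0 ≤ kq N q β := by
    unfold kq
    positivity
  set X := Real.sqrt q * Real.sqrt ‖zz N β‖ with hX
  have hXpos : 0 < X := by positivity
  have hXX : X * X = q * ‖zz N β‖ := by
    have e1 := Real.mul_self_sqrt hq'.le
    have e2 := Real.mul_self_sqrt hw.le
    calc X * X = (Real.sqrt q * Real.sqrt q) * (Real.sqrt ‖zz N β‖ * Real.sqrt ‖zz N β‖) := by
          rw [hX]; ring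
      _ = _ := by rw [e1, e2]
  rw [← hXX]
  set κ := kq N q β with hκ
  have t1 : ‖θ1‖ ≤ (5 * C1 + D1) / X := by
    calc ‖θ1‖ = ‖(θ1 - m1) + m1‖ := by rw [sub_add_cancel]
      _ ≤ ‖θ1 - m1‖ + ‖m1‖ := norm_add_le _ _
      _ ≤ C1 * κ / X + D1 / X := add_le_add a1 b1
      _ = (C1 * κ + D1) / X := by rw [add_div]
      _ ≤ (5 * C1 + D1) / X := by
          apply div_le_div_of_nonneg_right _ hXpos.le
          nlinarith
  have t2 : ‖θ2‖ ≤ (5 * C2 + D2) / X := by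
    calc ‖θ2‖ = ‖(θ2 - m2) + m2‖ := by rw [sub_add_cancel]
      _ ≤ ‖θ2 - m2‖ + ‖m2‖ := norm_add_le _ _
      _ ≤ C2 * κ / X + D2 / X := add_le_add a2 b2
      _ = (C2 * κ + D2) / X := by rw [add_div]
      _ ≤ (5 * C2 + D2) / X := by
          apply div_le_div_of_nonneg_right _ hXpos.le
          nlinarith
  have hXX0 : 0 < X * X := mul_pos hXpos hXpos
  refine ⟨?_, ?_, ?_⟩
  · rw [norm_mul]
    calc ‖θ1‖ * ‖θ2‖ ≤ ((5 * C1 + D1) / X) * ((5 * C2 + D2) / X) :=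
          mul_le_mul t1 t2 (norm_nonneg _) (by positivity)
      _ = ((5 * C1 + D1) * (5 * C2 + D2)) / (X * X) := div_mul_div_comm _ _ _ _
      _ ≤ _ := by
          apply div_le_div_of_nonneg_right _ hXX0.le
          have : 0 ≤ D1 * D2 + C1 * (5 * C2 + D2) + D1 * C2 := by positivity
          linarith
  · rw [hM, norm_mul]
    calc ‖m1‖ * ‖m2‖ ≤ (D1 / X) * (D2 / X) :=
          mul_le_mul b1 b2 (norm_nonneg _) (by positivity)
      _ = (D1 * D2) / (X * X) := div_mul_div_comm _ _ _ _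
      _ ≤ _ := by
          apply div_le_div_of_nonneg_right _ hXX0.le
          have : 0 ≤ (5 * C1 + D1) * (5 * C2 + D2) + C1 * (5 * C2 + D2) + D1 * C2 := by positivity
          linarith
  · rw [hM]
    have e1 : θ1 * θ2 - m1 * m2 = (θ1 - m1) * θ2 + m1 * (θ2 - m2) := by ring
    rw [e1]
    calc ‖(θ1 - m1) * θ2 + m1 * (θ2 - m2)‖ ≤ ‖(θ1 - m1) * θ2‖ + ‖m1 * (θ2 - m2)‖ := norm_add_le _ _
      _ = ‖θ1 - m1‖ * ‖θ2‖ + ‖m1‖ * ‖θ2 - m2‖ := by rw [norm_mul, norm_mul]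
      _ ≤ (C1 * κ / X) * ((5 * C2 + D2) / X) + (D1 / X) * (C2 * κ / X) := by
          apply add_le_add
          · exact mul_le_mul a1 t2 (norm_nonneg _) (by positivity)
          · exact mul_le_mul b1 a2 (norm_nonneg _) (by positivity)
      _ = ((C1 * (5 * C2 + D2) + D1 * C2) * κ) / (X * X) := by
          field_simp
      _ ≤ _ := by
          apply div_le_div_of_nonneg_right _ hXX0.le
          apply mul_le_mul_of_nonneg_right _ hkq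
          have : 0 ≤ (5 * C1 + D1) * (5 * C2 + D2) + D1 * D2 := by positivity
          linarith

end Pool.Agent.Lib.TSP
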