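import Pool.Agent.Lib.TSP.Defs

/-!
# TSP.Red: elementary reductions (1 h)
PROOF. `rep_sol`: `b = false`: with `s = 16t + 560t²` take `X = -1 + 3·14x + 10y + s`, i.e. the vector `(-1,0,1) + s(1,3,5) + 14x(3,-1,0) + 10y(1,3,-2)`; `X+3Y+5Z = 4 + 35 s = (2+140t)²`, `X²+Y²+Z² = 2 + 4m` (`ring`/`nlinarith` after
unfolding). `b = true`: `(-3,0,1) + s(1,3,5) + 14x(3,-1,0) + 10y(1,3,-2)`, `s = 16t + 1120t²`, `X+3Y+5Z = 2 + 35 s = 2(1+140t)²`, `X²+Y²+Z² = 10 + 4m`. `k ≤ 140 T`.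
`sol_four`: `v ↦ 2v`: from `k²` to `2k²`; from `2k²` to `4k² = (2k)²`. `sol_pow`: `v ↦ g² v`, `k ↦ g k`.
-/

set_option autoImplicit false

open Finset

namespace Pool.Agent.Lib.TSP

/-- `n = x² + y² + z²`, `x + 3y + 5z = k²` (`b = false`) or `2k²` (`b = true`), `0 ≤ k ≤ K`. -/
def Sol (b : Bool) (n : ℕ) (K : ℝ) : Prop :=
  ∃ x y z : ℤ, ∃ k : ℕ, (k : ℝ) ≤ K ∧ x ^ 2 + y ^ 2 + z ^ 2 = n ∧ x + 3 * y + 5 * z = (if b then 2 else 1) * (k : ℤ) ^ 2

theorem rep_sol (b : Bool) (T : ℕ) (m n : ℕ) (h : Rep b T m) (hn : (n : ℤ) = 4 * m + n1 b) : Sol b n (140 * T) := by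
  obtain ⟨x, y, t, ht, hm⟩ := h
  have hT : ((t : ℝ) + 1) ≤ T := by exact_mod_cast ht
  cases b with
  | false =>
    simp only [v1, v2, P3, n1, qp, Bool.false_eq_true, if_false] at hm hn
    refine ⟨-1 + (16 * t + 560 * t ^ 2) + 42 * x + 10 * y, 3 * (16 * t + 560 * t ^ 2) - 14 * x + 30 * y,
      1 + 5 * (16 * t + 560 * t ^ 2) - 20 * y, 2 + 140 * t, ?_, ?_, ?_⟩
    · push_cast
      linarith
    · rw [hn, ← hm]
      ring
    · simp only [Bool.false_eq_true, if_false]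
      push_cast
      ring
  | true =>
    simp only [v1, v2, P3, n1, qp, if_true] at hm hn
    refine ⟨-3 + (16 * t + 1120 * t ^ 2) + 42 * x + 10 * y, 3 * (16 * t + 1120 * t ^ 2) - 14 * x + 30 * y,
      1 + 5 * (16 * t + 1120 * t ^ 2) - 20 * y, 1 + 140 * t, ?_, ?_, ?_⟩
    · push_cast
      linarith
    · rw [hn, ← hm]
      ring
    · simp only [if_true]
      push_cast
      ring

theorem sol_four (b : Bool) (n : ℕ) (K : ℝ) (h : Sol b n K) : Sol (!b) (4 * n) (2 * K) := by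
  obtain ⟨x, y, z, k, hk, h1, h2⟩ := h
  have hk0 : (0 : ℝ) ≤ k := Nat.cast_nonneg k
  cases b with
  | false =>
    simp only [Bool.false_eq_true, if_false] at h2
    refine ⟨2 * x, 2 * y, 2 * z, k, by linarith, ?_, ?_⟩
    · push_cast
      rw [← h1]
      ring
    · simp only [Bool.not_false, if_true]
      linarith
  | true =>
    simp only [if_true] at h2
    refine ⟨2 * x, 2 * y, 2 * z, 2 * k, by push_cast; linarith, ?_, ?_⟩
    · push_cast
      rw [← h1]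
      ring
    · simp only [Bool.not_true, Bool.false_eq_true, if_false]
      push_cast
      linarith

theorem sol_sixteen (b : Bool) (n : ℕ) (K : ℝ) (h : Sol b n K) : Sol b (16 * n) (2 * K) := by
  obtain ⟨x, y, z, k, hk, h1, h2⟩ := h
  refine ⟨4 * x, 4 * y, 4 * z, 2 * k, by push_cast; linarith, ?_, ?_⟩
  · push_cast
    rw [← h1]
    ring
  · push_cast
    linear_combination 4 * h2

theorem sol_pow (b : Bool) (n g : ℕ) (K : ℝ) (h : Sol b n K) : Sol b (g ^ 4 * n) (g * K) := by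
  obtain ⟨x, y, z, k, hk, h1, h2⟩ := h
  refine ⟨g ^ 2 * x, g ^ 2 * y, g ^ 2 * z, g * k, ?_, ?_, ?_⟩
  · push_cast
    exact mul_le_mul_of_nonneg_left hk (Nat.cast_nonneg g)
  · push_cast
    rw [← h1]
    ring
  · push_cast
    linear_combination (g : ℤ) ^ 2 * h2

end Pool.Agent.Lib.TSP
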