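import Pool.Agent.Lib.TSP.CoreF
import Pool.Agent.Lib.TSP.Red

/-!
# TSP.FinA: from `n ≡ 2 (mod 4)` without 4th powers to all `n` (1.5 h)
PROOF. `E b N K` = `{n ≤ N : n ≡ 2 mod 4, no p⁴ ∣ n (p odd prime), ¬ Sol b n K}`. (1) For `K ≥ 140`, `K^5 ≤ N`... : with `T = ⌊K/140⌋ ≥ 1` (`T^5 ≤ N` if `K^5 ≤ 140^5 N`), `core` with `m = (n - n1 b)/4 ≤ N` (for `b = true` the two numbers `n = 2, 6`
are `< 10`: add 2): `|E b N K| ≤ C₁ N^(1+ε)/K` for all real `K` with `0 < K`, `K^5 ≤ N`, `N ≥ 1` (for `K < 140` trivially: `|E| ≤ N`).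
(2) Let `n ≤ N`, `ord₂(n)` odd: `n = 4^j g⁴ n₃`, `g` odd, `n₃ ≡ 2 mod 4`, no `p⁴ ∣ n₃` for odd `p` (take `g⁴` the largest odd 4th power dividing `n`). With `j = 2i` or `2i+1`, `s = 2^{⌈j/2⌉} g`: if `Sol b' n₃ (N^κ/s)`,
`b' = b` for even `j` and `!b` for odd `j`, then `Sol b n N^κ` (`sol_sixteen`, `sol_four`, `sol_pow`: each 16 costs a factor 2, a factor 4 costs 2). So the exceptional `n` with given `(j, g)` are at most
`|E b' (N/(4^j g⁴)) (N^κ/s)|`. If `(N^κ/s)^5 ≤ N/(4^jg⁴)`: true, since `κ ≤ 1/5` and `s⁵ ≥ s⁴ ≥ 4^j g⁴`. So at most `C₁ (N/(4^jg⁴))^(1+ε) s/N^κ ≤ C₁ N^(1+ε-κ) s/(4^j g⁴)` and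
`s/(4^jg⁴) ≤ 2 · 2^{j/2} g/(4^j g⁴) ≤ 2 · 2^{-j} g^{-2}`: the sum over `j ≥ 0`, `g ≥ 1` is at most `8`. (Natural number division: `n₃ ≤ ⌊N/(4^jg⁴)⌋`, if this is `0` there is nothing.)
-/

set_option autoImplicit false

open Finset

namespace Pool.Agent.Lib.TSP

namespace FinAAux

open Classical in
/-- the exceptional `n ≤ N`, `n ≡ 2 (mod 4)`, free of 4th powers of odd primes -/
noncomputable def E (b : Bool) (N : ℕ) (K : ℝ) : Finset ℕ :=
  (Icc 1 N).filter fun n : ℕ => n % 4 = 2 ∧ (∀ p : ℕ, p.Prime → Odd p → ¬ p ^ 4 ∣ n) ∧ ¬ Sol b n K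

theorem sol_mono {b : Bool} {n : ℕ} {K K' : ℝ} (h : Sol b n K) (hK : K ≤ K') : Sol b n K' := by
  obtain ⟨x, y, z, k, h1, h2, h3⟩ := h
  exact ⟨x, y, z, k, h1.trans hK, h2, h3⟩

theorem ex_m (b : Bool) (n N : ℕ) (hn : n ≤ N) (h4 : n % 4 = 2) (h2 : n ≠ 2) (h6 : n ≠ 6) :
    ∃ m : ℕ, m ≤ N ∧ (n : ℤ) = 4 * (m : ℤ) + n1 b := by
  cases b
  · refine ⟨(n - 2) / 4, by omega, ?_⟩
    simp only [n1, Bool.false_eq_true, if_false]
    omega
  · refine ⟨(n - 10) / 4, by omega, ?_⟩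
    simp only [n1, if_true]
    omega

theorem E_bound (b : Bool) (ε : ℝ) (hε : 0 < ε) : ∃ C : ℝ, 0 < C ∧ ∀ N : ℕ, 1 ≤ N → ∀ K : ℝ, 0 < K →
    K ^ 5 ≤ N → ((E b N K).card : ℝ) ≤ C * (N : ℝ) ^ (1 + ε) / K := by
  classical
  obtain ⟨C, hC, hcore⟩ := core b ε hε
  refine ⟨280 * C + 142, by positivity, ?_⟩
  intro N hN K hK hK5
  have hN1 : (1 : ℝ) ≤ N := by exact_mod_cast hN
  have hNe : (N : ℝ) ≤ (N : ℝ) ^ (1 + ε) := by
    calc (N : ℝ) = (N : ℝ) ^ (1 : ℝ) := (Real.rpow_one _).symm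
      _ ≤ _ := Real.rpow_le_rpow_of_exponent_le hN1 (by linarith)
  have hNe0 : 0 < (N : ℝ) ^ (1 + ε) := by linarith
  by_cases hK140 : K < 140
  · have h1 : ((E b N K).card : ℝ) ≤ N := by
      have h3 : (E b N K).card ≤ (Icc 1 N).card := card_le_card (filter_subset _ _)
      have h2 : (Icc 1 N).card = N := by simp
      exact_mod_cast h3.trans h2.le
    rw [le_div_iff₀ hK]
    have h2 : ((E b N K).card : ℝ) * K ≤ N * 140 :=
      mul_le_mul h1 hK140.le hK.le (by linarith)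
    nlinarith [mul_pos hC hNe0]
  · push Not at hK140
    obtain ⟨T, hT⟩ : ∃ T : ℕ, T = ⌊K / 140⌋₊ := ⟨_, rfl⟩
    have hT1 : 1 ≤ T := by
      rw [hT]
      apply Nat.le_floor
      rw [Nat.cast_one]
      linarith
    have hTle : (T : ℝ) ≤ K / 140 := by
      rw [hT]
      exact Nat.floor_le (by positivity)
    have hTlt : K / 140 < T + 1 := by
      rw [hT]
      exact Nat.lt_floor_add_one _
    have hT1r : (1 : ℝ) ≤ T := by exact_mod_cast hT1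
    have hTK : K ≤ 280 * T := by linarith
    have hT5 : T ^ 5 ≤ N := by
      have h3 : (T : ℝ) ^ 5 ≤ K ^ 5 := pow_le_pow_left₀ (by positivity) (by linarith) 5
      exact_mod_cast h3.trans hK5
    have hc := hcore N T hT1 hT5
    have hsub : E b N K ⊆ ({2, 6} : Finset ℕ) ∪ (((range (N + 1)).filter fun m : ℕ =>
        (∀ p : ℕ, p.Prime → Odd p → ¬ ((p : ℤ) ^ 4 ∣ 4 * (m : ℤ) + n1 b)) ∧
      ¬ Rep b T m).image fun m : ℕ => (4 * (m : ℤ) + n1 b).toNat) := by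
      intro n hn
      rw [E, mem_filter, mem_Icc] at hn
      obtain ⟨⟨hn1, hnN⟩, h4, hp, hs⟩ := hn
      rw [mem_union]
      by_cases h2 : n = 2
      · left; simp [h2]
      by_cases h6 : n = 6
      · left; simp [h6]
      right
      obtain ⟨m, hmN, hm⟩ := ex_m b n N hnN h4 h2 h6
      rw [mem_image]
      refine ⟨m, ?_, ?_⟩
      · rw [mem_filter, mem_range]
        refine ⟨by omega, ?_, ?_⟩
        · intro p hpp hpo hd
          apply hp p hpp hpo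
          rw [← hm] at hd
          exact_mod_cast hd
        · intro hr
          exact hs (sol_mono (rep_sol b T m n hr hm) (by linarith))
      · rw [← hm]
        exact Int.toNat_natCast n
    have hcard := (card_le_card hsub).trans (card_union_le _ _)
    have hcard2 := hcard.trans (Nat.add_le_add_left card_image_le _)
    have h26 : (({2, 6} : Finset ℕ)).card = 2 := by decide
    rw [h26] at hcard2
    have hcard3 : ((E b N K).card : ℝ) ≤ 2 + C * (N : ℝ) ^ (1 + ε) / T := by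
      refine le_trans (by exact_mod_cast hcard2) (add_le_add_right hc 2)
    have hb1 : C * (N : ℝ) ^ (1 + ε) / T ≤ 280 * C * (N : ℝ) ^ (1 + ε) / K := by
      rw [div_le_div_iff₀ (by linarith) hK]
      nlinarith [mul_pos hC hNe0]
    have hKN : K ≤ (N : ℝ) ^ (1 + ε) := by
      have h3 : K ≤ K ^ 5 := by
        calc K = K ^ 1 := (pow_one K).symm
          _ ≤ K ^ 5 := pow_le_pow_right₀ (by linarith) (by norm_num)
      linarith
    have hb2 : (2 : ℝ) ≤ 142 * (N : ℝ) ^ (1 + ε) / K := by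
      rw [le_div_iff₀ hK]
      nlinarith
    calc ((E b N K).card : ℝ) ≤ 2 + C * (N : ℝ) ^ (1 + ε) / T := hcard3
      _ ≤ 142 * (N : ℝ) ^ (1 + ε) / K + 280 * C * (N : ℝ) ^ (1 + ε) / K := add_le_add hb2 hb1
      _ = (280 * C + 142) * (N : ℝ) ^ (1 + ε) / K := by ring

theorem sol_16 (b : Bool) (n : ℕ) (K : ℝ) (h : Sol b n K) (i : ℕ) : Sol b (16 ^ i * n) (2 ^ i * K) := by
  induction i with
  | zero => simpa using h
  | succ i ih =>
    have h1 := sol_sixteen b _ _ ih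
    have e1 : 16 ^ (i + 1) * n = 16 * (16 ^ i * n) := by ring
    have e2 : (2 : ℝ) ^ (i + 1) * K = 2 * (2 ^ i * K) := by ring
    rw [e1, e2]
    exact h1

theorem sol_step (b : Bool) (j g n3 : ℕ) (K : ℝ) (h : Sol (if Even j then b else !b) n3 K) :
    Sol b (4 ^ j * (g ^ 4 * n3)) (2 ^ ((j + 1) / 2) * (g * K)) := by
  rcases Nat.even_or_odd' j with ⟨i, hi | hi⟩
  · subst hi
    rw [if_pos (by simp)] at h
    have h1 := sol_16 b _ _ (sol_pow b n3 g K h) i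
    have e1 : 4 ^ (2 * i) * (g ^ 4 * n3) = 16 ^ i * (g ^ 4 * n3) := by
      rw [pow_mul]; norm_num
    have e2 : (2 * i + 1) / 2 = i := by omega
    rw [e1, e2]
    exact h1
  · subst hi
    rw [if_neg (by simp)] at h
    have h1 := sol_four (!b) _ _ (sol_16 (!b) _ _ (sol_pow (!b) n3 g K h) i)
    rw [Bool.not_not] at h1
    have e1 : 4 ^ (2 * i + 1) * (g ^ 4 * n3) = 4 * (16 ^ i * (g ^ 4 * n3)) := by
      rw [pow_succ, pow_mul]; norm_num; ring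
    have e2 : (2 * i + 1 + 1) / 2 = i + 1 := by omega
    have e3 : (2 : ℝ) ^ (i + 1) * (g * K) = 2 * (2 ^ i * (g * K)) := by ring
    rw [e1, e2, e3]
    exact h1

theorem decomp (n : ℕ) (hn : 1 ≤ n) (ho : Odd (padicValNat 2 n)) : ∃ j g n3 : ℕ, 1 ≤ g ∧ 1 ≤ n3 ∧
    n = 4 ^ j * (g ^ 4 * n3) ∧ n3 % 4 = 2 ∧ ∀ p : ℕ, p.Prime → Odd p → ¬ p ^ 4 ∣ n3 := by
  classical
  obtain ⟨k, m, hm, hnk⟩ := Nat.exists_eq_two_pow_mul_odd (n := n) (by omega)
  have hm0 : m ≠ 0 := by rintro rfl; simp at hm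
  have hk : padicValNat 2 n = k := by
    rw [hnk, padicValNat.mul (by positivity) hm0, padicValNat.prime_pow]
    have : padicValNat 2 m = 0 := by
      apply padicValNat.eq_zero_of_not_dvd
      intro h2
      rw [Nat.odd_iff] at hm
      omega
    omega
  rw [hk] at ho
  obtain ⟨j, hj⟩ := ho
  have hP1 : Odd 1 ∧ 1 ^ 4 ∣ m := ⟨odd_one, by simp⟩
  obtain ⟨g, hg⟩ : ∃ g : ℕ, g = Nat.findGreatest (fun g => Odd g ∧ g ^ 4 ∣ m) m := ⟨_, rfl⟩
  have hgP : Odd g ∧ g ^ 4 ∣ m := by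
    rw [hg]
    exact Nat.findGreatest_spec (P := fun g => Odd g ∧ g ^ 4 ∣ m) (m := 1) (by omega) hP1
  obtain ⟨hgo, m', hm'⟩ := hgP
  have hg1 : 1 ≤ g := by
    rcases Nat.eq_zero_or_pos g with h | h
    · rw [h] at hgo; simp at hgo
    · exact h
  have hm'0 : m' ≠ 0 := by
    rintro rfl
    simp at hm'
    exact hm0 hm'
  have hm'o : Odd m' := by
    rw [hm'] at hm
    exact (Nat.odd_mul.mp hm).2
  refine ⟨j, g, 2 * m', hg1, by omega, ?_, ?_, ?_⟩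
  · rw [hnk, hj, hm', pow_succ, pow_mul]
    norm_num
    ring
  · rw [Nat.odd_iff] at hm'o
    omega
  · intro p hp hpo hd
    have hcop : Nat.Coprime (p ^ 4) 2 := by
      apply Nat.Coprime.pow_left
      exact (Nat.coprime_two_right).mpr hpo
    have hd' : p ^ 4 ∣ m' := hcop.dvd_of_dvd_mul_left hd
    obtain ⟨c, hc⟩ := hd'
    have hdm : (p * g) ^ 4 ∣ m := by
      rw [hm', hc]
      exact ⟨c, by ring⟩
    have hle : p * g ≤ m := by
      calc p * g ≤ (p * g) ^ 4 := Nat.le_self_pow (by norm_num) _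
        _ ≤ m := Nat.le_of_dvd (Nat.pos_of_ne_zero hm0) hdm
    have h5 : p * g ≤ Nat.findGreatest (fun g => Odd g ∧ g ^ 4 ∣ m) m :=
      Nat.le_findGreatest hle ⟨hpo.mul hgo, hdm⟩
    rw [← hg] at h5
    have h6 := hp.two_le
    nlinarith

theorem sum_j (J : ℕ) : ∑ j ∈ range J, ((1 : ℝ) / 2) ^ j ≤ 2 := by
  have h : ∀ J : ℕ, ∑ j ∈ range J, ((1 : ℝ) / 2) ^ j = 2 - 2 * (1 / 2) ^ J := by
    intro J
    induction J with
    | zero => norm_num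
    | succ J ih => rw [sum_range_succ, ih, pow_succ]; ring
  rw [h J]
  have : (0 : ℝ) < (1 / 2) ^ J := by positivity
  linarith

theorem sum_g (N : ℕ) : ∑ g ∈ Icc 1 N, (1 : ℝ) / (g : ℝ) ^ 2 ≤ 2 := by
  have h : ∀ N : ℕ, ∑ g ∈ Icc 1 (N + 1), (1 : ℝ) / (g : ℝ) ^ 2 ≤ 2 - 1 / ((N : ℝ) + 1) := by
    intro N
    induction N with
    | zero => simp; norm_num
    | succ N ih =>
      rw [sum_Icc_succ_top (by omega)]
      have e1 : (1 : ℝ) / ((N + 1 + 1 : ℕ) : ℝ) ^ 2 ≤ 1 / ((N : ℝ) + 1) - 1 / ((N : ℝ) + 1 + 1) := by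
        push_cast
        rw [div_sub_div _ _ (by positivity) (by positivity), div_le_div_iff₀ (by positivity) (by positivity)]
        nlinarith [(Nat.cast_nonneg N : (0 : ℝ) ≤ N)]
      push_cast at e1 ⊢
      linarith
  rcases N with _ | N
  · simp
  · have h1 := h N
    have : (0 : ℝ) < 1 / ((N : ℝ) + 1) := by positivity
    linarith

theorem E_zero (b : Bool) (K : ℝ) : (E b 0 K).card = 0 := by
  simp [E]

theorem term_bound (b' : Bool) (κ ε C1 : ℝ) (hκ5 : κ ≤ 1 / 5) (hε : 0 < ε) (hC1 : 0 < C1)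
    (hE : ∀ N : ℕ, 1 ≤ N → ∀ K : ℝ, 0 < K → K ^ 5 ≤ N → ((E b' N K).card : ℝ) ≤ C1 * (N : ℝ) ^ (1 + ε) / K)
    (N j g : ℕ) (hN : 1 ≤ N) (hg : 1 ≤ g) :
    ((E b' (N / (4 ^ j * g ^ 4)) ((N : ℝ) ^ κ / (2 ^ ((j + 1) / 2) * g))).card : ℝ)
      ≤ C1 * (N : ℝ) ^ (1 - κ + ε) * ((1 / 2) ^ j * (1 / (g : ℝ) ^ 2)) := by
  have hN1 : (1 : ℝ) ≤ N := by exact_mod_cast hN
  have hg1 : (1 : ℝ) ≤ g := by exact_mod_cast hg
  have hN0 : (0 : ℝ) < N := by linarith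
  obtain ⟨M, hM⟩ : ∃ M : ℕ, M = N / (4 ^ j * g ^ 4) := ⟨_, rfl⟩
  rw [← hM]
  rcases Nat.eq_zero_or_pos M with hM0 | hMpos
  · rw [hM0, E_zero]
    push_cast
    positivity
  obtain ⟨D, hD⟩ : ∃ D : ℕ, D = 4 ^ j * g ^ 4 := ⟨_, rfl⟩
  obtain ⟨s, hs⟩ : ∃ s : ℕ, s = 2 ^ ((j + 1) / 2) * g := ⟨_, rfl⟩
  have hsr : (2 : ℝ) ^ ((j + 1) / 2) * g = (s : ℝ) := by rw [hs]; push_cast; ring
  rw [hsr]
  rw [← hD] at hM
  have hs1 : 1 ≤ s := by rw [hs]; exact Nat.mul_pos (by positivity) hg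
  have hD1 : 1 ≤ D := by rw [hD]; exact Nat.mul_pos (by positivity) (by positivity)
  have hsD : D ≤ s ^ 4 := by
    rw [hs, hD, mul_pow]
    apply Nat.mul_le_mul_right
    rw [← pow_mul]
    calc 4 ^ j = 2 ^ (2 * j) := by rw [pow_mul]; norm_num
      _ ≤ 2 ^ ((j + 1) / 2 * 4) := Nat.pow_le_pow_right (by norm_num) (by omega)
  have hNM : N ≤ s ^ 5 * M := by
    rcases Nat.lt_or_ge s 2 with h2 | h2
    · have hs1' : s = 1 := by omega
      rw [hs1'] at hs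
      have hg' : g = 1 := Nat.eq_one_of_mul_eq_one_left hs.symm
      have hj' : 2 ^ ((j + 1) / 2) = 1 := Nat.eq_one_of_mul_eq_one_right hs.symm
      have hj0 : j = 0 := by
        by_contra hj0
        have h7 : 1 ≤ (j + 1) / 2 := by omega
        have h8 : 2 ^ 1 ≤ 2 ^ ((j + 1) / 2) := Nat.pow_le_pow_right (by norm_num) h7
        omega
      rw [hg', hj0] at hD
      simp at hD
      rw [hs1', hM, hD]
      simp
    · have h3 : N < D * (M + 1) := by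
        rw [hM]
        have := Nat.lt_mul_div_succ N (show 0 < D by omega)
        exact this
      have h4 : D * (M + 1) ≤ D * (2 * M) := Nat.mul_le_mul_left _ (by omega)
      have h5 : D * (2 * M) ≤ s ^ 4 * (s * M) :=
        Nat.mul_le_mul hsD (Nat.mul_le_mul_right _ h2)
      calc N ≤ D * (M + 1) := h3.le
        _ ≤ _ := h4
        _ ≤ _ := h5
        _ = s ^ 5 * M := by ring
  have hsr1 : (1 : ℝ) ≤ s := by exact_mod_cast hs1
  have hs0 : (0 : ℝ) < s := by linarith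
  have hDr1 : (1 : ℝ) ≤ D := by exact_mod_cast hD1
  have hD0 : (0 : ℝ) < D := by linarith
  have hNMr : (N : ℝ) ≤ (s : ℝ) ^ 5 * M := by exact_mod_cast hNM
  have hNκ : 0 < (N : ℝ) ^ κ := Real.rpow_pos_of_pos hN0 _
  have hK5 : ((N : ℝ) ^ κ / s) ^ 5 ≤ M := by
    rw [div_pow, div_le_iff₀ (by positivity)]
    have h6 : ((N : ℝ) ^ κ) ^ 5 ≤ N := by
      rw [← Real.rpow_natCast, ← Real.rpow_mul hN0.le]
      calc (N : ℝ) ^ (κ * ((5 : ℕ) : ℝ)) ≤ (N : ℝ) ^ (1 : ℝ) :=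
            Real.rpow_le_rpow_of_exponent_le hN1 (by push_cast; linarith)
        _ = N := Real.rpow_one _
    linarith [mul_comm ((s : ℝ) ^ 5) (M : ℝ)]
  have hb := hE M hMpos ((N : ℝ) ^ κ / s) (by positivity) hK5
  refine hb.trans ?_
  have hMr : (M : ℝ) ≤ (N : ℝ) / D := by
    rw [hM]
    exact Nat.cast_div_le
  have hM1 : (M : ℝ) ^ (1 + ε) ≤ (N : ℝ) ^ (1 + ε) / D := by
    calc (M : ℝ) ^ (1 + ε) ≤ ((N : ℝ) / D) ^ (1 + ε) :=
          Real.rpow_le_rpow (by positivity) hMr (by linarith)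
      _ = (N : ℝ) ^ (1 + ε) / (D : ℝ) ^ (1 + ε) := Real.div_rpow hN0.le hD0.le _
      _ ≤ (N : ℝ) ^ (1 + ε) / D := by
          apply div_le_div_of_nonneg_left (by positivity) hD0
          calc (D : ℝ) = (D : ℝ) ^ (1 : ℝ) := (Real.rpow_one _).symm
            _ ≤ _ := Real.rpow_le_rpow_of_exponent_le hDr1 (by linarith)
  have hsDb : (s : ℝ) / D ≤ (1 / 2) ^ j * (1 / (g : ℝ) ^ 2) := by
    have h7 : (2 : ℝ) ^ ((j + 1) / 2) ≤ 2 ^ j := pow_le_pow_right₀ (by norm_num) (by omega)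
    rw [← hsr]
    have hDr : (D : ℝ) = 4 ^ j * (g : ℝ) ^ 4 := by rw [hD]; push_cast; ring
    have h8 : (1 / 2 : ℝ) ^ j * (1 / (g : ℝ) ^ 2) = 1 / (2 ^ j * (g : ℝ) ^ 2) := by
      rw [one_div_pow, one_div_mul_one_div]
    have h9 : (4 : ℝ) ^ j = 2 ^ j * 2 ^ j := by rw [← mul_pow]; norm_num
    have hg0 : (0 : ℝ) < g := by linarith
    rw [hDr, h8, div_le_div_iff₀ (by positivity) (by positivity), h9, one_mul]
    calc (2 : ℝ) ^ ((j + 1) / 2) * g * (2 ^ j * (g : ℝ) ^ 2)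
        ≤ 2 ^ j * g * (2 ^ j * (g : ℝ) ^ 2) := by gcongr
      _ = 2 ^ j * 2 ^ j * (g : ℝ) ^ 3 := by ring
      _ ≤ 2 ^ j * 2 ^ j * (g : ℝ) ^ 4 := by
          apply mul_le_mul_of_nonneg_left _ (by positivity)
          exact pow_le_pow_right₀ hg1 (by norm_num)
  have hfin : (N : ℝ) ^ (1 + ε) / (N : ℝ) ^ κ = (N : ℝ) ^ (1 - κ + ε) := by
    rw [← Real.rpow_sub hN0]
    congr 1
    ring
  calc C1 * (M : ℝ) ^ (1 + ε) / ((N : ℝ) ^ κ / s)
      ≤ C1 * ((N : ℝ) ^ (1 + ε) / D) / ((N : ℝ) ^ κ / s) := by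
        apply div_le_div_of_nonneg_right _ (by positivity)
        exact mul_le_mul_of_nonneg_left hM1 hC1.le
    _ = C1 * ((N : ℝ) ^ (1 + ε) / (N : ℝ) ^ κ) * (s / D) := by
        field_simp
    _ = C1 * (N : ℝ) ^ (1 - κ + ε) * (s / D) := by rw [hfin]
    _ ≤ _ := mul_le_mul_of_nonneg_left hsDb (by positivity)

end FinAAux

open FinAAux

open Classical in
theorem fin_all (b : Bool) (κ ε : ℝ) (hκ : 0 < κ) (hκ5 : κ ≤ 1 / 5) (hε : 0 < ε) : ∃ C : ℝ, 0 < C ∧ ∀ N : ℕ, 1 ≤ N →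
    (((Icc 1 N).filter fun n : ℕ => Odd (padicValNat 2 n) ∧ ¬ Sol b n ((N : ℝ) ^ κ)).card : ℝ)
      ≤ C * (N : ℝ) ^ (1 - κ + ε) := by
  obtain ⟨Ca, hCa, hEa⟩ := E_bound b ε hε
  obtain ⟨Cb, hCb, hEb⟩ := E_bound (!b) ε hε
  refine ⟨4 * (Ca + Cb), by positivity, ?_⟩
  intro N hN
  have hN1 : (1 : ℝ) ≤ N := by exact_mod_cast hN
  have hN0 : (0 : ℝ) < N := by linarith
  have hsub : ((Icc 1 N).filter fun n : ℕ => Odd (padicValNat 2 n) ∧ ¬ Sol b n ((N : ℝ) ^ κ)) ⊆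
      (range (N + 1) ×ˢ Icc 1 N).biUnion fun jg =>
        (E (if Even jg.1 then b else !b) (N / (4 ^ jg.1 * jg.2 ^ 4))
          ((N : ℝ) ^ κ / (2 ^ ((jg.1 + 1) / 2) * jg.2))).image fun n3 => 4 ^ jg.1 * (jg.2 ^ 4 * n3) := by
    intro n hn
    rw [mem_filter, mem_Icc] at hn
    obtain ⟨⟨hn1, hnN⟩, ho, hs⟩ := hn
    obtain ⟨j, g, n3, hg, hn3, hnn, h4, hp⟩ := decomp n hn1 ho
    rw [mem_biUnion]
    have hg0 : 0 < g ^ 4 * n3 := by positivity
    have hj0 : 0 < 4 ^ j := by positivity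
    refine ⟨(j, g), ?_, ?_⟩
    · rw [mem_product, mem_range, mem_Icc]
      refine ⟨?_, hg, ?_⟩
      · have h5 : j < 4 ^ j := Nat.lt_pow_self (by norm_num)
        have h6 : 4 ^ j ≤ n := by
          rw [hnn]
          exact Nat.le_mul_of_pos_right _ hg0
        show j < N + 1
        omega
      · show g ≤ N
        have h5 : g ≤ g ^ 4 := Nat.le_self_pow (by norm_num) _
        have h6 : g ^ 4 ≤ g ^ 4 * n3 := Nat.le_mul_of_pos_right _ hn3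
        have h7 : g ^ 4 * n3 ≤ n := by
          rw [hnn]
          exact Nat.le_mul_of_pos_left _ hj0
        omega
    · rw [mem_image]
      refine ⟨n3, ?_, hnn.symm⟩
      rw [E, mem_filter, mem_Icc]
      refine ⟨⟨hn3, ?_⟩, h4, hp, ?_⟩
      · rw [Nat.le_div_iff_mul_le (by positivity)]
        calc n3 * (4 ^ j * g ^ 4) = n := by rw [hnn]; ring
          _ ≤ N := hnN
      · intro hsol
        apply hs
        have h8 := sol_step b j g n3 _ hsol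
        rw [← hnn] at h8
        refine sol_mono h8 (le_of_eq ?_)
        have hg0 : (0 : ℝ) < g := by exact_mod_cast hg
        show (2 : ℝ) ^ ((j + 1) / 2) * (g * ((N : ℝ) ^ κ / (2 ^ ((j + 1) / 2) * g))) = (N : ℝ) ^ κ
        field_simp
  have hcard : ((((Icc 1 N).filter fun n : ℕ => Odd (padicValNat 2 n) ∧ ¬ Sol b n ((N : ℝ) ^ κ)).card : ℕ) : ℝ)
      ≤ ∑ jg ∈ range (N + 1) ×ˢ Icc 1 N, ((E (if Even jg.1 then b else !b) (N / (4 ^ jg.1 * jg.2 ^ 4))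
          ((N : ℝ) ^ κ / (2 ^ ((jg.1 + 1) / 2) * jg.2))).card : ℝ) := by
    have h9 := (card_le_card hsub).trans card_biUnion_le
    have h10 := h9.trans (sum_le_sum fun jg _ => card_image_le)
    exact_mod_cast h10
  refine hcard.trans ?_
  have hterm : ∀ jg ∈ range (N + 1) ×ˢ Icc 1 N, ((E (if Even jg.1 then b else !b) (N / (4 ^ jg.1 * jg.2 ^ 4))
          ((N : ℝ) ^ κ / (2 ^ ((jg.1 + 1) / 2) * jg.2))).card : ℝ)
        ≤ (Ca + Cb) * (N : ℝ) ^ (1 - κ + ε) * ((1 / 2) ^ jg.1 * (1 / (jg.2 : ℝ) ^ 2)) := by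
    intro jg hjg
    rw [mem_product, mem_Icc] at hjg
    have hpos : (0 : ℝ) < (N : ℝ) ^ (1 - κ + ε) := Real.rpow_pos_of_pos hN0 _
    have hpos2 : (0 : ℝ) ≤ (1 / 2) ^ jg.1 * (1 / (jg.2 : ℝ) ^ 2) := by positivity
    by_cases he : Even jg.1
    · rw [if_pos he]
      refine (term_bound b κ ε Ca hκ5 hε hCa hEa N jg.1 jg.2 hN hjg.2.1).trans ?_
      apply mul_le_mul_of_nonneg_right _ hpos2
      apply mul_le_mul_of_nonneg_right _ hpos.le
      linarith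
    · rw [if_neg he]
      refine (term_bound (!b) κ ε Cb hκ5 hε hCb hEb N jg.1 jg.2 hN hjg.2.1).trans ?_
      apply mul_le_mul_of_nonneg_right _ hpos2
      apply mul_le_mul_of_nonneg_right _ hpos.le
      linarith
  refine (sum_le_sum hterm).trans ?_
  rw [← mul_sum, sum_product]
  have hprod : ∑ j ∈ range (N + 1), ∑ g ∈ Icc 1 N, ((1 : ℝ) / 2) ^ j * (1 / (g : ℝ) ^ 2) ≤ 4 := by
    rw [← sum_mul_sum]
    have h1 := sum_j (N + 1)
    have h2 := sum_g N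
    have h3 : (0 : ℝ) ≤ ∑ g ∈ Icc 1 N, (1 : ℝ) / (g : ℝ) ^ 2 := sum_nonneg fun g _ => by positivity
    calc _ ≤ (2 : ℝ) * 2 := mul_le_mul h1 h2 h3 (by norm_num)
      _ = 4 := by norm_num
  have hpos : (0 : ℝ) < (Ca + Cb) * (N : ℝ) ^ (1 - κ + ε) := by positivity
  calc _ ≤ (Ca + Cb) * (N : ℝ) ^ (1 - κ + ε) * 4 := mul_le_mul_of_nonneg_left hprod hpos.le
    _ = 4 * (Ca + Cb) * (N : ℝ) ^ (1 - κ + ε) := by ring

end Pool.Agent.Lib.TSP
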