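import Pool.Agent.Lib.TSP.SfB
import Pool.Agent.Lib.GMV.PerMean
import Pool.Agent.Lib.GMV.Comb

/-!
# TSP.Mom: high moments of the rough sums (1.5 h)  (adapt `Pool/Agent/Lib/SPP/Mom.lean`, same structure)
PROOF. Expand the power: tuples `f : Fin (2k) → SS`, `c_p = #{i : p ∈ f i}` (`SPP.MomAux.prod_exp`), `∏_i ∏_{p ∈ f i} g p n = ∏_{p ∈ P} g p n ^ c_p`. Fix `f`, sum over `n < N`.
(a) all `c_p ≠ 1`: at most `N ∏_p (3/p)^{c_p}`, and `3/p = p^(-2/5) · 3p^(-3/5)`, `∏_p p^{c_p} = ∏_i ∏ f i ≥ (Y/2)^{2k}`, so at most `N (Y/2)^(-4k/5) ∏_p (3p^(-3/5))^{c_p}`. The sum of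
`∏_p (3p^(-3/5))^{c_p}` over all `f : Fin (2k) → P.powerset` with all `c_p ≠ 1` is `∏_{p ∈ P} ∑_{e ≠ 1} C(2k,e) (3p^(-3/5))^e ≤ exp 4000` (`sf_bound`; a tuple of subsets of `P` is the same as
a subset `{i : p ∈ f i}` of `Fin (2k)` for every `p ∈ P`).
(b) `c_q = 1` for some `q`: `P' = {p : c_p ≥ 1}`, `D = ∏ P'`, `h(n) = ∏_{p ∈ P'} g p n ^ c_p` has period `D` and mean `∏_{p ∈ P'} (mean of g p ^ c_p mod p) = 0` (`GMV.av_prod`, the factor `q`), so the sum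
over `n < N` is the sum of less than `D` terms, each at most `∏_p (3/p)^{c_p}`: at most `D ∏_p (3/p)^{c_p} ≤ ∏_p 3^{c_p} = ∏_i 3^{|f i|}` (`D ≤ ∏_p p^{c_p}`). Sum over all `f`: `(∑_S 3^|S|)^{2k}`.
-/

set_option autoImplicit false

open Finset

namespace Pool.Agent.Lib.TSP

namespace MomAux

open Pool.Agent.Lib.GMV

/-- The multiplicities of the primes. -/
theorem prod_exp {M : Type*} [CommMonoid M] {m : ℕ} (P : Finset ℕ) (f : Fin m → Finset ℕ)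
    (hf : ∀ i, f i ⊆ P) (g : ℕ → M) :
    ∏ i, ∏ p ∈ f i, g p = ∏ p ∈ P, g p ^ (univ.filter fun i => p ∈ f i).card := by
  have h1 : ∀ i, ∏ p ∈ f i, g p = ∏ p ∈ P, (if p ∈ f i then g p else 1) := by
    intro i
    rw [Finset.prod_ite_mem, Finset.inter_eq_right.2 (hf i)]
  rw [Finset.prod_congr rfl (fun i _ => h1 i), Finset.prod_comm]
  refine Finset.prod_congr rfl fun p _ => ?_
  rw [Finset.prod_ite, Finset.prod_const_one, mul_one, Finset.prod_const]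

/-- `3 / p = p^(-2/5) * (3 p^(-3/5))`. -/
theorem three_div {p : ℕ} (hp : 0 < p) :
    3 / (p : ℝ) = (p : ℝ) ^ (-(2 / 5 : ℝ)) * (3 * (p : ℝ) ^ (-(3 / 5 : ℝ))) := by
  have hp0 : (0 : ℝ) < p := by exact_mod_cast hp
  have : (p : ℝ) ^ (-(2 / 5 : ℝ)) * (p : ℝ) ^ (-(3 / 5 : ℝ)) = (p : ℝ)⁻¹ := by
    rw [← Real.rpow_add hp0, ← Real.rpow_neg_one]
    norm_num
  calc 3 / (p : ℝ) = 3 * ((p : ℝ) ^ (-(2 / 5 : ℝ)) * (p : ℝ) ^ (-(3 / 5 : ℝ))) := by
        rw [this, div_eq_mul_inv]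
    _ = _ := by ring

/-- The absolute value of a term. -/
theorem abs_term (P : Finset ℕ) (g : ℕ → ℝ) (c : ℕ → ℕ) (hg : ∀ p ∈ P, |g p| ≤ 3 / (p : ℝ)) :
    |∏ p ∈ P, g p ^ c p| ≤ ∏ p ∈ P, (3 / (p : ℝ)) ^ c p := by
  rw [Finset.abs_prod]
  refine Finset.prod_le_prod (fun p _ => abs_nonneg _) fun p hp => ?_
  rw [abs_pow]
  exact pow_le_pow_left₀ (abs_nonneg _) (hg p hp) _

/-- The squareful case. -/
theorem sf_case (P : Finset ℕ) (k Y : ℕ) (hP : ∀ p ∈ P, p.Prime) (hY : 1 ≤ Y)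
    (f : Fin (2 * k) → Finset ℕ) (hf : ∀ i, f i ⊆ P ∧ Y < 2 * ∏ p ∈ f i, p) :
    ∏ p ∈ P, (3 / (p : ℝ)) ^ (univ.filter fun i => p ∈ f i).card ≤
      ((Y : ℝ) / 2) ^ (-(4 / 5 * (k : ℝ))) *
        ∏ p ∈ P, (3 * (p : ℝ) ^ (-(3 / 5 : ℝ))) ^ (univ.filter fun i => p ∈ f i).card := by
  have hY0 : (0 : ℝ) < (Y : ℝ) / 2 := by
    have : (0 : ℝ) < Y := by exact_mod_cast hY
    linarith
  have h1 : ∏ p ∈ P, (3 / (p : ℝ)) ^ (univ.filter fun i => p ∈ f i).card =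
      (∏ p ∈ P, ((p : ℝ) ^ (-(2 / 5 : ℝ))) ^ (univ.filter fun i => p ∈ f i).card) *
        ∏ p ∈ P, (3 * (p : ℝ) ^ (-(3 / 5 : ℝ))) ^ (univ.filter fun i => p ∈ f i).card := by
    rw [← Finset.prod_mul_distrib]
    refine Finset.prod_congr rfl fun p hp => ?_
    rw [← mul_pow, three_div (hP p hp).pos]
  rw [h1]
  refine mul_le_mul_of_nonneg_right ?_ (Finset.prod_nonneg fun p _ => by positivity)
  rw [← prod_exp P f (fun i => (hf i).1) (fun p => (p : ℝ) ^ (-(2 / 5 : ℝ)))]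
  have h2 : ∀ i, ∏ p ∈ f i, (p : ℝ) ^ (-(2 / 5 : ℝ)) ≤ ((Y : ℝ) / 2) ^ (-(2 / 5 : ℝ)) := by
    intro i
    rw [Real.finsetProd_rpow _ _ (fun p _ => by positivity)]
    refine Real.rpow_le_rpow_of_nonpos hY0 ?_ (by norm_num)
    have h3 : Y ≤ 2 * ∏ p ∈ f i, p := (hf i).2.le
    have h4 : (Y : ℝ) ≤ ((2 * ∏ p ∈ f i, p : ℕ) : ℝ) := Nat.cast_le.2 h3
    push_cast at h4
    linarith
  calc ∏ i, ∏ p ∈ f i, (p : ℝ) ^ (-(2 / 5 : ℝ))
      ≤ ∏ i : Fin (2 * k), ((Y : ℝ) / 2) ^ (-(2 / 5 : ℝ)) :=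
        Finset.prod_le_prod (fun i _ => Finset.prod_nonneg fun p _ => by positivity)
          fun i _ => h2 i
    _ = (((Y : ℝ) / 2) ^ (-(2 / 5 : ℝ))) ^ (2 * k) := by
        rw [Finset.prod_const, Finset.card_univ, Fintype.card_fin]
    _ = ((Y : ℝ) / 2) ^ (-(4 / 5 * (k : ℝ))) := by
        rw [← Real.rpow_natCast, ← Real.rpow_mul hY0.le]
        congr 1
        push_cast
        ring

/-- A periodic function with mean zero. -/
theorem mean_zero_sum (D N : ℕ) (hD : 1 ≤ D) (h : ℕ → ℂ) (hper : ∀ n, h (n + D) = h n)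
    (hz : ∑ n ∈ range D, h n = 0) (B : ℝ) (hb : ∀ n, ‖h n‖ ≤ B) :
    ‖∑ n ∈ range N, h n‖ ≤ D * B := by
  have hB : 0 ≤ B := (norm_nonneg _).trans (hb 0)
  have h1 := PerMeanAux.per_sum D h hper (N / D) (N % D)
  rw [Nat.div_add_mod] at h1
  rw [h1, hz, mul_zero, zero_add]
  refine (norm_sum_le _ _).trans ?_
  calc ∑ n ∈ range (N % D), ‖h n‖ ≤ ∑ n ∈ range (N % D), B :=
        Finset.sum_le_sum fun n _ => hb _
    _ = ((N % D : ℕ) : ℝ) * B := by simp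
    _ ≤ D * B := by
        refine mul_le_mul_of_nonneg_right ?_ hB
        exact_mod_cast (Nat.mod_lt N hD).le

/-- The case of a multiplicity one. -/
theorem one_case (g : ℕ → ℕ → ℝ) (P : Finset ℕ) (m N : ℕ) (hP : ∀ p ∈ P, p.Prime)
    (hper : ∀ p ∈ P, ∀ n, g p (n + p) = g p n) (hmean : ∀ p ∈ P, ∑ n ∈ range p, g p n = 0)
    (hg : ∀ p ∈ P, ∀ n, |g p n| ≤ 3 / (p : ℝ))
    (f : Fin m → Finset ℕ) (hf : ∀ i, f i ⊆ P)
    (hone : ∃ q ∈ P, (univ.filter fun i => q ∈ f i).card = 1) :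
    ∑ n ∈ range N, ∏ p ∈ P, g p n ^ (univ.filter fun i => p ∈ f i).card ≤
      ∏ i, (3 : ℝ) ^ (f i).card := by
  classical
  obtain ⟨q, hq, hqo⟩ := hone
  set c : ℕ → ℕ := fun p => (univ.filter fun i => p ∈ f i).card with hc
  have hqo' : c q = 1 := hqo
  set P' := P.filter (fun p => 1 ≤ c p) with hP'
  have hP'P : ∀ p ∈ P', p ∈ P := fun p hp => (Finset.mem_filter.1 hp).1
  have hP'p : ∀ p ∈ P', p.Prime := fun p hp => hP p (hP'P p hp)
  have hqP' : q ∈ P' := Finset.mem_filter.2 ⟨hq, hqo'.ge⟩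
  set D := ∏ p ∈ P', p with hD
  have hD1 : 1 ≤ D := Finset.prod_pos fun p hp => (hP'p p hp).pos
  -- the product over `P` is the product over `P'`
  have hPP : ∀ n, ∏ p ∈ P, g p n ^ c p = ∏ p ∈ P', g p n ^ c p := by
    intro n
    rw [hP', Finset.prod_filter]
    refine Finset.prod_congr rfl fun p _ => ?_
    by_cases h : 1 ≤ c p
    · rw [if_pos h]
    · rw [if_neg h, show c p = 0 by omega, pow_zero]
  set h : ℕ → ℂ := fun n => ∏ p ∈ P', ((g p n ^ c p : ℝ) : ℂ) with hh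
  have hfper : ∀ p ∈ P', ∀ n, (fun (p n : ℕ) => ((g p n ^ c p : ℝ) : ℂ)) p (n + p) =
      (fun (p n : ℕ) => ((g p n ^ c p : ℝ) : ℂ)) p n := by
    intro p hp n
    simp only
    rw [hper p (hP'P p hp)]
  have hper' : ∀ n, h (n + D) = h n := by
    intro n
    rw [hh]
    refine Finset.prod_congr rfl fun p hp => ?_
    obtain ⟨t, ht⟩ : p ∣ D := Finset.dvd_prod_of_mem (fun q => q) hp
    have := PerMeanAux.per_mul p (fun n => ((g p n ^ c p : ℝ) : ℂ))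
      (fun n => hfper p hp n) t n
    rw [ht]
    exact this
  have hz : ∑ n ∈ range D, h n = 0 := by
    have h1 := av_prod P' hP'p 1 le_rfl (fun p _ => Nat.coprime_one_left p) (fun _ => 1)
      (fun _ => rfl) (fun (p n : ℕ) => ((g p n ^ c p : ℝ) : ℂ)) hfper
    have h2 : ∏ p ∈ P', av p ((fun (p n : ℕ) => ((g p n ^ c p : ℝ) : ℂ)) p) = 0 := by
      refine Finset.prod_eq_zero hqP' ?_
      unfold av
      have h4 : ∑ n ∈ range q, ((g q n ^ c q : ℝ) : ℂ) = 0 := by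
        rw [hqo', ← Complex.ofReal_sum]
        simp only [pow_one]
        rw [hmean q hq, Complex.ofReal_zero]
      rw [h4, zero_div]
    rw [h2, mul_zero, one_mul, ← hD] at h1
    unfold av at h1
    rw [div_eq_zero_iff] at h1
    rcases h1 with h1 | h1
    · refine (Finset.sum_congr rfl fun n _ => ?_).trans h1
      rw [hh]
      simp only [one_mul]
    · exfalso
      have : D = 0 := by exact_mod_cast h1
      omega
  have hb : ∀ n, ‖h n‖ ≤ ∏ p ∈ P', (3 / (p : ℝ)) ^ c p := by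
    intro n
    have e : h n = ((∏ p ∈ P', g p n ^ c p : ℝ) : ℂ) := by
      rw [hh, Complex.ofReal_prod]
    rw [e, Complex.norm_real, Real.norm_eq_abs]
    exact abs_term P' (fun p => g p n) c fun p hp => hg p (hP'P p hp) n
  have h5 := mean_zero_sum D N hD1 h hper' hz _ hb
  have h6 : ((∑ n ∈ range N, ∏ p ∈ P, g p n ^ c p : ℝ) : ℂ) = ∑ n ∈ range N, h n := by
    rw [Complex.ofReal_sum]
    refine Finset.sum_congr rfl fun n _ => ?_
    rw [hPP n, Complex.ofReal_prod]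
  rw [← h6, Complex.norm_real, Real.norm_eq_abs] at h5
  refine (le_abs_self _).trans (h5.trans ?_)
  -- `D * ∏ (3/p)^c ≤ ∏ 3^c`
  have h7 : (D : ℝ) * ∏ p ∈ P', (3 / (p : ℝ)) ^ c p ≤ ∏ p ∈ P', (3 : ℝ) ^ c p := by
    rw [hD, Nat.cast_prod, ← Finset.prod_mul_distrib]
    refine Finset.prod_le_prod (fun p _ => by positivity) fun p hp => ?_
    have hp1 : (1 : ℝ) ≤ p := by exact_mod_cast (hP'p p hp).one_lt.le
    have hp0 : (0 : ℝ) < p := by linarith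
    have hcp : 1 ≤ c p := (Finset.mem_filter.1 hp).2
    rw [div_pow, ← mul_div_assoc, div_le_iff₀ (by positivity), mul_comm]
    refine mul_le_mul_of_nonneg_left ?_ (by positivity)
    calc (p : ℝ) = (p : ℝ) ^ 1 := (pow_one _).symm
      _ ≤ (p : ℝ) ^ c p := pow_le_pow_right₀ hp1 hcp
  refine h7.trans (le_of_eq ?_)
  have e1 : ∏ p ∈ P, (3 : ℝ) ^ c p = ∏ p ∈ P', (3 : ℝ) ^ c p := by
    rw [hP', Finset.prod_filter]
    refine Finset.prod_congr rfl fun p _ => ?_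
    by_cases h : 1 ≤ c p
    · rw [if_pos h]
    · rw [if_neg h, show c p = 0 by omega, pow_zero]
  rw [← e1, ← prod_exp P f hf (fun _ => (3 : ℝ))]
  refine Finset.prod_congr rfl fun i _ => ?_
  rw [Finset.prod_const]

/-- The sum over the tuples of sets. -/
theorem sum_sf (P : Finset ℕ) (k z : ℕ) (hz : 2 ≤ z) (hP : ∀ p ∈ P, z < p)
    (hk : (k : ℝ) ^ 10 ≤ z) :
    ∑ S ∈ Fintype.piFinset (fun _ : Fin (2 * k) => P.powerset),
      ∏ p ∈ P, (if (univ.filter fun i => p ∈ S i).card ≠ 1 then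
        (3 * (p : ℝ) ^ (-(3 / 5 : ℝ))) ^ (univ.filter fun i => p ∈ S i).card else 0) ≤
      Real.exp 4000 := by
  rw [tensor P (fun p I => if I.card ≠ 1 then (3 * (p : ℝ) ^ (-(3 / 5 : ℝ))) ^ I.card else 0)]
  refine le_trans (le_of_eq ?_) (sf_bound P k z hz hP hk)
  refine Finset.prod_congr rfl fun p _ => ?_
  have h := Finset.sum_powerset_apply_card
    (fun e => if e ≠ 1 then (3 * (p : ℝ) ^ (-(3 / 5 : ℝ))) ^ e else 0)
    (x := (univ : Finset (Fin (2 * k))))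
  rw [Finset.powerset_univ, Finset.card_univ, Fintype.card_fin] at h
  rw [h, Finset.sum_filter]
  refine Finset.sum_congr rfl fun e _ => ?_
  by_cases he : e ≠ 1
  · rw [if_pos he, if_pos he, nsmul_eq_mul]
  · rw [if_neg he, if_neg he, smul_zero]

end MomAux

theorem moment (g : ℕ → ℕ → ℝ) (P : Finset ℕ) (k z Y N : ℕ) (hz : 2 ≤ z) (hP : ∀ p ∈ P, p.Prime ∧ z < p)
    (hper : ∀ p ∈ P, ∀ n, g p (n + p) = g p n) (hmean : ∀ p ∈ P, ∑ n ∈ range p, g p n = 0)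
    (hg : ∀ p ∈ P, ∀ n, |g p n| ≤ 3 / (p : ℝ)) (hk : (k : ℝ) ^ 10 ≤ z) (hY : 1 ≤ Y)
    (SS : Finset (Finset ℕ)) (hS : ∀ S ∈ SS, S ⊆ P ∧ Y < 2 * ∏ p ∈ S, p ∧ ∏ p ∈ S, p ≤ Y) :
    ∑ n ∈ range N, (∑ S ∈ SS, ∏ p ∈ S, g p n) ^ (2 * k) ≤
      N * ((Y : ℝ) / 2) ^ (-(4 / 5 * (k : ℝ))) * Real.exp 4000 + (∑ S ∈ SS, (3 : ℝ) ^ S.card) ^ (2 * k) := by
  classical
  have hY0 : (0 : ℝ) < (Y : ℝ) / 2 := by
    have : (0 : ℝ) < Y := by exact_mod_cast hY
    linarith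
  have hYk : (0 : ℝ) ≤ ((Y : ℝ) / 2) ^ (-(4 / 5 * (k : ℝ))) := by positivity
  set W : (Fin (2 * k) → Finset ℕ) → ℝ := fun f =>
    ∏ p ∈ P, (if (univ.filter fun i => p ∈ f i).card ≠ 1 then
      (3 * (p : ℝ) ^ (-(3 / 5 : ℝ))) ^ (univ.filter fun i => p ∈ f i).card else 0) with hW
  have hW0 : ∀ f, 0 ≤ W f := by
    intro f
    rw [hW]
    refine Finset.prod_nonneg fun p _ => ?_
    split_ifs
    · positivity
    · exact le_rfl
  have hexp : ∀ n, (∑ S ∈ SS, ∏ p ∈ S, g p n) ^ (2 * k) =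
      ∑ f ∈ Fintype.piFinset (fun _ : Fin (2 * k) => SS), ∏ i, ∏ p ∈ f i, g p n := by
    intro n
    have h1 := Finset.prod_univ_sum (fun _ : Fin (2 * k) => SS)
      (fun _ S => ∏ p ∈ S, g p n)
    rw [← h1, Finset.prod_const, Finset.card_univ, Fintype.card_fin]
  have hexp3 : (∑ S ∈ SS, (3 : ℝ) ^ S.card) ^ (2 * k) =
      ∑ f ∈ Fintype.piFinset (fun _ : Fin (2 * k) => SS), ∏ i, (3 : ℝ) ^ (f i).card := by
    have h1 := Finset.prod_univ_sum (fun _ : Fin (2 * k) => SS)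
      (fun _ S => (3 : ℝ) ^ S.card)
    rw [← h1, Finset.prod_const, Finset.card_univ, Fintype.card_fin]
  have hterm : ∀ f ∈ Fintype.piFinset (fun _ : Fin (2 * k) => SS),
      ∑ n ∈ range N, ∏ i, ∏ p ∈ f i, g p n ≤
        N * ((Y : ℝ) / 2) ^ (-(4 / 5 * (k : ℝ))) * W f + ∏ i, (3 : ℝ) ^ (f i).card := by
    intro f hf
    have hf' : ∀ i, f i ∈ SS := Fintype.mem_piFinset.1 hf
    have e : ∀ n, ∏ i, ∏ p ∈ f i, g p n =
        ∏ p ∈ P, g p n ^ (univ.filter fun i => p ∈ f i).card :=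
      fun n => MomAux.prod_exp P f (fun i => (hS _ (hf' i)).1) (fun p => g p n)
    rw [Finset.sum_congr rfl fun n _ => e n]
    by_cases hone : ∃ q ∈ P, (univ.filter fun i => q ∈ f i).card = 1
    · have h1 := MomAux.one_case g P (2 * k) N (fun p hp => (hP p hp).1) hper hmean hg f
        (fun i => (hS _ (hf' i)).1) hone
      have h2 : 0 ≤ (N : ℝ) * ((Y : ℝ) / 2) ^ (-(4 / 5 * (k : ℝ))) * W f :=
        mul_nonneg (mul_nonneg (Nat.cast_nonneg _) hYk) (hW0 f)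
      linarith
    · push Not at hone
      have hWf : W f = ∏ p ∈ P, (3 * (p : ℝ) ^ (-(3 / 5 : ℝ))) ^
          (univ.filter fun i => p ∈ f i).card := by
        rw [hW]
        exact Finset.prod_congr rfl fun p hp => if_pos (hone p hp)
      have h1 : ∑ n ∈ range N, ∏ p ∈ P, g p n ^ (univ.filter fun i => p ∈ f i).card ≤
          ∑ n ∈ range N, ((Y : ℝ) / 2) ^ (-(4 / 5 * (k : ℝ))) * W f := by
        refine Finset.sum_le_sum fun n _ => ?_
        rw [hWf]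
        refine (le_abs_self _).trans ?_
        refine (MomAux.abs_term P (fun p => g p n) _ fun p hp => hg p hp n).trans ?_
        exact MomAux.sf_case P k Y (fun p hp => (hP p hp).1) hY f
          (fun i => ⟨(hS _ (hf' i)).1, (hS _ (hf' i)).2.1⟩)
      rw [Finset.sum_const, Finset.card_range, nsmul_eq_mul] at h1
      have h2 : (0 : ℝ) ≤ ∏ i, (3 : ℝ) ^ (f i).card := by positivity
      linarith
  have hsf := MomAux.sum_sf P k z hz (fun p hp => (hP p hp).2) hk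
  have hsub : Fintype.piFinset (fun _ : Fin (2 * k) => SS) ⊆
      Fintype.piFinset (fun _ : Fin (2 * k) => P.powerset) := by
    intro f hf
    rw [Fintype.mem_piFinset] at hf ⊢
    intro i
    exact Finset.mem_powerset.2 (hS _ (hf i)).1
  calc ∑ n ∈ range N, (∑ S ∈ SS, ∏ p ∈ S, g p n) ^ (2 * k)
      = ∑ n ∈ range N, ∑ f ∈ Fintype.piFinset (fun _ : Fin (2 * k) => SS),
          ∏ i, ∏ p ∈ f i, g p n := Finset.sum_congr rfl fun n _ => hexp n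
    _ = ∑ f ∈ Fintype.piFinset (fun _ : Fin (2 * k) => SS),
          ∑ n ∈ range N, ∏ i, ∏ p ∈ f i, g p n := Finset.sum_comm
    _ ≤ ∑ f ∈ Fintype.piFinset (fun _ : Fin (2 * k) => SS),
          (N * ((Y : ℝ) / 2) ^ (-(4 / 5 * (k : ℝ))) * W f + ∏ i, (3 : ℝ) ^ (f i).card) :=
        Finset.sum_le_sum hterm
    _ = N * ((Y : ℝ) / 2) ^ (-(4 / 5 * (k : ℝ))) *
          ∑ f ∈ Fintype.piFinset (fun _ : Fin (2 * k) => SS), W f +
          (∑ S ∈ SS, (3 : ℝ) ^ S.card) ^ (2 * k) := by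
        rw [Finset.sum_add_distrib, ← Finset.mul_sum, hexp3]
    _ ≤ N * ((Y : ℝ) / 2) ^ (-(4 / 5 * (k : ℝ))) * Real.exp 4000 +
          (∑ S ∈ SS, (3 : ℝ) ^ S.card) ^ (2 * k) := by
        refine add_le_add ?_ le_rfl
        refine mul_le_mul_of_nonneg_left ?_ (mul_nonneg (Nat.cast_nonneg _) hYk)
        exact (Finset.sum_le_sum_of_subset_of_nonneg hsub fun f _ _ => hW0 f).trans hsf

end Pool.Agent.Lib.TSP
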