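import Pool.Agent.Lib.TSP.Rgh

/-!
# TSP.Rou: absolute sums over rough numbers (1.5 h)
`z = zp A0 N ≥ (log N)^A0`, `A0 ≥ 6`, `1 ≤ n ≤ 5N + 10`.
PROOF. Every rough `r ≤ T` is `r = r₁ r₂`, coprime, `r₁` squarefree, `r₂` squareful (all exponents `≥ 2`), and `a(r₂) ≠ 0` only if every prime of `r₂` divides `n` (`ndvd`), exponents `≤ 4` (`zero`).
`∑_{r₁ ≤ T squarefree} |a r₁| ≤ ∑ 3^{ω(r₁)}/r₁ ≤ (∑_{k ≤ T} 1/k)³ ≤ (1 + log N)³` (`3^{ω(r)} ≤ #{(d₁,d₂,d₃) : d₁d₂d₃ = r}`).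
`∑_{r₂} |a r₂| ≤ ∏_{p ∣ n, p > z} (1 + 9/p) ≤ exp(9 k/z)`, `k = #{p ∣ n : p > z} ≤ log(5N+10)/log 2 ≤ 2 log N`: at most `2`. So `rou_abs`. `rou_sq`: the non-squarefree `r` have `r₂ > 1`:
`∑_{r₂ > 1} |a r₂| ≤ exp(18 log N/z) - 1 ≤ 36 log N/z ≤ 36 (log N)^(-5)`, times `(1 + log N)³`: `≤ 1/8` for large `N`.
(Alternative for `rou_sq`: choose `p` with `p² ∣ r`: `r = p^j r'`, `2 ≤ j ≤ 4`, `p ∣ n`: `∑ ≤ (k · 9/z) · rou_abs`.)
-/

set_option autoImplicit false

open Finset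

namespace Pool.Agent.Lib.TSP

namespace RouAux

theorem a_prod {a : ℕ → ℝ} {n : ℕ} (h : Good a n) (P : Finset ℕ) (hP : ∀ p ∈ P, p.Prime)
    (k : ℕ → ℕ) : a (∏ p ∈ P, p ^ k p) = ∏ p ∈ P, a (p ^ k p) := by
  classical
  induction P using Finset.induction_on with
  | empty => simpa using h.one
  | insert p P hp ih =>
    rw [Finset.prod_insert hp, Finset.prod_insert hp, h.mul,
      ih (fun q hq => hP q (mem_insert_of_mem hq))]
    refine Nat.Coprime.prod_right fun q hq => ?_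
    refine Nat.Coprime.pow _ _ ?_
    exact (Nat.coprime_primes (hP p (mem_insert_self _ _)) (hP q (mem_insert_of_mem hq))).2
      (fun e => hp (e ▸ hq))

/-- the part of `r` coprime to `n` -/
def sp (n r : ℕ) : ℕ := ∏ p ∈ r.primeFactors.filter (fun p => ¬ p ∣ n), p ^ r.factorization p

/-- the part of `r` composed of primes dividing `n` -/
def tp (n r : ℕ) : ℕ := ∏ p ∈ r.primeFactors.filter (fun p => p ∣ n), p ^ r.factorization p

theorem sp_mul_tp {n r : ℕ} (hr : r ≠ 0) : sp n r * tp n r = r := by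
  unfold sp tp
  rw [mul_comm, Finset.prod_filter_mul_prod_filter_not]
  have h := Nat.prod_factorization_pow_eq_self hr
  rw [Finsupp.prod, Nat.support_factorization] at h
  exact h

theorem cop (n r : ℕ) : Nat.Coprime (sp n r) (tp n r) := by
  refine Nat.Coprime.prod_left fun p hp => Nat.Coprime.prod_right fun q hq =>
    Nat.Coprime.pow _ _ ?_
  obtain ⟨hp1, hp2⟩ := Finset.mem_filter.1 hp
  obtain ⟨hq1, hq2⟩ := Finset.mem_filter.1 hq
  exact (Nat.coprime_primes (Nat.prime_of_mem_primeFactors hp1)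
    (Nat.prime_of_mem_primeFactors hq1)).2 (fun e => hp2 (e ▸ hq2))

theorem a_split {a : ℕ → ℝ} {n r : ℕ} (h : Good a n) (hr : r ≠ 0) :
    a r = a (sp n r) * a (tp n r) := by
  rw [← h.mul _ _ (cop n r), sp_mul_tp hr]

theorem mem_of_dvd_sp {n r p : ℕ} (hp : p.Prime) (hd : p ∣ sp n r) :
    p ∈ r.primeFactors.filter (fun p => ¬ p ∣ n) := by
  obtain ⟨q, hq, hq2⟩ := (Prime.dvd_finset_prod_iff hp.prime _).1 hd
  have h1 : p = q := (Nat.prime_dvd_prime_iff_eq hp
    (Nat.prime_of_mem_primeFactors (Finset.mem_filter.1 hq).1)).1 (hp.dvd_of_dvd_pow hq2)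
  rw [h1]
  exact hq

theorem mem_of_dvd_tp {n r p : ℕ} (hp : p.Prime) (hd : p ∣ tp n r) :
    p ∈ r.primeFactors.filter (fun p => p ∣ n) := by
  obtain ⟨q, hq, hq2⟩ := (Prime.dvd_finset_prod_iff hp.prime _).1 hd
  have h1 : p = q := (Nat.prime_dvd_prime_iff_eq hp
    (Nat.prime_of_mem_primeFactors (Finset.mem_filter.1 hq).1)).1 (hp.dvd_of_dvd_pow hq2)
  rw [h1]
  exact hq

theorem sp_sqf {a : ℕ → ℝ} {n r : ℕ} (h : Good a n) (hr : r ≠ 0) (ha : a r ≠ 0) :
    Squarefree (sp n r) := by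
  rw [Nat.squarefree_iff_prime_squarefree]
  intro p hp hd
  have h1 := mem_of_dvd_sp hp ((dvd_mul_right p p).trans hd)
  have h2 : p ^ 2 ∣ r := by
    rw [pow_two]
    exact hd.trans ⟨tp n r, (sp_mul_tp hr).symm⟩
  have h3 : 2 ≤ r.factorization p := (hp.pow_dvd_iff_le_factorization hr).1 h2
  apply ha
  rw [a_split h hr]
  have h4 : a (sp n r) = 0 := by
    unfold sp
    rw [a_prod h _ (fun q hq => Nat.prime_of_mem_primeFactors (Finset.mem_filter.1 hq).1)]
    exact Finset.prod_eq_zero h1 (h.ndvd p hp (Finset.mem_filter.1 h1).2 _ h3)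
  rw [h4, zero_mul]

theorem abs_sqf {a : ℕ → ℝ} {n s : ℕ} (h : Good a n) (hs : Squarefree s) :
    |a s| ≤ (3 : ℝ) ^ s.primeFactors.card / s := by
  have e : ∏ p ∈ s.primeFactors, p ^ 1 = s := by
    simp [Nat.prod_primeFactors_of_squarefree hs]
  have h1 := a_prod h s.primeFactors (fun p hp => Nat.prime_of_mem_primeFactors hp) (fun _ => 1)
  rw [e] at h1
  rw [h1, Finset.abs_prod]
  calc ∏ p ∈ s.primeFactors, |a (p ^ 1)| ≤ ∏ p ∈ s.primeFactors, (3 / (p : ℝ)) :=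
        Finset.prod_le_prod (fun _ _ => abs_nonneg _)
          (fun p hp => h.le p (Nat.prime_of_mem_primeFactors hp) 1 le_rfl)
    _ = (3 : ℝ) ^ s.primeFactors.card / ∏ p ∈ s.primeFactors, (p : ℝ) := by
        rw [Finset.prod_div_distrib, Finset.prod_const]
    _ = (3 : ℝ) ^ s.primeFactors.card / s := by
        rw [← Nat.cast_prod, Nat.prod_primeFactors_of_squarefree hs]

theorem S_sum (T : ℕ) : ∑ s ∈ (Icc 1 T).filter Squarefree, (3 : ℝ) ^ s.primeFactors.card / s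
    ≤ (∑ k ∈ Icc 1 T, 1 / (k : ℝ)) ^ 3 := by
  classical
  have h1 : (∑ k ∈ Icc 1 T, 1 / (k : ℝ)) ^ 3
      = ∑ f ∈ Fintype.piFinset (fun _ : Fin 3 => Icc 1 T), ∏ i, 1 / (f i : ℝ) := by
    have := Finset.prod_univ_sum (fun _ : Fin 3 => Icc 1 T) (fun _ k => 1 / (k : ℝ))
    rw [← this, Finset.prod_const, Finset.card_univ, Fintype.card_fin]
  have h2 : ∀ s ∈ (Icc 1 T).filter Squarefree, (3 : ℝ) ^ s.primeFactors.card / s
      = ∑ f ∈ Nat.finMulAntidiag 3 s, ∏ i, 1 / (f i : ℝ) := by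
    intro s hs
    have hsq := (Finset.mem_filter.1 hs).2
    have h3 : ∀ f ∈ Nat.finMulAntidiag 3 s, ∏ i, 1 / (f i : ℝ) = 1 / (s : ℝ) := by
      intro f hf
      rw [Finset.prod_div_distrib, Finset.prod_const_one, ← Nat.cast_prod,
        (Nat.mem_finMulAntidiag.1 hf).1]
    rw [Finset.sum_congr rfl h3, Finset.sum_const, nsmul_eq_mul,
      Nat.card_finMulAntidiag_of_squarefree hsq, ArithmeticFunction.cardDistinctFactors_apply,
      ← List.card_toFinset]
    have h4 : s.primeFactorsList.toFinset.card = s.primeFactors.card := rfl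
    rw [h4]
    push_cast
    ring
  rw [h1, Finset.sum_congr rfl h2, ← Finset.sum_biUnion]
  · refine Finset.sum_le_sum_of_subset_of_nonneg ?_ ?_
    · intro f hf
      obtain ⟨s, hs, hf2⟩ := Finset.mem_biUnion.1 hf
      rw [Fintype.mem_piFinset]
      intro i
      have hd := Nat.dvd_of_mem_finMulAntidiag hf2 i
      have h0 := Nat.ne_zero_of_mem_finMulAntidiag hf2 i
      obtain ⟨h5, h6⟩ := Finset.mem_Icc.1 (Finset.mem_filter.1 hs).1
      rw [Finset.mem_Icc]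
      exact ⟨Nat.one_le_iff_ne_zero.2 h0, (Nat.le_of_dvd h5 hd).trans h6⟩
    · intro f _ _
      exact Finset.prod_nonneg fun i _ => by positivity
  · intro s _ s' _ hne
    rw [Function.onFun, Finset.disjoint_left]
    intro f hf hf'
    exact hne ((Nat.mem_finMulAntidiag.1 hf).1.symm.trans (Nat.mem_finMulAntidiag.1 hf').1)

theorem harm (T : ℕ) : ∑ k ∈ Icc 1 T, 1 / (k : ℝ) ≤ 1 + Real.log T := by
  have h := harmonic_le_one_add_log T
  rw [harmonic_eq_sum_Icc] at h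
  push_cast at h
  simpa [one_div] using h

theorem tsum_le {a : ℕ → ℝ} {n p z : ℕ} (h : Good a n) (hp : p.Prime) (hz : 0 < z) (hzp : z < p) :
    ∑' j : ℕ, |a (p ^ j)| ≤ Real.exp (12 / z) := by
  have h1 : ∑' j : ℕ, |a (p ^ j)| = ∑ j ∈ range 5, |a (p ^ j)| := by
    refine tsum_eq_sum fun j hj => ?_
    rw [Finset.mem_range, not_lt] at hj
    rw [h.zero p hp j hj, abs_zero]
  have hpz : (3 : ℝ) / p ≤ 3 / z := by
    apply div_le_div_of_nonneg_left (by norm_num) (by exact_mod_cast hz)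
    exact_mod_cast hzp.le
  have h2 : ∀ j, 1 ≤ j → |a (p ^ j)| ≤ 3 / z := fun j hj => (h.le p hp j hj).trans hpz
  rw [h1, Finset.sum_range_succ, Finset.sum_range_succ, Finset.sum_range_succ,
    Finset.sum_range_succ, Finset.sum_range_one, pow_zero, h.one, abs_one]
  have h3 := Real.add_one_le_exp (12 / (z : ℝ))
  have e : (12 : ℝ) / z = 3 / z + 3 / z + 3 / z + 3 / z := by ring
  linarith [h2 1 le_rfl, h2 2 (by norm_num), h2 3 (by norm_num), h2 4 (by norm_num)]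

theorem T_sum {a : ℕ → ℝ} {n z : ℕ} (h : Good a n) (hz : 0 < z) (P : Finset ℕ)
    (hP : ∀ p ∈ P, p.Prime ∧ z < p) (W : Finset ℕ)
    (hW : ∀ t ∈ W, ∀ p, p.Prime → p ∣ t → p ∈ P) :
    ∑ t ∈ W, |a t| ≤ Real.exp (12 * P.card / z) := by
  have hs := (EulerProduct.summable_and_hasSum_factoredNumbers_prod_filter_prime_tsum
    (f := fun m => |a m|) (by simp [h.one])
    (fun {m k} hmk => by rw [h.mul m k hmk, abs_mul])
    (fun {p} hp => by
      refine summable_of_ne_finset_zero (s := range 5) fun j hj => ?_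
      rw [Finset.mem_range, not_lt] at hj
      rw [h.zero p hp j hj, abs_zero, norm_zero]) P).2
  have hs' : HasSum (Set.indicator (Nat.factoredNumbers P) (fun m => |a m|))
      (∏ p ∈ P with p.Prime, ∑' j : ℕ, |a (p ^ j)|) := hasSum_subtype_iff_indicator.1 hs
  have h1 := sum_le_hasSum W (fun i _ => Set.indicator_nonneg (fun x _ => abs_nonneg (a x)) i) hs'
  have h2 : ∑ t ∈ W, |a t| = ∑ t ∈ W, Set.indicator (Nat.factoredNumbers P) (fun m => |a m|) t := by
    refine Finset.sum_congr rfl fun t ht => ?_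
    rw [Set.indicator_of_mem]
    exact Nat.mem_factoredNumbers'.2 (hW t ht)
  rw [h2]
  refine h1.trans ?_
  have h3 : P.filter Nat.Prime = P := Finset.filter_true_of_mem fun p hp => (hP p hp).1
  rw [h3]
  calc ∏ p ∈ P, ∑' j : ℕ, |a (p ^ j)| ≤ ∏ _p ∈ P, Real.exp (12 / z) :=
        Finset.prod_le_prod (fun p _ => tsum_nonneg fun j => abs_nonneg _)
          (fun p hp => tsum_le h (hP p hp).1 hz (hP p hp).2)
    _ = Real.exp (12 * P.card / z) := by
        rw [Finset.prod_const, ← Real.exp_nat_mul]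
        congr 1
        ring

theorem two_sum {a : ℕ → ℝ} {n T : ℕ} (h : Good a n) (R' : Finset ℕ)
    (hR : ∀ r ∈ R', 1 ≤ r ∧ r ≤ T) :
    ∑ r ∈ R', |a r| ≤ (∑ s ∈ (Icc 1 T).filter Squarefree, |a s|) *
      ∑ t ∈ (R'.filter (fun r => a r ≠ 0)).image (tp n), |a t| := by
  classical
  set R'' := R'.filter (fun r => a r ≠ 0) with hR''
  have h1 : ∑ r ∈ R', |a r| = ∑ r ∈ R'', |a r| := by
    rw [hR'', Finset.sum_filter]
    refine Finset.sum_congr rfl fun r _ => ?_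
    by_cases h0 : a r = 0
    · rw [if_neg (fun h2 => h2 h0), h0, abs_zero]
    · rw [if_pos h0]
  have hne : ∀ r ∈ R'', r ≠ 0 := fun r hr =>
    (Nat.one_le_iff_ne_zero.1 (hR r (Finset.mem_filter.1 hr).1).1)
  have h2 : ∑ r ∈ R'', |a r| = ∑ r ∈ R'', |a (sp n r)| * |a (tp n r)| := by
    refine Finset.sum_congr rfl fun r hr => ?_
    rw [← abs_mul, ← a_split h (hne r hr)]
  have h3 : ∑ r ∈ R'', |a (sp n r)| * |a (tp n r)|
      = ∑ x ∈ R''.image (fun r => (sp n r, tp n r)), |a x.1| * |a x.2| := by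
    rw [Finset.sum_image]
    intro r hr r' hr' he
    have h4 : (sp n r, tp n r) = (sp n r', tp n r') := he
    rw [← sp_mul_tp (n := n) (hne r hr), ← sp_mul_tp (n := n) (hne r' hr'),
      (Prod.mk.inj h4).1, (Prod.mk.inj h4).2]
  rw [h1, h2, h3, Finset.sum_mul_sum, ← Finset.sum_product']
  refine Finset.sum_le_sum_of_subset_of_nonneg ?_ ?_
  · intro x hx
    obtain ⟨r, hr, rfl⟩ := Finset.mem_image.1 hx
    obtain ⟨hr1, hr2⟩ := Finset.mem_filter.1 hr
    obtain ⟨h5, h6⟩ := hR r hr1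
    refine Finset.mem_product.2 ⟨?_, Finset.mem_image_of_mem _ hr⟩
    have hd : sp n r ∣ r := ⟨tp n r, (sp_mul_tp (hne r hr)).symm⟩
    refine Finset.mem_filter.2 ⟨Finset.mem_Icc.2 ⟨Nat.pos_of_dvd_of_pos hd h5,
      (Nat.le_of_dvd h5 hd).trans h6⟩, sp_sqf h (hne r hr) hr2⟩
  · intro x _ _
    positivity

theorem card_le {n z : ℕ} (hn : 1 ≤ n) (hz : 3 ≤ z) :
    ((n.primeFactors.filter (fun p => z < p)).card : ℝ) ≤ Real.log n := by
  have hn0 : (0 : ℝ) < n := by exact_mod_cast hn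
  rw [Real.le_log_iff_exp_le hn0]
  have h1 : Real.exp ((n.primeFactors.filter (fun p => z < p)).card : ℝ)
      = (Real.exp 1) ^ (n.primeFactors.filter (fun p => z < p)).card := by
    rw [← Real.exp_nat_mul, mul_one]
  have h2 : Real.exp 1 ≤ 3 := by
    have := Real.exp_one_lt_d9
    linarith
  calc Real.exp ((n.primeFactors.filter (fun p => z < p)).card : ℝ)
      = (Real.exp 1) ^ (n.primeFactors.filter (fun p => z < p)).card := h1
    _ ≤ (3 : ℝ) ^ (n.primeFactors.filter (fun p => z < p)).card :=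
        pow_le_pow_left₀ (Real.exp_pos 1).le h2 _
    _ = ∏ _p ∈ n.primeFactors.filter (fun p => z < p), (3 : ℝ) := by rw [Finset.prod_const]
    _ ≤ ∏ p ∈ n.primeFactors.filter (fun p => z < p), (p : ℝ) := by
        refine Finset.prod_le_prod (fun _ _ => by norm_num) fun p hp => ?_
        have := (Finset.mem_filter.1 hp).2
        exact_mod_cast (by omega : 3 ≤ p)
    _ ≤ ∏ p ∈ n.primeFactors, (p : ℝ) := by
        refine Finset.prod_le_prod_of_subset_of_one_le (Finset.filter_subset _ _)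
          (fun _ _ => by positivity) fun p hp _ => ?_
        exact_mod_cast (Nat.prime_of_mem_primeFactors hp).one_le
    _ ≤ n := by
        rw [← Nat.cast_prod]
        exact_mod_cast Nat.le_of_dvd hn (Nat.prod_primeFactors_dvd n)

/-- the two bounds -/
theorem core {a : ℕ → ℝ} {n T z : ℕ} (h : Good a n) (hn : 1 ≤ n) (hz : 3 ≤ z) (hT : 1 ≤ T) :
    ∑ r ∈ Rset z T, |a r| ≤ (1 + Real.log T) ^ 3 * Real.exp (12 * Real.log n / z) ∧
    ∑ r ∈ (Rset z T).filter (fun r => ¬ Squarefree r), |a r|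
      ≤ (1 + Real.log T) ^ 3 * (Real.exp (12 * Real.log n / z) - 1) := by
  classical
  have hz0 : (0 : ℝ) < z := by exact_mod_cast (by omega : 0 < z)
  set P := n.primeFactors.filter (fun p => z < p) with hP
  have hPp : ∀ p ∈ P, p.Prime ∧ z < p := fun p hp =>
    ⟨Nat.prime_of_mem_primeFactors (Finset.mem_filter.1 hp).1, (Finset.mem_filter.1 hp).2⟩
  have hexp : Real.exp (12 * P.card / z) ≤ Real.exp (12 * Real.log n / z) := by
    apply Real.exp_le_exp.2
    have := card_le hn hz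
    gcongr
  have hS : ∑ s ∈ (Icc 1 T).filter Squarefree, |a s| ≤ (1 + Real.log T) ^ 3 := by
    calc ∑ s ∈ (Icc 1 T).filter Squarefree, |a s|
        ≤ ∑ s ∈ (Icc 1 T).filter Squarefree, (3 : ℝ) ^ s.primeFactors.card / s :=
          Finset.sum_le_sum fun s hs => abs_sqf h (Finset.mem_filter.1 hs).2
      _ ≤ (∑ k ∈ Icc 1 T, 1 / (k : ℝ)) ^ 3 := S_sum T
      _ ≤ (1 + Real.log T) ^ 3 :=
          pow_le_pow_left₀ (Finset.sum_nonneg fun _ _ => by positivity) (harm T) 3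
  have hlog : 0 ≤ (1 + Real.log T) ^ 3 := by
    have : 0 ≤ Real.log T := Real.log_nonneg (by exact_mod_cast hT)
    positivity
  have hmem : ∀ r ∈ Rset z T, (1 ≤ r ∧ r ≤ T) ∧ ∀ p ∈ r.primeFactors, z < p := by
    intro r hr
    obtain ⟨h1, h2⟩ := Finset.mem_filter.1 hr
    exact ⟨Finset.mem_Icc.1 h1, h2⟩
  have hW : ∀ R' : Finset ℕ, R' ⊆ Rset z T → ∀ t ∈ (R'.filter (fun r => a r ≠ 0)).image (tp n),
      ∀ p, p.Prime → p ∣ t → p ∈ P := by
    intro R' hR' t ht p hp hd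
    obtain ⟨r, hr, rfl⟩ := Finset.mem_image.1 ht
    have h1 := mem_of_dvd_tp hp hd
    obtain ⟨h2, h3⟩ := Finset.mem_filter.1 h1
    have h4 := (hmem r (hR' (Finset.mem_filter.1 hr).1)).2 p h2
    exact Finset.mem_filter.2 ⟨Nat.mem_primeFactors.2 ⟨hp, h3, by omega⟩, h4⟩
  refine ⟨?_, ?_⟩
  · have h1 := two_sum (T := T) h (Rset z T) (fun r hr => (hmem r hr).1)
    refine h1.trans ?_
    have h2 := T_sum h (by omega : 0 < z) P hPp _ (hW (Rset z T) (Finset.Subset.refl _))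
    exact mul_le_mul hS (h2.trans hexp) (Finset.sum_nonneg fun _ _ => abs_nonneg _) hlog
  · set R' := (Rset z T).filter (fun r => ¬ Squarefree r) with hR'
    have hsub : R' ⊆ Rset z T := Finset.filter_subset _ _
    have h1 := two_sum (T := T) h R' (fun r hr => (hmem r (hsub hr)).1)
    refine h1.trans ?_
    set W := (R'.filter (fun r => a r ≠ 0)).image (tp n) with hWdef
    have hnot : 1 ∉ W := by
      intro h2
      obtain ⟨r, hr, h3⟩ := Finset.mem_image.1 h2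
      obtain ⟨hr1, hr2⟩ := Finset.mem_filter.1 hr
      have hr0 : r ≠ 0 := Nat.one_le_iff_ne_zero.1 (hmem r (hsub hr1)).1.1
      apply (Finset.mem_filter.1 hr1).2
      rw [← sp_mul_tp (n := n) hr0, h3, mul_one]
      exact sp_sqf h hr0 hr2
    have h2 := T_sum h (by omega : 0 < z) P hPp (insert 1 W) (by
      intro t ht p hp hd
      rcases Finset.mem_insert.1 ht with rfl | ht
      · exact absurd (Nat.dvd_one.1 hd) hp.ne_one
      · exact hW R' hsub t ht p hp hd)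
    rw [Finset.sum_insert hnot, h.one, abs_one] at h2
    exact mul_le_mul hS (by linarith) (Finset.sum_nonneg fun _ _ => abs_nonneg _) hlog

/-- the numbers -/
theorem nums {A0 N n : ℕ} (hA : 6 ≤ A0) (hN : ⌈Real.exp 56⌉₊ ≤ N) (hn : 1 ≤ n)
    (hn2 : n ≤ 5 * N + 10) : 56 ≤ Real.log N ∧ 3 ≤ zp A0 N ∧
      0 ≤ 12 * Real.log n / (zp A0 N : ℝ) ∧
      12 * Real.log n / (zp A0 N : ℝ) ≤ 24 / Real.log N ^ 5 := by
  have h1 : Real.exp 56 ≤ N := Nat.ceil_le.1 hN
  have hN0 : (0 : ℝ) < N := (Real.exp_pos 56).trans_le h1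
  have hL : 56 ≤ Real.log N := (Real.le_log_iff_exp_le hN0).2 h1
  have hz : Real.log N ^ 6 ≤ (zp A0 N : ℝ) := by
    calc Real.log N ^ 6 ≤ Real.log N ^ A0 := pow_le_pow_right₀ (by linarith) hA
      _ ≤ (zp A0 N : ℝ) := Nat.le_ceil _
  have hL6 : (0 : ℝ) < Real.log N ^ 6 := by positivity
  have hz0 : (0 : ℝ) < (zp A0 N : ℝ) := hL6.trans_le hz
  have hz3 : 3 ≤ zp A0 N := by
    have h2 : (3 : ℝ) ≤ Real.log N ^ 6 := by
      calc (3 : ℝ) ≤ 56 ^ 6 := by norm_num
        _ ≤ Real.log N ^ 6 := pow_le_pow_left₀ (by norm_num) hL 6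
    exact_mod_cast h2.trans hz
  have hlogn : 0 ≤ Real.log n := Real.log_nonneg (by exact_mod_cast hn)
  have hN7 : 7 ≤ N := by
    have h3 : (7 : ℝ) ≤ N := by
      have := Real.add_one_le_exp (56 : ℝ)
      linarith
    exact_mod_cast h3
  have hlog2 : Real.log n ≤ 2 * Real.log N := by
    have h4 : n ≤ N ^ 2 := by nlinarith
    have h5 : Real.log n ≤ Real.log ((N : ℝ) ^ 2) := by
      apply Real.log_le_log (by exact_mod_cast hn)
      exact_mod_cast h4
    rwa [Real.log_pow, Nat.cast_ofNat] at h5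
  refine ⟨hL, hz3, by positivity, ?_⟩
  calc 12 * Real.log n / (zp A0 N : ℝ) ≤ 12 * (2 * Real.log N) / Real.log N ^ 6 := by
        apply div_le_div₀ (by positivity) (by linarith) hL6 hz
    _ = 24 / Real.log N ^ 5 := by
        have : Real.log N ≠ 0 := by linarith
        field_simp
        ring

theorem exp_le {x : ℝ} (h0 : 0 ≤ x) (h1 : x ≤ 1 / 2) : Real.exp x ≤ 1 + 2 * x := by
  have h2 := Real.exp_bound_div_one_sub_of_interval h0 (by linarith)
  refine h2.trans ?_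
  rw [div_le_iff₀ (by linarith)]
  nlinarith

end RouAux

theorem rou_abs (A0 : ℕ) (hA : 6 ≤ A0) : ∃ N0 : ℕ, ∀ N T : ℕ, N0 ≤ N → T ≤ N → ∀ (a : ℕ → ℝ) (n : ℕ), Good a n →
    1 ≤ n → n ≤ 5 * N + 10 → ∑ r ∈ Rset (zp A0 N) T, |a r| ≤ 2 * (1 + Real.log N) ^ 3 := by
  refine ⟨⌈Real.exp 56⌉₊, fun N T hN hT a n h hn hn2 => ?_⟩
  obtain ⟨hL, hz, h0, hx⟩ := RouAux.nums hA hN hn hn2
  have hL5 : (56 : ℝ) ^ 5 ≤ Real.log N ^ 5 := pow_le_pow_left₀ (by norm_num) hL 5
  have hx2 : 12 * Real.log n / (zp A0 N : ℝ) ≤ 1 / 2 := by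
    refine hx.trans ?_
    rw [div_le_iff₀ (by positivity)]
    nlinarith
  have hpos : 0 ≤ (1 + Real.log N) ^ 3 := by positivity
  rcases Nat.eq_zero_or_pos T with hT0 | hT0
  · subst hT0
    have : Rset (zp A0 N) 0 = ∅ := by
      unfold Rset
      simp
    rw [this, Finset.sum_empty]
    linarith
  · have h1 := (RouAux.core h hn hz hT0).1
    refine h1.trans ?_
    have h2 : Real.log T ≤ Real.log N :=
      Real.log_le_log (by exact_mod_cast hT0) (by exact_mod_cast hT)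
    have h2' : 0 ≤ Real.log T := Real.log_nonneg (by exact_mod_cast hT0)
    have h3 : (1 + Real.log T) ^ 3 ≤ (1 + Real.log N) ^ 3 :=
      pow_le_pow_left₀ (by linarith) (by linarith) 3
    have h4 : Real.exp (12 * Real.log n / (zp A0 N : ℝ)) ≤ 2 := by
      have := RouAux.exp_le h0 hx2
      linarith
    calc (1 + Real.log T) ^ 3 * Real.exp (12 * Real.log n / (zp A0 N : ℝ))
        ≤ (1 + Real.log N) ^ 3 * 2 := mul_le_mul h3 h4 (Real.exp_pos _).le hpos
      _ = 2 * (1 + Real.log N) ^ 3 := by ring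

theorem rou_sq (A0 : ℕ) (hA : 6 ≤ A0) : ∃ N0 : ℕ, ∀ N T : ℕ, N0 ≤ N → T ≤ N → ∀ (a : ℕ → ℝ) (n : ℕ), Good a n →
    1 ≤ n → n ≤ 5 * N + 10 → ∑ r ∈ (Rset (zp A0 N) T).filter (fun r => ¬ Squarefree r), |a r| ≤ 1 / 8 := by
  refine ⟨⌈Real.exp 56⌉₊, fun N T hN hT a n h hn hn2 => ?_⟩
  obtain ⟨hL, hz, h0, hx⟩ := RouAux.nums hA hN hn hn2
  have hL5 : (56 : ℝ) ^ 5 ≤ Real.log N ^ 5 := pow_le_pow_left₀ (by norm_num) hL 5
  have hx2 : 12 * Real.log n / (zp A0 N : ℝ) ≤ 1 / 2 := by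
    refine hx.trans ?_
    rw [div_le_iff₀ (by positivity)]
    nlinarith
  rcases Nat.eq_zero_or_pos T with hT0 | hT0
  · subst hT0
    have : Rset (zp A0 N) 0 = ∅ := by
      unfold Rset
      simp
    rw [this, Finset.filter_empty, Finset.sum_empty]
    norm_num
  · have h1 := (RouAux.core h hn hz hT0).2
    refine h1.trans ?_
    have h2 : Real.log T ≤ Real.log N :=
      Real.log_le_log (by exact_mod_cast hT0) (by exact_mod_cast hT)
    have h2' : 0 ≤ Real.log T := Real.log_nonneg (by exact_mod_cast hT0)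
    have h3 : (1 + Real.log T) ^ 3 ≤ (2 * Real.log N) ^ 3 :=
      pow_le_pow_left₀ (by linarith) (by linarith) 3
    have h4 : Real.exp (12 * Real.log n / (zp A0 N : ℝ)) - 1 ≤ 48 / Real.log N ^ 5 := by
      have h5 := RouAux.exp_le h0 hx2
      have h6 : (48 : ℝ) / Real.log N ^ 5 = 2 * (24 / Real.log N ^ 5) := by ring
      linarith
    have h7 : 0 ≤ Real.exp (12 * Real.log n / (zp A0 N : ℝ)) - 1 := by
      have := Real.add_one_le_exp (12 * Real.log n / (zp A0 N : ℝ))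
      linarith
    have hLp : (0 : ℝ) < Real.log N := by linarith
    calc (1 + Real.log T) ^ 3 * (Real.exp (12 * Real.log n / (zp A0 N : ℝ)) - 1)
        ≤ (2 * Real.log N) ^ 3 * (48 / Real.log N ^ 5) :=
          mul_le_mul h3 h4 h7 (by positivity)
      _ = 384 / Real.log N ^ 2 := by
          field_simp
          ring
      _ ≤ 1 / 8 := by
          rw [div_le_iff₀ (by positivity)]
          nlinarith

end Pool.Agent.Lib.TSP
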