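import Pool.Agent.Lib.TSP.LocF
import Pool.Agent.Lib.TSP.Cheb

/-!
# TSP.SmoL: the product over small primes is not small (0.8 h)
PROOF. Primes `p ≤ 7`: factor `≥ 2/3` (`low3`), at most 4 of them. `p ≥ 11`: factor `≥ 1 - 3/p ≥ exp(-6/p)` (`3/p ≤ 3/11`, `1 - x ≥ exp(-2x)` on `[0, 1/2]`). `∑_{p ≤ z} 1/p ≤ ∑_{k ≤ z} 1/k ≤ 1 + log z`,
`z ≤ (log N)^A0 + 1`. So the product is `≥ (2/3)^4 exp(-6(2 + A0 log log N)) ≥ N^(-ε)` for large `N`.
-/

set_option autoImplicit false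

open Finset

namespace Pool.Agent.Lib.TSP

namespace SmoLAux

/-- the factor at a prime is at least `exp(-6/p)` -/
theorem factor_low {a : ℕ → ℝ} {n : ℕ} (ha : Good a n) {p : ℕ} (hp : p.Prime) :
    Real.exp (-(6 / (p : ℝ))) ≤ ∑ j ∈ range 5, a (p ^ j) := by
  have hp0 : (0 : ℝ) < p := by exact_mod_cast hp.pos
  by_cases h7 : p ≤ 7
  · refine le_trans ?_ (ha.low3 p hp h7)
    have h7' : (p : ℝ) ≤ 7 := by exact_mod_cast h7
    have h1 : (6 : ℝ) / 7 ≤ 6 / p := by gcongr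
    have h2 : Real.exp (-(6 / (p : ℝ))) ≤ Real.exp (-(6 / 7)) := Real.exp_le_exp.mpr (by linarith)
    refine h2.trans ?_
    have h3 : (6 : ℝ) / 7 + 1 ≤ Real.exp (6 / 7) := Real.add_one_le_exp _
    rw [Real.exp_neg]
    rw [inv_le_comm₀ (Real.exp_pos _) (by norm_num)]
    linarith
  · push Not at h7
    refine le_trans ?_ (ha.low p hp)
    have h8 : (8 : ℝ) ≤ p := by exact_mod_cast h7
    set x : ℝ := 3 / (p : ℝ) with hx
    have hx0 : 0 < x := by positivity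
    have hx1 : x ≤ 1 / 2 := by
      rw [hx, div_le_iff₀ hp0]
      linarith
    have e1 : (6 : ℝ) / p = 2 * x := by rw [hx]; ring
    rw [e1]
    have h3 : 2 * x + 1 ≤ Real.exp (2 * x) := Real.add_one_le_exp _
    have h4 : 1 ≤ (1 - x) * Real.exp (2 * x) := by
      have : 1 ≤ (1 - x) * (2 * x + 1) := by nlinarith
      refine this.trans ?_
      exact mul_le_mul_of_nonneg_left h3 (by linarith)
    rw [Real.exp_neg]
    rw [inv_le_iff_one_le_mul₀ (Real.exp_pos _)]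
    exact h4

/-- the product over the primes up to `z` -/
theorem prod_low {a : ℕ → ℝ} {n : ℕ} (ha : Good a n) (z : ℕ) :
    Real.exp (-(6 * (1 + Real.log z))) ≤ ∏ p ∈ Nat.primesLE z, ∑ j ∈ range 5, a (p ^ j) := by
  have h1 : ∏ p ∈ Nat.primesLE z, Real.exp (-(6 / (p : ℝ))) ≤
      ∏ p ∈ Nat.primesLE z, ∑ j ∈ range 5, a (p ^ j) := by
    refine prod_le_prod (fun p _ => (Real.exp_pos _).le) fun p hp => ?_
    exact factor_low ha (Nat.prime_of_mem_primesLE hp)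
  refine le_trans ?_ h1
  rw [← Real.exp_sum, Real.exp_le_exp]
  have h2 : ∑ p ∈ Nat.primesLE z, ((p : ℝ))⁻¹ ≤ ∑ k ∈ Icc 1 z, ((k : ℝ))⁻¹ := by
    refine sum_le_sum_of_subset_of_nonneg ?_ fun _ _ _ => by positivity
    intro p hp
    rw [Nat.mem_primesLE] at hp
    rw [mem_Icc]
    exact ⟨hp.2.one_lt.le, hp.1⟩
  have h3 : ∑ k ∈ Icc 1 z, ((k : ℝ))⁻¹ ≤ 1 + Real.log z := by
    have := harmonic_le_one_add_log z
    rw [harmonic_eq_sum_Icc] at this
    push_cast at this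
    exact this
  have h4 : ∑ p ∈ Nat.primesLE z, -(6 / (p : ℝ)) = -(6 * ∑ p ∈ Nat.primesLE z, ((p : ℝ))⁻¹) := by
    rw [sum_neg_distrib, mul_sum]
    simp only [div_eq_mul_inv]
  rw [h4]
  linarith

end SmoLAux

theorem smo_low (A0 : ℕ) (ε : ℝ) (hε : 0 < ε) : ∃ N0 : ℕ, ∀ N : ℕ, N0 ≤ N → ∀ (a : ℕ → ℝ) (n : ℕ), Good a n →
    (N : ℝ) ^ (-ε) ≤ ∏ p ∈ Nat.primesLE (zp A0 N), ∑ j ∈ range 5, a (p ^ j) := by
  have h1 : ∀ᶠ x : ℝ in Filter.atTop, ‖x ^ A0‖ ≤ 1 / 2 * ‖Real.exp (ε / 12 * x)‖ :=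
    (isLittleO_pow_exp_pos_mul_atTop A0 (by positivity)).bound (by norm_num)
  have h2 : ∀ᶠ x : ℝ in Filter.atTop, 12 / ε + 12 / ε * 2 ≤ x := Filter.eventually_ge_atTop _
  have h3 : ∀ᶠ N : ℕ in Filter.atTop, ‖(Real.log N) ^ A0‖ ≤ 1 / 2 * ‖Real.exp (ε / 12 * Real.log N)‖ ∧
      12 / ε + 12 / ε * 2 ≤ Real.log N :=
    (Real.tendsto_log_atTop.comp tendsto_natCast_atTop_atTop).eventually (h1.and h2)
  obtain ⟨N0, hN0⟩ := Filter.eventually_atTop.mp (h3.and (Filter.eventually_ge_atTop 1))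
  refine ⟨N0, fun N hN a n ha => ?_⟩
  obtain ⟨⟨k1, k2⟩, k3⟩ := hN0 N hN
  have hNpos : (0 : ℝ) < N := by exact_mod_cast k3
  set x := Real.log N with hx
  have hε' : 0 < 12 / ε := by positivity
  have hx0 : 0 < x := by linarith
  rw [Real.norm_of_nonneg (by positivity), Real.norm_of_nonneg (Real.exp_pos _).le] at k1
  refine le_trans ?_ (SmoLAux.prod_low ha (zp A0 N))
  rw [Real.rpow_def_of_pos hNpos, Real.exp_le_exp, ← hx]
  have hy : (2 : ℝ) ≤ Real.exp (ε / 12 * x) := by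
    have := Real.add_one_le_exp (ε / 12 * x)
    have e1 : 2 ≤ ε / 12 * x := by
      have : 12 / ε * 2 ≤ x := by linarith
      calc (2 : ℝ) = ε / 12 * (12 / ε * 2) := by field_simp
        _ ≤ _ := by gcongr
    linarith
  have hz : ((zp A0 N : ℕ) : ℝ) ≤ Real.exp (ε / 12 * x) := by
    have : ((zp A0 N : ℕ) : ℝ) < x ^ A0 + 1 := Nat.ceil_lt_add_one (by positivity)
    linarith
  have hlz : Real.log (zp A0 N) ≤ ε / 12 * x := by
    rcases Nat.eq_zero_or_pos (zp A0 N) with h0 | h0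
    · rw [h0]
      simp only [Nat.cast_zero, Real.log_zero]
      positivity
    · have : (0 : ℝ) < (zp A0 N : ℕ) := by exact_mod_cast h0
      exact (Real.log_le_iff_le_exp this).mpr hz
  have h6 : 1 ≤ ε / 12 * x := by
    have : 12 / ε ≤ x := by linarith
    calc (1 : ℝ) = ε / 12 * (12 / ε) := by field_simp
      _ ≤ _ := by gcongr
  nlinarith

end Pool.Agent.Lib.TSP
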