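import Pool.Agent.Lib.TSP.Dec
import Pool.Agent.Lib.TSP.Rou
import Pool.Agent.Lib.TSP.SmoL

/-!
# TSP.SerF: lower bound of the singular series (1 h)
PROOF. Given `ε`, choose `A1` from `rough` (with `ε`), `A0 = max A1 6`, `z = zp A0 N`, `U = ⌈N^ε⌉`. Exceptional set: the set of `rough`. For the other `n' = 4m + n1 b` with `p⁴ ∤ n'` for odd `p`: `a = A b m` is `Good` (`good`).
`∑_{r ∈ Rset} a r = 1 + (squarefree > 1) + (not squarefree) ≥ 1 - 1/4 - 1/8 ≥ 1/2` (`rou_sq`; `T ≥ 1`). `P = ∏_{p≤z} = ∑_{q ∣ Ws z} a q ≥ N^(-ε/(80 A0))` (`smo_prod`, `smo_low` with that exponent), `δ = N^(-ε/(20A0))`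
(`smo_tail` with `X = U`), `dec`: `∑_{Qs} a ≥ P/2 - N^(-ε/(20 A0)) 2(1+log N)³ ≥ N^(-ε/(80A0))/4 ≥ N^(-ε)` for large `N`.
-/

set_option autoImplicit false

open Finset

namespace Pool.Agent.Lib.TSP

namespace SerFAux

theorem asym (κ ε : ℝ) (hκ : 0 < κ) (hκε : κ < ε) : ∃ N0 : ℕ, ∀ N : ℕ, N0 ≤ N →
    (N : ℝ) ^ (-ε) ≤ (N : ℝ) ^ (-κ) / 2 - (N : ℝ) ^ (-(4 * κ)) * (2 * (1 + Real.log N) ^ 3) := by
  have h1 : ∀ᶠ x : ℝ in Filter.atTop, ‖Real.log x‖ ≤ (1 / 8) * ‖x ^ κ‖ :=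
    (isLittleO_log_rpow_atTop hκ).bound (by norm_num)
  have h2 : ∀ᶠ x : ℝ in Filter.atTop, (8 : ℝ) ≤ x ^ κ :=
    (tendsto_rpow_atTop hκ).eventually_ge_atTop 8
  have h3 : ∀ᶠ x : ℝ in Filter.atTop, (8 : ℝ) ≤ x ^ (ε - κ) :=
    (tendsto_rpow_atTop (sub_pos.2 hκε)).eventually_ge_atTop 8
  have h4 : ∀ᶠ x : ℝ in Filter.atTop, (1 : ℝ) ≤ x := Filter.eventually_ge_atTop 1
  obtain ⟨X, hX⟩ := Filter.eventually_atTop.1 (h1.and (h2.and (h3.and h4)))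
  refine ⟨⌈X⌉₊, fun N hN => ?_⟩
  have hNX : X ≤ (N : ℝ) := (Nat.le_ceil X).trans (by exact_mod_cast hN)
  obtain ⟨a1, a2, a3, a4⟩ := hX N hNX
  set x : ℝ := (N : ℝ) with hx
  have hx0 : 0 < x := lt_of_lt_of_le one_pos a4
  have hp : 0 < x ^ κ := Real.rpow_pos_of_pos hx0 _
  have hl0 : 0 ≤ Real.log x := Real.log_nonneg a4
  rw [Real.norm_of_nonneg hl0, Real.norm_of_nonneg hp.le] at a1
  have b1 : 1 + Real.log x ≤ (1 / 4) * x ^ κ := by linarith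
  have b2 : (1 + Real.log x) ^ 3 ≤ ((1 / 4) * x ^ κ) ^ 3 :=
    pow_le_pow_left₀ (by linarith) b1 3
  have e1 : x ^ (-(4 * κ)) * (x ^ κ) ^ 3 = x ^ (-κ) := by
    rw [← Real.rpow_natCast (x ^ κ) 3, ← Real.rpow_mul hx0.le, ← Real.rpow_add hx0]
    congr 1
    push_cast
    ring
  have hq : 0 < x ^ (-κ) := Real.rpow_pos_of_pos hx0 _
  have hq4 : 0 < x ^ (-(4 * κ)) := Real.rpow_pos_of_pos hx0 _
  have b3 : x ^ (-(4 * κ)) * (2 * (1 + Real.log x) ^ 3) ≤ x ^ (-κ) / 32 := by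
    calc x ^ (-(4 * κ)) * (2 * (1 + Real.log x) ^ 3)
        ≤ x ^ (-(4 * κ)) * (2 * ((1 / 4) * x ^ κ) ^ 3) := by
          apply mul_le_mul_of_nonneg_left _ hq4.le
          linarith
      _ = (x ^ (-(4 * κ)) * (x ^ κ) ^ 3) / 32 := by ring
      _ = x ^ (-κ) / 32 := by rw [e1]
  have b4 : x ^ (-ε) ≤ x ^ (-κ) / 8 := by
    have e2 : x ^ (-κ) = x ^ (-ε) * x ^ (ε - κ) := by
      rw [← Real.rpow_add hx0]
      congr 1
      ring
    have hqε : 0 < x ^ (-ε) := Real.rpow_pos_of_pos hx0 _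
    rw [e2]
    nlinarith
  linarith

theorem rset_low {a : ℕ → ℝ} (h1 : a 1 = 1) {z T : ℕ} (hT : 1 ≤ T)
    (hs : |∑ r ∈ (Rset z T).filter (fun r => 1 < r ∧ Squarefree r), a r| ≤ 1 / 4)
    (hn : ∑ r ∈ (Rset z T).filter (fun r => ¬ Squarefree r), |a r| ≤ 1 / 8) :
    1 / 2 ≤ ∑ r ∈ Rset z T, a r := by
  classical
  have e1 : ∑ r ∈ Rset z T, a r = ∑ r ∈ (Rset z T).filter (fun r => 1 < r ∧ Squarefree r), a r +
      ∑ r ∈ (Rset z T).filter (fun r => ¬ (1 < r ∧ Squarefree r)), a r :=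
    (Finset.sum_filter_add_sum_filter_not _ _ _).symm
  have e2 : (Rset z T).filter (fun r => ¬ (1 < r ∧ Squarefree r)) =
      insert 1 ((Rset z T).filter (fun r => ¬ Squarefree r)) := by
    ext r
    simp only [Finset.mem_filter, Finset.mem_insert]
    constructor
    · rintro ⟨hr, hr2⟩
      by_cases hr3 : Squarefree r
      · left
        have h1r : 1 ≤ r := (Finset.mem_Icc.1 (Finset.mem_filter.1 hr).1).1
        by_contra hne
        exact hr2 ⟨by omega, hr3⟩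
      · exact Or.inr ⟨hr, hr3⟩
    · rintro (rfl | ⟨hr, hr2⟩)
      · refine ⟨?_, fun h => absurd h.1 (lt_irrefl _)⟩
        refine Finset.mem_filter.2 ⟨Finset.mem_Icc.2 ⟨le_rfl, hT⟩, ?_⟩
        intro p hp
        simp at hp
      · exact ⟨hr, fun h => hr2 h.2⟩
  have e3 : (1 : ℕ) ∉ (Rset z T).filter (fun r => ¬ Squarefree r) := by
    intro h
    exact (Finset.mem_filter.1 h).2 squarefree_one
  rw [e1, e2, Finset.sum_insert e3, h1]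
  have h3 := (Finset.abs_sum_le_sum_abs a ((Rset z T).filter (fun r => ¬ Squarefree r))).trans hn
  have h4 := (abs_le.1 hs).1
  have h5 := (abs_le.1 h3).1
  linarith

end SerFAux

open SerFAux

open Classical in
theorem ser_low (b : Bool) (ε : ℝ) (hε : 0 < ε) : ∃ A0 N0 : ℕ, ∀ N T : ℕ, N0 ≤ N → 1 ≤ T → T ^ 5 ≤ N →
    (((range (N + 1)).filter fun m : ℕ => (∀ p : ℕ, p.Prime → Odd p → ¬ ((p : ℤ) ^ 4 ∣ 4 * (m : ℤ) + n1 b)) ∧
      ∑ q ∈ Qs (zp A0 N) T ⌈(N : ℝ) ^ ε⌉₊, A b m q < (N : ℝ) ^ (-ε)).card : ℝ) ≤ (N : ℝ) ^ (4 / 5 + ε) := by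
  obtain ⟨A1, hA1⟩ := rough b ε hε
  set A0 : ℕ := max A1 6 with hA0
  have hA6 : 6 ≤ A0 := le_max_right _ _
  have hA0pos : (0 : ℝ) < A0 := by
    have : (6 : ℝ) ≤ A0 := by exact_mod_cast hA6
    linarith
  set κ : ℝ := ε / (80 * A0) with hκdef
  have hκ : 0 < κ := by positivity
  have hκε : κ < ε := by
    rw [hκdef, div_lt_iff₀ (by positivity)]
    have : (6 : ℝ) ≤ A0 := by exact_mod_cast hA6
    nlinarith
  obtain ⟨N1, hN1⟩ := hA1 A0 (le_max_left _ _)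
  obtain ⟨N2, hN2⟩ := rou_abs A0 hA6
  obtain ⟨N3, hN3⟩ := rou_sq A0 hA6
  obtain ⟨N4, hN4⟩ := smo_low A0 κ hκ
  obtain ⟨N5, hN5⟩ := smo_tail A0 (by omega) ε hε
  obtain ⟨N6, hN6⟩ := asym κ ε hκ hκε
  refine ⟨A0, N1 + N2 + N3 + N4 + N5 + N6, fun N T hN hT hT5 => ?_⟩
  have hTN : T ≤ N := (Nat.le_self_pow (by norm_num) T).trans hT5
  refine le_trans ?_ (hN1 N T (by omega) hT5)
  have hsub : ((range (N + 1)).filter fun m : ℕ => (∀ p : ℕ, p.Prime → Odd p → ¬ ((p : ℤ) ^ 4 ∣ 4 * (m : ℤ) + n1 b)) ∧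
      ∑ q ∈ Qs (zp A0 N) T ⌈(N : ℝ) ^ ε⌉₊, A b m q < (N : ℝ) ^ (-ε)) ⊆
      (range (N + 1)).filter fun n : ℕ => 1 / 4 < |∑ r ∈ (Rset (zp A0 N) T).filter
      (fun r => 1 < r ∧ Squarefree r), A b n r| := by
    intro m hm
    obtain ⟨hm1, hm2, hm3⟩ := Finset.mem_filter.1 hm
    refine Finset.mem_filter.2 ⟨hm1, ?_⟩
    by_contra hcon
    have hcon' : |∑ r ∈ (Rset (zp A0 N) T).filter (fun r => 1 < r ∧ Squarefree r), A b m r| ≤ 1 / 4 :=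
      not_lt.1 hcon
    have hg : Good (A b m) (4 * m + (n1 b).toNat) := good b m hm2
    have hmN : m ≤ N := by
      have := Finset.mem_range.1 hm1
      omega
    have hn1 : 1 ≤ 4 * m + (n1 b).toNat := by
      cases b <;> simp [n1]
    have hn2 : 4 * m + (n1 b).toNat ≤ 5 * N + 10 := by
      cases b <;> simp [n1] <;> omega
    have hsq := hN3 N T (by omega) hTN (A b m) _ hg hn1 hn2
    have habs := hN2 N T (by omega) hTN (A b m) _ hg hn1 hn2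
    have hR := rset_low hg.one hT hcon' hsq
    have hP := hN4 N (by omega) (A b m) _ hg
    rw [← smo_prod (zp A0 N) (A b m) hg.one hg.mul] at hP
    have htail := hN5 N (by omega) (A b m) _ hg ((⌈(N : ℝ) ^ ε⌉₊ : ℕ) : ℝ) (Nat.le_ceil _)
    have htail' : ∑ q ∈ (Ws (zp A0 N)).divisors.filter (fun q : ℕ => ⌈(N : ℝ) ^ ε⌉₊ < q), |A b m q| ≤
        (N : ℝ) ^ (-(ε / (20 * A0))) := by
      refine le_trans (le_of_eq ?_) htail
      refine Finset.sum_congr (Finset.filter_congr fun q _ => ?_) fun _ _ => rfl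
      exact Nat.cast_lt.symm
    have hdec := dec (zp A0 N) T ⌈(N : ℝ) ^ ε⌉₊ (A b m) _ hg _ htail'
    have has := hN6 N (by omega)
    have e4 : ε / (20 * (A0 : ℝ)) = 4 * κ := by
      rw [hκdef]
      field_simp
      ring
    rw [e4] at hdec
    have hNpos : 0 ≤ (N : ℝ) ^ (-(4 * κ)) := Real.rpow_nonneg (Nat.cast_nonneg _) _
    have hPpos : 0 ≤ (N : ℝ) ^ (-κ) := Real.rpow_nonneg (Nat.cast_nonneg _) _
    have h7 := mul_le_mul_of_nonneg_left habs hNpos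
    have h8 := (abs_le.1 hdec).1
    have h9 : (N : ℝ) ^ (-κ) / 2 ≤ (∑ q ∈ (Ws (zp A0 N)).divisors, A b m q) *
        ∑ r ∈ Rset (zp A0 N) T, A b m r := by
      calc (N : ℝ) ^ (-κ) / 2 = (N : ℝ) ^ (-κ) * (1 / 2) := by ring
        _ ≤ (∑ q ∈ (Ws (zp A0 N)).divisors, A b m q) * (1 / 2) :=
            mul_le_mul_of_nonneg_right hP (by norm_num)
        _ ≤ _ := mul_le_mul_of_nonneg_left hR (hPpos.trans hP)
    linarith
  exact_mod_cast Finset.card_le_card hsub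

end Pool.Agent.Lib.TSP
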