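import Pool.Agent.Lib.TSP.Ex

/-!
# TSP.Bes: Bessel's inequality (0.7 h)
PROOF. With `c_m = ∫ H(α) e(-mα) dα` and `p(α) = ∑_{m ∈ S} c_m e(mα)`: `0 ≤ ∫ |H - p|² = ∫ |H|² - 2 Re ∑ conj(c_m) c_m + ∑ |c_m|²`, since
`∫_s^(s+1) e((m - m')α) dα = [m = m']`. All functions are bounded and measurable on `[s, s+1]`, so integrable.
-/

set_option autoImplicit false

open Finset

namespace Pool.Agent.Lib.TSP

namespace BesAux

open MeasureTheory

theorem integral_e (k : ℤ) (s : ℝ) : ∫ α in s..(s + 1), e ((k : ℝ) * α) = if k = 0 then 1 else 0 := by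
  split_ifs with hk
  · subst hk
    simp [e_zero]
  · have hc : (2 * Real.pi * (k : ℂ) * Complex.I : ℂ) ≠ 0 := by
      have h1 : (k : ℂ) ≠ 0 := by exact_mod_cast hk
      simp [Real.pi_ne_zero, h1]
    have h1 : ∀ α : ℝ, e ((k : ℝ) * α) = Complex.exp ((2 * Real.pi * (k : ℂ) * Complex.I) * α) := by
      intro α
      rw [e]
      congr 1
      push_cast
      ring
    have h2 : ∫ α in s..(s + 1), e ((k : ℝ) * α) =
        ∫ α in s..(s + 1), Complex.exp ((2 * Real.pi * (k : ℂ) * Complex.I) * α) := by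
      congr 1
      ext α
      exact h1 α
    rw [h2, integral_exp_mul_complex hc, ← h1, ← h1]
    have h3 : (k : ℝ) * (s + 1) = (k : ℝ) * s + k := by ring
    rw [h3, e_add_int, sub_self, zero_div]

/-- the expansion of the square -/
theorem norm_sub_sq' (z w : ℂ) :
    ‖z - w‖ ^ 2 = ‖z‖ ^ 2 - 2 * (z * (starRingEnd ℂ) w).re + ‖w‖ ^ 2 := by
  rw [Complex.sq_norm, Complex.sq_norm, Complex.sq_norm, Complex.normSq_sub]
  ring

end BesAux

open MeasureTheory BesAux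

theorem bessel (H : ℝ → ℂ) (hH : Measurable H) (K : ℝ) (hK : ∀ x, ‖H x‖ ≤ K) (s t : ℝ) (hst : t = s + 1)
    (S : Finset ℤ) :
    ∑ m ∈ S, ‖∫ α in s..t, H α * e (-((m : ℝ) * α))‖ ^ 2 ≤ ∫ α in s..t, ‖H α‖ ^ 2 := by
  subst hst
  have hle : s ≤ s + 1 := by linarith
  have hK0 : 0 ≤ K := (norm_nonneg _).trans (hK 0)
  obtain ⟨c, hc⟩ : ∃ c : ℤ → ℂ, ∀ m, c m = ∫ α in s..(s + 1), H α * e (-((m : ℝ) * α)) :=
    ⟨_, fun m => rfl⟩
  simp only [← hc]
  obtain ⟨p, hp⟩ : ∃ p : ℝ → ℂ, ∀ α, p α = ∑ m ∈ S, c m * e ((m : ℝ) * α) := ⟨_, fun α => rfl⟩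
  have hpm : Measurable p := by
    have h1 : p = fun α => ∑ m ∈ S, c m * e ((m : ℝ) * α) := funext hp
    rw [h1]
    have h2 : ∀ m : ℤ, Measurable (fun α : ℝ => e ((m : ℝ) * α)) := fun m =>
      (continuous_e.comp (continuous_const.mul continuous_id)).measurable
    exact Finset.measurable_sum S fun m _ => (h2 m).const_mul _
  obtain ⟨P, hP⟩ : ∃ P, P = ∑ m ∈ S, ‖c m‖ := ⟨_, rfl⟩
  have hP0 : 0 ≤ P := by rw [hP]; positivity
  have hpb : ∀ α, ‖p α‖ ≤ P := by
    intro α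
    rw [hp, hP]
    refine (norm_sum_le _ _).trans (le_of_eq ?_)
    refine Finset.sum_congr rfl fun m _ => ?_
    rw [norm_mul, norm_e, mul_one]
  set μ : Measure ℝ := volume.restrict (Set.Ioc s (s + 1)) with hμ
  have hI : ∀ f : ℝ → ℂ, ∫ α in s..(s + 1), f α = ∫ α, f α ∂μ := fun f =>
    intervalIntegral.integral_of_le hle
  have hIR : ∀ f : ℝ → ℝ, ∫ α in s..(s + 1), f α = ∫ α, f α ∂μ := fun f =>
    intervalIntegral.integral_of_le hle
  -- integrability
  have hint : ∀ f : ℝ → ℂ, Measurable f → ∀ C : ℝ, (∀ x, ‖f x‖ ≤ C) → Integrable f μ := by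
    intro f hf C hC
    exact Integrable.of_bound hf.aestronglyMeasurable C (Filter.Eventually.of_forall hC)
  have hintR : ∀ f : ℝ → ℝ, Measurable f → ∀ C : ℝ, (∀ x, ‖f x‖ ≤ C) → Integrable f μ := by
    intro f hf C hC
    exact Integrable.of_bound hf.aestronglyMeasurable C (Filter.Eventually.of_forall hC)
  have hem : ∀ m : ℤ, Measurable (fun α : ℝ => e (-((m : ℝ) * α))) := fun m =>
    (continuous_e.comp (continuous_const.mul continuous_id).neg).measurable
  have hem' : ∀ m : ℤ, Measurable (fun α : ℝ => e ((m : ℝ) * α)) := fun m =>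
    (continuous_e.comp (continuous_const.mul continuous_id)).measurable
  have i1 : Integrable (fun α => ‖H α‖ ^ 2) μ := by
    refine hintR _ (hH.norm.pow_const 2) (K ^ 2) fun x => ?_
    rw [Real.norm_eq_abs, abs_of_nonneg (by positivity)]
    exact pow_le_pow_left₀ (norm_nonneg _) (hK x) 2
  have i2 : Integrable (fun α => H α * (starRingEnd ℂ) (p α)) μ := by
    refine hint _ (hH.mul (Complex.continuous_conj.measurable.comp hpm)) (K * P) fun x => ?_
    rw [norm_mul, RCLike.norm_conj]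
    exact mul_le_mul (hK x) (hpb x) (norm_nonneg _) hK0
  have i3 : Integrable (fun α => ‖p α‖ ^ 2) μ := by
    refine hintR _ (hpm.norm.pow_const 2) (P ^ 2) fun x => ?_
    rw [Real.norm_eq_abs, abs_of_nonneg (by positivity)]
    exact pow_le_pow_left₀ (norm_nonneg _) (hpb x) 2
  have i4 : ∀ m : ℤ, Integrable (fun α => H α * e (-((m : ℝ) * α))) μ := fun m => by
    refine hint _ (hH.mul (hem m)) K fun x => ?_
    rw [norm_mul, norm_e, mul_one]
    exact hK x
  have i5 : ∀ k : ℤ, Integrable (fun α : ℝ => e ((k : ℝ) * α)) μ := fun k => by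
    refine hint _ (hem' k) 1 fun x => ?_
    rw [norm_e]
  -- the mixed term
  have m1 : ∫ α, (H α * (starRingEnd ℂ) (p α)).re ∂μ = ∑ m ∈ S, ‖c m‖ ^ 2 := by
    have h1 : ∫ α, (H α * (starRingEnd ℂ) (p α)).re ∂μ =
        (∫ α, H α * (starRingEnd ℂ) (p α) ∂μ).re := integral_re i2
    have h2 : ∀ α, H α * (starRingEnd ℂ) (p α) =
        ∑ m ∈ S, (starRingEnd ℂ) (c m) * (H α * e (-((m : ℝ) * α))) := by
      intro α
      rw [hp, map_sum, Finset.mul_sum]
      refine Finset.sum_congr rfl fun m _ => ?_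
      rw [map_mul, e_neg]
      ring
    have h3 : ∫ α, H α * (starRingEnd ℂ) (p α) ∂μ = ∑ m ∈ S, (starRingEnd ℂ) (c m) * c m := by
      simp only [h2]
      rw [integral_finset_sum S fun m _ => (i4 m).const_mul _]
      refine Finset.sum_congr rfl fun m _ => ?_
      rw [integral_const_mul, ← hI, ← hc]
    rw [h1, h3, Complex.re_sum]
    refine Finset.sum_congr rfl fun m _ => ?_
    rw [← Complex.normSq_eq_conj_mul_self, Complex.ofReal_re, Complex.sq_norm]
  -- the square of the polynomial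
  have m2 : ∫ α, ‖p α‖ ^ 2 ∂μ = ∑ m ∈ S, ‖c m‖ ^ 2 := by
    have h2 : ∀ α, ((‖p α‖ ^ 2 : ℝ) : ℂ) =
        ∑ m ∈ S, ∑ m' ∈ S, (c m * (starRingEnd ℂ) (c m')) * e (((m - m' : ℤ) : ℝ) * α) := by
      intro α
      rw [Complex.sq_norm, Complex.normSq_eq_conj_mul_self, mul_comm, hp, map_sum,
        Finset.sum_mul_sum]
      refine Finset.sum_congr rfl fun m _ => Finset.sum_congr rfl fun m' _ => ?_
      have h3 : (((m - m' : ℤ) : ℝ) * α) = (m : ℝ) * α + -((m' : ℝ) * α) := by push_cast; ring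
      rw [h3, e_add, e_neg, map_mul]
      ring
    have h4 : ((∫ α, ‖p α‖ ^ 2 ∂μ : ℝ) : ℂ) = ((∑ m ∈ S, ‖c m‖ ^ 2 : ℝ) : ℂ) := by
      rw [← integral_complex_ofReal]
      simp only [h2]
      rw [integral_finset_sum S fun m _ => integrable_finset_sum S fun m' _ =>
        (i5 (m - m')).const_mul _]
      push_cast
      refine Finset.sum_congr rfl fun m hm => ?_
      have h5 : ∫ α, ∑ m' ∈ S, (c m * (starRingEnd ℂ) (c m')) * e (((m - m' : ℤ) : ℝ) * α) ∂μ =
          ∑ m' ∈ S, (c m * (starRingEnd ℂ) (c m')) * (if m = m' then 1 else 0) := by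
        rw [integral_finset_sum S fun m' _ => (i5 (m - m')).const_mul _]
        refine Finset.sum_congr rfl fun m' _ => ?_
        rw [integral_const_mul, ← hI, integral_e]
        simp only [sub_eq_zero]
      have h6 : ∀ m', ((m - m' : ℤ) : ℝ) = ((m : ℝ) - (m' : ℝ)) := fun m' => by push_cast; ring
      simp only [h6] at h5
      rw [h5, Finset.sum_eq_single_of_mem m hm]
      · rw [if_pos rfl, mul_one, mul_comm, ← Complex.normSq_eq_conj_mul_self, ← Complex.sq_norm]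
        push_cast
        rfl
      · intro m' _ hne
        rw [if_neg (Ne.symm hne), mul_zero]
    exact_mod_cast h4
  have h0 : 0 ≤ ∫ α, ‖H α - p α‖ ^ 2 ∂μ := integral_nonneg fun α => by positivity
  have h1 : ∫ α, ‖H α - p α‖ ^ 2 ∂μ = ∫ α, ‖H α‖ ^ 2 ∂μ - 2 * ∑ m ∈ S, ‖c m‖ ^ 2 +
      ∑ m ∈ S, ‖c m‖ ^ 2 := by
    simp only [norm_sub_sq']
    have i2' : Integrable (fun α => 2 * (H α * (starRingEnd ℂ) (p α)).re) μ :=
      (Integrable.re i2).const_mul 2
    have e1 : ∫ α, (‖H α‖ ^ 2 - 2 * (H α * (starRingEnd ℂ) (p α)).re + ‖p α‖ ^ 2) ∂μ =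
        ∫ α, (‖H α‖ ^ 2 - 2 * (H α * (starRingEnd ℂ) (p α)).re) ∂μ + ∫ α, ‖p α‖ ^ 2 ∂μ :=
      integral_add (i1.sub i2') i3
    have e2 : ∫ α, (‖H α‖ ^ 2 - 2 * (H α * (starRingEnd ℂ) (p α)).re) ∂μ =
        ∫ α, ‖H α‖ ^ 2 ∂μ - ∫ α, 2 * (H α * (starRingEnd ℂ) (p α)).re ∂μ :=
      integral_sub i1 i2'
    rw [e1, e2, integral_const_mul, m1, m2]
  rw [hIR]
  rw [h1] at h0
  linarith

end Pool.Agent.Lib.TSP
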