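import Pool.Agent.Lib.TSP.L257

/-!
# TSP.Conic: densities modulo a prime (1.5 h)
PROOF. `p` odd prime, not dividing 70, so `p = 3` or `p ≥ 11`. `χ = quadraticChar (ZMod p) (-35) = ±1`. (1) For `h ∈ ZMod p` the number of `(A, B)` with `7A² + 5B² = h` is
`p - χ` if `h ≠ 0` and `p + χ(p - 1)` if `h = 0`: e.g. multiply by 7: `(7A)² + 35B² = 7h`, number of `(u, v)` with `u² - D v² = c`, `D = -35`: if `D = d²`, `(u-dv)(u+dv) = c`;
in general `∑_v (1 + η(c + D v²)) = p + ∑_v η(Dv² + c)` and `∑_v η(Dv²+c) = -η(D)` for `c ≠ 0`, `= (p-1) η(D)` for `c = 0` (Jacobi sum / Gauss sums; the library has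
`quadraticChar` sums, e.g. `quadraticChar_card_sqrts`; alternative: count `u² - Dv² = c` over the field via norm or by Gauss sums). (2) So with `N₄ = #{k : 2 c k⁴ = h}`:
`Mc c h p = ∑_k #{(A,B) : 7A²+5B² = h - 2ck⁴} = p(p - χ) + χ p N₄ = p² + χ p (N₄ - 1)`. (3) `p ∤ 2c`: `N₄ ≤ 4` (degree 4 polynomial), and `N₄ = 1` if `h = 0`. So
`|rho - 1| = |N₄ - 1|/p ≤ 3/p`, `rho = 1` if `p ∣ 4m + n1 b`. (4) `p = 3`, `3 ∤ h`: `k⁴ ∈ {0, 1}`, `N₄ ∈ {0, 2}`, so `rho ≥ 1 - 1/3`.
-/

set_option autoImplicit false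

open Finset

namespace Pool.Agent.Lib.TSP

namespace ConicAux

section field

variable {F : Type*} [Field F] [Fintype F] [DecidableEq F]

theorem sum_sq (hF : ringChar F ≠ 2) (g : F → ℤ) :
    ∑ x : F, g (x ^ 2) = ∑ w : F, (1 + quadraticChar F w) * g w := by
  have h1 : ∀ w : F, ∑ x ∈ Finset.univ.filter (fun x : F => x ^ 2 = w), g (x ^ 2) =
      (1 + quadraticChar F w) * g w := by
    intro w
    have h2 : ∀ x ∈ Finset.univ.filter (fun x : F => x ^ 2 = w), g (x ^ 2) = g w := by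
      intro x hx
      rw [(Finset.mem_filter.1 hx).2]
    rw [Finset.sum_congr rfl h2, Finset.sum_const, nsmul_eq_mul]
    have h3 := quadraticChar_card_sqrts hF w
    have h4 : ({x : F | x ^ 2 = w} : Set F).toFinset = Finset.univ.filter (fun x : F => x ^ 2 = w) := by
      ext x
      simp
    rw [h4] at h3
    rw [h3, add_comm]
  rw [← Finset.sum_congr rfl fun w _ => h1 w]
  rw [Finset.sum_fiberwise]

theorem jac_ne (hF : ringChar F ≠ 2) {h : F} (hh : h ≠ 0) :
    ∑ w : F, quadraticChar F (w * (h - w)) = - quadraticChar F (-1) := by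
  have h1 : jacobiSum (quadraticChar F) (quadraticChar F) = - quadraticChar F (-1) := by
    have h2 := jacobiSum_nontrivial_inv (quadraticChar_ne_one (F := F) hF)
    rwa [(quadraticChar_isQuadratic F).inv] at h2
  rw [← h1, jacobiSum]
  rw [← Equiv.sum_comp (Equiv.mulLeft₀ h hh)]
  refine Finset.sum_congr rfl fun u _ => ?_
  have h3 : (Equiv.mulLeft₀ h hh) u * (h - (Equiv.mulLeft₀ h hh) u) = h ^ 2 * (u * (1 - u)) := by
    rw [Equiv.mulLeft₀_apply]
    ring
  rw [h3, map_mul, quadraticChar_sq_one' hh, one_mul, map_mul]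

theorem jac_zero :
    ∑ w : F, quadraticChar F (w * (0 - w)) = ((Fintype.card F : ℤ) - 1) * quadraticChar F (-1) := by
  rw [← Finset.add_sum_erase Finset.univ _ (Finset.mem_univ (0 : F)), zero_mul,
    quadraticChar_zero, zero_add]
  have h1 : ∀ w ∈ Finset.univ.erase (0 : F), quadraticChar F (w * (0 - w)) =
      quadraticChar F (-1) := by
    intro w hw
    have hw0 : w ≠ 0 := (Finset.mem_erase.1 hw).1
    have h2 : w * (0 - w) = w ^ 2 * (-1) := by ring
    rw [h2, map_mul, quadraticChar_sq_one' hw0, one_mul]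
  rw [Finset.sum_congr rfl h1, Finset.sum_const, nsmul_eq_mul, Finset.card_erase_of_mem
    (Finset.mem_univ _), Finset.card_univ]
  congr 1
  have h3 : 1 ≤ Fintype.card F := Fintype.card_pos
  push_cast [h3]
  ring

theorem card_mul_sq (hF : ringChar F ≠ 2) {a : F} (ha : a ≠ 0) (w : F) :
    ((Finset.univ.filter fun x : F => a * x ^ 2 = w).card : ℤ) = 1 + quadraticChar F (a * w) := by
  have h3 := quadraticChar_card_sqrts hF (a * w)
  have h4 : ({x : F | x ^ 2 = a * w} : Set F).toFinset =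
      Finset.univ.filter (fun x : F => x ^ 2 = a * w) := by
    ext x
    simp
  rw [h4] at h3
  rw [add_comm, ← h3]
  congr 1
  refine Finset.card_bij (fun x _ => a * x) ?_ ?_ ?_
  · intro x hx
    rw [Finset.mem_filter] at hx ⊢
    refine ⟨Finset.mem_univ _, ?_⟩
    rw [← hx.2]
    ring
  · intro x _ y _ hxy
    exact mul_left_cancel₀ ha hxy
  · intro y hy
    rw [Finset.mem_filter] at hy
    refine ⟨a⁻¹ * y, ?_, by rw [mul_inv_cancel_left₀ ha]⟩
    rw [Finset.mem_filter]
    refine ⟨Finset.mem_univ _, ?_⟩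
    have h5 : a * (a⁻¹ * y) ^ 2 = a⁻¹ * y ^ 2 := by
      field_simp
    rw [h5, hy.2, inv_mul_cancel_left₀ ha]

/-- the number of points of the conic -/
theorem conic (hF : ringChar F ≠ 2) (h5 : (5 : F) ≠ 0) (h7 : (7 : F) ≠ 0) (h : F) :
    ((Finset.univ.filter fun s : F × F => 7 * s.1 ^ 2 + 5 * s.2 ^ 2 = h).card : ℤ) =
      (Fintype.card F : ℤ) - quadraticChar F (-35) +
        (if h = 0 then (Fintype.card F : ℤ) * quadraticChar F (-35) else 0) := by
  have h35 : (35 : F) ≠ 0 := by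
    have : (35 : F) = 5 * 7 := by norm_num
    rw [this]
    exact mul_ne_zero h5 h7
  have e1 : ((Finset.univ.filter fun s : F × F => 7 * s.1 ^ 2 + 5 * s.2 ^ 2 = h).card : ℤ) =
      ∑ y : F, ((Finset.univ.filter fun x : F => 7 * x ^ 2 = h - 5 * y ^ 2).card : ℤ) := by
    rw [Finset.card_filter, Finset.univ_product_univ.symm]
    push_cast
    rw [Finset.sum_product_right]
    refine Finset.sum_congr rfl fun y _ => ?_
    rw [Finset.card_filter]
    push_cast
    refine Finset.sum_congr rfl fun x _ => ?_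
    refine if_congr ?_ rfl rfl
    constructor
    · intro hx
      exact eq_sub_of_add_eq hx
    · intro hx
      exact eq_sub_iff_add_eq.1 hx
  rw [e1]
  rw [Finset.sum_congr rfl fun y _ => card_mul_sq hF h7 (h - 5 * y ^ 2)]
  rw [sum_sq hF fun w => 1 + quadraticChar F (7 * (h - 5 * w))]
  have e2 : ∀ w : F, (1 + quadraticChar F w) * (1 + quadraticChar F (7 * (h - 5 * w))) =
      1 + quadraticChar F w + quadraticChar F (7 * (h - 5 * w)) +
        quadraticChar F (w * (7 * h - 35 * w)) := by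
    intro w
    have : w * (7 * h - 35 * w) = w * (7 * (h - 5 * w)) := by ring
    rw [this, map_mul (quadraticChar F) w]
    ring
  rw [Finset.sum_congr rfl fun w _ => e2 w, Finset.sum_add_distrib, Finset.sum_add_distrib,
    Finset.sum_add_distrib, quadraticChar_sum_zero hF]
  have e3 : ∑ w : F, quadraticChar F (7 * (h - 5 * w)) = 0 := by
    rw [← quadraticChar_sum_zero (F := F) hF]
    refine Finset.sum_bij (fun w _ => 7 * (h - 5 * w)) (fun _ _ => Finset.mem_univ _) ?_ ?_
      fun _ _ => rfl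
    · intro x _ y _ hxy
      have := mul_left_cancel₀ h7 hxy
      exact mul_left_cancel₀ h5 (sub_right_injective this)
    · intro y _
      refine ⟨(h - 7⁻¹ * y) / 5, Finset.mem_univ _, ?_⟩
      field_simp
      ring
  have e4 : ∑ w : F, quadraticChar F (w * (7 * h - 35 * w)) =
      quadraticChar F 35 * ∑ v : F, quadraticChar F (v * (7 * h - v)) := by
    rw [Finset.mul_sum]
    rw [← Equiv.sum_comp (Equiv.mulLeft₀ (35 : F) h35)
      (fun v => quadraticChar F 35 * quadraticChar F (v * (7 * h - v)))]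
    refine Finset.sum_congr rfl fun w _ => ?_
    rw [Equiv.mulLeft₀_apply, ← map_mul]
    have : 35 * (35 * w * (7 * h - 35 * w)) = 35 ^ 2 * (w * (7 * h - 35 * w)) := by ring
    rw [this, map_mul _ (35 ^ 2 : F), quadraticChar_sq_one' h35, one_mul]
  have e5 : quadraticChar F (-35) = quadraticChar F 35 * quadraticChar F (-1) := by
    rw [← map_mul]
    congr 1
    ring
  rw [e3, e4, e5]
  split_ifs with h0
  · rw [h0, mul_zero, jac_zero]
    simp only [Finset.sum_const, Finset.card_univ, nsmul_eq_mul]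
    ring
  · rw [jac_ne hF (mul_ne_zero h7 h0)]
    simp only [Finset.sum_const, Finset.card_univ, nsmul_eq_mul]
    ring

/-- the number of points of the surface -/
theorem surf (hF : ringChar F ≠ 2) (h5 : (5 : F) ≠ 0) (h7 : (7 : F) ≠ 0) (c h : F) :
    ((Finset.univ.filter fun s : F × F × F =>
      7 * s.1 ^ 2 + 5 * s.2.1 ^ 2 + 2 * c * s.2.2 ^ 4 = h).card : ℤ) =
      (Fintype.card F : ℤ) ^ 2 + Fintype.card F * quadraticChar F (-35) *
        (((Finset.univ.filter fun k : F => 2 * c * k ^ 4 = h).card : ℤ) - 1) := by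
  have e1 : ((Finset.univ.filter fun s : F × F × F =>
      7 * s.1 ^ 2 + 5 * s.2.1 ^ 2 + 2 * c * s.2.2 ^ 4 = h).card : ℤ) =
      ∑ k : F, ((Finset.univ.filter fun s : F × F =>
        7 * s.1 ^ 2 + 5 * s.2 ^ 2 = h - 2 * c * k ^ 4).card : ℤ) := by
    simp only [Finset.card_filter]
    push_cast
    simp only [← Finset.univ_product_univ, Finset.sum_product]
    have e2 : ∀ x : F, ∑ y : F, ∑ k : F, (if 7 * x ^ 2 + 5 * y ^ 2 + 2 * c * k ^ 4 = h then
        (1 : ℤ) else 0) = ∑ k : F, ∑ y : F, (if 7 * x ^ 2 + 5 * y ^ 2 = h - 2 * c * k ^ 4 then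
        (1 : ℤ) else 0) := by
      intro x
      rw [Finset.sum_comm]
      refine Finset.sum_congr rfl fun k _ => Finset.sum_congr rfl fun y _ => ?_
      refine if_congr ?_ rfl rfl
      exact eq_sub_iff_add_eq.symm
    rw [Finset.sum_congr rfl fun x _ => e2 x]
    rw [Finset.sum_comm]
  rw [e1, Finset.sum_congr rfl fun k _ => conic hF h5 h7 (h - 2 * c * k ^ 4),
    Finset.sum_add_distrib]
  have e3 : ∑ k : F, (if h - 2 * c * k ^ 4 = 0 then (Fintype.card F : ℤ) * quadraticChar F (-35)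
      else 0) = ((Finset.univ.filter fun k : F => 2 * c * k ^ 4 = h).card : ℤ) *
        ((Fintype.card F : ℤ) * quadraticChar F (-35)) := by
    rw [← Finset.sum_filter, Finset.sum_const, nsmul_eq_mul]
    congr 3
    ext k
    simp only [Finset.mem_filter, Finset.mem_univ, true_and]
    rw [sub_eq_zero]
    exact eq_comm
  rw [e3, Finset.sum_const, Finset.card_univ, nsmul_eq_mul]
  ring

theorem card4 (c h : F) (hc : 2 * c ≠ 0) :
    (Finset.univ.filter fun k : F => 2 * c * k ^ 4 = h).card ≤ 4 := by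
  have h1 : (Finset.univ.filter fun k : F => 2 * c * k ^ 4 = h) ⊆
      (Polynomial.nthRoots 4 (h / (2 * c))).toFinset := by
    intro k hk
    rw [Finset.mem_filter] at hk
    rw [Multiset.mem_toFinset, Polynomial.mem_nthRoots (by norm_num)]
    rw [eq_div_iff hc, mul_comm]
    exact hk.2
  exact (Finset.card_le_card h1).trans ((Multiset.toFinset_card_le _).trans
    (Polynomial.card_nthRoots _ _))

theorem card_zero (c : F) (hc : 2 * c ≠ 0) :
    (Finset.univ.filter fun k : F => 2 * c * k ^ 4 = 0).card = 1 := by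
  rw [Finset.card_eq_one]
  refine ⟨0, ?_⟩
  ext k
  rw [Finset.mem_filter, Finset.mem_singleton]
  constructor
  · rintro ⟨_, hk⟩
    rcases mul_eq_zero.1 hk with h | h
    · exact absurd h hc
    · exact pow_eq_zero_iff (by norm_num) |>.1 h
  · rintro rfl
    exact ⟨Finset.mem_univ _, by ring⟩

end field

theorem card3 (c h : ZMod 3) (hc : 2 * c ≠ 0) :
    (Finset.univ.filter fun k : ZMod 3 => 2 * c * k ^ 4 = h).card ≤ 2 := by
  revert c h
  decide

theorem Mc_eq (c h : ℤ) {p : ℕ} [NeZero p] :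
    Mc c h p = (Finset.univ.filter fun s : ZMod p × ZMod p × ZMod p =>
      7 * s.1 ^ 2 + 5 * s.2.1 ^ 2 + 2 * (c : ZMod p) * s.2.2 ^ 4 = (h : ZMod p)).card := by
  have hinj : ∀ a b : ℕ, a < p → b < p → (a : ZMod p) = (b : ZMod p) → a = b := by
    intro a b ha hb hab
    rw [ZMod.natCast_eq_natCast_iff'] at hab
    rwa [Nat.mod_eq_of_lt ha, Nat.mod_eq_of_lt hb] at hab
  rw [Mc]
  refine Finset.card_bij (fun s _ => ((s.1 : ZMod p), (s.2.1 : ZMod p), (s.2.2 : ZMod p))) ?_ ?_ ?_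
  · intro s hs
    rw [Finset.mem_filter] at hs ⊢
    refine ⟨Finset.mem_univ _, ?_⟩
    have h1 := (ZMod.intCast_zmod_eq_zero_iff_dvd _ p).2 hs.2
    push_cast at h1
    exact sub_eq_zero.1 h1
  · intro s hs t ht hst
    rw [Finset.mem_filter, Finset.mem_product, Finset.mem_product, Finset.mem_range,
      Finset.mem_range, Finset.mem_range] at hs ht
    obtain ⟨h1, h2⟩ := Prod.mk.inj hst
    obtain ⟨h3, h4⟩ := Prod.mk.inj h2
    exact Prod.ext (hinj _ _ hs.1.1 ht.1.1 h1)
      (Prod.ext (hinj _ _ hs.1.2.1 ht.1.2.1 h3) (hinj _ _ hs.1.2.2 ht.1.2.2 h4))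
  · rintro ⟨x, y, z⟩ hs
    rw [Finset.mem_filter] at hs
    refine ⟨(x.val, y.val, z.val), ?_, ?_⟩
    · rw [Finset.mem_filter, Finset.mem_product, Finset.mem_product, Finset.mem_range,
        Finset.mem_range, Finset.mem_range]
      refine ⟨⟨ZMod.val_lt x, ZMod.val_lt y, ZMod.val_lt z⟩, ?_⟩
      rw [← ZMod.intCast_zmod_eq_zero_iff_dvd]
      push_cast
      rw [ZMod.natCast_zmod_val, ZMod.natCast_zmod_val, ZMod.natCast_zmod_val, sub_eq_zero]
      exact hs.2
    · simp only [ZMod.natCast_zmod_val]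

end ConicAux

theorem rho_p (b : Bool) (m : ℤ) {p : ℕ} (hp : p.Prime) (h70 : ¬ p ∣ 70) :
    |rho b m p - 1| ≤ 3 / (p : ℝ) ∧ ((p : ℤ) ∣ 4 * m + n1 b → rho b m p = 1) ∧
      (p = 3 → 2 / 3 ≤ rho b m p) := by
  have : Fact p.Prime := ⟨hp⟩
  have hndvd : ∀ k : ℕ, k ∣ 70 → k ≠ 1 → (k.Prime) → ((k : ℕ) : ZMod p) ≠ 0 := by
    intro k hk _ hkp h0
    rw [ZMod.natCast_eq_zero_iff] at h0
    exact h70 (h0.trans hk)
  have h2 : (2 : ZMod p) ≠ 0 := by
    have := hndvd 2 (by norm_num) (by norm_num) (by norm_num)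
    exact_mod_cast this
  have h5 : (5 : ZMod p) ≠ 0 := by
    have := hndvd 5 (by norm_num) (by norm_num) (by norm_num)
    exact_mod_cast this
  have h7 : (7 : ZMod p) ≠ 0 := by
    have := hndvd 7 (by norm_num) (by norm_num) (by norm_num)
    exact_mod_cast this
  have hF : ringChar (ZMod p) ≠ 2 := by
    rw [ZMod.ringChar_zmod_n]
    rintro rfl
    exact h70 (by norm_num)
  have hcop : Nat.Coprime p 70 := (Nat.Prime.coprime_iff_not_dvd hp).2 h70
  set c : ZMod p := ((cc b : ℤ) : ZMod p) with hc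
  have hc0 : 2 * c ≠ 0 := by
    rw [hc, cc]
    split_ifs
    · have : (2 : ZMod p) * ((4 : ℤ) : ZMod p) = 2 * 2 * 2 := by
        push_cast
        ring
      rw [this]
      exact mul_ne_zero (mul_ne_zero h2 h2) h2
    · push_cast
      rw [mul_one]
      exact h2
  set h : ZMod p := ((70 * (4 * m + n1 b) : ℤ) : ZMod p) with hh
  set N4 := (Finset.univ.filter fun k : ZMod p => 2 * c * k ^ 4 = h).card with hN4
  set χ := quadraticChar (ZMod p) (-35) with hχ
  have h35 : (-35 : ZMod p) ≠ 0 := by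
    have : (-35 : ZMod p) = -(5 * 7) := by norm_num
    rw [this]
    exact neg_ne_zero.2 (mul_ne_zero h5 h7)
  have hχ1 : χ = 1 ∨ χ = -1 := quadraticChar_dichotomy h35
  have hN3 : (N3 b m p : ℤ) = (p : ℤ) ^ 2 + p * χ * ((N4 : ℤ) - 1) := by
    rw [N3_eq b m hcop, ConicAux.Mc_eq, ConicAux.surf hF h5 h7, ZMod.card]
  have hp0 : (0 : ℝ) < p := by exact_mod_cast hp.pos
  have hrho : rho b m p - 1 = (χ : ℝ) * ((N4 : ℝ) - 1) / p := by
    have h1 : (N3 b m p : ℝ) = (p : ℝ) ^ 2 + p * (χ : ℝ) * ((N4 : ℝ) - 1) := by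
      exact_mod_cast hN3
    rw [rho, h1]
    field_simp
    ring
  have hχabs : |(χ : ℝ)| = 1 := by
    rcases hχ1 with h1 | h1 <;> rw [h1] <;> norm_num
  have hN4le : N4 ≤ 4 := ConicAux.card4 c h hc0
  refine ⟨?_, ?_, ?_⟩
  · rw [hrho, abs_div, abs_mul, hχabs, one_mul, abs_of_pos hp0]
    refine div_le_div_of_nonneg_right ?_ hp0.le
    have h1 : (N4 : ℝ) ≤ 4 := by exact_mod_cast hN4le
    have h2' : (0 : ℝ) ≤ N4 := Nat.cast_nonneg _
    rw [abs_le]
    constructor <;> linarith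
  · intro hd
    have h0 : h = 0 := by
      rw [hh, ZMod.intCast_zmod_eq_zero_iff_dvd]
      exact Dvd.dvd.mul_left hd _
    have h1 : N4 = 1 := by
      rw [hN4, h0]
      exact ConicAux.card_zero c hc0
    rw [h1] at hrho
    have h2' : rho b m p - 1 = 0 := by
      rw [hrho]
      norm_num
    linarith
  · intro h3
    have h1 : N4 ≤ 2 := by
      subst h3
      exact ConicAux.card3 c h hc0
    have h1' : (N4 : ℝ) ≤ 2 := by exact_mod_cast h1
    have h2' : (0 : ℝ) ≤ N4 := Nat.cast_nonneg _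
    have h4 : |rho b m p - 1| ≤ 1 / 3 := by
      rw [hrho, abs_div, abs_mul, hχabs, one_mul, abs_of_pos hp0, h3]
      push_cast
      refine div_le_div_of_nonneg_right ?_ (by norm_num)
      rw [abs_le]
      constructor <;> linarith
    have h5' := (abs_le.1 h4).1
    linarith

end Pool.Agent.Lib.TSP
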