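import Pool.Agent.Lib.TSP.Hen

/-!
# TSP.Sng: prime powers (1.5 h)
Let `p` be prime, `p ∤ 70`, `q = p^j`, `p ∤ 2c` (`c = cc b`). Note `p ∣ 14A ↔ p ∣ A`, `p ∣ 10B ↔ p ∣ B`, `p ∣ 8ck³ ↔ p ∣ k`.
PROOF. (a) `p ∤ h`: no solution modulo `p^j`, `j ≥ 1`, has `p ∣ A, B, k`: `Mc = Mn`, `hensel`. (b) `p ∣ h`, `j ≥ 1`: nonsingular part: `Mn c h p p = Mc c h p - 1` (the only
singular triple modulo `p` is `0`), so with `hρ : Mc c h p = p²`: `Mn c h p (p^j) = p^(2(j-1)) (p² - 1)`. (c) singular part `Mc - Mn` at `p^j`, `j ≥ 2`: `A = pA₁, B = pB₁, k = pk₁`,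
`A₁, B₁, k₁ < p^(j-1)`, condition `p^j ∣ p²(7A₁² + 5B₁²) + 2cp⁴k₁⁴ - h`: empty if `p² ∤ h`; if `h = p²h₂` it is `p^(j-2) ∣ 7A₁²+5B₁²+2cp²k₁⁴ - h₂`, and the number of triples in
`range (p^(j-1))³` is `p³ Mc (c p²) h₂ (p^(j-2))`. (d) `c' = c p²`, `p² ∤ h₂`: `Mc c' h₂ 1 = 1`; `Mc c' h₂ p ≤ 2p²` (`7A² + 5B² ≡ h₂`: for each `A` at most 2 `B`; `k` free);
for `i ≥ 2` a solution modulo `p^i` with `p ∣ A, B` would give `p² ∣ h₂`, so `Mc c' h₂ (p^i) = Mn c' h₂ p (p^i) = p^(2(i-1)) Mn c' h₂ p p ≤ p^(2(i-1)) Mc c' h₂ p`.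
-/

set_option autoImplicit false

open Finset

namespace Pool.Agent.Lib.TSP

namespace SngAux

theorem pint {p : ℕ} (hp : p.Prime) : Prime (p : ℤ) := Nat.prime_iff_prime_int.1 hp

theorem not_dvd_of {p : ℕ} (h70 : ¬ p ∣ 70) {m : ℕ} (hm : m ∣ 70) : ¬ (p : ℤ) ∣ (m : ℤ) := by
  intro h
  exact h70 ((Int.natCast_dvd_natCast.1 h).trans hm)

theorem dvd14 {p : ℕ} (hp : p.Prime) (h70 : ¬ p ∣ 70) (a : ℤ) : (p : ℤ) ∣ 14 * a ↔ (p : ℤ) ∣ a := by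
  constructor
  · intro h
    rcases (pint hp).dvd_or_dvd h with h1 | h1
    · exact absurd h1 (not_dvd_of h70 (m := 14) (by norm_num))
    · exact h1
  · exact fun h => h.mul_left _

theorem dvd10 {p : ℕ} (hp : p.Prime) (h70 : ¬ p ∣ 70) (a : ℤ) : (p : ℤ) ∣ 10 * a ↔ (p : ℤ) ∣ a := by
  constructor
  · intro h
    rcases (pint hp).dvd_or_dvd h with h1 | h1
    · exact absurd h1 (not_dvd_of h70 (m := 10) (by norm_num))
    · exact h1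
  · exact fun h => h.mul_left _

theorem dvd8 {p : ℕ} (hp : p.Prime) (h70 : ¬ p ∣ 70) {c : ℤ} (hc : ¬ (p : ℤ) ∣ 2 * c) (k : ℤ) :
    (p : ℤ) ∣ 8 * c * k ^ 3 ↔ (p : ℤ) ∣ k := by
  constructor
  · intro h
    have e : 8 * c * k ^ 3 = 2 * (2 * ((2 * c) * k ^ 3)) := by ring
    rw [e] at h
    rcases (pint hp).dvd_or_dvd h with h1 | h1
    · exact absurd h1 (not_dvd_of h70 (m := 2) (by norm_num))
    · rcases (pint hp).dvd_or_dvd h1 with h2 | h2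
      · exact absurd h2 (not_dvd_of h70 (m := 2) (by norm_num))
      · rcases (pint hp).dvd_or_dvd h2 with h3 | h3
        · exact absurd h3 hc
        · exact (pint hp).dvd_of_dvd_pow h3
  · exact fun h => (h.pow (by norm_num)).mul_left _

/-- the number of singular solutions -/
def Ms (c h : ℤ) (p q : ℕ) : ℕ :=
  ((range q ×ˢ (range q ×ˢ range q)).filter fun s =>
    (q : ℤ) ∣ 7 * (s.1 : ℤ) ^ 2 + 5 * (s.2.1 : ℤ) ^ 2 + 2 * c * (s.2.2 : ℤ) ^ 4 - h ∧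
    ((p : ℤ) ∣ 14 * (s.1 : ℤ) ∧ (p : ℤ) ∣ 10 * (s.2.1 : ℤ) ∧ (p : ℤ) ∣ 8 * c * (s.2.2 : ℤ) ^ 3)).card

theorem split (c h : ℤ) (p q : ℕ) : Mc c h q = Mn c h p q + Ms c h p q := by
  unfold Mc Mn Ms
  rw [← Finset.card_union_of_disjoint]
  · congr 1
    ext s
    simp only [Finset.mem_union, Finset.mem_filter]
    tauto
  · rw [Finset.disjoint_left]
    intro s h1 h2
    rw [Finset.mem_filter] at h1 h2
    exact h1.2.2 h2.2.2

theorem Mn_le (c h : ℤ) (p q : ℕ) : Mn c h p q ≤ Mc c h q := by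
  rw [split c h p q]
  exact Nat.le_add_right _ _

theorem pow_hensel {p : ℕ} (hp : p.Prime) (c h : ℤ) (j : ℕ) :
    Mn c h p (p ^ (j + 1)) = p ^ (2 * j) * Mn c h p p := by
  induction j with
  | zero => simp
  | succ j ih =>
    rw [hensel hp c h (j := j + 1) (by omega), ih]
    ring

theorem cube_lt {q : ℕ} {s : ℕ × ℕ × ℕ} (h : s ∈ range q ×ˢ (range q ×ˢ range q)) :
    s.1 < q ∧ s.2.1 < q ∧ s.2.2 < q := by
  simpa [Finset.mem_product] using h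

theorem lt_cube {q : ℕ} {s : ℕ × ℕ × ℕ} (h : s.1 < q ∧ s.2.1 < q ∧ s.2.2 < q) :
    s ∈ range q ×ˢ (range q ×ˢ range q) := by
  simpa [Finset.mem_product] using h

theorem Ms_p {p : ℕ} (hp : p.Prime) (h70 : ¬ p ∣ 70) (c h : ℤ) (hh : (p : ℤ) ∣ h)
    (hc : ¬ (p : ℤ) ∣ 2 * c) : Ms c h p p = 1 := by
  unfold Ms
  rw [Finset.card_eq_one]
  refine ⟨(0, 0, 0), ?_⟩
  ext s
  rw [Finset.mem_filter, Finset.mem_singleton]
  constructor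
  · rintro ⟨h1, -, h2, h3, h4⟩
    obtain ⟨a1, a2, a3⟩ := cube_lt h1
    rw [dvd14 hp h70] at h2
    rw [dvd10 hp h70] at h3
    rw [dvd8 hp h70 hc] at h4
    have b1 := Nat.eq_zero_of_dvd_of_lt (Int.natCast_dvd_natCast.1 h2) a1
    have b2 := Nat.eq_zero_of_dvd_of_lt (Int.natCast_dvd_natCast.1 h3) a2
    have b3 := Nat.eq_zero_of_dvd_of_lt (Int.natCast_dvd_natCast.1 h4) a3
    exact Prod.ext b1 (Prod.ext b2 b3)
  · rintro rfl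
    refine ⟨lt_cube ⟨hp.pos, hp.pos, hp.pos⟩, ?_, ?_⟩
    · simpa using hh
    · simp

/-- the singular solutions modulo `p^(j+2)` -/
theorem Ms_scale {p : ℕ} (hp : p.Prime) (h70 : ¬ p ∣ 70) (c h : ℤ)
    (hc : ¬ (p : ℤ) ∣ 2 * c) (j : ℕ) : Ms c h p (p ^ (j + 2)) =
      ((range (p ^ (j + 1)) ×ˢ (range (p ^ (j + 1)) ×ˢ range (p ^ (j + 1)))).filter fun s =>
        ((p ^ (j + 2) : ℕ) : ℤ) ∣ 7 * ((p * s.1 : ℕ) : ℤ) ^ 2 + 5 * ((p * s.2.1 : ℕ) : ℤ) ^ 2 +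
          2 * c * ((p * s.2.2 : ℕ) : ℤ) ^ 4 - h).card := by
  unfold Ms
  symm
  refine Finset.card_bij (fun s _ => (p * s.1, p * s.2.1, p * s.2.2)) ?_ ?_ ?_
  · intro s hs
    rw [Finset.mem_filter] at hs
    obtain ⟨h1, h2⟩ := hs
    obtain ⟨a1, a2, a3⟩ := cube_lt h1
    rw [Finset.mem_filter]
    refine ⟨lt_cube ?_, h2, ?_, ?_, ?_⟩
    · have e : p ^ (j + 2) = p * p ^ (j + 1) := by ring
      rw [e]
      exact ⟨Nat.mul_lt_mul_of_pos_left a1 hp.pos, Nat.mul_lt_mul_of_pos_left a2 hp.pos,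
        Nat.mul_lt_mul_of_pos_left a3 hp.pos⟩
    · rw [dvd14 hp h70]; push_cast; exact dvd_mul_right _ _
    · rw [dvd10 hp h70]; push_cast; exact dvd_mul_right _ _
    · rw [dvd8 hp h70 hc]; push_cast; exact dvd_mul_right _ _
  · intro s _ t _ hst
    simp only [Prod.mk.injEq] at hst
    exact Prod.ext (Nat.eq_of_mul_eq_mul_left hp.pos hst.1)
      (Prod.ext (Nat.eq_of_mul_eq_mul_left hp.pos hst.2.1)
        (Nat.eq_of_mul_eq_mul_left hp.pos hst.2.2))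
  · rintro ⟨A, B, k⟩ hs
    rw [Finset.mem_filter] at hs
    obtain ⟨h1, h2, h3, h4, h5⟩ := hs
    obtain ⟨a1, a2, a3⟩ := cube_lt h1
    rw [dvd14 hp h70] at h3
    rw [dvd10 hp h70] at h4
    rw [dvd8 hp h70 hc] at h5
    obtain ⟨A', hA⟩ := Int.natCast_dvd_natCast.1 h3
    obtain ⟨B', hB⟩ := Int.natCast_dvd_natCast.1 h4
    obtain ⟨k', hk⟩ := Int.natCast_dvd_natCast.1 h5
    simp only at hA hB hk a1 a2 a3 h2
    subst hA hB hk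
    have e : p ^ (j + 2) = p * p ^ (j + 1) := by ring
    rw [e] at a1 a2 a3
    refine ⟨(A', B', k'), ?_, rfl⟩
    rw [Finset.mem_filter]
    exact ⟨lt_cube ⟨Nat.lt_of_mul_lt_mul_left a1, Nat.lt_of_mul_lt_mul_left a2,
      Nat.lt_of_mul_lt_mul_left a3⟩, h2⟩

/-! ### periodic counting -/

theorem sum_period (f : ℕ → ℕ) (q : ℕ) (hf : ∀ a, f (a + q) = f a) (n : ℕ) :
    ∑ a ∈ range (n * q), f a = n * ∑ a ∈ range q, f a := by
  have h1 : ∀ (n a : ℕ), f (n * q + a) = f a := by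
    intro n
    induction n with
    | zero => intro a; simp
    | succ n ih =>
      intro a
      rw [show (n + 1) * q + a = (n * q + a) + q by ring, hf, ih]
  induction n with
  | zero => simp
  | succ n ih =>
    rw [Nat.succ_mul, Finset.sum_range_add, ih, Finset.sum_congr rfl (fun a _ => h1 n a)]
    ring

theorem cube_period (Q : ℕ → ℕ → ℕ → Prop) [∀ a b k, Decidable (Q a b k)] (q n : ℕ)
    (h1 : ∀ a b k, Q (a + q) b k ↔ Q a b k) (h2 : ∀ a b k, Q a (b + q) k ↔ Q a b k)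
    (h3 : ∀ a b k, Q a b (k + q) ↔ Q a b k) :
    ((range (n * q) ×ˢ (range (n * q) ×ˢ range (n * q))).filter
      fun s => Q s.1 s.2.1 s.2.2).card =
      n ^ 3 * ((range q ×ˢ (range q ×ˢ range q)).filter fun s => Q s.1 s.2.1 s.2.2).card := by
  simp only [Finset.card_filter, Finset.sum_product]
  have e3 : ∀ a b, ∑ k ∈ range (n * q), (if Q a b k then 1 else 0) =
      n * ∑ k ∈ range q, (if Q a b k then 1 else 0) := fun a b =>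
    sum_period (fun k => if Q a b k then 1 else 0) q (fun k => by simp only [h3]) n
  simp only [e3]
  have e2 : ∀ a, ∑ b ∈ range (n * q), n * ∑ k ∈ range q, (if Q a b k then 1 else 0) =
      n * ∑ b ∈ range q, n * ∑ k ∈ range q, (if Q a b k then 1 else 0) := fun a =>
    sum_period (fun b => n * ∑ k ∈ range q, (if Q a b k then 1 else 0)) q
      (fun b => by simp only [h2]) n
  simp only [e2]
  rw [sum_period (fun a => n * ∑ b ∈ range q, n * ∑ k ∈ range q, (if Q a b k then 1 else 0)) q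
    (fun a => by simp only [h1]) n]
  simp only [Finset.mul_sum]
  refine Finset.sum_congr rfl fun a _ => Finset.sum_congr rfl fun b _ =>
    Finset.sum_congr rfl fun k _ => ?_
  ring

theorem dvd_period (q : ℕ) (x y : ℤ) (h : (q : ℤ) ∣ x - y) : (q : ℤ) ∣ x ↔ (q : ℤ) ∣ y :=
  dvd_iff_dvd_of_dvd_sub h

/-! ### the bound modulo `p` -/

theorem two_roots {p : ℕ} (hp : p.Prime) (h70 : ¬ p ∣ 70) (h₂ : ℤ) (A : ℕ) :
    ((range p).filter fun B : ℕ => (p : ℤ) ∣ 7 * (A : ℤ) ^ 2 + 5 * (B : ℤ) ^ 2 - h₂).card ≤ 2 := by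
  rcases Finset.eq_empty_or_nonempty
    ((range p).filter fun B : ℕ => (p : ℤ) ∣ 7 * (A : ℤ) ^ 2 + 5 * (B : ℤ) ^ 2 - h₂) with h | h
  · rw [h]; simp
  · obtain ⟨B0, hB0⟩ := h
    rw [Finset.mem_filter, Finset.mem_range] at hB0
    refine (Finset.card_le_card (t := {B0, p - B0}) ?_).trans Finset.card_le_two
    intro B hB
    rw [Finset.mem_filter, Finset.mem_range] at hB
    rw [Finset.mem_insert, Finset.mem_singleton]
    have h1 := dvd_sub hB.2 hB0.2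
    have e : 7 * (A : ℤ) ^ 2 + 5 * (B : ℤ) ^ 2 - h₂ - (7 * (A : ℤ) ^ 2 + 5 * (B0 : ℤ) ^ 2 - h₂) =
        5 * (((B : ℤ) - B0) * ((B : ℤ) + B0)) := by ring
    rw [e] at h1
    rcases (pint hp).dvd_or_dvd h1 with h2 | h2
    · exact absurd h2 (not_dvd_of h70 (m := 5) (by norm_num))
    · rcases (pint hp).dvd_or_dvd h2 with h3 | h3
      · left
        have h4 : ((B : ℤ) - B0) = 0 := by
          refine Int.eq_zero_of_abs_lt_dvd h3 ?_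
          rw [abs_lt]
          constructor <;> omega
        omega
      · have h4 : p ∣ B + B0 := by exact_mod_cast h3
        obtain ⟨m, hm⟩ := h4
        have hm2 : m < 2 := by
          by_contra hcon
          push Not at hcon
          have : p * 2 ≤ p * m := Nat.mul_le_mul_left p hcon
          omega
        interval_cases m
        · left; omega
        · right; omega

end SngAux

open SngAux

/-- (a) -/
theorem sng_a {p : ℕ} (hp : p.Prime) (h70 : ¬ p ∣ 70) (c h : ℤ) (hh : ¬ (p : ℤ) ∣ h) (hc : ¬ (p : ℤ) ∣ 2 * c)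
    (j : ℕ) : Mc c h (p ^ (j + 1)) = p ^ (2 * j) * Mc c h p := by
  have key : ∀ i, Mc c h (p ^ (i + 1)) = Mn c h p (p ^ (i + 1)) := by
    intro i
    rw [split c h p]
    have h0 : Ms c h p (p ^ (i + 1)) = 0 := by
      unfold Ms
      rw [Finset.card_eq_zero, Finset.filter_eq_empty_iff]
      rintro s - ⟨h1, h2, h3, h4⟩
      rw [dvd14 hp h70] at h2
      rw [dvd10 hp h70] at h3
      rw [dvd8 hp h70 hc] at h4
      apply hh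
      have h5 : (p : ℤ) ∣ ((p ^ (i + 1) : ℕ) : ℤ) := by
        push_cast
        exact dvd_pow_self _ (by omega)
      have h6 := h5.trans h1
      have h7 : (p : ℤ) ∣ 7 * (s.1 : ℤ) ^ 2 + 5 * (s.2.1 : ℤ) ^ 2 + 2 * c * (s.2.2 : ℤ) ^ 4 :=
        ((h2.pow (by norm_num)).mul_left _ |>.add ((h3.pow (by norm_num)).mul_left _)).add
          ((h4.pow (by norm_num)).mul_left _)
      exact (dvd_sub_right h7).1 h6
    rw [h0, add_zero]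
  have h1 := key 0
  rw [zero_add, pow_one] at h1
  rw [key j, pow_hensel hp, h1]

/-- (b), (c), case `p² ∤ h` -/
theorem sng_b {p : ℕ} (hp : p.Prime) (h70 : ¬ p ∣ 70) (c h : ℤ) (hh : (p : ℤ) ∣ h) (hh2 : ¬ (p : ℤ) ^ 2 ∣ h)
    (hc : ¬ (p : ℤ) ∣ 2 * c) (hρ : Mc c h p = p ^ 2) (j : ℕ) :
    Mc c h (p ^ (j + 2)) = p ^ (2 * (j + 1)) * (p ^ 2 - 1) := by
  have h1 := split c h p p
  rw [Ms_p hp h70 c h hh hc, hρ] at h1
  have h2 : Mn c h p p = p ^ 2 - 1 := by omega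
  rw [split c h p, Ms_scale hp h70 c h hc, show j + 2 = (j + 1) + 1 by ring, pow_hensel hp, h2]
  have h0 : ((range (p ^ (j + 1)) ×ˢ (range (p ^ (j + 1)) ×ˢ range (p ^ (j + 1)))).filter fun s =>
        ((p ^ (j + 1 + 1) : ℕ) : ℤ) ∣ 7 * ((p * s.1 : ℕ) : ℤ) ^ 2 + 5 * ((p * s.2.1 : ℕ) : ℤ) ^ 2 +
          2 * c * ((p * s.2.2 : ℕ) : ℤ) ^ 4 - h).card = 0 := by
    rw [Finset.card_eq_zero, Finset.filter_eq_empty_iff]
    rintro s - h3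
    apply hh2
    have h5 : (p : ℤ) ^ 2 ∣ ((p ^ (j + 1 + 1) : ℕ) : ℤ) := by
      push_cast
      exact pow_dvd_pow _ (by omega)
    have h6 := h5.trans h3
    have h7 : (p : ℤ) ^ 2 ∣ 7 * ((p * s.1 : ℕ) : ℤ) ^ 2 + 5 * ((p * s.2.1 : ℕ) : ℤ) ^ 2 +
          2 * c * ((p * s.2.2 : ℕ) : ℤ) ^ 4 := by
      refine ⟨7 * (s.1 : ℤ) ^ 2 + 5 * (s.2.1 : ℤ) ^ 2 + 2 * c * (p : ℤ) ^ 2 * (s.2.2 : ℤ) ^ 4, ?_⟩
      push_cast
      ring
    exact (dvd_sub_right h7).1 h6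
  rw [h0, add_zero]

/-- (b), (c), case `h = p² h₂` -/
theorem sng_c {p : ℕ} (hp : p.Prime) (h70 : ¬ p ∣ 70) (c h₂ : ℤ) (hc : ¬ (p : ℤ) ∣ 2 * c)
    (hρ : Mc c ((p : ℤ) ^ 2 * h₂) p = p ^ 2) (j : ℕ) :
    Mc c ((p : ℤ) ^ 2 * h₂) (p ^ (j + 2)) =
      p ^ (2 * (j + 1)) * (p ^ 2 - 1) + p ^ 3 * Mc (c * (p : ℤ) ^ 2) h₂ (p ^ j) := by
  have hh : (p : ℤ) ∣ (p : ℤ) ^ 2 * h₂ := ⟨(p : ℤ) * h₂, by ring⟩
  have h1 := split c ((p : ℤ) ^ 2 * h₂) p p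
  rw [Ms_p hp h70 c _ hh hc, hρ] at h1
  have h2 : Mn c ((p : ℤ) ^ 2 * h₂) p p = p ^ 2 - 1 := by omega
  rw [split c _ p, Ms_scale hp h70 c _ hc, show j + 2 = (j + 1) + 1 by ring, pow_hensel hp, h2]
  congr 1
  have hp0 : (p : ℤ) ^ 2 ≠ 0 := pow_ne_zero _ (by exact_mod_cast hp.ne_zero)
  have e1 : ((range (p ^ (j + 1)) ×ˢ (range (p ^ (j + 1)) ×ˢ range (p ^ (j + 1)))).filter fun s =>
        ((p ^ (j + 1 + 1) : ℕ) : ℤ) ∣ 7 * ((p * s.1 : ℕ) : ℤ) ^ 2 + 5 * ((p * s.2.1 : ℕ) : ℤ) ^ 2 +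
          2 * c * ((p * s.2.2 : ℕ) : ℤ) ^ 4 - (p : ℤ) ^ 2 * h₂) =
      ((range (p * p ^ j) ×ˢ (range (p * p ^ j) ×ˢ range (p * p ^ j))).filter fun s =>
        ((p ^ j : ℕ) : ℤ) ∣ 7 * (s.1 : ℤ) ^ 2 + 5 * (s.2.1 : ℤ) ^ 2 +
          2 * (c * (p : ℤ) ^ 2) * (s.2.2 : ℤ) ^ 4 - h₂) := by
    rw [show p ^ (j + 1) = p * p ^ j by ring]
    refine Finset.filter_congr fun s _ => ?_
    have e2 : 7 * ((p * s.1 : ℕ) : ℤ) ^ 2 + 5 * ((p * s.2.1 : ℕ) : ℤ) ^ 2 +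
          2 * c * ((p * s.2.2 : ℕ) : ℤ) ^ 4 - (p : ℤ) ^ 2 * h₂ =
        (p : ℤ) ^ 2 * (7 * (s.1 : ℤ) ^ 2 + 5 * (s.2.1 : ℤ) ^ 2 +
          2 * (c * (p : ℤ) ^ 2) * (s.2.2 : ℤ) ^ 4 - h₂) := by
      push_cast
      ring
    have e3 : ((p ^ (j + 1 + 1) : ℕ) : ℤ) = (p : ℤ) ^ 2 * ((p ^ j : ℕ) : ℤ) := by
      push_cast
      ring
    rw [e2, e3]
    exact mul_dvd_mul_iff_left hp0
  rw [e1]
  unfold Mc
  refine cube_period (fun a b k => ((p ^ j : ℕ) : ℤ) ∣ 7 * (a : ℤ) ^ 2 + 5 * (b : ℤ) ^ 2 +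
          2 * (c * (p : ℤ) ^ 2) * (k : ℤ) ^ 4 - h₂) (p ^ j) p ?_ ?_ ?_
  · intro a b k
    refine dvd_period _ _ _ ⟨7 * (2 * (a : ℤ) + ((p ^ j : ℕ) : ℤ)), ?_⟩
    push_cast
    ring
  · intro a b k
    refine dvd_period _ _ _ ⟨5 * (2 * (b : ℤ) + ((p ^ j : ℕ) : ℤ)), ?_⟩
    push_cast
    ring
  · intro a b k
    refine dvd_period _ _ _ ⟨2 * (c * (p : ℤ) ^ 2) * (4 * (k : ℤ) ^ 3 +
      6 * (k : ℤ) ^ 2 * ((p ^ j : ℕ) : ℤ) + 4 * (k : ℤ) * ((p ^ j : ℕ) : ℤ) ^ 2 +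
      ((p ^ j : ℕ) : ℤ) ^ 3), ?_⟩
    push_cast
    ring

/-- (d) -/
theorem sng_d {p : ℕ} (hp : p.Prime) (h70 : ¬ p ∣ 70) (c h₂ : ℤ) (hh : ¬ (p : ℤ) ^ 2 ∣ h₂) :
    Mc (c * (p : ℤ) ^ 2) h₂ 1 = 1 ∧ Mc (c * (p : ℤ) ^ 2) h₂ p ≤ 2 * p ^ 2 ∧
    (∀ i : ℕ, Mc (c * (p : ℤ) ^ 2) h₂ (p ^ (i + 2)) ≤ 2 * p ^ (2 * (i + 2))) ∧
    (∀ i : ℕ, Mc (c * (p : ℤ) ^ 2) h₂ (p ^ (i + 3)) = p ^ 2 * Mc (c * (p : ℤ) ^ 2) h₂ (p ^ (i + 2))) := by
  have hbd : Mc (c * (p : ℤ) ^ 2) h₂ p ≤ 2 * p ^ 2 := by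
    unfold Mc
    simp only [Finset.card_filter, Finset.sum_product]
    have e : ∀ A B k : ℕ, ((p : ℤ) ∣ 7 * (A : ℤ) ^ 2 + 5 * (B : ℤ) ^ 2 +
        2 * (c * (p : ℤ) ^ 2) * (k : ℤ) ^ 4 - h₂) ↔
        ((p : ℤ) ∣ 7 * (A : ℤ) ^ 2 + 5 * (B : ℤ) ^ 2 - h₂) := by
      intro A B k
      refine dvd_period _ _ _ ⟨2 * c * (p : ℤ) * (k : ℤ) ^ 4, ?_⟩
      ring
    simp only [e]
    have e2 : ∀ A B : ℕ, (∑ _k ∈ range p,
        (if (p : ℤ) ∣ 7 * (A : ℤ) ^ 2 + 5 * (B : ℤ) ^ 2 - h₂ then 1 else 0)) =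
        p * (if (p : ℤ) ∣ 7 * (A : ℤ) ^ 2 + 5 * (B : ℤ) ^ 2 - h₂ then 1 else 0) := by
      intro A B
      rw [Finset.sum_const, Finset.card_range, smul_eq_mul]
    simp only [e2, ← Finset.mul_sum]
    calc p * ∑ A ∈ range p, ∑ B ∈ range p,
          (if (p : ℤ) ∣ 7 * (A : ℤ) ^ 2 + 5 * (B : ℤ) ^ 2 - h₂ then 1 else 0)
        ≤ p * ∑ _A ∈ range p, 2 := by
          refine Nat.mul_le_mul_left p (Finset.sum_le_sum fun A _ => ?_)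
          rw [← Finset.card_filter]
          exact two_roots hp h70 h₂ A
      _ = 2 * p ^ 2 := by
          rw [Finset.sum_const, Finset.card_range, smul_eq_mul]
          ring
  have key : ∀ i, Mc (c * (p : ℤ) ^ 2) h₂ (p ^ (i + 2)) =
      Mn (c * (p : ℤ) ^ 2) h₂ p (p ^ (i + 2)) := by
    intro i
    rw [split _ _ p]
    have h0 : Ms (c * (p : ℤ) ^ 2) h₂ p (p ^ (i + 2)) = 0 := by
      unfold Ms
      rw [Finset.card_eq_zero, Finset.filter_eq_empty_iff]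
      rintro s - ⟨h1, h2, h3, -⟩
      rw [dvd14 hp h70] at h2
      rw [dvd10 hp h70] at h3
      apply hh
      have h5 : (p : ℤ) ^ 2 ∣ ((p ^ (i + 2) : ℕ) : ℤ) := by
        push_cast
        exact pow_dvd_pow _ (by omega)
      have h6 := h5.trans h1
      have h7 : (p : ℤ) ^ 2 ∣ 7 * (s.1 : ℤ) ^ 2 + 5 * (s.2.1 : ℤ) ^ 2 +
          2 * (c * (p : ℤ) ^ 2) * (s.2.2 : ℤ) ^ 4 := by
        refine ((pow_dvd_pow_of_dvd h2 2).mul_left _ |>.add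
          ((pow_dvd_pow_of_dvd h3 2).mul_left _)).add ?_
        exact ⟨2 * c * (s.2.2 : ℤ) ^ 4, by ring⟩
      exact (dvd_sub_right h7).1 h6
    rw [h0, add_zero]
  refine ⟨?_, hbd, ?_, ?_⟩
  · unfold Mc
    simp
  · intro i
    rw [key i, show i + 2 = (i + 1) + 1 by ring, pow_hensel hp]
    calc p ^ (2 * (i + 1)) * Mn (c * (p : ℤ) ^ 2) h₂ p p
        ≤ p ^ (2 * (i + 1)) * (2 * p ^ 2) :=
          Nat.mul_le_mul_left _ ((Mn_le _ _ _ _).trans hbd)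
      _ = 2 * p ^ (2 * (i + 1 + 1)) := by ring
  · intro i
    have h1 := key (i + 1)
    rw [show i + 1 + 2 = i + 3 by ring] at h1
    rw [h1, key i, show i + 3 = (i + 2) + 1 by ring]
    exact hensel hp _ _ (by omega)

end Pool.Agent.Lib.TSP
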