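import Pool.Agent.Lib.TSP.Conic
import Pool.Agent.Lib.TSP.Sng

/-!
# TSP.LocF: all local facts in one structure (1 h)
PROOF. `one, mul`: `A_one, A_mul`. `p = 2, 5, 7`: `A_257` (all terms `0`, the sum over `j < 5` is `1`). `p ∤ 70` (so `p = 3` or `p ≥ 11`), `h = 70 (4m + n1 b)`, `rho b m (p^j) = Mc (cc b) h (p^j)/p^(2j)` (`N3_eq`),
`p ∤ 2 cc b`, `A(p^(j+1)) = rho(p^(j+1)) - rho(p^j)`, `∑_{j<5} A(p^j) = rho(p⁴)`. If `p ∤ h`: `sng_a`: `rho(p^j) = rho(p)` for `j ≥ 1`, `rho_p`. If `p ∣ h`, `p² ∤ h`: `rho(1) = rho(p) = 1`,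
`rho(p^j) = 1 - p^(-2)` for `j ≥ 2` (`sng_b`). If `h = p²h₂` (`p² ∤ h₂` as `p⁴ ∤ h`; `p ∤ 70`): for `j ≥ 2` `rho(p^j) = 1 - p^(-2) + p^(-1) r_(j-2)`, `r_i = Mc(..)(p^i)/p^(2i) ∈ [0, 2]`, `r₀ = 1`,
`r_(i+1) = r_i` for `i ≥ 2`. So `|A(p)| = 0`, `|A(p²)| ≤ 1/p`, `|A(p^j)| ≤ 2/p` for `j ≥ 3`, `A(p^j) = 0` for `j ≥ 5`, `rho(p⁴) ≥ 1 - p^(-2)`.
(`p ∣ n` for `n = 4m + n1 b` iff `p ∣ h`.)
-/

set_option autoImplicit false

open Finset

namespace Pool.Agent.Lib.TSP

/-- The properties of the terms of the singular series used below. -/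
structure Good (a : ℕ → ℝ) (n : ℕ) : Prop where
  one : a 1 = 1
  mul : ∀ q q' : ℕ, Nat.Coprime q q' → a (q * q') = a q * a q'
  le : ∀ p : ℕ, p.Prime → ∀ j, 1 ≤ j → |a (p ^ j)| ≤ 3 / (p : ℝ)
  zero : ∀ p : ℕ, p.Prime → ∀ j, 5 ≤ j → a (p ^ j) = 0
  ndvd : ∀ p : ℕ, p.Prime → ¬ p ∣ n → ∀ j, 2 ≤ j → a (p ^ j) = 0
  low : ∀ p : ℕ, p.Prime → 1 - 3 / (p : ℝ) ≤ ∑ j ∈ range 5, a (p ^ j)
  low3 : ∀ p : ℕ, p.Prime → p ≤ 7 → 2 / 3 ≤ ∑ j ∈ range 5, a (p ^ j)

namespace LocFAux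

theorem prime_cases {p : ℕ} (hp : p.Prime) : (p = 2 ∨ p = 5 ∨ p = 7) ∨ ¬ p ∣ 70 := by
  by_cases h : p ∣ 70
  · left
    rw [show 70 = 2 * (5 * 7) by norm_num, hp.dvd_mul, hp.dvd_mul,
      Nat.prime_dvd_prime_iff_eq hp (by norm_num), Nat.prime_dvd_prime_iff_eq hp (by norm_num),
      Nat.prime_dvd_prime_iff_eq hp (by norm_num)] at h
    exact h
  · exact Or.inr h

theorem rho_eq (b : Bool) (m : ℤ) {p : ℕ} (hp : p.Prime) (h70 : ¬ p ∣ 70) (j : ℕ) :
    rho b m (p ^ j) = (Mc (cc b) (70 * (4 * m + n1 b)) (p ^ j) : ℝ) / (p : ℝ) ^ (2 * j) := by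
  have hc : Nat.Coprime (p ^ j) 70 := Nat.Coprime.pow_left _ ((Nat.Prime.coprime_iff_not_dvd hp).2 h70)
  rw [rho, N3_eq b m hc, Nat.cast_pow, ← pow_mul, mul_comm j 2]

theorem not_dvd_cc (b : Bool) {p : ℕ} (hp : p.Prime) (h70 : ¬ p ∣ 70) : ¬ (p : ℤ) ∣ 2 * cc b := by
  have h2 : ¬ p ∣ 2 := fun h => h70 (h.trans (by norm_num))
  intro h
  have h8 : (p : ℤ) ∣ ((2 ^ 3 : ℕ) : ℤ) := by
    refine h.trans ?_
    cases b
    · simp only [cc]
      norm_num
    · simp only [cc]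
      norm_num
  rw [Int.natCast_dvd_natCast] at h8
  exact h2 (hp.dvd_of_dvd_pow h8)

theorem dvd_h {b : Bool} {m : ℤ} {p : ℕ} (hp : p.Prime) (h70 : ¬ p ∣ 70) (k : ℕ) :
    (p : ℤ) ^ k ∣ 70 * (4 * m + n1 b) ↔ (p : ℤ) ^ k ∣ 4 * m + n1 b := by
  constructor
  · intro h
    have hc : IsCoprime ((p : ℤ) ^ k) 70 := by
      have : Nat.Coprime (p ^ k) 70 :=
        Nat.Coprime.pow_left _ ((Nat.Prime.coprime_iff_not_dvd hp).2 h70)
      have h2 := Nat.isCoprime_iff_coprime.2 this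
      exact_mod_cast h2
    exact hc.dvd_of_dvd_mul_left h
  · intro h
    exact h.mul_left _

theorem three_le {p : ℕ} (hp : p.Prime) (h70 : ¬ p ∣ 70) : 3 ≤ p := by
  have h2 := hp.two_le
  rcases h2.eq_or_lt with h | h
  · exact absurd (by rw [← h]; norm_num) h70
  · exact h

/-- telescoping -/
theorem sum5 (b : Bool) (m : ℤ) {p : ℕ} (hp : p.Prime) :
    ∑ j ∈ range 5, A b m (p ^ j) = rho b m (p ^ 4) := by
  rw [sum_range_succ', pow_zero, A_one]
  simp only [A_pp b m hp]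
  rw [sum_range_sub (fun j => rho b m (p ^ j)) 4, pow_zero, rho_one]
  ring

/-- the three cases at a prime not dividing 70 -/
theorem cases3 (b : Bool) (m : ℤ) {p : ℕ} (hp : p.Prime) (h70 : ¬ p ∣ 70)
    (hm : ¬ ((p : ℤ) ^ 4 ∣ 4 * m + n1 b)) :
    (¬ (p : ℤ) ∣ 4 * m + n1 b ∧ ∀ j, rho b m (p ^ (j + 1)) = rho b m p) ∨
    ((p : ℤ) ∣ 4 * m + n1 b ∧ rho b m p = 1 ∧ ∃ r : ℕ → ℝ, (∀ j, 0 ≤ r j ∧ r j ≤ 2) ∧ r 0 ≤ 1 ∧
      (∀ i, r (i + 3) = r (i + 2)) ∧
      ∀ j, rho b m (p ^ (j + 2)) = 1 - 1 / (p : ℝ) ^ 2 + r j / (p : ℝ)) := by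
  have hp0 : (0 : ℝ) < (p : ℝ) := by exact_mod_cast hp.pos
  have hp1 : (p : ℝ) ≠ 0 := hp0.ne'
  have hcc := not_dvd_cc b hp h70
  set h : ℤ := 70 * (4 * m + n1 b) with hh
  by_cases hd : (p : ℤ) ∣ 4 * m + n1 b
  · right
    have hρ1 := (rho_p b m hp h70).2.1 hd
    refine ⟨hd, hρ1, ?_⟩
    have hdh : (p : ℤ) ∣ h := hd.mul_left _
    have hMp : Mc (cc b) h p = p ^ 2 := by
      have h1 := rho_eq b m hp h70 1
      rw [pow_one, hρ1, mul_one, eq_div_iff (by positivity), one_mul] at h1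
      exact_mod_cast h1.symm
    have hp2 : 1 ≤ p ^ 2 := Nat.one_le_pow _ _ hp.pos
    by_cases hd2 : (p : ℤ) ^ 2 ∣ h
    · obtain ⟨h₂, hh₂⟩ := hd2
      have hnd : ¬ (p : ℤ) ^ 2 ∣ h₂ := by
        intro hcon
        apply hm
        rw [← dvd_h hp h70, ← hh, hh₂, show (p : ℤ) ^ 4 = (p : ℤ) ^ 2 * (p : ℤ) ^ 2 by ring]
        exact mul_dvd_mul_left _ hcon
      rw [hh₂] at hMp
      have hc := fun j => sng_c hp h70 (cc b) h₂ hcc hMp j
      obtain ⟨d0, d1, d2, d3⟩ := sng_d hp h70 (cc b) h₂ hnd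
      refine ⟨fun j => (Mc (cc b * (p : ℤ) ^ 2) h₂ (p ^ j) : ℝ) / (p : ℝ) ^ (2 * j), ?_, ?_, ?_, ?_⟩
      · intro j
        refine ⟨by positivity, ?_⟩
        rw [div_le_iff₀ (by positivity)]
        rcases j with _ | _ | j
        · rw [pow_zero, d0]
          norm_num
        · rw [zero_add, pow_one]
          have : ((Mc (cc b * (p : ℤ) ^ 2) h₂ p : ℕ) : ℝ) ≤ ((2 * p ^ 2 : ℕ) : ℝ) := by
            exact_mod_cast d1
          push_cast at this
          simpa using this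
        · have : ((Mc (cc b * (p : ℤ) ^ 2) h₂ (p ^ (j + 2)) : ℕ) : ℝ) ≤
              ((2 * p ^ (2 * (j + 2)) : ℕ) : ℝ) := by
            exact_mod_cast d2 j
          push_cast at this
          exact this
      · show (Mc (cc b * (p : ℤ) ^ 2) h₂ (p ^ 0) : ℝ) / (p : ℝ) ^ (2 * 0) ≤ 1
        rw [pow_zero, d0]
        norm_num
      · intro i
        show (Mc (cc b * (p : ℤ) ^ 2) h₂ (p ^ (i + 3)) : ℝ) / (p : ℝ) ^ (2 * (i + 3)) =
          (Mc (cc b * (p : ℤ) ^ 2) h₂ (p ^ (i + 2)) : ℝ) / (p : ℝ) ^ (2 * (i + 2))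
        rw [d3 i, div_eq_div_iff (by positivity) (by positivity)]
        push_cast
        ring
      · intro j
        rw [rho_eq b m hp h70, ← hh, hh₂, hc j]
        push_cast [Nat.cast_sub hp2]
        field_simp
        ring
    · refine ⟨fun _ => 0, fun _ => ⟨le_rfl, by norm_num⟩, by norm_num, fun _ => rfl, fun j => ?_⟩
      rw [rho_eq b m hp h70, ← hh, sng_b hp h70 (cc b) h hdh hd2 hcc hMp j]
      push_cast [Nat.cast_sub hp2]
      field_simp
      ring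
  · left
    refine ⟨hd, fun j => ?_⟩
    have hdh : ¬ (p : ℤ) ∣ h := by
      have := dvd_h (b := b) (m := m) hp h70 1
      rw [pow_one] at this
      rw [hh, this]
      exact hd
    have h1 := rho_eq b m hp h70 1
    rw [pow_one] at h1
    rw [rho_eq b m hp h70, h1, ← hh, sng_a hp h70 (cc b) h hdh hcc j,
      div_eq_div_iff (by positivity) (by positivity)]
    push_cast
    ring

end LocFAux

/-- `|A(p)| ≤ 3/p` for all `m`. -/
theorem A_p_le (b : Bool) (m : ℤ) {p : ℕ} (hp : p.Prime) : |A b m p| ≤ 3 / (p : ℝ) := by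
  rcases LocFAux.prime_cases hp with h | h
  · have h1 := A_257 b m h 0
    rw [zero_add, pow_one] at h1
    rw [h1, abs_zero]
    positivity
  · have h1 := A_pp b m hp 0
    rw [zero_add, pow_one, pow_zero, rho_one] at h1
    rw [h1]
    exact (rho_p b m hp h).1

theorem good (b : Bool) (m : ℕ) (hm : ∀ p : ℕ, p.Prime → Odd p → ¬ ((p : ℤ) ^ 4 ∣ 4 * m + n1 b)) :
    Good (A b m) (4 * m + (n1 b).toNat) := by
  have hodd : ∀ {p : ℕ}, p.Prime → ¬ p ∣ 70 → Odd p := by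
    intro p hp h70
    refine hp.odd_of_ne_two ?_
    rintro rfl
    exact h70 (by norm_num)
  have hdiv : ∀ {p : ℕ}, ¬ p ∣ 4 * m + (n1 b).toNat → ¬ (p : ℤ) ∣ 4 * (m : ℤ) + n1 b := by
    intro p h1 h2
    apply h1
    rw [← Int.natCast_dvd_natCast]
    have h3 : ((n1 b).toNat : ℤ) = n1 b := by
      refine Int.toNat_of_nonneg ?_
      cases b
      · simp [n1]
      · simp [n1]
    push_cast
    rw [h3]
    exact h2
  have h257 : ∀ {p : ℕ}, (p = 2 ∨ p = 5 ∨ p = 7) → ∀ j, 1 ≤ j → A b m (p ^ j) = 0 := by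
    intro p h j hj
    obtain ⟨k, rfl⟩ := Nat.exists_eq_add_of_le' hj
    exact A_257 b m h k
  have hsum : ∀ {p : ℕ}, (p = 2 ∨ p = 5 ∨ p = 7) → ∑ j ∈ range 5, A b m (p ^ j) = 1 := by
    intro p h
    rw [sum_range_succ', pow_zero, A_one, sum_eq_zero, zero_add]
    intro j _
    exact h257 h _ (by omega)
  have hlow : ∀ {p : ℕ}, p.Prime → ¬ p ∣ 70 →
      1 - 3 / (p : ℝ) ≤ rho b m (p ^ 4) ∧ (p = 3 → 2 / 3 ≤ rho b m (p ^ 4)) := by
    intro p hp h70
    have hp3 : (3 : ℝ) ≤ (p : ℝ) := by exact_mod_cast LocFAux.three_le hp h70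
    rcases LocFAux.cases3 b m hp h70 (hm p hp (hodd hp h70)) with ⟨_, h⟩ | ⟨_, _, r, hr, _, _, h⟩
    · rw [h 3]
      obtain ⟨h1, _, h3⟩ := rho_p b m hp h70
      rw [abs_le] at h1
      exact ⟨by linarith [h1.1], h3⟩
    · have h1 : 1 - 1 / (p : ℝ) ^ 2 ≤ rho b m (p ^ 4) := by
        rw [h 2]
        have : 0 ≤ r 2 / (p : ℝ) := div_nonneg (hr 2).1 (by linarith)
        linarith
      constructor
      · refine le_trans ?_ h1
        have : 1 / (p : ℝ) ^ 2 ≤ 3 / (p : ℝ) := by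
          rw [div_le_div_iff₀ (by positivity) (by positivity)]
          nlinarith
        linarith
      · intro h3
        refine le_trans ?_ h1
        rw [h3]
        norm_num
  constructor
  · exact A_one b m
  · exact fun q q' h => A_mul b m h
  · intro p hp j hj
    rcases LocFAux.prime_cases hp with h | h70
    · rw [h257 h j hj, abs_zero]
      positivity
    · have hp3 : (3 : ℝ) ≤ (p : ℝ) := by exact_mod_cast LocFAux.three_le hp h70
      obtain ⟨k, rfl⟩ := Nat.exists_eq_add_of_le' hj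
      rcases k with _ | k
      · have := A_p_le b m hp
        simpa using this
      rw [A_pp b m hp]
      rcases LocFAux.cases3 b m hp h70 (hm p hp (hodd hp h70)) with ⟨_, h⟩ | ⟨_, h1, r, hr, hr0, _, h⟩
      · rw [h (k + 1), h k, sub_self, abs_zero]
        positivity
      · rcases k with _ | k
        · rw [h 0, zero_add, pow_one, h1]
          have e1 := hr 0
          have h2 : 0 ≤ r 0 / (p : ℝ) := div_nonneg e1.1 (by linarith)
          have h3 : r 0 / (p : ℝ) ≤ 1 / p := div_le_div_of_nonneg_right hr0 (by linarith)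
          have h4 : 1 / (p : ℝ) ^ 2 ≤ 1 / (p : ℝ) := by
            rw [div_le_div_iff₀ (by positivity) (by positivity)]
            nlinarith
          have h5 : 0 ≤ 1 / (p : ℝ) ^ 2 := by positivity
          have h6 : 3 / (p : ℝ) = 3 * (1 / p) := by ring
          have h7 : 0 ≤ 1 / (p : ℝ) := by positivity
          rw [abs_le]
          constructor <;> linarith
        · rw [h (k + 1), show k + 1 + 1 = k + 2 by ring, h k]
          have e1 := hr (k + 1)
          have e2 := hr k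
          have h2 : 1 - 1 / (p : ℝ) ^ 2 + r (k + 1) / (p : ℝ) - (1 - 1 / (p : ℝ) ^ 2 + r k / (p : ℝ)) =
              (r (k + 1) - r k) / p := by ring
          rw [h2, abs_div, abs_of_pos (by linarith : (0 : ℝ) < p)]
          refine div_le_div_of_nonneg_right ?_ (by linarith)
          rw [abs_le]
          constructor <;> linarith
  · intro p hp j hj
    rcases LocFAux.prime_cases hp with h | h70
    · exact h257 h j (by omega)
    · obtain ⟨k, rfl⟩ := Nat.exists_eq_add_of_le' hj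
      rw [show k + 5 = (k + 4) + 1 by ring, A_pp b m hp]
      rcases LocFAux.cases3 b m hp h70 (hm p hp (hodd hp h70)) with ⟨_, h⟩ | ⟨_, _, r, _, _, hr, h⟩
      · rw [h (k + 4), show k + 4 = (k + 3) + 1 by ring, h (k + 3), sub_self]
      · rw [show k + 4 + 1 = (k + 3) + 2 by ring, h (k + 3), show k + 4 = (k + 2) + 2 by ring,
          h (k + 2), hr k, sub_self]
  · intro p hp hnd j hj
    rcases LocFAux.prime_cases hp with h | h70
    · exact h257 h j (by omega)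
    · obtain ⟨k, rfl⟩ := Nat.exists_eq_add_of_le' hj
      rw [show k + 2 = (k + 1) + 1 by ring, A_pp b m hp]
      rcases LocFAux.cases3 b m hp h70 (hm p hp (hodd hp h70)) with ⟨_, h⟩ | ⟨hd, _⟩
      · rw [h (k + 1), h k, sub_self]
      · exact absurd hd (hdiv hnd)
  · intro p hp
    rcases LocFAux.prime_cases hp with h | h70
    · rw [hsum h]
      have : 0 ≤ 3 / (p : ℝ) := by positivity
      linarith
    · rw [LocFAux.sum5 b m hp]
      exact (hlow hp h70).1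
  · intro p hp hp7
    rcases LocFAux.prime_cases hp with h | h70
    · rw [hsum h]
      norm_num
    · rw [LocFAux.sum5 b m hp]
      refine (hlow hp h70).2 ?_
      have h3 := LocFAux.three_le hp h70
      interval_cases p
      · rfl
      · exact absurd hp (by norm_num)
      · exact absurd (by norm_num) h70
      · exact absurd hp (by norm_num)
      · exact absurd (by norm_num) h70

end Pool.Agent.Lib.TSP
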