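import Pool.Agent.Lib.TSP.Ex

/-!
# TSP.Rho: densities, multiplicativity (1.2 h)
PROOF. `N3_mul`: Chinese remainder theorem: for `q, q' ≥ 1` coprime `s ↦ (s mod q, s mod q')` (componentwise) is a bijection `range (qq')³ → range q ³ × range q' ³`
(`Nat.chineseRemainder`, or `ZMod.chineseRemainder`), polynomials respect congruences, and `qq' ∣ x ↔ q ∣ x ∧ q' ∣ x`. If `q = 0` then `q' = 1` and both sides are `0`.
`A_mul`: `rho b m` as an arithmetic function (value `0` at `0`: `N3 b m 0 = 0`, so `rho b m 0 = 0`) is multiplicative, `A b m = μ * rho` is multiplicative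
(`ArithmeticFunction.IsMultiplicative.mul`, `isMultiplicative_moebius`), also at `q = 0` (empty sum of divisors, coprime to `0` means `1`, `A_one`).
`A_pp`: `Nat.divisors_prime_pow`, `μ(1) = 1`, `μ(p) = -1`, `μ(p^i) = 0` for `i ≥ 2`. `A_per`: `N3` depends on `m mod q`, `d ∣ q`.
`A_sum`: `A b m p = rho b m p - 1`, `∑_{m<p} N3 b m p = p³` (each triple has exactly one `m`).
-/

set_option autoImplicit false

open Finset

namespace Pool.Agent.Lib.TSP

namespace RhoAux

/-- the polynomial -/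
def Q (b : Bool) (x y t : ℤ) : ℤ := qp 490 (v1 b) x + qp 350 (v2 b) y + P3 b t

theorem Q_congr (b : Bool) {k x y t x' y' t' : ℤ} (hx : k ∣ x - x') (hy : k ∣ y - y')
    (ht : k ∣ t - t') : k ∣ Q b x y t - Q b x' y' t' := by
  obtain ⟨c, hc⟩ := hx
  obtain ⟨d, hd⟩ := hy
  obtain ⟨f, hf⟩ := ht
  have h1 : qp 490 (v1 b) x - qp 490 (v1 b) x' = (x - x') * (490 * (x + x') + v1 b) := by
    unfold qp; ring
  have h2 : qp 350 (v2 b) y - qp 350 (v2 b) y' = (y - y') * (350 * (y + y') + v2 b) := by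
    unfold qp; ring
  have h3 : ∃ g : ℤ, P3 b t - P3 b t' = (t - t') * g := by
    cases b
    · refine ⟨32 + 3360 * (t + t') + 156800 * (t ^ 2 + t * t' + t' ^ 2) +
        2744000 * (t ^ 3 + t ^ 2 * t' + t * t' ^ 2 + t' ^ 3), ?_⟩
      simp only [P3]
      norm_num
      ring
    · refine ⟨16 + 3360 * (t + t') + 313600 * (t ^ 2 + t * t' + t' ^ 2) +
        10976000 * (t ^ 3 + t ^ 2 * t' + t * t' ^ 2 + t' ^ 3), ?_⟩
      simp only [P3]
      norm_num
      ring
  obtain ⟨g, hg⟩ := h3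
  refine ⟨c * (490 * (x + x') + v1 b) + d * (350 * (y + y') + v2 b) + f * g, ?_⟩
  have : Q b x y t - Q b x' y' t' = (qp 490 (v1 b) x - qp 490 (v1 b) x') +
      (qp 350 (v2 b) y - qp 350 (v2 b) y') + (P3 b t - P3 b t') := by unfold Q; ring
  rw [this, h1, h2, hg, hc, hd, hf]
  ring

theorem dvd_congr (b : Bool) {k x y t x' y' t' m m' : ℤ} (hx : k ∣ x - x') (hy : k ∣ y - y')
    (ht : k ∣ t - t') (hm : k ∣ m - m') :
    (k ∣ Q b x y t - m ↔ k ∣ Q b x' y' t' - m') := by
  have h := dvd_sub (Q_congr b hx hy ht) hm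
  have e1 : Q b x y t - Q b x' y' t' - (m - m') = (Q b x y t - m) - (Q b x' y' t' - m') := by ring
  rw [e1] at h
  constructor
  · intro h2
    have := dvd_sub h2 h
    simpa using this
  · intro h2
    have := dvd_add h h2
    simpa using this

/-- the solution set -/
def T (b : Bool) (m : ℤ) (q : ℕ) : Finset (ℕ × (ℕ × ℕ)) :=
  (range q ×ˢ (range q ×ˢ range q)).filter fun s => (q : ℤ) ∣ Q b s.1 s.2.1 s.2.2 - m

theorem N3_eq (b : Bool) (m : ℤ) (q : ℕ) : N3 b m q = (T b m q).card := rfl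

theorem mod_dvd (q s : ℕ) : (q : ℤ) ∣ (s : ℤ) - ((s % q : ℕ) : ℤ) := by
  rw [Int.natCast_mod]
  exact Int.dvd_self_sub_emod

theorem N3_zero (b : Bool) (m : ℤ) : N3 b m 0 = 0 := by
  unfold N3
  simp

/-- the reduction map -/
def red (q : ℕ) (s : ℕ × (ℕ × ℕ)) : ℕ × (ℕ × ℕ) := (s.1 % q, s.2.1 % q, s.2.2 % q)

theorem red_mem {b : Bool} {m : ℤ} {q r : ℕ} (hq : 0 < q) (hr : q ∣ r) {s : ℕ × (ℕ × ℕ)}
    (hs : s ∈ T b m r) : red q s ∈ T b m q := by
  simp only [T, mem_filter, mem_product, mem_range] at hs ⊢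
  refine ⟨⟨Nat.mod_lt _ hq, Nat.mod_lt _ hq, Nat.mod_lt _ hq⟩, ?_⟩
  have h : (q : ℤ) ∣ Q b s.1 s.2.1 s.2.2 - m := (Int.natCast_dvd_natCast.2 hr).trans hs.2
  exact (dvd_congr b (mod_dvd q s.1) (mod_dvd q s.2.1) (mod_dvd q s.2.2)
    (by simp : (q : ℤ) ∣ m - m)).1 h

theorem mod_eq {q q' : ℕ} (h : Nat.Coprime q q') {x y : ℕ} (hx : x < q * q') (hy : y < q * q')
    (h1 : x % q = y % q) (h2 : x % q' = y % q') : x = y := by
  have : x ≡ y [MOD q * q'] := (Nat.modEq_and_modEq_iff_modEq_mul h).1 ⟨h1, h2⟩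
  exact Nat.ModEq.eq_of_lt_of_lt this hx hy

theorem mul_pos_case (b : Bool) (m : ℤ) {q q' : ℕ} (h : Nat.Coprime q q') (hq : 0 < q)
    (hq' : 0 < q') : (T b m (q * q')).card = ((T b m q) ×ˢ (T b m q')).card := by
  refine Finset.card_bij (fun s _ => (red q s, red q' s)) ?_ ?_ ?_
  · intro s hs
    rw [mem_product]
    exact ⟨red_mem hq (Dvd.intro _ rfl) hs, red_mem hq' (Dvd.intro_left _ rfl) hs⟩
  · intro s hs s' hs' heq
    simp only [T, mem_filter, mem_product, mem_range] at hs hs'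
    simp only [red, Prod.mk.injEq] at heq
    obtain ⟨⟨a1, a2, a3⟩, b1, b2, b3⟩ := heq
    have e1 := mod_eq h hs.1.1 hs'.1.1 a1 b1
    have e2 := mod_eq h hs.1.2.1 hs'.1.2.1 a2 b2
    have e3 := mod_eq h hs.1.2.2 hs'.1.2.2 a3 b3
    exact Prod.ext e1 (Prod.ext e2 e3)
  · rintro ⟨u, w⟩ huw
    rw [mem_product] at huw
    obtain ⟨hu, hw⟩ := huw
    simp only [T, mem_filter, mem_product, mem_range] at hu hw
    obtain ⟨⟨u1, u2, u3⟩, hu4⟩ := hu
    obtain ⟨⟨w1, w2, w3⟩, hw4⟩ := hw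
    have key : ∀ a c : ℕ, a < q → c < q' → ∃ x < q * q', x % q = a ∧ x % q' = c := by
      intro a c ha hc
      refine ⟨Nat.chineseRemainder h a c, Nat.chineseRemainder_lt_mul h a c hq.ne' hq'.ne', ?_, ?_⟩
      · have := (Nat.chineseRemainder h a c).2.1
        unfold Nat.ModEq at this
        rw [this, Nat.mod_eq_of_lt ha]
      · have := (Nat.chineseRemainder h a c).2.2
        unfold Nat.ModEq at this
        rw [this, Nat.mod_eq_of_lt hc]
    obtain ⟨x, hx, x1, x2⟩ := key _ _ u1 w1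
    obtain ⟨y, hy, y1, y2⟩ := key _ _ u2 w2
    obtain ⟨t, ht, t1, t2⟩ := key _ _ u3 w3
    refine ⟨(x, y, t), ?_, ?_⟩
    · simp only [T, mem_filter, mem_product, mem_range]
      refine ⟨⟨hx, hy, ht⟩, ?_⟩
      have d1 : (q : ℤ) ∣ Q b x y t - m := by
        refine (dvd_congr b (mod_dvd q x) (mod_dvd q y) (mod_dvd q t)
          (by simp : (q : ℤ) ∣ m - m)).2 ?_
        rw [x1, y1, t1]
        exact hu4
      have d2 : (q' : ℤ) ∣ Q b x y t - m := by
        refine (dvd_congr b (mod_dvd q' x) (mod_dvd q' y) (mod_dvd q' t)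
          (by simp : (q' : ℤ) ∣ m - m)).2 ?_
        rw [x2, y2, t2]
        exact hw4
      push_cast
      exact IsCoprime.mul_dvd (Nat.isCoprime_iff_coprime.2 h) d1 d2
    · simp only [red, x1, x2, y1, y2, t1, t2]

end RhoAux

open RhoAux

theorem N3_mul (b : Bool) (m : ℤ) {q q' : ℕ} (h : Nat.Coprime q q') :
    N3 b m (q * q') = N3 b m q * N3 b m q' := by
  rcases Nat.eq_zero_or_pos q with rfl | hq
  · rw [zero_mul, N3_zero, zero_mul]
  rcases Nat.eq_zero_or_pos q' with rfl | hq'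
  · rw [mul_zero, N3_zero, mul_zero]
  rw [N3_eq, N3_eq, N3_eq, mul_pos_case b m h hq hq', card_product]

theorem N3_congr (b : Bool) {m m' : ℤ} {q : ℕ} (h : (q : ℤ) ∣ m - m') : N3 b m q = N3 b m' q := by
  rw [N3_eq, N3_eq]
  congr 1
  unfold T
  refine filter_congr ?_
  intro s _
  exact dvd_congr b (by simp) (by simp) (by simp) h

theorem rho_one (b : Bool) (m : ℤ) : rho b m 1 = 1 := by
  unfold rho N3
  simp

theorem A_one (b : Bool) (m : ℤ) : A b m 1 = 1 := by
  unfold A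
  simp [rho_one]

namespace RhoAux

theorem rho_mul (b : Bool) (m : ℤ) {q q' : ℕ} (h : Nat.Coprime q q') :
    rho b m (q * q') = rho b m q * rho b m q' := by
  unfold rho
  rw [N3_mul b m h]
  push_cast
  rw [mul_pow, mul_div_mul_comm]

/-- `rho` as an arithmetic function -/
noncomputable def R (b : Bool) (m : ℤ) : ArithmeticFunction ℝ :=
  ⟨fun q => rho b m q, by simp [rho]⟩

theorem R_apply (b : Bool) (m : ℤ) (q : ℕ) : R b m q = rho b m q := rfl

theorem R_mult (b : Bool) (m : ℤ) : (R b m).IsMultiplicative := by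
  refine ⟨?_, ?_⟩
  · rw [R_apply, rho_one]
  · intro q q' h
    rw [R_apply, R_apply, R_apply, rho_mul b m h]

theorem A_eq (b : Bool) (m : ℤ) (q : ℕ) :
    A b m q = (((ArithmeticFunction.moebius : ArithmeticFunction ℤ) : ArithmeticFunction ℝ) * R b m) q := by
  rw [ArithmeticFunction.mul_apply]
  unfold A
  rw [← Nat.sum_divisorsAntidiagonal' (f := fun i j => ((ArithmeticFunction.moebius i : ℤ) : ℝ) * rho b m j)]
  rfl

end RhoAux

theorem A_mul (b : Bool) (m : ℤ) {q q' : ℕ} (h : Nat.Coprime q q') :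
    A b m (q * q') = A b m q * A b m q' := by
  rw [A_eq, A_eq, A_eq]
  exact (ArithmeticFunction.isMultiplicative_moebius.intCast.mul (R_mult b m)).map_mul_of_coprime h

theorem A_pp (b : Bool) (m : ℤ) {p : ℕ} (hp : p.Prime) (j : ℕ) :
    A b m (p ^ (j + 1)) = rho b m (p ^ (j + 1)) - rho b m (p ^ j) := by
  unfold A
  rw [Nat.sum_divisors_prime_pow hp, sum_range_succ, sum_range_succ]
  have hp0 : 0 < p := hp.pos
  have h1 : p ^ (j + 1) / p ^ (j + 1) = 1 := Nat.div_self (pow_pos hp0 _)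
  have h2 : p ^ (j + 1) / p ^ j = p := by
    rw [pow_succ', Nat.mul_div_cancel _ (pow_pos hp0 _)]
  have h3 : ∑ x ∈ range j, ((ArithmeticFunction.moebius (p ^ (j + 1) / p ^ x) : ℤ) : ℝ) *
      rho b m (p ^ x) = 0 := by
    refine sum_eq_zero ?_
    intro x hx
    rw [mem_range] at hx
    have h4 : p ^ (j + 1) / p ^ x = p ^ (j + 1 - x) := Nat.pow_div (by omega) hp0
    rw [h4, ArithmeticFunction.moebius_apply_prime_pow hp (by omega), if_neg (by omega)]
    simp
  rw [h1, h2, h3, ArithmeticFunction.moebius_apply_one, ArithmeticFunction.moebius_apply_prime hp]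
  push_cast
  ring

theorem A_per (b : Bool) (m : ℤ) (q : ℕ) : A b (m + q) q = A b m q := by
  unfold A
  refine sum_congr rfl ?_
  intro d hd
  have hdq : d ∣ q := Nat.dvd_of_mem_divisors hd
  congr 1
  unfold rho
  rw [N3_congr b (m := m + q) (m' := m) (q := d)]
  rw [add_sub_cancel_left]
  exact Int.natCast_dvd_natCast.2 hdq

theorem A_sum (b : Bool) {p : ℕ} (hp : p.Prime) : ∑ m ∈ range p, A b m p = 0 := by
  have hp0 : 0 < p := hp.pos
  have hA : ∀ m ∈ range p, A b (m : ℤ) p = (N3 b m p : ℝ) / (p : ℝ) ^ 2 - 1 := by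
    intro m _
    have := A_pp b (m : ℤ) hp 0
    simp only [zero_add, pow_one, pow_zero] at this
    rw [this, rho_one]
    rfl
  rw [sum_congr rfl hA, sum_sub_distrib, ← sum_div]
  have hN : ∑ m ∈ range p, N3 b (m : ℤ) p = p ^ 3 := by
    have h1 : ∀ m ∈ range p, N3 b (m : ℤ) p = ∑ s ∈ range p ×ˢ (range p ×ˢ range p),
        if (p : ℤ) ∣ Q b s.1 s.2.1 s.2.2 - (m : ℤ) then 1 else 0 := by
      intro m _
      rw [N3_eq, T, card_filter]
    rw [sum_congr rfl h1, sum_comm]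
    have h2 : ∀ s ∈ range p ×ˢ (range p ×ˢ range p),
        (∑ m ∈ range p, if (p : ℤ) ∣ Q b s.1 s.2.1 s.2.2 - (m : ℤ) then 1 else 0) = 1 := by
      intro s _
      set v : ℤ := Q b s.1 s.2.1 s.2.2 with hv
      have hpz : (p : ℤ) ≠ 0 := by exact_mod_cast hp0.ne'
      rw [sum_eq_single (v % (p : ℤ)).toNat]
      · rw [if_pos]
        rw [Int.toNat_of_nonneg (Int.emod_nonneg _ hpz)]
        exact Int.dvd_self_sub_emod
      · intro m hm hne
        rw [if_neg]
        intro hd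
        apply hne
        rw [mem_range] at hm
        have h3 : v % (p : ℤ) = (m : ℤ) % (p : ℤ) :=
          Int.emod_eq_emod_iff_emod_sub_eq_zero.2 (Int.emod_eq_zero_of_dvd hd)
        have h4 : (m : ℤ) % (p : ℤ) = m := Int.emod_eq_of_lt (by positivity) (by exact_mod_cast hm)
        rw [h3, h4]
        simp
      · intro hm
        exfalso
        apply hm
        rw [mem_range]
        have h5 : v % (p : ℤ) < p := Int.emod_lt_of_pos _ (by exact_mod_cast hp0)
        have h6 : 0 ≤ v % (p : ℤ) := Int.emod_nonneg _ hpz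
        omega
    rw [sum_congr rfl h2]
    simp
    ring
  have hN' : ∑ m ∈ range p, (N3 b (m : ℤ) p : ℝ) = (p : ℝ) ^ 3 := by
    exact_mod_cast hN
  rw [hN']
  simp only [sum_const, card_range, nsmul_eq_mul, mul_one]
  have : (p : ℝ) ≠ 0 := by positivity
  field_simp
  ring

end Pool.Agent.Lib.TSP
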