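import Pool.Agent.Lib.TSP.Cheb
import Pool.Agent.Lib.TSP.Rho
import Pool.Agent.Lib.TSP.LocF

/-!
# TSP.Rgh: the squarefree rough part of the singular series (1.2 h)
PROOF. `g p n = A b n p`, `P` = primes in `(z, T]`, `z = zp A0 N`; `A_per`, `A_sum`, `A_p_le`. Blocks `i = 0, 1, ...`: `Y_i = T/2^i` (natural division), `SS_i` = nonempty `S ⊆ P` with `T/2^(i+1) < ∏ S ≤ T/2^i`
(then `Y_i < 2 ∏ S`), as long as `Y_i ≥ 1`, i.e. at most `1 + log₂ T ≤ 2 log N` blocks; they cover all nonempty `S ⊆ P` with `∏ S ≤ T`. Outside the union of the sets of `cheb` (with `ε/2`):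
`|∑_S| ≤ 2 log N (log N)^(-2) ≤ 1/4`. `cheb` counts `n < N`; apply it for `N` and add the one value `n = N` (or apply it to `N+1`): the total is
`2 log N · N^(4/5+ε/2) + 1 ≤ N^(4/5+ε)` for large `N`. Finally the sets `S` correspond to the squarefree `r > 1`, `r ≤ T`, with all prime factors `> z` (`r = ∏ S`, `S = r.primeFactors`), and
`A b n r = ∏_{p ∣ r} A b n p` (`A_mul`, `A_one`, induction; `Nat.prod_primeFactors_of_squarefree`).
-/

set_option autoImplicit false

open Finset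

namespace Pool.Agent.Lib.TSP

/-- the `z`-rough numbers `r ≤ T`, including `1` -/
def Rset (z T : ℕ) : Finset ℕ := (Icc 1 T).filter fun r => ∀ p ∈ r.primeFactors, z < p

namespace RghAux

/-- the primes in `(z, T]` -/
def PP (z T : ℕ) : Finset ℕ := (Ioc z T).filter Nat.Prime

/-- the nonempty sets of primes with product at most `T` -/
def SA (z T : ℕ) : Finset (Finset ℕ) := (PP z T).powerset.filter fun S => S.Nonempty ∧ ∏ p ∈ S, p ≤ T

/-- a block -/
def SB (z T i : ℕ) : Finset (Finset ℕ) := (SA z T).filter fun S => Nat.log 2 (T / ∏ p ∈ S, p) = i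

lemma prime_PP {z T p : ℕ} (h : p ∈ PP z T) : p.Prime ∧ z < p := by
  simp only [PP, mem_filter, mem_Ioc] at h
  exact ⟨h.2, h.1.1⟩

lemma A_prod (b : Bool) (m : ℤ) (S : Finset ℕ) (hS : ∀ p ∈ S, p.Prime) :
    A b m (∏ p ∈ S, p) = ∏ p ∈ S, A b m p := by
  classical
  induction S using Finset.induction_on with
  | empty => simp [A_one]
  | insert p S hp ih =>
    rw [prod_insert hp, prod_insert hp, A_mul, ih fun q hq => hS q (mem_insert_of_mem hq)]
    refine Nat.Coprime.prod_right fun q hq => ?_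
    rw [Nat.coprime_primes (hS p (mem_insert_self _ _)) (hS q (mem_insert_of_mem hq))]
    rintro rfl
    exact hp hq

lemma prod_pos' {S : Finset ℕ} (hS : ∀ p ∈ S, p.Prime) : 1 ≤ ∏ p ∈ S, p :=
  Finset.prod_pos fun p hp => (hS p hp).pos

lemma mem_SA {z T : ℕ} {S : Finset ℕ} (h : S ∈ SA z T) :
    S.Nonempty ∧ S ⊆ PP z T ∧ (∀ p ∈ S, p.Prime) ∧ ∏ p ∈ S, p ≤ T := by
  simp only [SA, mem_filter, mem_powerset] at h
  exact ⟨h.2.1, h.1, fun p hp => (prime_PP (h.1 hp)).1, h.2.2⟩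

lemma sqf {S : Finset ℕ} (hS : ∀ p ∈ S, p.Prime) : Squarefree (∏ p ∈ S, p) := by
  classical
  induction S using Finset.induction_on with
  | empty => simp
  | insert p S hp ih =>
    rw [prod_insert hp, Nat.squarefree_mul]
    · exact ⟨(hS p (mem_insert_self _ _)).prime.squarefree, ih fun q hq => hS q (mem_insert_of_mem hq)⟩
    · refine Nat.Coprime.prod_right fun q hq => ?_
      rw [Nat.coprime_primes (hS p (mem_insert_self _ _)) (hS q (mem_insert_of_mem hq))]
      rintro rfl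
      exact hp hq

lemma sum_eq (b : Bool) (m : ℤ) (z T : ℕ) :
    ∑ r ∈ (Rset z T).filter (fun r => 1 < r ∧ Squarefree r), A b m r = ∑ S ∈ SA z T, ∏ p ∈ S, A b m p := by
  refine Finset.sum_bij' (fun r _ => r.primeFactors) (fun S _ => ∏ p ∈ S, p) ?_ ?_ ?_ ?_ ?_
  · intro r hr
    simp only [Rset, mem_filter, mem_Icc] at hr
    obtain ⟨⟨⟨h1, hT⟩, hz⟩, h2, hsq⟩ := hr
    simp only [SA, mem_filter, mem_powerset]
    refine ⟨?_, ?_, ?_⟩
    · intro p hp
      simp only [PP, mem_filter, mem_Ioc]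
      exact ⟨⟨hz p hp, (Nat.le_of_mem_primeFactors hp).trans hT⟩, Nat.prime_of_mem_primeFactors hp⟩
    · exact Nat.nonempty_primeFactors.2 h2
    · rw [Nat.prod_primeFactors_of_squarefree hsq]
      exact hT
  · intro S hS
    obtain ⟨hne, hP, hpr, hT⟩ := mem_SA hS
    have hpf : (∏ p ∈ S, p).primeFactors = S := Nat.primeFactors_prod hpr
    simp only [Rset, mem_filter, mem_Icc]
    refine ⟨⟨⟨prod_pos' hpr, hT⟩, ?_⟩, ?_, ?_⟩
    · rw [hpf]
      exact fun p hp => (prime_PP (hP hp)).2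
    · rw [← Nat.nonempty_primeFactors, hpf]
      exact hne
    · exact sqf hpr
  · intro r hr
    simp only [Rset, mem_filter, mem_Icc] at hr
    exact Nat.prod_primeFactors_of_squarefree hr.2.2
  · intro S hS
    exact Nat.primeFactors_prod (mem_SA hS).2.2.1
  · intro r hr
    simp only [Rset, mem_filter, mem_Icc] at hr
    rw [← A_prod b m _ (fun p hp => Nat.prime_of_mem_primeFactors hp),
      Nat.prod_primeFactors_of_squarefree hr.2.2]

lemma sum_blocks (z T : ℕ) (F : Finset ℕ → ℝ) :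
    ∑ S ∈ SA z T, F S = ∑ i ∈ range (Nat.log 2 T + 1), ∑ S ∈ SB z T i, F S := by
  unfold SB
  rw [Finset.sum_fiberwise_of_maps_to]
  intro S _
  rw [mem_range, Nat.lt_succ_iff]
  exact Nat.log_mono_right (Nat.div_le_self _ _)

lemma mem_SB {z T i : ℕ} {S : Finset ℕ} (h : S ∈ SB z T i) :
    S.Nonempty ∧ S ⊆ PP z T ∧ T / 2 ^ i < 2 * ∏ p ∈ S, p ∧ ∏ p ∈ S, p ≤ T / 2 ^ i := by
  simp only [SB, mem_filter] at h
  obtain ⟨hS, hi⟩ := h
  obtain ⟨hne, hP, hpr, hT⟩ := mem_SA hS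
  have h1 : 1 ≤ ∏ p ∈ S, p := prod_pos' hpr
  have h2 : T / (∏ p ∈ S, p) ≠ 0 := (Nat.div_pos hT h1).ne'
  obtain ⟨h3, h4⟩ := (Nat.log_eq_iff (b := 2) (m := i) (n := T / ∏ p ∈ S, p) (Or.inr ⟨by norm_num, h2⟩)).1 hi
  refine ⟨hne, hP, ?_, ?_⟩
  · rw [Nat.div_lt_iff_lt_mul (by positivity)]
    rw [Nat.div_lt_iff_lt_mul h1] at h4
    calc T < 2 ^ (i + 1) * ∏ p ∈ S, p := h4
      _ = 2 * (∏ p ∈ S, p) * 2 ^ i := by ring
  · rw [Nat.le_div_iff_mul_le (by positivity)]
    rw [Nat.le_div_iff_mul_le h1] at h3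
    linarith

end RghAux

open RghAux

theorem rough (b : Bool) (ε : ℝ) (hε : 0 < ε) : ∃ A1 : ℕ, ∀ A0 : ℕ, A1 ≤ A0 → ∃ N0 : ℕ, ∀ N T : ℕ, N0 ≤ N →
    T ^ 5 ≤ N → (((range (N + 1)).filter fun n : ℕ => 1 / 4 < |∑ r ∈ (Rset (zp A0 N) T).filter
      (fun r => 1 < r ∧ Squarefree r), A b n r|).card : ℝ) ≤ (N : ℝ) ^ (4 / 5 + ε) := by
  obtain ⟨A1, hA1⟩ := cheb (ε / 2) (by positivity)
  refine ⟨A1, fun A0 hA0 => ?_⟩
  obtain ⟨N1, hN1⟩ := hA1 A0 hA0
  have hlog : ∀ᶠ N : ℕ in Filter.atTop, 2 * Real.log N + 1 ≤ (N : ℝ) ^ (ε / 2) := by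
    have h1 : (fun x : ℝ => Real.log x) =o[Filter.atTop] fun x : ℝ => x ^ (ε / 2) :=
      isLittleO_log_rpow_atTop (by positivity)
    have h2 := h1.bound (c := 1 / 4) (by norm_num)
    have h3 := (tendsto_rpow_atTop (y := ε / 2) (by positivity)).eventually_ge_atTop 2
    have h4 := (h2.and h3).and (Filter.eventually_ge_atTop (1 : ℝ))
    filter_upwards [tendsto_natCast_atTop_atTop.eventually h4] with N hN
    obtain ⟨⟨hN1, hN2⟩, hN3⟩ := hN
    rw [Real.norm_of_nonneg (Real.log_nonneg hN3), Real.norm_of_nonneg (by positivity)] at hN1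
    linarith
  have hlog8 : ∀ᶠ N : ℕ in Filter.atTop, 8 ≤ Real.log N :=
    (Real.tendsto_log_atTop.comp tendsto_natCast_atTop_atTop).eventually_ge_atTop 8
  obtain ⟨N2, hN2⟩ := Filter.eventually_atTop.1 (hlog.and hlog8)
  refine ⟨max N1 (max N2 2), fun N T hN hT => ?_⟩
  have hNN1 : N1 ≤ N := (le_max_left _ _).trans hN
  have hNN2 : N2 ≤ N := (le_max_left _ _).trans ((le_max_right _ _).trans hN)
  have hN2' : 2 ≤ N := (le_max_right _ _).trans ((le_max_right _ _).trans hN)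
  obtain ⟨hl1, hl8⟩ := hN2 N hNN2
  set z := zp A0 N with hz
  have hTN : T ≤ N := by
    rcases Nat.eq_zero_or_pos T with h | h
    · omega
    · exact (Nat.le_self_pow (by norm_num) T).trans hT
  set I := Nat.log 2 T + 1 with hI
  have hIlog : (I : ℝ) ≤ 2 * Real.log N := by
    have h1 : (Nat.log 2 T : ℝ) ≤ Real.log N / Real.log 2 := by
      have h2 : Nat.log 2 T ≤ Nat.log 2 N := Nat.log_mono_right hTN
      have h3 : (Nat.log 2 N : ℝ) ≤ Real.logb 2 N := Real.natLog_le_logb N 2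
      have h4 : ((Nat.log 2 T : ℕ) : ℝ) ≤ (Nat.log 2 N : ℕ) := by exact_mod_cast h2
      rw [Real.logb] at h3
      linarith
    have h5 : Real.log N / Real.log 2 ≤ 1.5 * Real.log N := by
      rw [div_le_iff₀ (Real.log_pos (by norm_num))]
      have := Real.log_two_gt_d9
      nlinarith
    rw [hI]
    push_cast
    linarith
  -- the bad sets
  let Bad : ℕ → Finset ℕ := fun i => (range N).filter fun n : ℕ =>
    1 / (Real.log N) ^ 2 < |∑ S ∈ SB z T i, ∏ p ∈ S, A b n p|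
  have hBad : ∀ i, ((Bad i).card : ℝ) ≤ (N : ℝ) ^ (4 / 5 + ε / 2) := by
    intro i
    refine hN1 N hNN1 (fun p n => A b n p) (PP z T) (T / 2 ^ i) (SB z T i) ?_ ?_ ?_ ?_ ?_ ?_
    · exact (Nat.pow_le_pow_left (Nat.div_le_self _ _) 5).trans hT
    · exact fun p hp => prime_PP hp
    · intro p _ n
      have := A_per b (n : ℤ) p
      push_cast
      exact this
    · intro p hp
      exact A_sum b (prime_PP hp).1
    · intro p hp n
      exact A_p_le b n (prime_PP hp).1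
    · exact fun S hS => mem_SB hS
  have hsub : ((range (N + 1)).filter fun n : ℕ => 1 / 4 < |∑ r ∈ (Rset z T).filter
      (fun r => 1 < r ∧ Squarefree r), A b n r|) ⊆ insert N ((range I).biUnion Bad) := by
    intro n hn
    rw [mem_filter, mem_range] at hn
    obtain ⟨hn1, hn2⟩ := hn
    rw [mem_insert]
    by_cases hnN : n = N
    · exact Or.inl hnN
    right
    have hnN' : n < N := by omega
    by_contra hcon
    rw [mem_biUnion] at hcon
    push Not at hcon
    have h1 : ∀ i ∈ range I, |∑ S ∈ SB z T i, ∏ p ∈ S, A b n p| ≤ 1 / (Real.log N) ^ 2 := by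
      intro i hi
      have := hcon i hi
      simp only [Bad, mem_filter, mem_range, not_and, not_lt] at this
      exact this hnN'
    rw [sum_eq, sum_blocks] at hn2
    have h2 : |∑ i ∈ range I, ∑ S ∈ SB z T i, ∏ p ∈ S, A b n p| ≤ I * (1 / (Real.log N) ^ 2) := by
      refine (abs_sum_le_sum_abs _ _).trans ((sum_le_sum h1).trans ?_)
      simp
    have h3 : (I : ℝ) * (1 / (Real.log N) ^ 2) ≤ 1 / 4 := by
      rw [mul_one_div, div_le_iff₀ (by positivity)]
      nlinarith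
    linarith
  have hcard := card_le_card hsub
  have h1 : (((range I).biUnion Bad).card : ℝ) ≤ I * (N : ℝ) ^ (4 / 5 + ε / 2) := by
    have h2 : (((range I).biUnion Bad).card : ℝ) ≤ ∑ i ∈ range I, ((Bad i).card : ℝ) := by
      exact_mod_cast card_biUnion_le
    refine h2.trans ((sum_le_sum fun i _ => hBad i).trans ?_)
    simp
  have h2 : ((insert N ((range I).biUnion Bad)).card : ℝ) ≤ ((range I).biUnion Bad).card + 1 := by
    exact_mod_cast card_insert_le _ _
  have hNpos : (0 : ℝ) < N := by positivity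
  have h3 : (1 : ℝ) ≤ (N : ℝ) ^ (4 / 5 + ε / 2) :=
    Real.one_le_rpow (by exact_mod_cast (by omega : 1 ≤ N)) (by positivity)
  calc (((range (N + 1)).filter fun n : ℕ => 1 / 4 < |∑ r ∈ (Rset z T).filter
      (fun r => 1 < r ∧ Squarefree r), A b n r|).card : ℝ)
      ≤ ((insert N ((range I).biUnion Bad)).card : ℝ) := by exact_mod_cast hcard
    _ ≤ I * (N : ℝ) ^ (4 / 5 + ε / 2) + 1 := by linarith
    _ ≤ (2 * Real.log N) * (N : ℝ) ^ (4 / 5 + ε / 2) + (N : ℝ) ^ (4 / 5 + ε / 2) := by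
        have : (0 : ℝ) ≤ (N : ℝ) ^ (4 / 5 + ε / 2) := by positivity
        nlinarith
    _ = (2 * Real.log N + 1) * (N : ℝ) ^ (4 / 5 + ε / 2) := by ring
    _ ≤ (N : ℝ) ^ (ε / 2) * (N : ℝ) ^ (4 / 5 + ε / 2) := by gcongr
    _ = (N : ℝ) ^ (4 / 5 + ε) := by
        rw [← Real.rpow_add hNpos]
        congr 1
        ring

end Pool.Agent.Lib.TSP
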