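import Pool.Agent.Lib.TSP.SmoT
import Pool.Agent.Lib.TSP.Rgh

/-!
# TSP.Dec: smooth times rough (1.2 h)
PROOF. `q ↦ (rgh z q, q/rgh z q)` is a bijection from the positive integers to the pairs `(r, s)`, `r` rough (all primes `> z`), `s` smooth (all primes `≤ z`), inverse `(r, s) ↦ r s` (`rgh z (rs) = r`). For `q = rs`:
`q ∈ Qs z T U ↔ r ≤ T ∧ rs ≤ TU ↔ r ≤ T ∧ s ≤ TU/r` (natural division), and `a q = a r · a s`. By `smo_zero` only `s ∣ Ws z` contribute. So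
`∑_{q ∈ Qs} a q = ∑_{r ∈ Rset z T} a r (∑_{s ∣ Ws z} a s - ∑_{s ∣ Ws z, s > TU/r} a s)`, and `TU/r ≥ U`: `s > TU/r` (naturals) implies `s > U`. So `δ` bounds the tails.
`Qs_sub`: `rgh z q ∣ q`, so `rgh z q ≤ q`; `q ≤ T ≤ TU`.
-/

set_option autoImplicit false

open Finset

namespace Pool.Agent.Lib.TSP

namespace DecAux

/-- the part of `q` composed of primes `≤ z` -/
def smo (z q : ℕ) : ℕ := ∏ p ∈ q.primeFactors.filter (fun p => ¬ z < p), p ^ q.factorization p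

/-- the smooth numbers up to `Y` -/
def Sm (z Y : ℕ) : Finset ℕ := (Icc 1 Y).filter fun s => ∀ p ∈ s.primeFactors, p ≤ z

theorem rgh_mul_smo (z : ℕ) {q : ℕ} (hq : q ≠ 0) : rgh z q * smo z q = q := by
  unfold rgh smo
  rw [Finset.prod_filter_mul_prod_filter_not]
  have h := Nat.prod_factorization_pow_eq_self hq
  unfold Finsupp.prod at h
  rw [Nat.support_factorization] at h
  exact h

theorem prime_dvd_rgh {z q p : ℕ} (hp : p.Prime) (h : p ∣ rgh z q) : z < p := by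
  unfold rgh at h
  obtain ⟨r, hr, hpr⟩ := (hp.prime.dvd_finsetProd_iff _).1 h
  rw [mem_filter] at hr
  have h1 := hp.dvd_of_dvd_pow hpr
  rw [(Nat.prime_dvd_prime_iff_eq hp (Nat.prime_of_mem_primeFactors hr.1)).1 h1]
  exact hr.2

theorem prime_dvd_smo {z q p : ℕ} (hp : p.Prime) (h : p ∣ smo z q) : p ≤ z := by
  unfold smo at h
  obtain ⟨r, hr, hpr⟩ := (hp.prime.dvd_finsetProd_iff _).1 h
  rw [mem_filter] at hr
  have h1 := hp.dvd_of_dvd_pow hpr
  rw [(Nat.prime_dvd_prime_iff_eq hp (Nat.prime_of_mem_primeFactors hr.1)).1 h1]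
  exact not_lt.1 hr.2

theorem rgh_mul (z : ℕ) {r s : ℕ} (hr : r ≠ 0) (hs : s ≠ 0) (hr' : ∀ p ∈ r.primeFactors, z < p)
    (hs' : ∀ p ∈ s.primeFactors, p ≤ z) : rgh z (r * s) = r := by
  unfold rgh
  have h1 : (r * s).primeFactors.filter (fun p => z < p) = r.primeFactors := by
    ext p
    rw [mem_filter, Nat.primeFactors_mul hr hs, mem_union]
    constructor
    · rintro ⟨h | h, h2⟩
      · exact h
      · exact absurd (hs' p h) (not_le.2 h2)
    · exact fun h => ⟨Or.inl h, hr' p h⟩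
  rw [h1]
  have h2 : ∀ p ∈ r.primeFactors, p ^ (r * s).factorization p = p ^ r.factorization p := by
    intro p hp
    have h3 : s.factorization p = 0 := by
      rw [← Finsupp.notMem_support_iff, Nat.support_factorization]
      exact fun h => absurd (hs' p h) (not_le.2 (hr' p hp))
    rw [Nat.factorization_mul hr hs, Finsupp.add_apply, h3, add_zero]
  rw [Finset.prod_congr rfl h2]
  have h := Nat.prod_factorization_pow_eq_self hr
  unfold Finsupp.prod at h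
  rw [Nat.support_factorization] at h
  exact h

theorem sum_Qs (z T U : ℕ) (a : ℕ → ℝ) (n : ℕ) (ha : Good a n) :
    ∑ q ∈ Qs z T U, a q = ∑ r ∈ Rset z T, a r * ∑ s ∈ Sm z (T * U / r), a s := by
  simp_rw [Finset.mul_sum]
  rw [Finset.sum_sigma']
  refine Finset.sum_bij' (fun q _ => (⟨rgh z q, smo z q⟩ : (_ : ℕ) × ℕ)) (fun x _ => x.1 * x.2) ?_ ?_ ?_ ?_ ?_
  · intro q hq
    simp only [Qs, mem_filter, mem_Icc] at hq
    obtain ⟨⟨h1, h2⟩, h3⟩ := hq
    have hq0 : q ≠ 0 := by omega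
    have hm := rgh_mul_smo z hq0
    have hr0 : rgh z q ≠ 0 := fun h => hq0 (by rw [← hm, h, zero_mul])
    have hs0 : smo z q ≠ 0 := fun h => hq0 (by rw [← hm, h, mul_zero])
    simp only [mem_sigma, Rset, Sm, mem_filter, mem_Icc]
    refine ⟨⟨⟨Nat.one_le_iff_ne_zero.2 hr0, h3⟩, fun p hp => ?_⟩,
      ⟨Nat.one_le_iff_ne_zero.2 hs0, ?_⟩, fun p hp => ?_⟩
    · exact prime_dvd_rgh (Nat.prime_of_mem_primeFactors hp) (Nat.dvd_of_mem_primeFactors hp)
    · rw [Nat.le_div_iff_mul_le (Nat.pos_of_ne_zero hr0), mul_comm, hm]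
      exact h2
    · exact prime_dvd_smo (Nat.prime_of_mem_primeFactors hp) (Nat.dvd_of_mem_primeFactors hp)
  · rintro ⟨r, s⟩ hx
    simp only [mem_sigma, Rset, Sm, mem_filter, mem_Icc] at hx
    obtain ⟨⟨⟨h1, h2⟩, h3⟩, ⟨h4, h5⟩, h6⟩ := hx
    simp only [Qs, mem_filter, mem_Icc]
    rw [rgh_mul z (by omega) (by omega) h3 h6]
    rw [Nat.le_div_iff_mul_le h1] at h5
    exact ⟨⟨Nat.mul_pos h1 h4, by rw [mul_comm]; exact h5⟩, h2⟩
  · intro q hq
    simp only [Qs, mem_filter, mem_Icc] at hq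
    exact rgh_mul_smo z (by omega)
  · rintro ⟨r, s⟩ hx
    simp only [mem_sigma, Rset, Sm, mem_filter, mem_Icc] at hx
    obtain ⟨⟨⟨h1, h2⟩, h3⟩, ⟨h4, h5⟩, h6⟩ := hx
    have e1 : rgh z (r * s) = r := rgh_mul z (by omega) (by omega) h3 h6
    have e2 := rgh_mul_smo z (q := r * s) (Nat.mul_pos h1 h4).ne'
    rw [e1] at e2
    have e3 : smo z (r * s) = s := Nat.eq_of_mul_eq_mul_left h1 e2
    simp only [e1, e3]
  · intro q hq
    simp only [Qs, mem_filter, mem_Icc] at hq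
    obtain ⟨⟨h1, h2⟩, h3⟩ := hq
    have hm := rgh_mul_smo z (q := q) (by omega)
    have hco : Nat.Coprime (rgh z q) (smo z q) := by
      refine Nat.Coprime.symm (Nat.coprime_of_dvd fun p hp hps hpr => ?_)
      exact absurd (prime_dvd_smo hp hps) (not_le.2 (prime_dvd_rgh hp hpr))
    conv_lhs => rw [← hm]
    exact ha.mul _ _ hco

theorem dvd_Ws_smooth {z s p : ℕ} (hs : s ∣ Ws z) (hp : p ∈ s.primeFactors) : p ≤ z := by
  have hpp := Nat.prime_of_mem_primeFactors hp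
  have h := (Nat.dvd_of_mem_primeFactors hp).trans hs
  unfold Ws at h
  obtain ⟨r, hr, hpr⟩ := (hpp.prime.dvd_finsetProd_iff _).1 h
  have h1 := hpp.dvd_of_dvd_pow hpr
  obtain ⟨h2, h3⟩ := Nat.mem_primesLE.1 hr
  rw [(Nat.prime_dvd_prime_iff_eq hpp h3).1 h1]
  exact h2

theorem Ws_ne_zero (z : ℕ) : Ws z ≠ 0 := by
  unfold Ws
  rw [Finset.prod_ne_zero_iff]
  intro p hp
  exact pow_ne_zero _ (Nat.prime_of_mem_primesLE hp).ne_zero

theorem sum_Sm (z Y : ℕ) (a : ℕ → ℝ) (n : ℕ) (ha : Good a n) :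
    ∑ s ∈ Sm z Y, a s = ∑ s ∈ (Ws z).divisors.filter (fun s => ¬ Y < s), a s := by
  symm
  refine Finset.sum_subset ?_ ?_
  · intro s hs
    rw [mem_filter, Nat.mem_divisors] at hs
    obtain ⟨⟨h1, h2⟩, h3⟩ := hs
    simp only [Sm, mem_filter, mem_Icc]
    exact ⟨⟨Nat.pos_of_dvd_of_pos h1 (Nat.pos_of_ne_zero h2), not_lt.1 h3⟩, fun p hp => dvd_Ws_smooth h1 hp⟩
  · intro s hs hns
    simp only [Sm, mem_filter, mem_Icc] at hs
    obtain ⟨⟨h1, h2⟩, h3⟩ := hs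
    refine smo_zero z a n ha h1 (fun p hp hps => h3 p ?_) ?_
    · exact Nat.mem_primeFactors.2 ⟨hp, hps, by omega⟩
    · intro hW
      exact hns (mem_filter.2 ⟨Nat.mem_divisors.2 ⟨hW, Ws_ne_zero z⟩, not_lt.2 h2⟩)

end DecAux

open DecAux

theorem Qs_sub (z T U : ℕ) (hU : 1 ≤ U) : Icc 1 T ⊆ Qs z T U := by
  intro q hq
  rw [mem_Icc] at hq
  simp only [Qs, mem_filter, mem_Icc]
  refine ⟨⟨hq.1, hq.2.trans (Nat.le_mul_of_pos_right T hU)⟩, ?_⟩
  refine (Nat.le_of_dvd hq.1 ?_).trans hq.2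
  exact ⟨smo z q, (rgh_mul_smo z (by omega)).symm⟩

theorem dec (z T U : ℕ) (a : ℕ → ℝ) (n : ℕ) (ha : Good a n) (δ : ℝ)
    (hδ : ∑ q ∈ (Ws z).divisors.filter (fun q : ℕ => U < q), |a q| ≤ δ) :
    |∑ q ∈ Qs z T U, a q - (∑ q ∈ (Ws z).divisors, a q) * ∑ r ∈ Rset z T, a r|
      ≤ δ * ∑ r ∈ Rset z T, |a r| := by
  have key : ∑ q ∈ Qs z T U, a q - (∑ q ∈ (Ws z).divisors, a q) * ∑ r ∈ Rset z T, a r
      = - ∑ r ∈ Rset z T, a r * ∑ s ∈ (Ws z).divisors.filter (fun s => T * U / r < s), a s := by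
    rw [sum_Qs z T U a n ha, Finset.mul_sum, ← Finset.sum_sub_distrib, ← Finset.sum_neg_distrib]
    refine Finset.sum_congr rfl fun r _ => ?_
    rw [sum_Sm z _ a n ha, ← Finset.sum_filter_add_sum_filter_not (Ws z).divisors (fun s => T * U / r < s) a]
    ring
  rw [key, abs_neg, Finset.mul_sum]
  refine (abs_sum_le_sum_abs _ _).trans (Finset.sum_le_sum fun r hr => ?_)
  rw [abs_mul, mul_comm]
  refine mul_le_mul_of_nonneg_right ?_ (abs_nonneg _)
  refine (abs_sum_le_sum_abs _ _).trans (le_trans ?_ hδ)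
  refine Finset.sum_le_sum_of_subset_of_nonneg ?_ (fun _ _ _ => abs_nonneg _)
  intro s hs
  rw [mem_filter] at hs ⊢
  refine ⟨hs.1, lt_of_le_of_lt ?_ hs.2⟩
  simp only [Rset, mem_filter, mem_Icc] at hr
  rw [Nat.le_div_iff_mul_le hr.1.1, mul_comm]
  exact Nat.mul_le_mul_right U hr.1.2

end Pool.Agent.Lib.TSP
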