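import Mathlib

/-!
# Library TSP (MP_1f2014_nt): power saving exceptional set. Definitions.
Paper: /team-store/1f2014_TSP.md.

`b = false`: Q1 (`x + 3y + 5z = k²`, `k = 2 + 140 t`), `b = true`: Q2 (`x + 3y + 5z = 2k²`, `k = 1 + 140 t`).
`n = 4 m + n1 b` with `m = P₁(x) + P₂(y) + P₃(t)`, `P₁ = 490 x² + v1 x`, `P₂ = 350 y² + v2 y`.
-/

set_option autoImplicit false

open Finset

namespace Pool.Agent.Lib.TSP

/-- `e(x) = exp(2 π i x)` -/
noncomputable def e (x : ℝ) : ℂ := Complex.exp (2 * Real.pi * x * Complex.I)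

/-- `u x² + v x` -/
def qp (u v x : ℤ) : ℤ := u * x ^ 2 + v * x

/-- the linear coefficient of `P₁` -/
def v1 (b : Bool) : ℤ := if b then -63 else -21

/-- the linear coefficient of `P₂` -/
def v2 (b : Bool) : ℤ := if b then -25 else -15

/-- the quartic polynomial: `(c² (k₀ + 140 t)⁴ - c² k₀⁴)/140` -/
def P3 (b : Bool) (t : ℤ) : ℤ :=
  if b then 16 * t + 3360 * t ^ 2 + 313600 * t ^ 3 + 10976000 * t ^ 4
  else 32 * t + 3360 * t ^ 2 + 156800 * t ^ 3 + 2744000 * t ^ 4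

/-- `n = 4 m + n1 b` -/
def n1 (b : Bool) : ℤ := if b then 10 else 2

/-- `m = P₁(x) + P₂(y) + P₃(t)` with `t < T` -/
def Rep (b : Bool) (T : ℕ) (m : ℤ) : Prop :=
  ∃ x y : ℤ, ∃ t : ℕ, t < T ∧ qp 490 (v1 b) x + qp 350 (v2 b) y + P3 b t = m

/-- the theta function `∑ e((u x² + v x)(α + i/N))` -/
noncomputable def th (u v : ℤ) (N : ℕ) (α : ℝ) : ℂ :=
  ∑' x : ℤ, Complex.exp (2 * Real.pi * Complex.I * ((α : ℂ) + Complex.I / (N : ℂ)) * ((qp u v x : ℤ) : ℂ))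

/-- the quartic exponential sum -/
noncomputable def f (b : Bool) (T : ℕ) (α : ℝ) : ℂ := ∑ t ∈ range T, e (α * ((P3 b t : ℤ) : ℝ))

/-- the generating function -/
noncomputable def F (b : Bool) (T N : ℕ) (α : ℝ) : ℂ :=
  th 490 (v1 b) N α * th 350 (v2 b) N α * f b T α

/-- `z = 1/N - i β` -/
noncomputable def zz (N : ℕ) (β : ℝ) : ℂ := 1 / (N : ℂ) - (β : ℂ) * Complex.I

/-- `κ = q² N |z|²` -/
noncomputable def kq (N q : ℕ) (β : ℝ) : ℝ := (q : ℝ) ^ 2 * (1 / (N : ℝ) + N * β ^ 2)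

/-- the quadratic Gauss sum -/
noncomputable def G (u v : ℤ) (a h : ℤ) (q : ℕ) : ℂ :=
  ∑ r ∈ range q, e (((a * qp u v r + h * r : ℤ) : ℝ) / q)

/-- the quartic Gauss sum -/
noncomputable def S (b : Bool) (a : ℤ) (q : ℕ) : ℂ := ∑ r ∈ range q, e (((a * P3 b r : ℤ) : ℝ) / q)

/-- `v1²/(4·490) + v2²/(4·350)` -/
noncomputable def c1 (b : Bool) : ℝ := ((v1 b : ℤ) : ℝ) ^ 2 / 1960 + ((v2 b : ℤ) : ℝ) ^ 2 / 1400

/-- `1/(2 √(490·350))` -/
noncomputable def C0 : ℝ := 1 / (2 * Real.sqrt (490 * 350))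

/-- main term of the product of the theta functions at `a/q + β` -/
noncomputable def M12 (b : Bool) (N : ℕ) (a : ℤ) (q : ℕ) (β : ℝ) : ℂ :=
  (C0 : ℂ) / (q : ℂ) ^ 2 * G 490 (v1 b) a 0 q * G 350 (v2 b) a 0 q *
    (Complex.exp (2 * Real.pi * (c1 b : ℂ) * zz N β) / zz N β)

/-- the number of pairs `t, t' < T` with `q ∣ P₃(t) - P₃(t')` -/
def D2 (b : Bool) (T q : ℕ) : ℕ :=
  ((range T ×ˢ range T).filter fun t => (q : ℤ) ∣ P3 b t.1 - P3 b t.2).card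

/-- the number of solutions of `P₁(x) + P₂(y) + P₃(t) = m` modulo `q` -/
def N3 (b : Bool) (m : ℤ) (q : ℕ) : ℕ :=
  ((range q ×ˢ (range q ×ˢ range q)).filter fun s =>
    (q : ℤ) ∣ qp 490 (v1 b) s.1 + qp 350 (v2 b) s.2.1 + P3 b s.2.2 - m).card

/-- the density modulo `q` -/
noncomputable def rho (b : Bool) (m : ℤ) (q : ℕ) : ℝ := (N3 b m q : ℝ) / (q : ℝ) ^ 2

/-- the terms of the singular series -/
noncomputable def A (b : Bool) (m : ℤ) (q : ℕ) : ℝ :=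
  ∑ d ∈ q.divisors, ((ArithmeticFunction.moebius (q / d) : ℤ) : ℝ) * rho b m d

/-- the singular integral with Fejer weight -/
noncomputable def Jn (b : Bool) (N : ℕ) (B : ℝ) (m : ℤ) : ℂ :=
  ∫ β in (-B)..B, ((1 - |β| / B : ℝ) : ℂ) *
    (Complex.exp (2 * Real.pi * (c1 b : ℂ) * zz N β) / zz N β) * e (-((m : ℝ) * β))

/-- the residues coprime to `q` -/
def cop (q : ℕ) : Finset ℕ := (range q).filter fun a => Nat.Coprime a q

/-- the part of `q` composed of primes `> z` -/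
def rgh (z q : ℕ) : ℕ := ∏ p ∈ q.primeFactors.filter (fun p => z < p), p ^ q.factorization p

/-- the set of moduli of the major arcs -/
def Qs (z T U : ℕ) : Finset ℕ := (Icc 1 (T * U)).filter fun q => rgh z q ≤ T

end Pool.Agent.Lib.TSP
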