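import Pool.Agent.Lib.TSP.Defs

/-!
# TSP.Ex: the additive character
-/

set_option autoImplicit false

open Finset

namespace Pool.Agent.Lib.TSP

theorem norm_e (x : ℝ) : ‖e x‖ = 1 := by
  have : (2 * Real.pi * x * Complex.I : ℂ) = ((2 * Real.pi * x : ℝ) : ℂ) * Complex.I := by push_cast; ring
  rw [e, this, Complex.norm_exp_ofReal_mul_I]

theorem e_add (x y : ℝ) : e (x + y) = e x * e y := by
  rw [e, e, e, ← Complex.exp_add]
  congr 1
  push_cast
  ring

theorem e_zero : e 0 = 1 := by simp [e]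

theorem e_ne_zero (x : ℝ) : e x ≠ 0 := Complex.exp_ne_zero _

theorem e_neg (x : ℝ) : e (-x) = (starRingEnd ℂ) (e x) := by
  rw [e, e, ← Complex.exp_conj]
  congr 1
  have h2 : (starRingEnd ℂ) 2 = 2 := by
    have := Complex.conj_ofReal 2
    simpa using this
  simp [h2]

theorem e_int (k : ℤ) : e (k : ℝ) = 1 := by
  rw [e, Complex.exp_eq_one_iff]
  exact ⟨k, by push_cast; ring⟩

theorem e_add_int (x : ℝ) (k : ℤ) : e (x + k) = e x := by
  rw [e_add, e_int, mul_one]

theorem e_eq_one_iff (x : ℝ) : e x = 1 ↔ ∃ k : ℤ, x = k := by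
  constructor
  · intro h
    rw [e, Complex.exp_eq_one_iff] at h
    obtain ⟨k, hk⟩ := h
    refine ⟨k, ?_⟩
    have h2 : (2 * Real.pi * Complex.I : ℂ) ≠ 0 := by
      simp [Real.pi_ne_zero]
    have : (x : ℂ) = (k : ℂ) := by
      have : (x : ℂ) * (2 * Real.pi * Complex.I) = k * (2 * Real.pi * Complex.I) := by
        rw [← hk]; ring
      exact mul_right_cancel₀ h2 this
    exact_mod_cast this
  · rintro ⟨k, rfl⟩
    exact e_int k

theorem continuous_e : Continuous e := by
  unfold e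
  fun_prop

theorem e_pow (x : ℝ) (k : ℕ) : e x ^ k = e (k * x) := by
  rw [e, e, ← Complex.exp_nat_mul]
  congr 1
  push_cast
  ring

/-- `e(a/q)` depends only on `a` modulo `q`. -/
theorem e_div_congr {q : ℕ} (hq : 0 < q) {a b : ℤ} (h : (q : ℤ) ∣ a - b) :
    e ((a : ℝ) / q) = e ((b : ℝ) / q) := by
  obtain ⟨k, hk⟩ := h
  have hq' : (q : ℝ) ≠ 0 := by positivity
  have : (a : ℝ) / q = (b : ℝ) / q + k := by
    have h1 : (a : ℝ) = b + q * k := by
      have : a = b + q * k := by linarith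
      exact_mod_cast this
    rw [h1]; field_simp
  rw [this, e_add_int]

/-- Orthogonality. -/
theorem sum_e {q : ℕ} (hq : 0 < q) (k : ℤ) :
    ∑ a ∈ range q, e (((a * k : ℤ) : ℝ) / q) = if (q : ℤ) ∣ k then (q : ℂ) else 0 := by
  have hq' : (q : ℝ) ≠ 0 := by positivity
  split_ifs with h
  · rw [Finset.sum_congr rfl (g := fun _ => (1 : ℂ))]
    · simp
    · intro a _
      have : (q : ℤ) ∣ (a * k : ℤ) - 0 := by rw [sub_zero]; exact Dvd.dvd.mul_left h _
      rw [e_div_congr hq this]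
      simp [e_zero]
  · set w : ℂ := e ((k : ℝ) / q) with hw
    have h1 : ∀ a ∈ range q, e (((a * k : ℤ) : ℝ) / q) = w ^ a := by
      intro a _
      rw [hw, e_pow]
      congr 1
      push_cast
      ring
    have hw1 : w ≠ 1 := by
      intro h2
      rw [hw, e_eq_one_iff] at h2
      obtain ⟨j, hj⟩ := h2
      apply h
      refine ⟨j, ?_⟩
      have : (k : ℝ) = q * j := by
        field_simp at hj
        linarith
      exact_mod_cast this
    have hwq : w ^ q = 1 := by
      rw [hw, e_pow]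
      have : (q : ℝ) * ((k : ℝ) / q) = k := by field_simp
      rw [this, e_int]
    rw [Finset.sum_congr rfl h1, geom_sum_eq hw1, hwq, sub_self, zero_div]

theorem norm_e_sub_one_le (x : ℝ) : ‖e x - 1‖ ≤ 2 * Real.pi * |x| := by
  have : (2 * Real.pi * x * Complex.I : ℂ) = Complex.I * ((2 * Real.pi * x : ℝ) : ℂ) := by push_cast; ring
  rw [e, this]
  refine (Real.norm_exp_I_mul_ofReal_sub_one_le).trans ?_
  rw [Real.norm_eq_abs, abs_mul, abs_of_pos (by positivity : (0 : ℝ) < 2 * Real.pi)]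

theorem norm_e_sub_le (x y : ℝ) : ‖e x - e y‖ ≤ 2 * Real.pi * |x - y| := by
  have : e x - e y = e y * (e (x - y) - 1) := by
    rw [mul_sub, ← e_add, mul_one]
    congr 2
    ring
  rw [this, norm_mul, norm_e, one_mul]
  exact norm_e_sub_one_le _

end Pool.Agent.Lib.TSP
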