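import Pool.Agent.Lib.TSP.Ex

/-!
# TSP.Gauss: quadratic Gauss sums (1 h)
PROOF. `|G|² = ∑_{r,s < q} e((a(P(r) - P(s)) + h(r - s))/q)`, `P = qp u v`. Both variables modulo `q` (`e_div_congr`), put `r = s + d` (for fixed `s` the map
`d ↦ (s + d) % q` is a bijection of `range q`): `P(s+d) - P(s) = 2 u s d + P(d)`, so `|G|² = ∑_{d<q} e((a P(d) + h d)/q) ∑_{s<q} e(s (2 u a d)/q)`, the inner sum is
`q` if `q ∣ 2 u a d`, i.e. (`a` coprime to `q`) `q ∣ 2 u d`, and `0` otherwise (`sum_e`). The number of `d < q` with `q ∣ 2 u d` is at most `2u`: it is `gcd(2u, q)`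
(or: such `d` is a multiple of `q/gcd(2u,q)`).
-/

set_option autoImplicit false

open Finset

namespace Pool.Agent.Lib.TSP

namespace GaussAux

private theorem shift (g : ℤ → ℂ) (q : ℕ) (hg : ∀ x : ℤ, g (x + q) = g x) (s : ℕ) :
    ∑ r ∈ range q, g r = ∑ r ∈ range q, g (s + r) := by
  induction s with
  | zero => simp
  | succ s ih =>
    rw [ih]
    have h1 := Finset.sum_range_succ (fun r : ℕ => g ((s : ℤ) + r)) q
    have h2 := Finset.sum_range_succ' (fun r : ℕ => g ((s : ℤ) + r)) q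
    rw [h1] at h2
    have h3 : g ((s : ℤ) + (q : ℕ)) = g ((s : ℤ) + ((0 : ℕ) : ℤ)) := by
      rw [hg]; simp
    rw [h3] at h2
    have h4 := add_right_cancel h2
    rw [h4]
    refine Finset.sum_congr rfl fun r _ => ?_
    congr 1
    push_cast
    ring

private theorem count {u : ℤ} (hu : 0 < u) (a : ℤ) {q : ℕ} (hq : 0 < q) (hc : IsCoprime a (q : ℤ)) :
    (((range q).filter fun d : ℕ => (q : ℤ) ∣ 2 * u * a * d).card : ℝ) ≤ 2 * (u : ℝ) := by
  have h1 : ((range q).filter fun d : ℕ => (q : ℤ) ∣ 2 * u * a * d).card ≤ (range (2 * u).toNat).card := by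
    apply Finset.card_le_card_of_injOn (fun d : ℕ => ((2 * u * d) / (q : ℤ)).toNat)
    · intro d hd
      simp only [Finset.coe_filter, Finset.mem_range, Set.mem_ofPred_eq, Finset.coe_range, Set.mem_Iio] at hd ⊢
      have hq' : (0 : ℤ) < q := by exact_mod_cast hq
      have hd1 : (d : ℤ) < q := by exact_mod_cast hd.1
      have h2 : (2 * u * d) / (q : ℤ) < 2 * u := by
        apply Int.ediv_lt_of_lt_mul hq'
        exact mul_lt_mul_of_pos_left hd1 (by linarith)
      have h3 : 0 ≤ (2 * u * d) / (q : ℤ) := Int.ediv_nonneg (by positivity) hq'.le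
      omega
    · intro d hd d' hd' hdd
      simp only [Finset.coe_filter, Finset.mem_range, Set.mem_ofPred_eq] at hd hd'
      have hq' : (0 : ℤ) < q := by exact_mod_cast hq
      have key : ∀ d : ℕ, (q : ℤ) ∣ 2 * u * a * d → (q : ℤ) ∣ 2 * u * d := by
        intro d hd
        have : (q : ℤ) ∣ a * (2 * u * d) := by
          have h5 : a * (2 * u * d) = 2 * u * a * d := by ring
          rwa [h5]
        exact hc.symm.dvd_of_dvd_mul_left this
      have k1 := key d hd.2
      have k2 := key d' hd'.2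
      simp only at hdd
      have e1 : 0 ≤ (2 * u * d) / (q : ℤ) := Int.ediv_nonneg (by positivity) hq'.le
      have e2 : 0 ≤ (2 * u * d') / (q : ℤ) := Int.ediv_nonneg (by positivity) hq'.le
      have e3 : (2 * u * d) / (q : ℤ) = (2 * u * d') / (q : ℤ) := by omega
      have e4 : 2 * u * (d : ℤ) = 2 * u * d' := by
        rw [← Int.ediv_mul_cancel k1, ← Int.ediv_mul_cancel k2, e3]
      have e5 : (d : ℤ) = d' := by
        apply mul_left_cancel₀ (show (2 * u : ℤ) ≠ 0 by positivity) e4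
      exact_mod_cast e5
  rw [Finset.card_range] at h1
  have h2 : (((2 * u).toNat : ℕ) : ℝ) = 2 * (u : ℝ) := by
    have h3 : (((2 * u).toNat : ℕ) : ℤ) = 2 * u := Int.toNat_of_nonneg (by linarith)
    have h4 : ((((2 * u).toNat : ℕ) : ℤ) : ℝ) = ((2 * u : ℤ) : ℝ) := congrArg _ h3
    rw [Int.cast_natCast] at h4
    rw [h4]
    push_cast
    ring
  rw [← h2]
  exact_mod_cast h1

end GaussAux

open GaussAux in
theorem gauss_bound {u : ℤ} (hu : 0 < u) (v a h : ℤ) {q : ℕ} (hq : 0 < q) (hc : IsCoprime a (q : ℤ)) :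
    ‖G u v a h q‖ ^ 2 ≤ 2 * (u : ℝ) * q := by
  set φ : ℤ → ℤ := fun r => a * qp u v r + h * r with hφ
  have hper : ∀ x : ℤ, (q : ℤ) ∣ φ (x + q) - φ x := by
    intro x
    refine ⟨a * (u * (2 * x + q) + v) + h, ?_⟩
    simp only [hφ, qp]
    ring
  have hsq : ((‖G u v a h q‖ ^ 2 : ℝ) : ℂ) =
      ∑ d ∈ range q, e ((φ d : ℝ) / q) * (if (q : ℤ) ∣ 2 * u * a * d then (q : ℂ) else 0) := by
    have h1 : ((‖G u v a h q‖ ^ 2 : ℝ) : ℂ) = (starRingEnd ℂ) (G u v a h q) * G u v a h q := by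
      rw [Complex.conj_mul', Complex.ofReal_pow]
    rw [h1]
    have h2 : G u v a h q = ∑ r ∈ range q, e ((φ r : ℝ) / q) := rfl
    rw [h2, map_sum, Finset.sum_mul]
    have h3 : ∀ s ∈ range q, (starRingEnd ℂ) (e ((φ s : ℝ) / q)) * ∑ r ∈ range q, e ((φ r : ℝ) / q) =
        ∑ d ∈ range q, e ((φ d : ℝ) / q) * e (((s * (2 * u * a * d) : ℤ) : ℝ) / q) := by
      intro s _
      rw [shift (fun r : ℤ => e ((φ r : ℝ) / q)) q (fun x => e_div_congr hq (hper x)) s, Finset.mul_sum]
      refine Finset.sum_congr rfl fun d _ => ?_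
      rw [← e_neg, ← e_add, ← e_add]
      congr 1
      have h4 : φ (s + d) = φ s + φ d + s * (2 * u * a * d) := by
        simp only [hφ, qp]
        ring
      rw [h4]
      push_cast
      ring
    rw [Finset.sum_congr rfl h3, Finset.sum_comm]
    refine Finset.sum_congr rfl fun d _ => ?_
    rw [← Finset.mul_sum]
    congr 1
    exact sum_e hq _
  have hn : ‖((‖G u v a h q‖ ^ 2 : ℝ) : ℂ)‖ ≤ 2 * (u : ℝ) * q := by
    rw [hsq]
    refine (norm_sum_le _ _).trans ?_
    have h5 : ∀ d ∈ range q, ‖e ((φ d : ℝ) / q) * (if (q : ℤ) ∣ 2 * u * a * d then (q : ℂ) else 0)‖ =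
        if (q : ℤ) ∣ 2 * u * a * d then (q : ℝ) else 0 := by
      intro d _
      rw [norm_mul, norm_e, one_mul]
      split_ifs
      · simp
      · simp
    rw [Finset.sum_congr rfl h5, ← Finset.sum_filter, Finset.sum_const, nsmul_eq_mul]
    have h6 := count hu a hq hc
    have hq' : (0 : ℝ) < q := by exact_mod_cast hq
    exact mul_le_mul_of_nonneg_right h6 hq'.le
  rw [Complex.norm_real, Real.norm_of_nonneg (by positivity)] at hn
  exact hn

end Pool.Agent.Lib.TSP
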