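import Pool.Agent.Lib.TSP.L257

/-!
# TSP.Hen: Hensel lifting, counting (1.5 h)
PROOF. `P(A,B,k) = 7A² + 5B² + 2ck⁴ - h`, `q = p^j`, `j ≥ 1`. Triples modulo `pq` are `(A + qx, B + qy, k + qw)` with `A, B, k < q`, `x, y, w < p`. As `2j ≥ j + 1`,
`P(A+qx, B+qy, k+qw) ≡ P(A,B,k) + q (14A x + 10B y + 8ck³ w) (mod pq)`. So `pq ∣` this iff `q ∣ P(A,B,k)` and `p ∣ P(A,B,k)/q + (14A) x + (10B) y + (8ck³) w`; the coefficients modulo `p` depend
only on `A, B, k` modulo `p` (the nonsingularity condition is invariant), one of them is `≠ 0`, so there are exactly `p²` triples `(x, y, w)`.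
-/

set_option autoImplicit false

open Finset

namespace Pool.Agent.Lib.TSP

namespace HenAux

lemma card_one {p : ℕ} (hp : p.Prime) (t a : ℤ) (ha : ¬ (p : ℤ) ∣ a) :
    (∑ x ∈ range p, if (p : ℤ) ∣ t + a * (x : ℤ) then 1 else 0) = 1 := by
  rw [← Finset.card_filter, Finset.card_eq_one]
  haveI := Fact.mk hp
  have hpos : 0 < p := hp.pos
  have ha' : (a : ZMod p) ≠ 0 := by
    intro h
    exact ha ((ZMod.intCast_zmod_eq_zero_iff_dvd a p).1 h)
  set z : ZMod p := -(t : ZMod p) * (a : ZMod p)⁻¹ with hz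
  refine ⟨z.val, ?_⟩
  ext x
  rw [mem_filter, mem_range, mem_singleton]
  have key : (p : ℤ) ∣ t + a * (x : ℤ) ↔ (x : ZMod p) = z := by
    rw [← ZMod.intCast_zmod_eq_zero_iff_dvd]
    push_cast
    constructor
    · intro h
      have h1 : (a : ZMod p) * x = -t := by
        linear_combination h
      rw [hz, ← h1]
      field_simp
    · intro h
      rw [h, hz]
      field_simp
      ring
  rw [key]
  constructor
  · rintro ⟨hx, h⟩
    rw [← h, ZMod.val_natCast_of_lt hx]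
  · rintro rfl
    exact ⟨ZMod.val_lt z, ZMod.natCast_zmod_val z⟩

lemma card_lin {p : ℕ} (hp : p.Prime) (t a b g : ℤ)
    (h : ¬ ((p : ℤ) ∣ a ∧ (p : ℤ) ∣ b ∧ (p : ℤ) ∣ g)) :
    ((range p ×ˢ (range p ×ˢ range p)).filter fun s =>
      (p : ℤ) ∣ t + a * (s.1 : ℤ) + b * (s.2.1 : ℤ) + g * (s.2.2 : ℤ)).card = p ^ 2 := by
  rw [Finset.card_filter, Finset.sum_product]
  simp_rw [Finset.sum_product]
  by_cases ha : (p : ℤ) ∣ a
  · by_cases hb : (p : ℤ) ∣ b
    · have hg : ¬ (p : ℤ) ∣ g := fun hg => h ⟨ha, hb, hg⟩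
      have e1 : ∀ x ∈ range p, ∀ y ∈ range p,
          (∑ w ∈ range p, if (p : ℤ) ∣ t + a * (x : ℤ) + b * (y : ℤ) + g * (w : ℤ) then 1 else 0) = 1 :=
        fun x _ y _ => card_one hp _ g hg
      rw [sum_congr rfl fun x hx => sum_congr rfl fun y hy => e1 x hx y hy]
      simp [pow_two]
    · have e1 : ∀ x ∈ range p,
          (∑ y ∈ range p, ∑ w ∈ range p,
            if (p : ℤ) ∣ t + a * (x : ℤ) + b * (y : ℤ) + g * (w : ℤ) then 1 else 0) = p := by
        intro x _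
        rw [sum_comm]
        have e2 : ∀ w ∈ range p,
            (∑ y ∈ range p, if (p : ℤ) ∣ t + a * (x : ℤ) + b * (y : ℤ) + g * (w : ℤ) then 1 else 0) = 1 := by
          intro w _
          refine Eq.trans (sum_congr rfl fun y _ => ?_) (card_one hp (t + a * (x : ℤ) + g * (w : ℤ)) b hb)
          have : t + a * (x : ℤ) + b * (y : ℤ) + g * (w : ℤ) = t + a * (x : ℤ) + g * (w : ℤ) + b * (y : ℤ) := by
            ring
          rw [this]
        rw [sum_congr rfl e2]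
        simp
      rw [sum_congr rfl e1]
      simp [pow_two]
  · rw [sum_comm]
    have e1 : ∀ y ∈ range p,
        (∑ x ∈ range p, ∑ w ∈ range p,
          if (p : ℤ) ∣ t + a * (x : ℤ) + b * (y : ℤ) + g * (w : ℤ) then 1 else 0) = p := by
      intro y _
      rw [sum_comm]
      have e2 : ∀ w ∈ range p,
          (∑ x ∈ range p, if (p : ℤ) ∣ t + a * (x : ℤ) + b * (y : ℤ) + g * (w : ℤ) then 1 else 0) = 1 := by
        intro w _
        refine Eq.trans (sum_congr rfl fun x _ => ?_) (card_one hp (t + b * (y : ℤ) + g * (w : ℤ)) a ha)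
        have : t + a * (x : ℤ) + b * (y : ℤ) + g * (w : ℤ) = t + b * (y : ℤ) + g * (w : ℤ) + a * (x : ℤ) := by
          ring
        rw [this]
      rw [sum_congr rfl e2]
      simp
    rw [sum_congr rfl e1]
    simp [pow_two]

/-- The polynomial. -/
def P (c h a b k : ℤ) : ℤ := 7 * a ^ 2 + 5 * b ^ 2 + 2 * c * k ^ 4 - h

lemma P_add (c h a b k q x y w : ℤ) : P c h (a + q * x) (b + q * y) (k + q * w) =
    P c h a b k + q * (14 * a * x + 10 * b * y + 8 * c * k ^ 3 * w) +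
      q ^ 2 * (7 * x ^ 2 + 5 * y ^ 2 + 2 * c * (6 * k ^ 2 * w ^ 2 + 4 * k * q * w ^ 3 + q ^ 2 * w ^ 4)) := by
  unfold P
  ring

/-- The singularity condition. -/
def Sg (p c a b k : ℤ) : Prop := p ∣ 14 * a ∧ p ∣ 10 * b ∧ p ∣ 8 * c * k ^ 3

lemma Sg_add {p q : ℤ} (hpq : p ∣ q) (c a b k x y w : ℤ) :
    Sg p c (a + q * x) (b + q * y) (k + q * w) ↔ Sg p c a b k := by
  obtain ⟨r, rfl⟩ := hpq
  unfold Sg
  have e1 : 14 * (a + p * r * x) = 14 * a + p * (14 * r * x) := by ring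
  have e2 : 10 * (b + p * r * y) = 10 * b + p * (10 * r * y) := by ring
  have e3 : 8 * c * (k + p * r * w) ^ 3 = 8 * c * k ^ 3 +
      p * (8 * c * (3 * k ^ 2 * (r * w) + 3 * k * p * (r * w) ^ 2 + p ^ 2 * (r * w) ^ 3)) := by ring
  rw [e1, e2, e3, dvd_add_left (dvd_mul_right _ _), dvd_add_left (dvd_mul_right _ _),
    dvd_add_left (dvd_mul_right _ _)]

lemma P_dvd {p q : ℤ} (hp : p ∣ q) (hq : q ≠ 0) (c h a b k F : ℤ) (hF : P c h a b k = q * F) (x y w : ℤ) :
    q * p ∣ P c h (a + q * x) (b + q * y) (k + q * w) ↔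
      p ∣ F + 14 * a * x + 10 * b * y + 8 * c * k ^ 3 * w := by
  rw [P_add, hF]
  obtain ⟨r, hr⟩ := hp
  have e1 : q * F + q * (14 * a * x + 10 * b * y + 8 * c * k ^ 3 * w) +
      q ^ 2 * (7 * x ^ 2 + 5 * y ^ 2 + 2 * c * (6 * k ^ 2 * w ^ 2 + 4 * k * q * w ^ 3 + q ^ 2 * w ^ 4)) =
      q * (F + 14 * a * x + 10 * b * y + 8 * c * k ^ 3 * w) +
      q * p * (r * (7 * x ^ 2 + 5 * y ^ 2 + 2 * c * (6 * k ^ 2 * w ^ 2 + 4 * k * q * w ^ 3 + q ^ 2 * w ^ 4))) := by
    rw [pow_two]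
    nth_rewrite 4 [hr]
    ring
  rw [e1, dvd_add_left (dvd_mul_right _ _), mul_dvd_mul_iff_left hq]

end HenAux

open HenAux

/-- the number of nonsingular solutions modulo `q` (`q` a power of `p`) -/
def Mn (c h : ℤ) (p q : ℕ) : ℕ :=
  ((range q ×ˢ (range q ×ˢ range q)).filter fun s =>
    (q : ℤ) ∣ 7 * (s.1 : ℤ) ^ 2 + 5 * (s.2.1 : ℤ) ^ 2 + 2 * c * (s.2.2 : ℤ) ^ 4 - h ∧
    ¬ ((p : ℤ) ∣ 14 * (s.1 : ℤ) ∧ (p : ℤ) ∣ 10 * (s.2.1 : ℤ) ∧ (p : ℤ) ∣ 8 * c * (s.2.2 : ℤ) ^ 3)).card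

theorem hensel {p : ℕ} (hp : p.Prime) (c h : ℤ) {j : ℕ} (hj : 1 ≤ j) :
    Mn c h p (p ^ (j + 1)) = p ^ 2 * Mn c h p (p ^ j) := by
  unfold Mn
  set q : ℕ := p ^ j with hq
  have hq0 : 0 < q := pow_pos hp.pos j
  have hpq : p ∣ q := dvd_pow_self p (by omega)
  have hpqz : (p : ℤ) ∣ (q : ℤ) := by exact_mod_cast hpq
  have hqz : (q : ℤ) ≠ 0 := by exact_mod_cast hq0.ne'
  have hpow : p ^ (j + 1) = q * p := pow_succ p j
  rw [hpow]
  have hdec : ∀ n : ℕ, ((n % q : ℕ) : ℤ) + (q : ℤ) * ((n / q : ℕ) : ℤ) = (n : ℤ) := by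
    intro n
    exact_mod_cast Nat.mod_add_div n q
  rw [Finset.card_eq_sum_card_fiberwise (f := fun s : ℕ × ℕ × ℕ => (s.1 % q, s.2.1 % q, s.2.2 % q))
    (t := (range q ×ˢ (range q ×ˢ range q)).filter fun s =>
      (q : ℤ) ∣ 7 * (s.1 : ℤ) ^ 2 + 5 * (s.2.1 : ℤ) ^ 2 + 2 * c * (s.2.2 : ℤ) ^ 4 - h ∧
      ¬ ((p : ℤ) ∣ 14 * (s.1 : ℤ) ∧ (p : ℤ) ∣ 10 * (s.2.1 : ℤ) ∧ (p : ℤ) ∣ 8 * c * (s.2.2 : ℤ) ^ 3))]
  · refine Eq.trans (sum_congr (g := fun _ => p ^ 2) rfl ?_)
      (by rw [Finset.sum_const, smul_eq_mul, mul_comm])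
    rintro ⟨A, B, k⟩ hs
    rw [mem_filter, mem_product, mem_product, mem_range, mem_range, mem_range] at hs
    obtain ⟨⟨hA, hB, hk⟩, ⟨F, hF⟩, hns⟩ := hs
    simp only at hA hB hk hF hns
    have hF' : P c h A B k = q * F := hF
    have hcl := card_lin hp F (14 * A) (10 * B) (8 * c * k ^ 3) hns
    rw [← hcl]
    symm
    refine Finset.card_bij' (fun s _ => (A + q * s.1, B + q * s.2.1, k + q * s.2.2))
      (fun s _ => (s.1 / q, s.2.1 / q, s.2.2 / q)) ?_ ?_ ?_ ?_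
    · rintro ⟨x, y, w⟩ hxyw
      rw [mem_filter, mem_product, mem_product, mem_range, mem_range, mem_range] at hxyw
      obtain ⟨⟨hx, hy, hw⟩, hd⟩ := hxyw
      simp only at hx hy hw hd
      rw [mem_filter, mem_filter, mem_product, mem_product, mem_range, mem_range, mem_range]
      simp only
      refine ⟨⟨⟨?_, ?_, ?_⟩, ?_, ?_⟩, ?_⟩
      · calc A + q * x < q + q * x := by omega
          _ = q * (x + 1) := by ring
          _ ≤ q * p := Nat.mul_le_mul_left q hx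
      · calc B + q * y < q + q * y := by omega
          _ = q * (y + 1) := by ring
          _ ≤ q * p := Nat.mul_le_mul_left q hy
      · calc k + q * w < q + q * w := by omega
          _ = q * (w + 1) := by ring
          _ ≤ q * p := Nat.mul_le_mul_left q hw
      · have := (P_dvd hpqz hqz c h A B k F hF' x y w).2 hd
        push_cast
        exact this
      · intro hsg
        apply hns
        push_cast at hsg
        exact (Sg_add hpqz c A B k x y w).1 hsg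
      · rw [Nat.add_mul_mod_self_left, Nat.add_mul_mod_self_left, Nat.add_mul_mod_self_left,
          Nat.mod_eq_of_lt hA, Nat.mod_eq_of_lt hB, Nat.mod_eq_of_lt hk]
    · rintro ⟨a, b, m⟩ hs
      rw [mem_filter, mem_filter, mem_product, mem_product, mem_range, mem_range, mem_range] at hs
      obtain ⟨⟨⟨ha, hb, hm⟩, hd, _⟩, he⟩ := hs
      simp only at ha hb hm hd he
      have hea : a % q = A := congrArg Prod.fst he
      have heb : b % q = B := congrArg (fun z => z.2.1) he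
      have hem : m % q = k := congrArg (fun z => z.2.2) he
      rw [mem_filter, mem_product, mem_product, mem_range, mem_range, mem_range]
      simp only
      refine ⟨⟨(Nat.div_lt_iff_lt_mul hq0).2 (by rw [mul_comm]; exact ha),
        (Nat.div_lt_iff_lt_mul hq0).2 (by rw [mul_comm]; exact hb),
        (Nat.div_lt_iff_lt_mul hq0).2 (by rw [mul_comm]; exact hm)⟩, ?_⟩
      refine (P_dvd hpqz hqz c h A B k F hF' _ _ _).1 ?_
      rw [← hea, ← heb, ← hem, hdec, hdec, hdec]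
      push_cast at hd
      exact hd
    · rintro ⟨x, y, w⟩ _
      simp only
      rw [Nat.add_mul_div_left _ _ hq0, Nat.add_mul_div_left _ _ hq0, Nat.add_mul_div_left _ _ hq0,
        Nat.div_eq_of_lt hA, Nat.div_eq_of_lt hB, Nat.div_eq_of_lt hk, zero_add, zero_add, zero_add]
    · rintro ⟨a, b, m⟩ hs
      rw [mem_filter] at hs
      have he := hs.2
      simp only at he
      have hea : a % q = A := congrArg Prod.fst he
      have heb : b % q = B := congrArg (fun z => z.2.1) he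
      have hem : m % q = k := congrArg (fun z => z.2.2) he
      simp only
      rw [← hea, ← heb, ← hem, Nat.mod_add_div, Nat.mod_add_div, Nat.mod_add_div]
  · rintro ⟨a, b, m⟩ hs
    rw [Finset.mem_coe, mem_filter, mem_product, mem_product, mem_range, mem_range, mem_range] at hs
    obtain ⟨_, hd, hns⟩ := hs
    simp only at hd hns
    rw [Finset.mem_coe, mem_filter, mem_product, mem_product, mem_range, mem_range, mem_range]
    simp only
    refine ⟨⟨Nat.mod_lt _ hq0, Nat.mod_lt _ hq0, Nat.mod_lt _ hq0⟩, ?_, ?_⟩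
    · have h1 : (q : ℤ) ∣ P c h a b m := by
        refine Dvd.dvd.trans ?_ hd
        push_cast
        exact dvd_mul_right _ _
      rw [← hdec a, ← hdec b, ← hdec m, P_add] at h1
      have h2 : (q : ℤ) ∣ (q : ℤ) ^ 2 := dvd_pow_self _ two_ne_zero
      rw [dvd_add_left (Dvd.dvd.mul_right h2 _), dvd_add_left (dvd_mul_right _ _)] at h1
      exact h1
    · intro hsg
      apply hns
      have := (Sg_add hpqz c ((a % q : ℕ) : ℤ) ((b % q : ℕ) : ℤ) ((m % q : ℕ) : ℤ) ((a / q : ℕ) : ℤ)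
        ((b / q : ℕ) : ℤ) ((m / q : ℕ) : ℤ)).2 hsg
      rw [hdec, hdec, hdec] at this
      exact this

end Pool.Agent.Lib.TSP
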