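import Pool.Agent.Lib.TSP.Rho

/-!
# TSP.L257: the primes 2, 5, 7 and the change of variables at the others (1.2 h)
PROOF. `rho_257`: for `p = 2, 5`: `x ↦ qp 490 (v1 b) x` is a bijection modulo `p^j`: `P(x) - P(x') = (x - x')(490(x + x') + v1)` and the second factor is prime to `p`
(`490 ≡ 0`, `v1 = -21, -63`); so for each `(y, t)` exactly one `x`: `N3 = q²`, `q = p^j`. For `p = 7` the same with `y`, `qp 350 (v2 b)` (`350 ≡ 0 mod 7`, `v2 = -15, -25`).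
`A_257`: `A_pp`.
`N3_eq`: for `q` coprime to `70` the maps `x ↦ A₀ + 140x`, `y ↦ B₀ + 140 y`, `t ↦ k₀ + 140 t` are bijections modulo `q` (`A₀ = -3, -9`, `B₀ = -3, -5`, `k₀ = 2, 1`), and
`7 (A₀+140x)² + 5 (B₀+140y)² + 2 cc (k₀+140t)⁴ = 280 (P₁(x) + P₂(y) + P₃(t)) + 70 n1 b` (`ring`); `280` is a unit modulo `q`, so the condition `P₁+P₂+P₃ ≡ m` is
`7A²+5B²+2cc k⁴ ≡ 70(4m + n1 b) (mod q)`.
-/

set_option autoImplicit false

open Finset

namespace Pool.Agent.Lib.TSP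

/-- `c²` -/
def cc (b : Bool) : ℤ := if b then 4 else 1

/-- the number of solutions of `7A² + 5B² + 2 c k⁴ = h` modulo `q` -/
def Mc (c h : ℤ) (q : ℕ) : ℕ :=
  ((range q ×ˢ (range q ×ˢ range q)).filter fun s =>
    (q : ℤ) ∣ 7 * (s.1 : ℤ) ^ 2 + 5 * (s.2.1 : ℤ) ^ 2 + 2 * c * (s.2.2 : ℤ) ^ 4 - h).card

namespace L257Aux

/-- an injective function modulo `q` takes every value exactly once -/
theorem uniq {q : ℕ} (hq : 0 < q) (P : ℕ → ℤ)
    (inj : ∀ x < q, ∀ x' < q, (q : ℤ) ∣ P x - P x' → x = x') (c : ℤ) :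
    (∑ x ∈ range q, if (q : ℤ) ∣ P x - c then 1 else 0) = 1 := by
  have : NeZero q := ⟨hq.ne'⟩
  have hinj : Set.InjOn (fun x : ℕ => ((P x : ℤ) : ZMod q)) (range q : Set ℕ) := by
    intro x hx x' hx' h
    have h1 : (q : ℤ) ∣ P x - P x' := (ZMod.intCast_eq_intCast_iff_dvd_sub _ _ _).1 h.symm
    exact inj x (by simpa using hx) x' (by simpa using hx') h1
  have himg : (range q).image (fun x : ℕ => ((P x : ℤ) : ZMod q)) = univ := by
    apply Finset.eq_univ_of_card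
    rw [Finset.card_image_of_injOn hinj, card_range, ZMod.card]
  have hc : ((c : ℤ) : ZMod q) ∈ (range q).image (fun x : ℕ => ((P x : ℤ) : ZMod q)) := by
    rw [himg]
    exact mem_univ _
  obtain ⟨x0, hx0, hx0c⟩ := mem_image.1 hc
  have hd : (q : ℤ) ∣ P x0 - c := (ZMod.intCast_eq_intCast_iff_dvd_sub _ _ _).1 hx0c.symm
  rw [Finset.sum_eq_single x0]
  · rw [if_pos hd]
  · intro x hx hne
    rw [if_neg]
    intro h
    apply hne
    refine inj x (mem_range.1 hx) x0 (mem_range.1 hx0) ?_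
    have : P x - P x0 = (P x - c) - (P x0 - c) := by ring
    rw [this]
    exact dvd_sub h hd
  · intro h
    exact absurd hx0 h

/-- injectivity of a quadratic polynomial modulo a prime power -/
theorem qp_inj {p : ℕ} (hp : p.Prime) (j : ℕ) {u v : ℤ} (hu : (p : ℤ) ∣ u) (hv : ¬ (p : ℤ) ∣ v)
    (x : ℕ) (hx : x < p ^ j) (x' : ℕ) (hx' : x' < p ^ j)
    (h : ((p ^ j : ℕ) : ℤ) ∣ qp u v x - qp u v x') : x = x' := by
  have e : qp u v x - qp u v x' = ((x : ℤ) - x') * (u * (x + x') + v) := by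
    unfold qp
    ring
  rw [e] at h
  have hpi : Prime (p : ℤ) := Nat.prime_iff_prime_int.1 hp
  have hco : IsCoprime ((p : ℤ) ^ j) (u * ((x : ℤ) + x') + v) := by
    refine IsCoprime.pow_left ((Irreducible.coprime_iff_not_dvd hpi.irreducible).2 ?_)
    intro h1
    apply hv
    exact (dvd_add_right (hu.mul_right _)).1 h1
  push_cast at h
  have h2 : (p : ℤ) ^ j ∣ (x : ℤ) - x' := hco.dvd_of_dvd_mul_right h
  have h3 : ((x : ℤ) - x') = 0 := by
    refine Int.eq_zero_of_abs_lt_dvd h2 ?_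
    rw [abs_lt]
    have a1 : (x : ℤ) < (p : ℤ) ^ j := by exact_mod_cast hx
    have a2 : (x' : ℤ) < (p : ℤ) ^ j := by exact_mod_cast hx'
    have a3 : (0 : ℤ) ≤ x := Int.natCast_nonneg _
    have a4 : (0 : ℤ) ≤ x' := Int.natCast_nonneg _
    constructor <;> linarith
  have h4 : (x : ℤ) = x' := by linarith
  exact_mod_cast h4

theorem N3_x (b : Bool) (m : ℤ) {q : ℕ}
    (h : ∀ c : ℤ, (∑ x ∈ range q, if (q : ℤ) ∣ qp 490 (v1 b) x - c then 1 else 0) = 1) :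
    N3 b m q = q ^ 2 := by
  unfold N3
  rw [card_filter, sum_product, sum_comm]
  have e : ∀ s ∈ range q ×ˢ range q, (∑ x ∈ range q,
      if (q : ℤ) ∣ qp 490 (v1 b) ((x, s) : ℕ × ℕ × ℕ).1 + qp 350 (v2 b) ((x, s) : ℕ × ℕ × ℕ).2.1 +
        P3 b ((x, s) : ℕ × ℕ × ℕ).2.2 - m then 1 else 0) = 1 := by
    intro s _
    refine Eq.trans (sum_congr rfl fun x _ => ?_) (h (m - qp 350 (v2 b) s.1 - P3 b s.2))
    have e1 : qp 490 (v1 b) ((x, s) : ℕ × ℕ × ℕ).1 + qp 350 (v2 b) ((x, s) : ℕ × ℕ × ℕ).2.1 +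
        P3 b ((x, s) : ℕ × ℕ × ℕ).2.2 - m =
        qp 490 (v1 b) x - (m - qp 350 (v2 b) s.1 - P3 b s.2) := by
      show qp 490 (v1 b) (x : ℤ) + qp 350 (v2 b) (s.1 : ℤ) + P3 b (s.2 : ℤ) - m = _
      ring
    rw [e1]
  rw [sum_congr rfl e, sum_const, card_product, card_range, smul_eq_mul, mul_one]
  ring

theorem N3_y (b : Bool) (m : ℤ) {q : ℕ}
    (h : ∀ c : ℤ, (∑ x ∈ range q, if (q : ℤ) ∣ qp 350 (v2 b) x - c then 1 else 0) = 1) :
    N3 b m q = q ^ 2 := by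
  unfold N3
  rw [card_filter, sum_product]
  have e : ∀ x ∈ range q, (∑ s ∈ range q ×ˢ range q,
      if (q : ℤ) ∣ qp 490 (v1 b) ((x, s) : ℕ × ℕ × ℕ).1 + qp 350 (v2 b) ((x, s) : ℕ × ℕ × ℕ).2.1 +
        P3 b ((x, s) : ℕ × ℕ × ℕ).2.2 - m then 1 else 0) = q := by
    intro x _
    rw [sum_product, sum_comm]
    have e2 : ∀ t ∈ range q, (∑ y ∈ range q,
      if (q : ℤ) ∣ qp 490 (v1 b) ((x, (y, t)) : ℕ × ℕ × ℕ).1 +
        qp 350 (v2 b) ((x, (y, t)) : ℕ × ℕ × ℕ).2.1 +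
        P3 b ((x, (y, t)) : ℕ × ℕ × ℕ).2.2 - m then 1 else 0) = 1 := by
      intro t _
      refine Eq.trans (sum_congr rfl fun y _ => ?_) (h (m - qp 490 (v1 b) x - P3 b t))
      have e1 : qp 490 (v1 b) ((x, (y, t)) : ℕ × ℕ × ℕ).1 +
          qp 350 (v2 b) ((x, (y, t)) : ℕ × ℕ × ℕ).2.1 +
          P3 b ((x, (y, t)) : ℕ × ℕ × ℕ).2.2 - m =
          qp 350 (v2 b) y - (m - qp 490 (v1 b) x - P3 b t) := by
        show qp 490 (v1 b) (x : ℤ) + qp 350 (v2 b) (y : ℤ) + P3 b (t : ℤ) - m = _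
        ring
      rw [e1]
    rw [sum_congr rfl e2, sum_const, card_range, smul_eq_mul, mul_one]
  rw [sum_congr rfl e, sum_const, card_range, smul_eq_mul]
  ring

theorem N3_257 (b : Bool) (m : ℤ) {p : ℕ} (hp : p = 2 ∨ p = 5 ∨ p = 7) (j : ℕ) :
    N3 b m (p ^ j) = (p ^ j) ^ 2 := by
  rcases hp with rfl | rfl | rfl
  · refine N3_x b m fun c => uniq (by positivity) (fun x => qp 490 (v1 b) x) ?_ c
    refine qp_inj Nat.prime_two j (by norm_num) ?_
    cases b <;> simp [v1]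
  · refine N3_x b m fun c => uniq (by positivity) (fun x => qp 490 (v1 b) x) ?_ c
    refine qp_inj Nat.prime_five j (by norm_num) ?_
    cases b <;> simp [v1]
  · refine N3_y b m fun c => uniq (by positivity) (fun x => qp 350 (v2 b) x) ?_ c
    refine qp_inj (by norm_num) j (by norm_num) ?_
    cases b <;> simp [v2]

/-- counting in `ZMod q` -/
theorem card_toZ {q : ℕ} [NeZero q] (Φ : ZMod q × (ZMod q × ZMod q) → Prop) [DecidablePred Φ] :
    ((range q ×ˢ (range q ×ˢ range q)).filter fun s =>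
      Φ ((s.1 : ZMod q), ((s.2.1 : ZMod q), (s.2.2 : ZMod q)))).card =
      ((univ : Finset (ZMod q × (ZMod q × ZMod q))).filter Φ).card := by
  have hcast : ∀ {a b : ℕ}, a < q → b < q → (a : ZMod q) = (b : ZMod q) → a = b := by
    intro a b ha hb h
    exact ((ZMod.natCast_eq_natCast_iff a b q).1 h).eq_of_lt_of_lt ha hb
  refine Finset.card_bij (fun s _ => ((s.1 : ZMod q), ((s.2.1 : ZMod q), (s.2.2 : ZMod q))))
    ?_ ?_ ?_
  · intro s hs
    exact mem_filter.2 ⟨mem_univ _, (mem_filter.1 hs).2⟩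
  · rintro ⟨a, b, c⟩ ha ⟨a', b', c'⟩ ha' h
    simp only [mem_filter, mem_product, mem_range] at ha ha'
    simp only [Prod.mk.injEq] at h ⊢
    exact ⟨hcast ha.1.1 ha'.1.1 h.1, hcast ha.1.2.1 ha'.1.2.1 h.2.1,
      hcast ha.1.2.2 ha'.1.2.2 h.2.2⟩
  · rintro ⟨a, b, c⟩ h
    refine ⟨(a.val, b.val, c.val), ?_, ?_⟩
    · simp only [mem_filter, mem_product, mem_range]
      refine ⟨⟨ZMod.val_lt a, ZMod.val_lt b, ZMod.val_lt c⟩, ?_⟩
      simpa using (mem_filter.1 h).2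
    · simp

theorem key (b : Bool) : ∃ A0 B0 k0 : ℤ, (∀ m x y t : ℤ,
    7 * (A0 + 140 * x) ^ 2 + 5 * (B0 + 140 * y) ^ 2 + 2 * cc b * (k0 + 140 * t) ^ 4 -
      70 * (4 * m + n1 b) = 280 * (qp 490 (v1 b) x + qp 350 (v2 b) y + P3 b t - m)) := by
  cases b
  · refine ⟨-3, -3, 2, fun m x y t => ?_⟩
    simp only [cc, n1, qp, v1, v2, P3, Bool.false_eq_true, if_false]
    ring
  · refine ⟨-9, -5, 1, fun m x y t => ?_⟩
    simp only [cc, n1, qp, v1, v2, P3, if_true]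
    ring

end L257Aux

open L257Aux

theorem rho_257 (b : Bool) (m : ℤ) {p : ℕ} (hp : p = 2 ∨ p = 5 ∨ p = 7) (j : ℕ) : rho b m (p ^ j) = 1 := by
  have hp0 : 0 < p := by omega
  unfold rho
  rw [N3_257 b m hp j]
  have h : ((p ^ j : ℕ) : ℝ) ≠ 0 := by
    have : 0 < p ^ j := by positivity
    exact_mod_cast this.ne'
  rw [Nat.cast_pow (p ^ j) 2]
  exact div_self (pow_ne_zero 2 h)

theorem A_257 (b : Bool) (m : ℤ) {p : ℕ} (hp : p = 2 ∨ p = 5 ∨ p = 7) (j : ℕ) :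
    A b m (p ^ (j + 1)) = 0 := by
  have hpr : p.Prime := by
    rcases hp with rfl | rfl | rfl <;> norm_num
  rw [A_pp b m hpr, rho_257 b m hp, rho_257 b m hp, sub_self]

theorem N3_eq (b : Bool) (m : ℤ) {q : ℕ} (hq : Nat.Coprime q 70) :
    N3 b m q = Mc (cc b) (70 * (4 * m + n1 b)) q := by
  have hq0 : q ≠ 0 := by
    rintro rfl
    simp at hq
  have : NeZero q := ⟨hq0⟩
  have h2 : Nat.Coprime q 2 := Nat.Coprime.coprime_dvd_right (by norm_num) hq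
  have h140 : Nat.Coprime 140 q := (Nat.Coprime.mul_right h2 hq).symm
  have h280 : Nat.Coprime 280 q := (Nat.Coprime.mul_right h2 h140.symm).symm
  obtain ⟨A0, B0, k0, hk⟩ := key b
  set U : (ZMod q)ˣ := ZMod.unitOfCoprime 140 h140 with hU
  set W : (ZMod q)ˣ := ZMod.unitOfCoprime 280 h280 with hW
  have hUv : (U : ZMod q) = 140 := by
    rw [hU, ZMod.coe_unitOfCoprime]
    norm_num
  have hWv : (W : ZMod q) = 280 := by
    rw [hW, ZMod.coe_unitOfCoprime]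
    norm_num
  -- the two conditions in `ZMod q`
  let g1 : ZMod q × (ZMod q × ZMod q) → ZMod q := fun s =>
    490 * s.1 ^ 2 + (v1 b : ZMod q) * s.1 + (350 * s.2.1 ^ 2 + (v2 b : ZMod q) * s.2.1) +
      (if b then 16 * s.2.2 + 3360 * s.2.2 ^ 2 + 313600 * s.2.2 ^ 3 + 10976000 * s.2.2 ^ 4
        else 32 * s.2.2 + 3360 * s.2.2 ^ 2 + 156800 * s.2.2 ^ 3 + 2744000 * s.2.2 ^ 4) - (m : ZMod q)
  let g2 : ZMod q × (ZMod q × ZMod q) → ZMod q := fun s =>
    7 * s.1 ^ 2 + 5 * s.2.1 ^ 2 + 2 * (cc b : ZMod q) * s.2.2 ^ 4 -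
      ((70 * (4 * m + n1 b) : ℤ) : ZMod q)
  have c1 : ∀ x y t : ℤ, ((qp 490 (v1 b) x + qp 350 (v2 b) y + P3 b t - m : ℤ) : ZMod q) =
      g1 ((x : ZMod q), ((y : ZMod q), (t : ZMod q))) := by
    intro x y t
    simp only [g1, qp, P3]
    cases b <;> simp
  have c2 : ∀ x y t : ℤ, ((7 * x ^ 2 + 5 * y ^ 2 + 2 * cc b * t ^ 4 - 70 * (4 * m + n1 b) : ℤ) :
      ZMod q) = g2 ((x : ZMod q), ((y : ZMod q), (t : ZMod q))) := by
    intro x y t
    simp only [g2]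
    push_cast
    ring
  have hsurj : ∀ z : ZMod q, ∃ x : ℤ, (x : ZMod q) = z := fun z => ZMod.intCast_surjective z
  have hrel : ∀ s : ZMod q × (ZMod q × ZMod q),
      g2 ((A0 : ZMod q) + U * s.1, ((B0 : ZMod q) + U * s.2.1, (k0 : ZMod q) + U * s.2.2)) =
        W * g1 s := by
    rintro ⟨x, y, t⟩
    obtain ⟨x, rfl⟩ := hsurj x
    obtain ⟨y, rfl⟩ := hsurj y
    obtain ⟨t, rfl⟩ := hsurj t
    rw [← c1, hUv, hWv]
    have h1 := congrArg (Int.cast : ℤ → ZMod q) (hk m x y t)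
    rw [c2] at h1
    simp only [Int.cast_mul, Int.cast_add, Int.cast_ofNat] at h1 ⊢
    exact h1
  have e1 : N3 b m q = ((univ : Finset (ZMod q × (ZMod q × ZMod q))).filter
      fun s => g1 s = 0).card := by
    rw [← card_toZ]
    unfold N3
    congr 1
    refine filter_congr fun s _ => ?_
    rw [← ZMod.intCast_zmod_eq_zero_iff_dvd, c1]
    simp only [Int.cast_natCast]
  have e2 : Mc (cc b) (70 * (4 * m + n1 b)) q = ((univ : Finset (ZMod q × (ZMod q × ZMod q))).filter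
      fun s => g2 s = 0).card := by
    rw [← card_toZ]
    unfold Mc
    congr 1
    refine filter_congr fun s _ => ?_
    rw [← ZMod.intCast_zmod_eq_zero_iff_dvd, c2]
    simp only [Int.cast_natCast]
  rw [e1, e2]
  refine Finset.card_bij (fun s _ => ((A0 : ZMod q) + U * s.1, ((B0 : ZMod q) + U * s.2.1,
    (k0 : ZMod q) + U * s.2.2))) ?_ ?_ ?_
  · intro s hs
    refine mem_filter.2 ⟨mem_univ _, ?_⟩
    rw [hrel, (mem_filter.1 hs).2, mul_zero]
  · rintro ⟨a, b', c⟩ _ ⟨a', b'', c'⟩ _ h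
    simp only [Prod.mk.injEq, add_right_inj, Units.mul_right_inj] at h ⊢
    exact h
  · rintro ⟨a, b', c⟩ h
    refine ⟨(((U⁻¹ : (ZMod q)ˣ) : ZMod q) * (a - A0), (((U⁻¹ : (ZMod q)ˣ) : ZMod q) * (b' - B0),
      ((U⁻¹ : (ZMod q)ˣ) : ZMod q) * (c - k0))), ?_, ?_⟩
    · refine mem_filter.2 ⟨mem_univ _, ?_⟩
      have h1 := hrel (((U⁻¹ : (ZMod q)ˣ) : ZMod q) * (a - A0), (((U⁻¹ : (ZMod q)ˣ) : ZMod q) *
        (b' - B0), ((U⁻¹ : (ZMod q)ˣ) : ZMod q) * (c - k0)))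
      simp only [Units.mul_inv_cancel_left, add_sub_cancel] at h1
      rw [(mem_filter.1 h).2] at h1
      exact (Units.mul_right_eq_zero W).1 h1.symm
    · simp only [Units.mul_inv_cancel_left, add_sub_cancel]

end Pool.Agent.Lib.TSP
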