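import Mathlib

/-!
# TSP.SfB: Rankin bound for squareful products (1 h)  (compare SPP.Even, which is similar)
PROOF. For `p ∈ P`, `x = 3 p^(-3/5)`: `2k x ≤ 6 z^(1/10) p^(-3/5) ≤ 6 p^(-1/2) ≤ 6/√3 ≤ 3.5` (`p > z ≥ 2`). `∑_{e ≥ 2} C(2k,e) x^e ≤ ∑_{e ≥ 2} (2kx)^e/e! ≤ (1/2)(2kx)² exp(2kx)
≤ 17 · 36 k² p^(-6/5)`, so the factor is at most `exp(612 k² p^(-6/5))`. `∑_{p > z} p^(-6/5) ≤ ∑_{n > z} n^(-6/5) ≤ 5 z^(-1/5)` (telescoping: `n^(-6/5) ≤ 5((n-1)^(-1/5) - n^(-1/5))`, convexity / mean value),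
and `k² ≤ z^(1/5)`. Total exponent `≤ 3060 ≤ 4000`.
-/

set_option autoImplicit false

open Finset

namespace Pool.Agent.Lib.TSP

namespace SfBAux

theorem exp_le : Real.exp (7 / 2 : ℝ) ≤ 34 := by
  have h1 : Real.exp (7 / 2 : ℝ) ^ 2 = Real.exp 1 ^ 7 := by
    rw [← Real.exp_nat_mul, ← Real.exp_nat_mul]
    norm_num
  have h2 : Real.exp 1 ≤ 2.7182818286 := Real.exp_one_lt_d9.le
  have h3 : Real.exp 1 ^ 7 ≤ (2.7182818286 : ℝ) ^ 7 :=
    pow_le_pow_left₀ (Real.exp_pos _).le h2 7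
  have h4 : Real.exp (7 / 2 : ℝ) ^ 2 ≤ 34 ^ 2 := by
    rw [h1]
    refine h3.trans ?_
    norm_num
  exact le_of_sq_le_sq₀ h4 (by norm_num)
where
  le_of_sq_le_sq₀ {a b : ℝ} (h : a ^ 2 ≤ b ^ 2) (hb : 0 ≤ b) : a ≤ b := abs_le_of_sq_le_sq h hb |>.trans' (le_abs_self a)

/-- the second order tail of the exponential series -/
theorem tail_le {y : ℝ} (hy : 0 ≤ y) (m : ℕ) :
    ∑ e ∈ range m, y ^ (e + 2) / ((e + 2).factorial : ℝ) ≤ y ^ 2 / 2 * Real.exp y := by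
  have h1 : ∀ e ∈ range m, y ^ (e + 2) / ((e + 2).factorial : ℝ) ≤
      y ^ 2 / 2 * (y ^ e / (e.factorial : ℝ)) := by
    intro e _
    have h2 : (2 : ℝ) * (e.factorial : ℝ) ≤ ((e + 2).factorial : ℝ) := by
      have : 2 * e.factorial ≤ (e + 2).factorial := by
        rw [Nat.factorial_succ, Nat.factorial_succ]
        have h3 : 1 ≤ e.factorial := Nat.factorial_pos e
        nlinarith [Nat.zero_le e, Nat.mul_le_mul (Nat.zero_le e) h3]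
      exact_mod_cast this
    have h4 : (0 : ℝ) < 2 * (e.factorial : ℝ) := by positivity
    calc y ^ (e + 2) / ((e + 2).factorial : ℝ) ≤ y ^ (e + 2) / (2 * (e.factorial : ℝ)) := by
          gcongr
      _ = y ^ 2 / 2 * (y ^ e / (e.factorial : ℝ)) := by
          rw [pow_add]
          field_simp
  calc ∑ e ∈ range m, y ^ (e + 2) / ((e + 2).factorial : ℝ)
      ≤ ∑ e ∈ range m, y ^ 2 / 2 * (y ^ e / (e.factorial : ℝ)) := Finset.sum_le_sum h1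
    _ = y ^ 2 / 2 * ∑ e ∈ range m, y ^ e / (e.factorial : ℝ) := by rw [Finset.mul_sum]
    _ ≤ y ^ 2 / 2 * Real.exp y := by
        gcongr
        exact Real.sum_le_exp_of_nonneg hy m

/-- one factor -/
theorem factor_le {x : ℝ} (hx : 0 ≤ x) (k : ℕ) (hy : 2 * k * x ≤ 7 / 2) :
    ∑ e ∈ (range (2 * k + 1)).filter (fun e => e ≠ 1), ((2 * k).choose e : ℝ) * x ^ e ≤
      Real.exp (17 * (2 * k * x) ^ 2) := by
  have hy0 : (0 : ℝ) ≤ 2 * k * x := by positivity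
  have h1 : ∑ e ∈ (range (2 * k + 1)).filter (fun e => e ≠ 1), ((2 * k).choose e : ℝ) * x ^ e ≤
      1 + ∑ e ∈ range (2 * k), (2 * k * x) ^ (e + 2) / ((e + 2).factorial : ℝ) := by
    have h2 : ∀ e, ((2 * k).choose e : ℝ) * x ^ e ≤ (2 * k * x) ^ e / (e.factorial : ℝ) := by
      intro e
      have h3 : ((2 * k).choose e : ℝ) ≤ ((2 * k : ℕ) : ℝ) ^ e / (e.factorial : ℝ) :=
        Nat.choose_le_pow_div e (2 * k)
      calc ((2 * k).choose e : ℝ) * x ^ e ≤ ((2 * k : ℕ) : ℝ) ^ e / (e.factorial : ℝ) * x ^ e := by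
            gcongr
        _ = (2 * k * x) ^ e / (e.factorial : ℝ) := by
            push_cast
            rw [mul_pow (2 * (k : ℝ)) x e]
            ring
    have h4 : (range (2 * k + 1)).filter (fun e => e ≠ 1) ⊆
        insert 0 ((range (2 * k)).map ⟨fun e => e + 2, fun a b h => by simpa using h⟩) := by
      intro e he
      rw [Finset.mem_filter, Finset.mem_range] at he
      rw [Finset.mem_insert, Finset.mem_map]
      rcases Nat.lt_or_ge e 2 with h | h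
      · left
        omega
      · right
        refine ⟨e - 2, by rw [Finset.mem_range]; omega, ?_⟩
        show e - 2 + 2 = e
        omega
    calc ∑ e ∈ (range (2 * k + 1)).filter (fun e => e ≠ 1), ((2 * k).choose e : ℝ) * x ^ e
        ≤ ∑ e ∈ insert 0 ((range (2 * k)).map ⟨fun e => e + 2, fun a b h => by simpa using h⟩),
            ((2 * k).choose e : ℝ) * x ^ e := by
          apply Finset.sum_le_sum_of_subset_of_nonneg h4
          intro i _ _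
          positivity
      _ = 1 + ∑ e ∈ range (2 * k), ((2 * k).choose (e + 2) : ℝ) * x ^ (e + 2) := by
          rw [Finset.sum_insert (by simp), Finset.sum_map]
          simp only [Nat.choose_zero_right, Nat.cast_one, pow_zero, mul_one]
          rfl
      _ ≤ 1 + ∑ e ∈ range (2 * k), (2 * k * x) ^ (e + 2) / ((e + 2).factorial : ℝ) := by
          gcongr with e _
          exact h2 (e + 2)
  have h5 := tail_le hy0 (2 * k)
  have h6 : Real.exp (2 * k * x) ≤ 34 := (Real.exp_le_exp.2 hy).trans exp_le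
  calc ∑ e ∈ (range (2 * k + 1)).filter (fun e => e ≠ 1), ((2 * k).choose e : ℝ) * x ^ e
      ≤ 1 + (2 * k * x) ^ 2 / 2 * Real.exp (2 * k * x) := by linarith
    _ ≤ 1 + (2 * k * x) ^ 2 / 2 * 34 := by gcongr
    _ = 17 * (2 * k * x) ^ 2 + 1 := by ring
    _ ≤ Real.exp (17 * (2 * k * x) ^ 2) := Real.add_one_le_exp _

/-- the telescoping step -/
theorem step_le {n : ℕ} (hn : 2 ≤ n) :
    (n : ℝ) ^ (-(6 / 5) : ℝ) ≤ 5 * (((n - 1 : ℕ) : ℝ) ^ (-(1 / 5) : ℝ) - (n : ℝ) ^ (-(1 / 5) : ℝ)) := by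
  have hn' : ((n - 1 : ℕ) : ℝ) = (n : ℝ) - 1 := by
    rw [Nat.cast_sub (by omega)]
    simp
  rw [hn']
  have h2 : (2 : ℝ) ≤ n := by exact_mod_cast hn
  set m : ℝ := (n : ℝ) with hm
  -- Bernoulli: `(1 - 1/m) ^ (-1/5) ≥ 1 + 1/(5 m)`
  have h3 : 0 < m := by linarith
  have h4 : m ^ (-(6 / 5) : ℝ) = m ^ (-(1 / 5) : ℝ) * m⁻¹ := by
    rw [← Real.rpow_neg_one m, ← Real.rpow_add h3]
    norm_num
  have h5 : (m - 1) ^ (-(1 / 5) : ℝ) = m ^ (-(1 / 5) : ℝ) * (1 - m⁻¹) ^ (-(1 / 5) : ℝ) := by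
    rw [← Real.mul_rpow h3.le (by rw [sub_nonneg]; exact inv_le_one_of_one_le₀ (by linarith))]
    congr 1
    field_simp
  have h6 : 0 < m⁻¹ := inv_pos.2 h3
  have h7 : m⁻¹ ≤ 1 / 2 := by
    rw [inv_eq_one_div]
    exact one_div_le_one_div_of_le (by norm_num) h2
  have h8 : 1 + (1 / 5) * m⁻¹ ≤ (1 - m⁻¹) ^ (-(1 / 5) : ℝ) := by
    have h9 : (0 : ℝ) < 1 - m⁻¹ := by linarith
    rw [Real.rpow_def_of_pos h9]
    have h10 : Real.log (1 - m⁻¹) ≤ -m⁻¹ := by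
      have := Real.log_le_sub_one_of_pos h9
      linarith
    have h11 : (1 / 5) * m⁻¹ ≤ Real.log (1 - m⁻¹) * (-(1 / 5)) := by nlinarith
    calc 1 + (1 / 5) * m⁻¹ = (1 / 5) * m⁻¹ + 1 := by ring
      _ ≤ Real.exp ((1 / 5) * m⁻¹) := Real.add_one_le_exp _
      _ ≤ _ := Real.exp_le_exp.2 h11
  have h12 : (0 : ℝ) < m ^ (-(1 / 5) : ℝ) := Real.rpow_pos_of_pos h3 _
  rw [h4, h5]
  nlinarith [mul_le_mul_of_nonneg_left h8 h12.le]

theorem tele (z : ℕ) (hz : 1 ≤ z) (N : ℕ) (hN : z ≤ N) :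
    ∑ n ∈ Finset.Ioc z N, (n : ℝ) ^ (-(6 / 5) : ℝ) ≤
      5 * ((z : ℝ) ^ (-(1 / 5) : ℝ) - (N : ℝ) ^ (-(1 / 5) : ℝ)) := by
  induction N, hN using Nat.le_induction with
  | base => simp
  | succ N hN ih =>
    rw [← Finset.insert_Ioc_right_eq_Ioc_add_one hN, Finset.sum_insert (by simp)]
    have h := step_le (n := N + 1) (by omega)
    rw [Nat.add_sub_cancel] at h
    linarith

theorem sum_le {P : Finset ℕ} {z : ℕ} (hz : 1 ≤ z) (hP : ∀ p ∈ P, z < p) :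
    ∑ p ∈ P, (p : ℝ) ^ (-(6 / 5) : ℝ) ≤ 5 * (z : ℝ) ^ (-(1 / 5) : ℝ) := by
  have h1 : P ⊆ Finset.Ioc z (max z (P.sup id)) := by
    intro p hp
    rw [Finset.mem_Ioc]
    exact ⟨hP p hp, le_max_of_le_right (Finset.le_sup (f := id) hp)⟩
  calc ∑ p ∈ P, (p : ℝ) ^ (-(6 / 5) : ℝ)
      ≤ ∑ p ∈ Finset.Ioc z (max z (P.sup id)), (p : ℝ) ^ (-(6 / 5) : ℝ) := by
        apply Finset.sum_le_sum_of_subset_of_nonneg h1
        intro i _ _
        positivity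
    _ ≤ _ := tele z hz _ (le_max_left _ _)
    _ ≤ 5 * (z : ℝ) ^ (-(1 / 5) : ℝ) := by
        have : (0 : ℝ) ≤ ((max z (P.sup id) : ℕ) : ℝ) ^ (-(1 / 5) : ℝ) := by positivity
        linarith

end SfBAux

open SfBAux in
theorem sf_bound (P : Finset ℕ) (k z : ℕ) (hz : 2 ≤ z) (hP : ∀ p ∈ P, z < p) (hk : (k : ℝ) ^ 10 ≤ z) :
    ∏ p ∈ P, ∑ e ∈ (range (2 * k + 1)).filter (fun e => e ≠ 1),
      ((2 * k).choose e : ℝ) * (3 * (p : ℝ) ^ (-(3 / 5 : ℝ))) ^ e ≤ Real.exp 4000 := by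
  have hz0 : (0 : ℝ) < z := by
    have : (2 : ℝ) ≤ z := by exact_mod_cast hz
    linarith
  have hk1 : (k : ℝ) ≤ (z : ℝ) ^ (1 / 10 : ℝ) := by
    have h1 : ((k : ℝ) ^ 10) ^ (1 / 10 : ℝ) ≤ (z : ℝ) ^ (1 / 10 : ℝ) :=
      Real.rpow_le_rpow (by positivity) hk (by norm_num)
    rwa [← Real.rpow_natCast, ← Real.rpow_mul (by positivity), show ((10 : ℕ) : ℝ) * (1 / 10) = 1 by norm_num,
      Real.rpow_one] at h1
  have hk2 : (k : ℝ) ^ 2 ≤ (z : ℝ) ^ (1 / 5 : ℝ) := by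
    calc (k : ℝ) ^ 2 ≤ ((z : ℝ) ^ (1 / 10 : ℝ)) ^ 2 := by gcongr
      _ = (z : ℝ) ^ (1 / 5 : ℝ) := by
        rw [← Real.rpow_natCast, ← Real.rpow_mul hz0.le]
        norm_num
  have hfac : ∀ p ∈ P, ∑ e ∈ (range (2 * k + 1)).filter (fun e => e ≠ 1),
      ((2 * k).choose e : ℝ) * (3 * (p : ℝ) ^ (-(3 / 5 : ℝ))) ^ e ≤
      Real.exp (612 * (k : ℝ) ^ 2 * (p : ℝ) ^ (-(6 / 5) : ℝ)) := by
    intro p hp
    have hp1 := hP p hp
    have hp3 : (3 : ℝ) ≤ p := by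
      have : 3 ≤ p := by omega
      exact_mod_cast this
    have hp0 : (0 : ℝ) < p := by linarith
    have hzp : (z : ℝ) ≤ p := by exact_mod_cast hp1.le
    have h1 : (2 * k * (3 * (p : ℝ) ^ (-(3 / 5 : ℝ))) : ℝ) ≤ 7 / 2 := by
      have h2 : (k : ℝ) ≤ (p : ℝ) ^ (1 / 10 : ℝ) :=
        hk1.trans (Real.rpow_le_rpow hz0.le hzp (by norm_num))
      have h3 : (k : ℝ) * (p : ℝ) ^ (-(3 / 5 : ℝ)) ≤ (p : ℝ) ^ (-(1 / 2) : ℝ) := by
        calc (k : ℝ) * (p : ℝ) ^ (-(3 / 5 : ℝ)) ≤ (p : ℝ) ^ (1 / 10 : ℝ) * (p : ℝ) ^ (-(3 / 5 : ℝ)) := by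
              gcongr
          _ = (p : ℝ) ^ (-(1 / 2) : ℝ) := by
              rw [← Real.rpow_add hp0]
              norm_num
      have h4 : (p : ℝ) ^ (-(1 / 2) : ℝ) ≤ 7 / 12 := by
        have h5 : (p : ℝ) ^ (-(1 / 2) : ℝ) ≤ (3 : ℝ) ^ (-(1 / 2) : ℝ) :=
          Real.rpow_le_rpow_of_nonpos (by norm_num) hp3 (by norm_num)
        refine h5.trans ?_
        have h6 : ((3 : ℝ) ^ (-(1 / 2) : ℝ)) ^ 2 = 1 / 3 := by
          rw [← Real.rpow_natCast, ← Real.rpow_mul (by norm_num)]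
          norm_num
        have h7 : ((3 : ℝ) ^ (-(1 / 2) : ℝ)) ^ 2 ≤ (7 / 12) ^ 2 := by
          rw [h6]
          norm_num
        exact (le_abs_self _).trans (abs_le_of_sq_le_sq h7 (by norm_num))
      calc (2 * k * (3 * (p : ℝ) ^ (-(3 / 5 : ℝ))) : ℝ) = 6 * ((k : ℝ) * (p : ℝ) ^ (-(3 / 5 : ℝ))) := by ring
        _ ≤ 6 * (7 / 12) := by
          have := h3.trans h4
          linarith
        _ = 7 / 2 := by norm_num
    refine (factor_le (by positivity) k h1).trans (Real.exp_le_exp.2 (le_of_eq ?_))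
    have h8 : ((p : ℝ) ^ (-(3 / 5 : ℝ))) ^ 2 = (p : ℝ) ^ (-(6 / 5) : ℝ) := by
      rw [← Real.rpow_natCast, ← Real.rpow_mul hp0.le]
      norm_num
    calc 17 * (2 * k * (3 * (p : ℝ) ^ (-(3 / 5 : ℝ)))) ^ 2
        = 612 * (k : ℝ) ^ 2 * ((p : ℝ) ^ (-(3 / 5 : ℝ))) ^ 2 := by ring
      _ = _ := by rw [h8]
  calc ∏ p ∈ P, ∑ e ∈ (range (2 * k + 1)).filter (fun e => e ≠ 1),
      ((2 * k).choose e : ℝ) * (3 * (p : ℝ) ^ (-(3 / 5 : ℝ))) ^ e
      ≤ ∏ p ∈ P, Real.exp (612 * (k : ℝ) ^ 2 * (p : ℝ) ^ (-(6 / 5) : ℝ)) := by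
        apply Finset.prod_le_prod
        · intro p _
          positivity
        · exact hfac
    _ = Real.exp (612 * (k : ℝ) ^ 2 * ∑ p ∈ P, (p : ℝ) ^ (-(6 / 5) : ℝ)) := by
        rw [← Real.exp_sum, Finset.mul_sum]
    _ ≤ Real.exp 4000 := by
        apply Real.exp_le_exp.2
        have h1 := sum_le (P := P) (z := z) (by omega) hP
        have h2 : (z : ℝ) ^ (1 / 5 : ℝ) * (z : ℝ) ^ (-(1 / 5) : ℝ) = 1 := by
          rw [← Real.rpow_add hz0]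
          norm_num
        calc 612 * (k : ℝ) ^ 2 * ∑ p ∈ P, (p : ℝ) ^ (-(6 / 5) : ℝ)
            ≤ 612 * (z : ℝ) ^ (1 / 5 : ℝ) * (5 * (z : ℝ) ^ (-(1 / 5) : ℝ)) := by
              gcongr
          _ = 3060 * ((z : ℝ) ^ (1 / 5 : ℝ) * (z : ℝ) ^ (-(1 / 5) : ℝ)) := by ring
          _ = 3060 := by rw [h2, mul_one]
          _ ≤ 4000 := by norm_num

end Pool.Agent.Lib.TSP
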