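import Pool.Agent.Lib.TSP.LocF
import Pool.Agent.Lib.TSP.Cheb

/-!
# TSP.SmoT: smooth numbers, product formula and Rankin (1.2 h)
PROOF. `Ws z = ∏_{p ≤ z} p⁴`; its divisors are exactly the `∏ p^{j_p}`, `0 ≤ j_p ≤ 4`. `smo_prod`: for every multiplicative `a` (`one`, `mul`) `∑_{q ∣ Ws z} a q = ∏_{p ≤ z} ∑_{j<5} a(p^j)` (induction over the set of primes:
`Nat.Coprime.sum_divisors_mul`-like, or `ArithmeticFunction` / `Nat.Coprime.sum_divisors`). `smo_zero`: if all primes of `q ≥ 1` are `≤ z` and `q ∤ Ws z` then some `p^5 ∣ q` and `a q = 0` (`mul` with `p^{v_p(q)}`).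
`smo_tail`: Rankin: with `η = 1/(10 A0)`, `∑_{q ∣ Ws z, q > X} |a q| ≤ X^(-η) ∑_{q ∣ Ws z} |a q| q^η = X^(-η) ∏_{p ≤ z} (1 + ∑_{j=1}^4 |a(p^j)| p^{jη}) ≤ X^(-η) ∏_{p≤z} (1 + 12 p^{4η}/p)
≤ X^(-η) exp(12 z^{4η} (1 + log z))`, `z^{4η} ≤ (2 (log N)^A0)^{4η} ≤ 2 (log N)^{2/5}`, so for `X ≥ N^ε` and `N` large at most `N^{-ε/(10 A0)} exp((log N)^{1/2}) ≤ N^{-ε/(20 A0)}`.
-/

set_option autoImplicit false

open Finset

namespace Pool.Agent.Lib.TSP

/-- `∏_{p ≤ z} p⁴` -/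
def Ws (z : ℕ) : ℕ := ∏ p ∈ Nat.primesLE z, p ^ 4

namespace SmoTAux

open scoped Pointwise in
theorem sum_mul {m n : ℕ} (hmn : m.Coprime n) (a : ℕ → ℝ)
    (hm : ∀ q q', Nat.Coprime q q' → a (q * q') = a q * a q') :
    ∑ q ∈ (m * n).divisors, a q = (∑ q ∈ m.divisors, a q) * ∑ q ∈ n.divisors, a q := by
  rw [Nat.divisors_mul, Finset.mul_def, Finset.sum_image hmn.mul_injOn_divisors,
    Finset.sum_product, Finset.sum_mul_sum]
  refine Finset.sum_congr rfl (fun x hx => Finset.sum_congr rfl (fun y hy => ?_))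
  exact hm x y ((hmn.coprime_dvd_left (Nat.dvd_of_mem_divisors hx)).coprime_dvd_right
    (Nat.dvd_of_mem_divisors hy))

theorem prod_gen (s : Finset ℕ) (hs : ∀ p ∈ s, p.Prime) (a : ℕ → ℝ) (h1 : a 1 = 1)
    (hm : ∀ q q', Nat.Coprime q q' → a (q * q') = a q * a q') :
    ∑ q ∈ (∏ p ∈ s, p ^ 4).divisors, a q = ∏ p ∈ s, ∑ j ∈ range 5, a (p ^ j) := by
  classical
  induction s using Finset.induction_on with
  | empty => simp [h1]
  | insert p s hp ih =>
    rw [Finset.prod_insert hp, Finset.prod_insert hp]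
    have hpp := hs p (Finset.mem_insert_self p s)
    have hco : Nat.Coprime (p ^ 4) (∏ p' ∈ s, p' ^ 4) := by
      refine Nat.Coprime.prod_right (fun p' hp' => ?_)
      refine Nat.Coprime.pow 4 4 ?_
      refine (Nat.coprime_primes hpp (hs p' (Finset.mem_insert_of_mem hp'))).2 ?_
      rintro rfl
      exact hp hp'
    rw [sum_mul hco a hm, ih (fun q hq => hs q (Finset.mem_insert_of_mem hq)),
      Nat.sum_divisors_prime_pow hpp]

theorem prime_of_mem {z p : ℕ} (h : p ∈ Nat.primesLE z) : p.Prime := Nat.prime_of_mem_primesLE h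

end SmoTAux

open SmoTAux

theorem smo_prod (z : ℕ) (a : ℕ → ℝ) (h1 : a 1 = 1) (hm : ∀ q q', Nat.Coprime q q' → a (q * q') = a q * a q') :
    ∑ q ∈ (Ws z).divisors, a q = ∏ p ∈ Nat.primesLE z, ∑ j ∈ range 5, a (p ^ j) :=
  prod_gen _ (fun _ h => prime_of_mem h) a h1 hm

theorem smo_zero (z : ℕ) (a : ℕ → ℝ) (n : ℕ) (ha : Good a n) {q : ℕ} (hq : 1 ≤ q)
    (hs : ∀ p : ℕ, p.Prime → p ∣ q → p ≤ z) (hW : ¬ q ∣ Ws z) : a q = 0 := by
  have hq0 : q ≠ 0 := by omega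
  have h1 : ∃ p ∈ q.primeFactors, 5 ≤ q.factorization p := by
    by_contra hcon
    push Not at hcon
    apply hW
    rw [← Nat.prod_factorization_pow_eq_self hq0]
    unfold Finsupp.prod Ws
    rw [Nat.support_factorization]
    refine (Finset.prod_dvd_prod_of_dvd _ (fun p => p ^ 4) (fun p hp => ?_)).trans
      (Finset.prod_dvd_prod_of_subset _ _ _ (fun p hp => ?_))
    · exact pow_dvd_pow p (by have := hcon p hp; omega)
    · exact Nat.mem_primesLE.2 ⟨hs p (Nat.prime_of_mem_primeFactors hp)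
        (Nat.dvd_of_mem_primeFactors hp), Nat.prime_of_mem_primeFactors hp⟩
  obtain ⟨p, hp, h5⟩ := h1
  have hpp := Nat.prime_of_mem_primeFactors hp
  have h2 : p ^ q.factorization p * (q / p ^ q.factorization p) = q :=
    Nat.ordProj_mul_ordCompl_eq_self q p
  have h3 : Nat.Coprime (p ^ q.factorization p) (q / p ^ q.factorization p) :=
    Nat.Coprime.pow_left _ (Nat.coprime_ordCompl hpp hq0)
  rw [← h2, ha.mul _ _ h3, ha.zero p hpp _ h5, zero_mul]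

namespace SmoTAux

/-- the analytic estimate -/
theorem ana (A0 : ℕ) (δ : ℝ) (hδ : 0 < δ) : ∃ N0 : ℕ, ∀ N : ℕ, N0 ≤ N → 1 ≤ Real.log N ∧
    24 * (Real.log N) ^ (2 / 5 : ℝ) * (2 + A0 * Real.log (Real.log N)) ≤ δ * Real.log N := by
  have h1 : (fun x : ℝ => 2 + A0 * Real.log x) =o[Filter.atTop] fun x : ℝ => x ^ (3 / 5 : ℝ) := by
    refine Asymptotics.IsLittleO.add ?_ ?_
    · refine Asymptotics.isLittleO_const_left.2 (Or.inr ?_)
      refine Filter.Tendsto.congr' ?_ (tendsto_rpow_atTop (by norm_num : (0 : ℝ) < 3 / 5))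
      filter_upwards [Filter.eventually_ge_atTop (0 : ℝ)] with x hx
      simp only [Function.comp]
      rw [Real.norm_of_nonneg (Real.rpow_nonneg hx _)]
    · exact (isLittleO_log_rpow_atTop (by norm_num)).const_mul_left _
  have h2 : (fun x : ℝ => x ^ (2 / 5 : ℝ) * (2 + A0 * Real.log x)) =o[Filter.atTop]
      fun x : ℝ => x ^ (2 / 5 : ℝ) * x ^ (3 / 5 : ℝ) :=
    (Asymptotics.isBigO_refl _ _).mul_isLittleO h1
  have h3 := h2.bound (c := δ / 24) (by positivity)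
  have h4 : ∀ᶠ x : ℝ in Filter.atTop, 1 ≤ x ∧
      24 * x ^ (2 / 5 : ℝ) * (2 + A0 * Real.log x) ≤ δ * x := by
    filter_upwards [h3, Filter.eventually_ge_atTop (1 : ℝ)] with x hx hx1
    refine ⟨hx1, ?_⟩
    have hx0 : 0 < x := by linarith
    rw [← Real.rpow_add hx0] at hx
    norm_num at hx
    rw [abs_of_pos hx0] at hx
    have h5 : x ^ (2 / 5 : ℝ) * (2 + A0 * Real.log x) ≤
        |x ^ (2 / 5 : ℝ)| * |2 + A0 * Real.log x| := by
      rw [← abs_mul]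
      exact le_abs_self _
    have h6 : x ^ (2 / 5 : ℝ) * (2 + A0 * Real.log x) ≤ δ / 24 * x := h5.trans hx
    nlinarith
  have h5 := (Real.tendsto_log_atTop.comp tendsto_natCast_atTop_atTop).eventually h4
  obtain ⟨N0, hN0⟩ := Filter.eventually_atTop.1 h5
  exact ⟨N0, fun N hN => hN0 N hN⟩

/-- one factor of the product -/
theorem factor {a : ℕ → ℝ} {n : ℕ} (ha : Good a n) {p z : ℕ} (hp : p.Prime) (hz : p ≤ z) {η : ℝ}
    (hη : 0 ≤ η) : ∑ j ∈ range 5, |a (p ^ j)| * ((p ^ j : ℕ) : ℝ) ^ η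
      ≤ Real.exp (12 * (((z : ℝ) ^ 4) ^ η) * (p : ℝ)⁻¹) := by
  have hp0 : (0 : ℝ) < p := by exact_mod_cast hp.pos
  have hp1 : (1 : ℝ) ≤ p := by exact_mod_cast hp.one_le
  have hzr : (p : ℝ) ≤ z := by exact_mod_cast hz
  have hZ : (0 : ℝ) ≤ ((z : ℝ) ^ 4) ^ η := by positivity
  rw [Finset.sum_range_succ']
  have h0 : |a (p ^ 0)| * ((p ^ 0 : ℕ) : ℝ) ^ η = 1 := by
    rw [pow_zero, ha.one]
    simp
  rw [h0]
  have h1 : ∑ j ∈ range 4, |a (p ^ (j + 1))| * ((p ^ (j + 1) : ℕ) : ℝ) ^ η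
      ≤ ∑ _j ∈ range 4, 3 / (p : ℝ) * ((z : ℝ) ^ 4) ^ η := by
    refine Finset.sum_le_sum (fun j hj => ?_)
    have hj' := Finset.mem_range.1 hj
    refine mul_le_mul (ha.le p hp (j + 1) (by omega)) ?_ (by positivity) (by positivity)
    refine Real.rpow_le_rpow (by positivity) ?_ hη
    push_cast
    calc (p : ℝ) ^ (j + 1) ≤ (p : ℝ) ^ 4 := pow_le_pow_right₀ hp1 (by omega)
      _ ≤ (z : ℝ) ^ 4 := pow_le_pow_left₀ hp0.le hzr 4
  rw [Finset.sum_const, Finset.card_range, nsmul_eq_mul] at h1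
  have h2 := Real.add_one_le_exp (12 * (((z : ℝ) ^ 4) ^ η) * (p : ℝ)⁻¹)
  have h3 : ((4 : ℕ) : ℝ) * (3 / (p : ℝ) * ((z : ℝ) ^ 4) ^ η)
      = 12 * (((z : ℝ) ^ 4) ^ η) * (p : ℝ)⁻¹ := by
    push_cast
    field_simp
    ring
  linarith

theorem sum_inv (z : ℕ) (hz : 1 ≤ z) : ∑ p ∈ Nat.primesLE z, (p : ℝ)⁻¹ ≤ 1 + Real.log z := by
  have h1 : ∑ p ∈ Nat.primesLE z, (p : ℝ)⁻¹ ≤ ∑ i ∈ Finset.Icc 1 z, (i : ℝ)⁻¹ := by
    rw [Nat.primesLE_eq_filter_Icc_one]
    exact Finset.sum_le_sum_of_subset_of_nonneg (Finset.filter_subset _ _)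
      (fun _ _ _ => by positivity)
  have h2 := harmonic_le_one_add_log z
  rw [harmonic_eq_sum_Icc] at h2
  push_cast at h2
  exact h1.trans h2

theorem prod_le {a : ℕ → ℝ} {n : ℕ} (ha : Good a n) {z : ℕ} (hz : 1 ≤ z) {η : ℝ} (hη : 0 ≤ η) :
    ∑ q ∈ (Ws z).divisors, |a q| * (q : ℝ) ^ η
      ≤ Real.exp (12 * (((z : ℝ) ^ 4) ^ η) * (1 + Real.log z)) := by
  have h1 := smo_prod z (fun q => |a q| * (q : ℝ) ^ η) (by simp [ha.one]) (fun q q' h => by
    show |a (q * q')| * ((q * q' : ℕ) : ℝ) ^ η = |a q| * (q : ℝ) ^ η * (|a q'| * (q' : ℝ) ^ η)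
    rw [ha.mul q q' h, abs_mul, Nat.cast_mul, Real.mul_rpow (by positivity) (by positivity)]
    ring)
  rw [h1]
  calc ∏ p ∈ Nat.primesLE z, ∑ j ∈ range 5, |a (p ^ j)| * ((p ^ j : ℕ) : ℝ) ^ η
      ≤ ∏ p ∈ Nat.primesLE z, Real.exp (12 * (((z : ℝ) ^ 4) ^ η) * (p : ℝ)⁻¹) := by
        refine Finset.prod_le_prod (fun p _ => Finset.sum_nonneg (fun j _ => by positivity))
          (fun p hp => ?_)
        obtain ⟨h2, h3⟩ := Nat.mem_primesLE.1 hp
        exact factor ha h3 h2 hη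
    _ = Real.exp (∑ p ∈ Nat.primesLE z, 12 * (((z : ℝ) ^ 4) ^ η) * (p : ℝ)⁻¹) :=
        (Real.exp_sum _ _).symm
    _ ≤ _ := by
        rw [Real.exp_le_exp, ← Finset.mul_sum]
        exact mul_le_mul_of_nonneg_left (sum_inv z hz) (by positivity)

end SmoTAux

theorem smo_tail (A0 : ℕ) (hA : 1 ≤ A0) (ε : ℝ) (hε : 0 < ε) : ∃ N0 : ℕ, ∀ N : ℕ, N0 ≤ N →
    ∀ (a : ℕ → ℝ) (n : ℕ), Good a n → ∀ X : ℝ, (N : ℝ) ^ ε ≤ X →
    ∑ q ∈ (Ws (zp A0 N)).divisors.filter (fun q : ℕ => X < q), |a q| ≤ (N : ℝ) ^ (-(ε / (20 * A0))) := by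
  have hA' : (1 : ℝ) ≤ A0 := by exact_mod_cast hA
  obtain ⟨N0, hN0⟩ := ana A0 (ε / (20 * A0)) (by positivity)
  refine ⟨max N0 1, fun N hN a n ha X hX => ?_⟩
  obtain ⟨hL, hmain⟩ := hN0 N (le_trans (le_max_left _ _) hN)
  have hN1 : 1 ≤ N := le_trans (le_max_right _ _) hN
  have hNr : (0 : ℝ) < N := by exact_mod_cast hN1
  set L : ℝ := Real.log N with hLdef
  have hL0 : 0 < L := by linarith
  set z : ℕ := zp A0 N with hz
  have hLA : 1 ≤ L ^ A0 := one_le_pow₀ hL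
  have hz1 : 1 ≤ z := by
    rw [hz]
    unfold zp
    exact Nat.one_le_ceil_iff.2 (by linarith)
  have hz2 : (z : ℝ) ≤ 2 * L ^ A0 := by
    have h := (Nat.ceil_lt_add_one (by positivity : (0 : ℝ) ≤ L ^ A0)).le
    have h' : (z : ℝ) ≤ L ^ A0 + 1 := h
    linarith
  have hzr : (1 : ℝ) ≤ z := by exact_mod_cast hz1
  set η : ℝ := 1 / (10 * A0) with hη
  have hη0 : 0 < η := by positivity
  have hη1 : η ≤ 1 / 4 := by
    rw [hη]
    exact one_div_le_one_div_of_le (by norm_num) (by linarith)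
  have hZ : ((z : ℝ) ^ 4) ^ η ≤ 2 * L ^ (2 / 5 : ℝ) := by
    calc ((z : ℝ) ^ 4) ^ η ≤ ((2 * L ^ A0) ^ 4) ^ η :=
          Real.rpow_le_rpow (by positivity) (pow_le_pow_left₀ (by positivity) hz2 4) hη0.le
      _ = (16 : ℝ) ^ η * (L ^ (A0 * 4)) ^ η := by
          rw [← Real.mul_rpow (by norm_num) (by positivity), mul_pow, ← pow_mul]
          norm_num
      _ ≤ 2 * L ^ (2 / 5 : ℝ) := by
          have e1 : (16 : ℝ) ^ η ≤ 2 := by
            calc (16 : ℝ) ^ η ≤ (16 : ℝ) ^ (1 / 4 : ℝ) :=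
                  Real.rpow_le_rpow_of_exponent_le (by norm_num) hη1
              _ = 2 := by
                  rw [show (16 : ℝ) = 2 ^ (4 : ℝ) by norm_num, ← Real.rpow_mul (by norm_num)]
                  norm_num
          have e2 : (L ^ (A0 * 4)) ^ η = L ^ (2 / 5 : ℝ) := by
            rw [← Real.rpow_natCast, ← Real.rpow_mul hL0.le]
            congr 1
            rw [hη]
            push_cast
            field_simp
            norm_num
          rw [e2]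
          exact mul_le_mul_of_nonneg_right e1 (by positivity)
  have hlz : 1 + Real.log z ≤ 2 + A0 * Real.log L := by
    have h1 : Real.log z ≤ Real.log (2 * L ^ A0) := Real.log_le_log (by linarith) hz2
    rw [Real.log_mul (by norm_num) (by positivity), Real.log_pow] at h1
    have h2 : Real.log 2 ≤ 1 := by
      have := Real.log_two_lt_d9
      linarith
    linarith
  have hlz0 : 0 ≤ 1 + Real.log z := by
    have := Real.log_nonneg hzr
    linarith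
  have hX0 : 0 < X := lt_of_lt_of_le (Real.rpow_pos_of_pos hNr _) hX
  -- Rankin
  have hR : ∑ q ∈ (Ws z).divisors.filter (fun q : ℕ => X < q), |a q|
      ≤ X ^ (-η) * ∑ q ∈ (Ws z).divisors, |a q| * (q : ℝ) ^ η := by
    rw [Finset.mul_sum]
    refine (Finset.sum_le_sum (fun q hq => ?_)).trans
      (Finset.sum_le_sum_of_subset_of_nonneg (Finset.filter_subset _ _)
        (fun q _ _ => by positivity))
    have hq' := (Finset.mem_filter.1 hq).2
    have h1 : 1 ≤ X ^ (-η) * (q : ℝ) ^ η := by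
      rw [Real.rpow_neg hX0.le, ← div_eq_inv_mul, one_le_div (Real.rpow_pos_of_pos hX0 _)]
      exact Real.rpow_le_rpow hX0.le hq'.le hη0.le
    calc |a q| = |a q| * 1 := (mul_one _).symm
      _ ≤ |a q| * (X ^ (-η) * (q : ℝ) ^ η) := mul_le_mul_of_nonneg_left h1 (abs_nonneg _)
      _ = X ^ (-η) * (|a q| * (q : ℝ) ^ η) := by ring
  have hXη : X ^ (-η) ≤ Real.exp (-(ε * η * L)) := by
    have h1 : X ^ (-η) ≤ ((N : ℝ) ^ ε) ^ (-η) :=
      Real.rpow_le_rpow_of_nonpos (Real.rpow_pos_of_pos hNr _) hX (by linarith)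
    rw [← Real.rpow_mul hNr.le, Real.rpow_def_of_pos hNr] at h1
    refine h1.trans (le_of_eq ?_)
    congr 1
    rw [← hLdef]
    ring
  have hP := prod_le ha hz1 hη0.le
  have hE : 12 * (((z : ℝ) ^ 4) ^ η) * (1 + Real.log z) ≤ ε / (20 * A0) * L := by
    refine le_trans ?_ hmain
    calc 12 * (((z : ℝ) ^ 4) ^ η) * (1 + Real.log z)
        ≤ 12 * (2 * L ^ (2 / 5 : ℝ)) * (2 + A0 * Real.log L) := by
          refine mul_le_mul (mul_le_mul_of_nonneg_left hZ (by norm_num)) hlz hlz0 (by positivity)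
      _ = 24 * L ^ (2 / 5 : ℝ) * (2 + A0 * Real.log L) := by ring
  calc ∑ q ∈ (Ws z).divisors.filter (fun q : ℕ => X < q), |a q|
      ≤ X ^ (-η) * ∑ q ∈ (Ws z).divisors, |a q| * (q : ℝ) ^ η := hR
    _ ≤ Real.exp (-(ε * η * L)) * Real.exp (ε / (20 * A0) * L) := by
        refine mul_le_mul hXη (hP.trans (Real.exp_le_exp.2 hE)) ?_ (Real.exp_pos _).le
        exact Finset.sum_nonneg (fun q _ => by positivity)
    _ = (N : ℝ) ^ (-(ε / (20 * A0))) := by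
        rw [← Real.exp_add, Real.rpow_def_of_pos hNr, ← hLdef, hη]
        congr 1
        field_simp
        ring

end Pool.Agent.Lib.TSP
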