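import Pool.Agent.Lib.TSP.Ex

/-!
# TSP.TheA: the theta function near `a/q`, exact formula (1.5 h)
PROOF. `w = zz N β`, `2πi (a/q + β + i/N) P = 2πi (a/q) P - 2π w P` (`P = qp u v x` integer), so with `x = q m + r`, `r < q` (`Int` decomposition, e.g.
`Summable` + `Int.divModEquiv` / `Finset.range q × ℤ ≃ ℤ`) `th = ∑_{r<q} e(a P(r)/q) ∑_{m ∈ ℤ} exp(-2π w P(qm + r))`, and
`-2π w P(qm+r) = -π (2 u w q²) m² + 2π (-(w q (2 u r + v))) m - 2π w (u r² + v r)`. `Complex.tsum_exp_neg_quadratic` with `a' = 2 u w q²` (`re = 2 u q²/N > 0`),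
`b' = -w q (2 u r + v)`: the inner sum is `exp(-2πw(ur²+vr)) / a'^(1/2) ∑_h exp(-π/a' (h + I b')²)` and
`-π/a' (h + I b')² - 2πw(ur² + vr) = -π h²/(2 u w q²) + 2πi h r/q + π i h v/(u q) + π w v²/(2u)`. Interchange `∑_{r<q}` (finite) and `∑_h`
(each series is summable: norms `exp(-π h² X)`, `X = Re(1/(2uwq²)) > 0`; `summable_th` gives a usable form).
-/

set_option autoImplicit false

open Finset

namespace Pool.Agent.Lib.TSP

namespace TheAAux

private theorem quad_summable {τ : ℂ} (hτ : 0 < τ.im) (z : ℂ) :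
    Summable fun n : ℤ => ‖Complex.exp (2 * Real.pi * Complex.I * n * z +
      Real.pi * Complex.I * n ^ 2 * τ)‖ := by
  have h := (summable_jacobiTheta₂_term_iff z τ).2 hτ
  exact h.norm

private theorem zz_re (N : ℕ) (β : ℝ) : (zz N β).re = 1 / (N : ℝ) := by
  have h : (1 : ℂ) / (N : ℂ) = ((1 / (N : ℝ) : ℝ) : ℂ) := by push_cast; ring
  unfold zz
  rw [Complex.sub_re, h, Complex.ofReal_re]
  simp

private theorem aRe {u : ℤ} {N q : ℕ} (β : ℝ) :
    (2 * (u : ℂ) * (q : ℂ) ^ 2 * zz N β).re = 2 * (u : ℝ) * (q : ℝ) ^ 2 * (1 / (N : ℝ)) := by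
  have h : (2 * (u : ℂ) * (q : ℂ) ^ 2) = ((2 * (u : ℝ) * (q : ℝ) ^ 2 : ℝ) : ℂ) := by push_cast; ring
  rw [h, Complex.re_ofReal_mul, zz_re]

private theorem aRe_pos {u : ℤ} (hu : 0 < u) {N q : ℕ} (hN : 1 ≤ N) (hq : 0 < q) (β : ℝ) :
    0 < (2 * (u : ℂ) * (q : ℂ) ^ 2 * zz N β).re := by
  rw [aRe]
  have hu' : (0 : ℝ) < u := by exact_mod_cast hu
  have hN' : (0 : ℝ) < N := by exact_mod_cast hN
  have hq' : (0 : ℝ) < q := by exact_mod_cast hq
  positivity

end TheAAux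

open TheAAux

/-- The absolute series on the dual side. -/
theorem summable_th {u : ℤ} (hu : 0 < u) {N q : ℕ} (hN : 1 ≤ N) (hq : 0 < q) (β : ℝ) :
    Summable fun h : ℤ => ‖Complex.exp (-(Real.pi : ℂ) * (h : ℂ) ^ 2 / (2 * u * (q : ℂ) ^ 2 * zz N β))‖ := by
  have ha := aRe_pos hu hN hq β
  set A : ℂ := 2 * (u : ℂ) * (q : ℂ) ^ 2 * zz N β with hA
  have hA0 : A ≠ 0 := by
    intro h; rw [h] at ha; simp at ha
  have hτ : 0 < (Complex.I / A).im := by
    rw [div_eq_mul_inv, Complex.I_mul_im, Complex.inv_re]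
    exact div_pos ha (Complex.normSq_pos.2 hA0)
  refine (quad_summable hτ 0).congr fun h => ?_
  congr 2
  have hI := Complex.I_sq
  field_simp
  linear_combination ((h : ℂ) ^ 2) * hI

/-- The absolute series of the theta function itself. -/
theorem summable_th0 {u : ℤ} (hu : 0 < u) (v : ℤ) {N : ℕ} (hN : 1 ≤ N) (α : ℝ) :
    Summable fun x : ℤ => ‖Complex.exp (2 * Real.pi * Complex.I * ((α : ℂ) + Complex.I / (N : ℂ)) *
      ((qp u v x : ℤ) : ℂ))‖ := by
  have hτ : 0 < (2 * (u : ℂ) * ((α : ℂ) + Complex.I / (N : ℂ))).im := by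
    have h : 2 * (u : ℂ) * ((α : ℂ) + Complex.I / (N : ℂ)) =
        ((2 * (u : ℝ) * α : ℝ) : ℂ) + ((2 * (u : ℝ) / N : ℝ) : ℂ) * Complex.I := by push_cast; ring
    rw [h]
    simp only [Complex.add_im, Complex.ofReal_im, Complex.mul_im, Complex.ofReal_re, Complex.I_im,
      Complex.I_re]
    have hu' : (0 : ℝ) < u := by exact_mod_cast hu
    have hN' : (0 : ℝ) < N := by exact_mod_cast hN
    have : 0 < 2 * (u : ℝ) / N := by positivity
    linarith
  refine (quad_summable hτ ((v : ℂ) * ((α : ℂ) + Complex.I / (N : ℂ)))).congr fun x => ?_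
  congr 2
  unfold qp
  push_cast
  ring

namespace TheAAux

private theorem split_sum {F : ℤ → ℂ} (hF : Summable F) {q : ℕ} (hq : 0 < q) :
    ∑' x : ℤ, F x = ∑ r ∈ range q, ∑' m : ℤ, F ((r : ℤ) + q * m) := by
  have : NeZero q := ⟨hq.ne'⟩
  have h1 : Summable fun p : ℤ × Fin q => F ((Int.divModEquiv q).symm p) :=
    (Int.divModEquiv q).symm.summable_iff.2 hF
  have h2 : ∑' x : ℤ, F x = ∑' p : ℤ × Fin q, F ((Int.divModEquiv q).symm p) :=
    ((Int.divModEquiv q).symm.tsum_eq F).symm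
  rw [h2]
  have h3 : Summable fun p : Fin q × ℤ => F ((Int.divModEquiv q).symm p.swap) :=
    (Equiv.prodComm (Fin q) ℤ).summable_iff.2 h1
  have h4 : ∑' p : ℤ × Fin q, F ((Int.divModEquiv q).symm p) =
      ∑' p : Fin q × ℤ, F ((Int.divModEquiv q).symm p.swap) :=
    ((Equiv.prodComm (Fin q) ℤ).tsum_eq (fun p => F ((Int.divModEquiv q).symm p))).symm
  rw [h4, h3.tsum_prod, tsum_fintype, ← Fin.sum_univ_eq_sum_range
    (fun r => ∑' m : ℤ, F ((r : ℤ) + q * m)) q]
  refine Finset.sum_congr rfl fun r _ => ?_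
  congr 1
  funext m
  rw [Prod.swap_prod_mk, Int.divModEquiv_symm_apply]
  congr 1
  simp
  ring

end TheAAux

theorem theta_formula {u : ℤ} (hu : 0 < u) (v a : ℤ) {N q : ℕ} (hN : 1 ≤ N) (hq : 0 < q) (β : ℝ) :
    th u v N ((a : ℝ) / q + β) =
      Complex.exp (Real.pi * zz N β * (v : ℂ) ^ 2 / (2 * u)) *
        (1 / (2 * u * (q : ℂ) ^ 2 * zz N β) ^ (1 / 2 : ℂ)) *
        ∑' h : ℤ, Complex.exp (-(Real.pi : ℂ) * (h : ℂ) ^ 2 / (2 * u * (q : ℂ) ^ 2 * zz N β)) *
          (e ((h : ℝ) * v / (2 * u * q)) * G u v a h q) := by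
  have ha := aRe_pos hu hN hq β
  have hsum0 := (summable_th0 hu v hN ((a : ℝ) / q + β)).of_norm
  have hsumh := summable_th hu hN hq β
  have hq' : (q : ℂ) ≠ 0 := by exact_mod_cast hq.ne'
  have hu' : (u : ℂ) ≠ 0 := by exact_mod_cast hu.ne'
  have hqr : (q : ℝ) ≠ 0 := by exact_mod_cast hq.ne'
  have hw0 : zz N β ≠ 0 := by
    intro h
    rw [h] at ha
    simp at ha
  set w : ℂ := zz N β with hw
  set A : ℂ := 2 * (u : ℂ) * (q : ℂ) ^ 2 * w with hA
  have hA0 : A ≠ 0 := by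
    intro h; rw [h] at ha; simp at ha
  unfold th
  rw [split_sum hsum0 hq]
  -- the inner sums
  have inner : ∀ r ∈ range q, ∑' m : ℤ, Complex.exp (2 * Real.pi * Complex.I *
      ((((a : ℝ) / q + β : ℝ) : ℂ) + Complex.I / (N : ℂ)) * ((qp u v ((r : ℤ) + q * m) : ℤ) : ℂ)) =
      ∑' h : ℤ, Complex.exp (Real.pi * w * (v : ℂ) ^ 2 / (2 * u)) * (1 / A ^ (1 / 2 : ℂ)) *
        (Complex.exp (-(Real.pi : ℂ) * (h : ℂ) ^ 2 / A) *
          (e ((h : ℝ) * v / (2 * u * q)) * e (((a * qp u v r + h * r : ℤ) : ℝ) / q))) := by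
    intro r _
    set B : ℂ := -(w * q * (2 * u * r + v)) with hB
    have step1 : ∀ m : ℤ, Complex.exp (2 * Real.pi * Complex.I *
      ((((a : ℝ) / q + β : ℝ) : ℂ) + Complex.I / (N : ℂ)) * ((qp u v ((r : ℤ) + q * m) : ℤ) : ℂ)) =
      (e (((a * qp u v r : ℤ) : ℝ) / q) * Complex.exp (-(2 * Real.pi * w * (u * r ^ 2 + v * r)))) *
        Complex.exp (-Real.pi * A * (m : ℂ) ^ 2 + 2 * Real.pi * B * m) := by
      intro m
      have h1 : e (((a * qp u v r : ℤ) : ℝ) / q) =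
          e (((a * qp u v ((r : ℤ) + q * m) : ℤ) : ℝ) / q) := by
        apply e_div_congr hq
        refine ⟨-(a * (u * (2 * r * m + q * m ^ 2) + v * m)), ?_⟩
        unfold qp
        ring
      rw [h1, e, ← Complex.exp_add, ← Complex.exp_add]
      congr 1
      have hwz : w = 1 / (N : ℂ) - (β : ℂ) * Complex.I := hw
      have hI := Complex.I_sq
      rw [hA, hB, hwz]
      unfold qp
      push_cast
      linear_combination (2 * (Real.pi : ℂ) * (u * (r + q * m) ^ 2 + v * (r + q * m)) / N) * hI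
    rw [tsum_congr step1, tsum_mul_left, Complex.tsum_exp_neg_quadratic ha B, ← tsum_mul_left,
      ← tsum_mul_left]
    refine tsum_congr fun h => ?_
    have h2 : e (((a * qp u v r + h * r : ℤ) : ℝ) / q) =
        e (((a * qp u v r : ℤ) : ℝ) / q) * e ((h : ℝ) * r / q) := by
      rw [← e_add]
      congr 1
      push_cast
      ring
    rw [h2]
    have h3 : Complex.exp (-(2 * Real.pi * w * (u * r ^ 2 + v * r))) *
        Complex.exp (-Real.pi / A * (h + Complex.I * B) ^ 2) =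
        Complex.exp (Real.pi * w * (v : ℂ) ^ 2 / (2 * u)) *
          (Complex.exp (-(Real.pi : ℂ) * (h : ℂ) ^ 2 / A) *
          (e ((h : ℝ) * v / (2 * u * q)) * e ((h : ℝ) * r / q))) := by
      rw [e, e, ← Complex.exp_add, ← Complex.exp_add, ← Complex.exp_add, ← Complex.exp_add]
      congr 1
      have hI := Complex.I_sq
      have e1 : B / A = -((2 * u * r + v) / (2 * u * q)) := by
        rw [hA, hB]
        field_simp
      have e2 : B ^ 2 / A = w * (2 * u * r + v) ^ 2 / (2 * u) := by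
        rw [hA, hB]
        field_simp
      have e3 : (2 * (u : ℂ) * r + v) ^ 2 / (2 * u) = 2 * (u * r ^ 2 + v * r) + v ^ 2 / (2 * u) := by
        field_simp
        ring
      have e4 : (2 * (u : ℂ) * r + v) / (2 * u * q) = r / q + v / (2 * u * q) := by
        field_simp
      push_cast
      linear_combination (-(Real.pi : ℂ) * B ^ 2 / A) * hI - 2 * Real.pi * h * Complex.I * e1 +
        Real.pi * e2 + Real.pi * w * e3 + 2 * Real.pi * h * Complex.I * e4
    linear_combination (e (((a * qp u v r : ℤ) : ℝ) / q) * (1 / A ^ (1 / 2 : ℂ))) * h3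
  rw [Finset.sum_congr rfl inner]
  have hs : ∀ r ∈ range q, Summable fun h : ℤ => Complex.exp (Real.pi * w * (v : ℂ) ^ 2 / (2 * u)) *
      (1 / A ^ (1 / 2 : ℂ)) *
        (Complex.exp (-(Real.pi : ℂ) * (h : ℂ) ^ 2 / A) *
          (e ((h : ℝ) * v / (2 * u * q)) * e (((a * qp u v r + h * r : ℤ) : ℝ) / q))) := by
    intro r _
    refine Summable.mul_left _ ?_
    refine Summable.of_norm ?_
    refine hsumh.congr fun h => ?_
    rw [norm_mul, norm_mul, norm_e, norm_e, mul_one, mul_one]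
  rw [← Summable.tsum_finsetSum hs, ← tsum_mul_left]
  refine tsum_congr fun h => ?_
  unfold G
  simp only [Finset.mul_sum]

end Pool.Agent.Lib.TSP
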