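import Pool.Agent.Lib.TSP.TheA
import Pool.Agent.Lib.TSP.Gauss

/-!
# TSP.TheB: the theta function near `a/q`, approximation (1 h)
PROOF. `theta_formula`; the term `h = 0` is the main term. The other terms: `|e(..)| = 1`, `|G| ≤ √(2uq)` (`gauss_bound`), `w = zz N β`,
`Re(1/w) = (1/N)/|w|²`, `|w|² = 1/N² + β²`, `kq N q β = q² N |w|²`, so `|exp(-π h²/(2 u q² w))| = exp(-π h²/(2 u kq)) ≤ 2 u kq/(π h²)` (`exp(-y) ≤ 1/y`),
and `∑_{h ≠ 0} 1/h² ≤ 4` (any constant). `|(2uq²w)^(1/2)| = √(2u q² |w|)`, `|exp(π w v²/(2u))| = exp(π v²/(2uN)) ≤ exp(π v²/(2u))`.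
`√(2uq)/√(2uq²|w|) = 1/(√q √|w|)`. Total: `C = exp(π v²/(2u)) · 8u/π`.
-/

set_option autoImplicit false

open Finset

namespace Pool.Agent.Lib.TSP

namespace TheBAux

theorem re_zz (N : ℕ) (β : ℝ) : (zz N β).re = 1 / (N : ℝ) := by
  unfold zz
  have : (1 / (N : ℂ) - (β : ℂ) * Complex.I) = ((1 / (N : ℝ) : ℝ) : ℂ) - (β : ℂ) * Complex.I := by push_cast; ring
  rw [this]
  simp

theorem im_zz (N : ℕ) (β : ℝ) : (zz N β).im = -β := by
  unfold zz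
  have : (1 / (N : ℂ) - (β : ℂ) * Complex.I) = ((1 / (N : ℝ) : ℝ) : ℂ) - (β : ℂ) * Complex.I := by push_cast; ring
  rw [this]
  simp

theorem norm_sq_zz (N : ℕ) (β : ℝ) : ‖zz N β‖ ^ 2 = 1 / (N : ℝ) ^ 2 + β ^ 2 := by
  rw [← Complex.normSq_eq_norm_sq, Complex.normSq_apply, re_zz, im_zz]
  ring

theorem zz_pos {N : ℕ} (hN : 1 ≤ N) (β : ℝ) : 0 < ‖zz N β‖ := by
  have hN' : (0 : ℝ) < N := by exact_mod_cast hN
  rw [norm_pos_iff]
  intro h
  have := re_zz N β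
  rw [h] at this
  simp at this
  exact hN'.ne' (by exact_mod_cast this.symm)

theorem kq_eq {N : ℕ} (hN : 1 ≤ N) (q : ℕ) (β : ℝ) : kq N q β = (q : ℝ) ^ 2 * N * ‖zz N β‖ ^ 2 := by
  have hN' : (0 : ℝ) < N := by exact_mod_cast hN
  rw [norm_sq_zz, kq]
  field_simp

theorem kq_pos {N q : ℕ} (hN : 1 ≤ N) (hq : 0 < q) (β : ℝ) : 0 < kq N q β := by
  have hN' : (0 : ℝ) < N := by exact_mod_cast hN
  have hq' : (0 : ℝ) < q := by exact_mod_cast hq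
  unfold kq
  positivity

/-- the norm of the dual terms -/
theorem norm_dual {u : ℤ} (hu : 0 < u) {N q : ℕ} (hN : 1 ≤ N) (hq : 0 < q) (β : ℝ) (h : ℤ) :
    ‖Complex.exp (-(Real.pi : ℂ) * (h : ℂ) ^ 2 / (2 * u * (q : ℂ) ^ 2 * zz N β))‖ =
      Real.exp (-(Real.pi * (h : ℝ) ^ 2 / (2 * u * kq N q β))) := by
  have hN' : (0 : ℝ) < N := by exact_mod_cast hN
  have hq' : (0 : ℝ) < q := by exact_mod_cast hq
  have hu' : (0 : ℝ) < u := by exact_mod_cast hu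
  have hz := zz_pos hN β
  have hz0 : zz N β ≠ 0 := norm_pos_iff.1 hz
  rw [Complex.norm_exp]
  congr 1
  have h1 : -(Real.pi : ℂ) * (h : ℂ) ^ 2 / (2 * u * (q : ℂ) ^ 2 * zz N β) =
      ((-(Real.pi * (h : ℝ) ^ 2 / (2 * u * (q : ℝ) ^ 2)) : ℝ) : ℂ) * (zz N β)⁻¹ := by
    push_cast
    have : (u : ℂ) ≠ 0 := by exact_mod_cast hu.ne'
    have : (q : ℂ) ≠ 0 := by exact_mod_cast hq.ne'
    field_simp
  rw [h1, Complex.re_ofReal_mul, Complex.inv_re, re_zz, Complex.normSq_eq_norm_sq, kq_eq hN]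
  field_simp

theorem exp_neg_le {y : ℝ} (hy : 0 < y) : Real.exp (-y) ≤ 1 / y := by
  rw [Real.exp_neg, ← one_div]
  apply one_div_le_one_div_of_le hy
  linarith [Real.add_one_le_exp y]

theorem norm_E {u : ℤ} (hu : 0 < u) (v : ℤ) {N : ℕ} (hN : 1 ≤ N) (β : ℝ) :
    ‖Complex.exp (Real.pi * zz N β * (v : ℂ) ^ 2 / (2 * u))‖ ≤ Real.exp (Real.pi * (v : ℝ) ^ 2 / (2 * u)) := by
  have hN' : (1 : ℝ) ≤ N := by exact_mod_cast hN
  have hu' : (0 : ℝ) < u := by exact_mod_cast hu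
  rw [Complex.norm_exp, Real.exp_le_exp]
  have h1 : (Real.pi * zz N β * (v : ℂ) ^ 2 / (2 * u) : ℂ) =
      ((Real.pi * (v : ℝ) ^ 2 / (2 * u) : ℝ) : ℂ) * zz N β := by
    push_cast
    ring
  rw [h1, Complex.re_ofReal_mul, re_zz]
  have h2 : 1 / (N : ℝ) ≤ 1 := by
    rw [div_le_one (by linarith)]
    exact hN'
  have h3 : 0 ≤ Real.pi * (v : ℝ) ^ 2 / (2 * u) := by positivity
  nlinarith

theorem norm_D {u : ℤ} (hu : 0 < u) {N q : ℕ} (β : ℝ) :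
    ‖1 / (2 * u * (q : ℂ) ^ 2 * zz N β) ^ (1 / 2 : ℂ)‖ =
      1 / Real.sqrt (2 * u * (q : ℝ) ^ 2 * ‖zz N β‖) := by
  have hu' : (0 : ℝ) < u := by exact_mod_cast hu
  have h1 : (1 / 2 : ℂ) = ((1 / 2 : ℝ) : ℂ) := by push_cast; ring
  rw [norm_div, norm_one, h1, Complex.norm_cpow_real, Real.sqrt_eq_rpow]
  congr 2
  rw [norm_mul, norm_mul, norm_mul, norm_pow, Complex.norm_natCast]
  have h2 : ‖(u : ℂ)‖ = (u : ℝ) := by
    have : (u : ℂ) = ((u : ℝ) : ℂ) := by push_cast; ring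
    rw [this, Complex.norm_real, Real.norm_of_nonneg hu'.le]
  rw [h2]
  norm_num

theorem norm_G {u : ℤ} (hu : 0 < u) (v a h : ℤ) {q : ℕ} (hq : 0 < q) (hc : IsCoprime a (q : ℤ)) :
    ‖G u v a h q‖ ≤ Real.sqrt (2 * u * q) :=
  Real.le_sqrt_of_sq_le (gauss_bound hu v a h hq hc)

theorem ratio {u : ℤ} (hu : 0 < u) {q : ℕ} (hq : 0 < q) {x : ℝ} (hx : 0 < x) :
    1 / Real.sqrt (2 * u * (q : ℝ) ^ 2 * x) * Real.sqrt (2 * u * q) = 1 / (Real.sqrt q * Real.sqrt x) := by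
  have hq' : (0 : ℝ) < q := by exact_mod_cast hq
  have hu' : (0 : ℝ) < u := by exact_mod_cast hu
  have h1 : (2 * u * (q : ℝ) ^ 2 * x) = (2 * u * q) * (q * x) := by ring
  rw [h1, Real.sqrt_mul (by positivity), Real.sqrt_mul hq'.le]
  have h2 : Real.sqrt (2 * u * q) ≠ 0 := (Real.sqrt_pos.2 (by positivity)).ne'
  have h3 : Real.sqrt (q : ℝ) ≠ 0 := (Real.sqrt_pos.2 hq').ne'
  have h4 : Real.sqrt x ≠ 0 := (Real.sqrt_pos.2 hx).ne'
  field_simp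

theorem sumZ : Summable fun h : ℤ => 1 / (h : ℝ) ^ 2 :=
  Real.summable_one_div_int_pow.2 (by norm_num)

end TheBAux

open TheBAux in
theorem theta_main {u : ℤ} (hu : 0 < u) (v : ℤ) : ∃ C : ℝ, 0 < C ∧ ∀ (N : ℕ) (a : ℤ) (q : ℕ) (β : ℝ),
    1 ≤ N → 0 < q → IsCoprime a (q : ℤ) →
    ‖th u v N ((a : ℝ) / q + β) - Complex.exp (Real.pi * zz N β * (v : ℂ) ^ 2 / (2 * u)) *
        (1 / (2 * u * (q : ℂ) ^ 2 * zz N β) ^ (1 / 2 : ℂ)) * G u v a 0 q‖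
      ≤ C * kq N q β / (Real.sqrt q * Real.sqrt ‖zz N β‖) := by
  classical
  have hu' : (0 : ℝ) < u := by exact_mod_cast hu
  set Z : ℝ := ∑' h : ℤ, 1 / (h : ℝ) ^ 2 with hZ
  have hZ0 : 0 ≤ Z := tsum_nonneg fun h => by positivity
  set E0 : ℝ := Real.exp (Real.pi * (v : ℝ) ^ 2 / (2 * u)) with hE0
  have hE0p : 0 < E0 := Real.exp_pos _
  refine ⟨E0 * (2 * u / Real.pi) * (Z + 1), by positivity, fun N a q β hN hq hc => ?_⟩
  have hq' : (0 : ℝ) < q := by exact_mod_cast hq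
  have hz := zz_pos hN β
  have hk := kq_pos hN hq β
  set t : ℤ → ℂ := fun h => Complex.exp (-(Real.pi : ℂ) * (h : ℂ) ^ 2 / (2 * u * (q : ℂ) ^ 2 * zz N β)) *
    (e ((h : ℝ) * v / (2 * u * q)) * G u v a h q) with ht
  set K : ℝ := 2 * u * kq N q β / Real.pi * Real.sqrt (2 * u * q) with hK
  have hK0 : 0 ≤ K := by positivity
  have tb : ∀ h : ℤ, ‖t h - (if h = 0 then G u v a 0 q else 0)‖ ≤ K * (1 / (h : ℝ) ^ 2) := by
    intro h
    by_cases h0 : h = 0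
    · subst h0
      rw [if_pos rfl, ht]
      simp [e_zero]
    · rw [if_neg h0, sub_zero, ht]
      simp only
      rw [norm_mul, norm_mul, norm_e, one_mul, norm_dual hu hN hq]
      have hh : (0 : ℝ) < (h : ℝ) ^ 2 := by
        have : (h : ℝ) ≠ 0 := by exact_mod_cast h0
        positivity
      have hy : 0 < Real.pi * (h : ℝ) ^ 2 / (2 * u * kq N q β) := by positivity
      calc Real.exp (-(Real.pi * (h : ℝ) ^ 2 / (2 * u * kq N q β))) * ‖G u v a h q‖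
          ≤ (1 / (Real.pi * (h : ℝ) ^ 2 / (2 * u * kq N q β))) * Real.sqrt (2 * u * q) :=
            mul_le_mul (exp_neg_le hy) (norm_G hu v a h hq hc) (norm_nonneg _) (by positivity)
        _ = K * (1 / (h : ℝ) ^ 2) := by
            rw [hK]
            field_simp
  have sK : Summable fun h : ℤ => K * (1 / (h : ℝ) ^ 2) := sumZ.mul_left K
  have s1 : Summable fun h : ℤ => t h - (if h = 0 then G u v a 0 q else 0) :=
    Summable.of_norm_bounded sK tb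
  have s2 : HasSum (fun h : ℤ => if h = 0 then G u v a 0 q else 0) (G u v a 0 q) := by
    have := hasSum_ite_eq (0 : ℤ) (G u v a 0 q)
    simpa using this
  have s3 : Summable t := by
    have := s1.add s2.summable
    simpa using this
  have h1 : ∑' h, t h - G u v a 0 q = ∑' h : ℤ, (t h - (if h = 0 then G u v a 0 q else 0)) := by
    rw [s3.tsum_sub s2.summable, s2.tsum_eq]
  have h2 : ‖∑' h, t h - G u v a 0 q‖ ≤ K * Z := by
    rw [h1, hZ, ← tsum_mul_left]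
    exact tsum_of_norm_bounded sK.hasSum tb
  have h3 : th u v N ((a : ℝ) / q + β) - Complex.exp (Real.pi * zz N β * (v : ℂ) ^ 2 / (2 * u)) *
        (1 / (2 * u * (q : ℂ) ^ 2 * zz N β) ^ (1 / 2 : ℂ)) * G u v a 0 q =
      Complex.exp (Real.pi * zz N β * (v : ℂ) ^ 2 / (2 * u)) *
        (1 / (2 * u * (q : ℂ) ^ 2 * zz N β) ^ (1 / 2 : ℂ)) * (∑' h, t h - G u v a 0 q) := by
    rw [theta_formula hu v a hN hq β]
    ring
  rw [h3, norm_mul, norm_mul, norm_D hu]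
  calc ‖Complex.exp (Real.pi * zz N β * (v : ℂ) ^ 2 / (2 * u))‖ *
        (1 / Real.sqrt (2 * u * (q : ℝ) ^ 2 * ‖zz N β‖)) * ‖∑' h, t h - G u v a 0 q‖
      ≤ E0 * (1 / Real.sqrt (2 * u * (q : ℝ) ^ 2 * ‖zz N β‖)) * (K * Z) := by
        gcongr
        exact norm_E hu v hN β
    _ = E0 * (2 * u / Real.pi) * Z * kq N q β *
          (1 / Real.sqrt (2 * u * (q : ℝ) ^ 2 * ‖zz N β‖) * Real.sqrt (2 * u * q)) := by
        rw [hK]
        ring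
    _ = E0 * (2 * u / Real.pi) * Z * kq N q β * (1 / (Real.sqrt q * Real.sqrt ‖zz N β‖)) := by
        rw [ratio hu hq hz]
    _ ≤ E0 * (2 * u / Real.pi) * (Z + 1) * kq N q β * (1 / (Real.sqrt q * Real.sqrt ‖zz N β‖)) := by
        gcongr
        linarith
    _ = E0 * (2 * u / Real.pi) * (Z + 1) * kq N q β / (Real.sqrt q * Real.sqrt ‖zz N β‖) := by
        ring

open TheBAux in
/-- The size of the main term. -/
theorem main_bound {u : ℤ} (hu : 0 < u) (v : ℤ) : ∃ C : ℝ, 0 < C ∧ ∀ (N : ℕ) (a : ℤ) (q : ℕ) (β : ℝ),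
    1 ≤ N → 0 < q → IsCoprime a (q : ℤ) →
    ‖Complex.exp (Real.pi * zz N β * (v : ℂ) ^ 2 / (2 * u)) *
        (1 / (2 * u * (q : ℂ) ^ 2 * zz N β) ^ (1 / 2 : ℂ)) * G u v a 0 q‖
      ≤ C / (Real.sqrt q * Real.sqrt ‖zz N β‖) := by
  have hu' : (0 : ℝ) < u := by exact_mod_cast hu
  refine ⟨Real.exp (Real.pi * (v : ℝ) ^ 2 / (2 * u)), Real.exp_pos _, fun N a q β hN hq hc => ?_⟩
  have hq' : (0 : ℝ) < q := by exact_mod_cast hq
  have hz := zz_pos hN β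
  rw [norm_mul, norm_mul, norm_D hu]
  calc ‖Complex.exp (Real.pi * zz N β * (v : ℂ) ^ 2 / (2 * u))‖ *
        (1 / Real.sqrt (2 * u * (q : ℝ) ^ 2 * ‖zz N β‖)) * ‖G u v a 0 q‖
      ≤ Real.exp (Real.pi * (v : ℝ) ^ 2 / (2 * u)) *
        (1 / Real.sqrt (2 * u * (q : ℝ) ^ 2 * ‖zz N β‖)) * Real.sqrt (2 * u * q) := by
        gcongr
        · exact norm_E hu v hN β
        · exact norm_G hu v a 0 hq hc
    _ = Real.exp (Real.pi * (v : ℝ) ^ 2 / (2 * u)) *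
        (1 / Real.sqrt (2 * u * (q : ℝ) ^ 2 * ‖zz N β‖) * Real.sqrt (2 * u * q)) := by ring
    _ = Real.exp (Real.pi * (v : ℝ) ^ 2 / (2 * u)) / (Real.sqrt q * Real.sqrt ‖zz N β‖) := by
        rw [ratio hu hq hz]
        ring

end Pool.Agent.Lib.TSP
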